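import Pool.Agent.H933R2.HopfN.St

set_option autoImplicit false
set_option linter.all false

namespace Pool.Agent.H933R2.HopfN

open Finset

section

variable {ι : Type} [Fintype ι]

lemma alg_swap (G : ι → ι → ι → ι → ℝ) :
    ∑ a, ∑ b, ∑ c, ∑ d, G a b c d = ∑ a, ∑ b, ∑ c, ∑ d, G c d a b := by
  calc ∑ a, ∑ b, ∑ c, ∑ d, G a b c d
      = ∑ p : ι × ι, ∑ q : ι × ι, G p.1 p.2 q.1 q.2 := by
        rw [Fintype.sum_prod_type]
        refine sum_congr rfl fun a _ => sum_congr rfl fun b _ => ?_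
        rw [Fintype.sum_prod_type]
    _ = ∑ q : ι × ι, ∑ p : ι × ι, G p.1 p.2 q.1 q.2 := sum_comm
    _ = _ := by
        rw [Fintype.sum_prod_type]
        refine sum_congr rfl fun a _ => sum_congr rfl fun b _ => ?_
        rw [Fintype.sum_prod_type]

/-- the key inequality for 4-tensors -/
lemma alg_key4 (w : ι → ℝ) (θ : ℝ) (hθ : 0 < θ) (hw : ∀ a, θ ≤ w a) (W : T4 ι) (hW : IsCurv W) :
    Q4 w W - θ ^ 4 * hs4 W ≤ 4 * (Q4 w W - θ * s4 w W) := by
  -- the four slot sums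
  set X : ι → ι → ι → ι → ℝ := fun a b c d => W a b c d ^ 2 with hX
  have x1 : ∀ a b c d, X b a c d = X a b c d := by
    intro a b c d; simp only [hX]; rw [hW.a1]; ring
  have x2 : ∀ a b c d, X a b d c = X a b c d := by
    intro a b c d; simp only [hX]; rw [hW.a2]; ring
  have x3 : ∀ a b c d, X c d a b = X a b c d := by
    intro a b c d; simp only [hX]; rw [hW.ps]
  have sa : s4 w W = ∑ a, ∑ b, ∑ c, ∑ d, w b * w c * w d * X a b c d := rfl
  have sb : s4 w W = ∑ a, ∑ b, ∑ c, ∑ d, w a * w c * w d * X a b c d := by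
    rw [sa, sum_comm]
    refine sum_congr rfl fun a _ => sum_congr rfl fun b _ => sum_congr rfl fun c _ =>
      sum_congr rfl fun d _ => ?_
    rw [x1 a b c d]
  have sc : s4 w W = ∑ a, ∑ b, ∑ c, ∑ d, w a * w b * w d * X a b c d := by
    rw [sa, alg_swap]
    refine sum_congr rfl fun a _ => sum_congr rfl fun b _ => sum_congr rfl fun c _ =>
      sum_congr rfl fun d _ => ?_
    rw [x3 a b c d]; ring
  have sd : s4 w W = ∑ a, ∑ b, ∑ c, ∑ d, w a * w b * w c * X a b c d := by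
    rw [sb, alg_swap]
    refine sum_congr rfl fun a _ => sum_congr rfl fun b _ => sum_congr rfl fun c _ =>
      sum_congr rfl fun d _ => ?_
    rw [x3 a b c d]; ring
  have hq : Q4 w W = ∑ a, ∑ b, ∑ c, ∑ d, w a * w b * w c * w d * X a b c d := by
    unfold Q4 ip4
    refine sum_congr rfl fun a _ => sum_congr rfl fun b _ => sum_congr rfl fun c _ =>
      sum_congr rfl fun d _ => ?_
    simp only [hX]; ring
  have hh : hs4 W = ∑ a, ∑ b, ∑ c, ∑ d, X a b c d := rfl
  have key : Q4 w W - θ ^ 4 * hs4 W ≤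
      (Q4 w W - θ * s4 w W) + (Q4 w W - θ * s4 w W) + (Q4 w W - θ * s4 w W) +
        (Q4 w W - θ * s4 w W) := by
    conv_rhs =>
      lhs; lhs; lhs
      rw [sa]
    conv_rhs =>
      lhs; lhs; rhs
      rw [sb]
    conv_rhs =>
      lhs; rhs
      rw [sc]
    conv_rhs =>
      rhs
      rw [sd]
    rw [hq, hh]
    simp only [mul_sum, ← sum_sub_distrib, ← sum_add_distrib]
    refine sum_le_sum fun a _ => sum_le_sum fun b _ => sum_le_sum fun c _ =>
      sum_le_sum fun d _ => ?_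
    have hXn : 0 ≤ X a b c d := sq_nonneg _
    have ha := hw a
    have hb := hw b
    have hc := hw c
    have hd := hw d
    have ha0 : 0 < w a := by linarith
    have hb0 : 0 < w b := by linarith
    have hc0 : 0 < w c := by linarith
    have hd0 : 0 < w d := by linarith
    have e1 : θ * (w b - θ) * w c * w d ≤ w a * (w b - θ) * w c * w d := by
      have : 0 ≤ (w a - θ) * (w b - θ) * w c * w d := by
        have h1 : 0 ≤ w a - θ := by linarith
        have h2 : 0 ≤ w b - θ := by linarith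
        positivity
      nlinarith
    have e2 : θ ^ 2 * (w c - θ) * w d ≤ w a * w b * (w c - θ) * w d := by
      have h3 : θ ^ 2 ≤ w a * w b := by nlinarith
      have : 0 ≤ (w a * w b - θ ^ 2) * (w c - θ) * w d := by
        have h1 : 0 ≤ w a * w b - θ ^ 2 := by linarith
        have h2 : 0 ≤ w c - θ := by linarith
        positivity
      nlinarith
    have e3 : θ ^ 3 * (w d - θ) ≤ w a * w b * w c * (w d - θ) := by
      have h3 : θ ^ 2 ≤ w a * w b := by nlinarith
      have h4 : θ ^ 3 ≤ w a * w b * w c := by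
        calc θ ^ 3 = θ ^ 2 * θ := by ring
          _ ≤ w a * w b * w c := by gcongr
      have : 0 ≤ (w a * w b * w c - θ ^ 3) * (w d - θ) := by
        have h1 : 0 ≤ w a * w b * w c - θ ^ 3 := by linarith
        have h2 : 0 ≤ w d - θ := by linarith
        positivity
      nlinarith
    have e : w a * w b * w c * w d - θ ^ 4 ≤
        (w a - θ) * w b * w c * w d + w a * (w b - θ) * w c * w d +
        w a * w b * (w c - θ) * w d + w a * w b * w c * (w d - θ) := by
      have e0 : w a * w b * w c * w d - θ ^ 4 =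
        (w a - θ) * w b * w c * w d + θ * (w b - θ) * w c * w d +
        θ ^ 2 * (w c - θ) * w d + θ ^ 3 * (w d - θ) := by ring
      rw [e0]
      linarith
    have := mul_le_mul_of_nonneg_right e hXn
    linarith
  linarith

lemma alg_low4 (w : ι → ℝ) (θ : ℝ) (hθ : 0 < θ) (hw : ∀ a, θ ≤ w a) (W : T4 ι) :
    θ * s4 w W ≤ Q4 w W := by
  have hq : Q4 w W = ∑ a, ∑ b, ∑ c, ∑ d, w a * w b * w c * w d * W a b c d ^ 2 := by
    unfold Q4 ip4
    refine sum_congr rfl fun a _ => sum_congr rfl fun b _ => sum_congr rfl fun c _ =>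
      sum_congr rfl fun d _ => ?_
    ring
  rw [hq]
  unfold s4
  simp only [mul_sum]
  refine sum_le_sum fun a _ => sum_le_sum fun b _ => sum_le_sum fun c _ =>
    sum_le_sum fun d _ => ?_
  have ha := hw a
  have hb := hw b
  have hc := hw c
  have hd := hw d
  have hb0 : 0 < w b := by linarith
  have hc0 : 0 < w c := by linarith
  have hd0 : 0 < w d := by linarith
  have : 0 ≤ (w a - θ) * (w b * w c * w d * W a b c d ^ 2) := by
    have h1 : 0 ≤ w a - θ := by linarith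
    positivity
  nlinarith

lemma alg_s4_nonneg (w : ι → ℝ) (hw : ∀ a, 0 ≤ w a) (W : T4 ι) : 0 ≤ s4 w W := by
  unfold s4
  refine sum_nonneg fun a _ => sum_nonneg fun b _ => sum_nonneg fun c _ => sum_nonneg fun d _ => ?_
  have := hw b
  have := hw c
  have := hw d
  positivity

lemma alg_s2_nonneg (w : ι → ℝ) (hw : ∀ a, 0 ≤ w a) (A : T2 ι) : 0 ≤ s2 w A := by
  unfold s2
  refine sum_nonneg fun a _ => sum_nonneg fun b _ => ?_
  have := hw b
  positivity

/-- the key inequality for 2-tensors -/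
lemma alg_key2 (w : ι → ℝ) (θ : ℝ) (hθ : 0 < θ) (hw : ∀ a, θ ≤ w a) (A : T2 ι) (hA : IsSym A) :
    Q2 w A - θ ^ 2 * hs2 A ≤ 2 * (Q2 w A - θ * s2 w A) := by
  have sa : s2 w A = ∑ a, ∑ b, w b * A a b ^ 2 := rfl
  have sb : s2 w A = ∑ a, ∑ b, w a * A a b ^ 2 := by
    rw [sa, sum_comm]
    refine sum_congr rfl fun a _ => sum_congr rfl fun b _ => ?_
    rw [hA a b]
  have hq : Q2 w A = ∑ a, ∑ b, w a * w b * A a b ^ 2 := by
    unfold Q2 ip2
    refine sum_congr rfl fun a _ => sum_congr rfl fun b _ => ?_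
    ring
  have hh : hs2 A = ∑ a, ∑ b, A a b ^ 2 := rfl
  have key : Q2 w A - θ ^ 2 * hs2 A ≤ (Q2 w A - θ * s2 w A) + (Q2 w A - θ * s2 w A) := by
    conv_rhs =>
      lhs
      rw [sa]
    conv_rhs =>
      rhs
      rw [sb]
    rw [hq, hh]
    simp only [mul_sum, ← sum_sub_distrib, ← sum_add_distrib]
    refine sum_le_sum fun a _ => sum_le_sum fun b _ => ?_
    have hXn : 0 ≤ A a b ^ 2 := sq_nonneg _
    have ha := hw a
    have hb := hw b
    have e : w a * w b - θ ^ 2 ≤ (w a - θ) * w b + w a * (w b - θ) := by nlinarith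
    have := mul_le_mul_of_nonneg_right e hXn
    linarith
  linarith

lemma alg_low2 (w : ι → ℝ) (θ : ℝ) (hθ : 0 < θ) (hw : ∀ a, θ ≤ w a) (A : T2 ι) :
    θ * s2 w A ≤ Q2 w A := by
  have hq : Q2 w A = ∑ a, ∑ b, w a * w b * A a b ^ 2 := by
    unfold Q2 ip2
    refine sum_congr rfl fun a _ => sum_congr rfl fun b _ => ?_
    ring
  rw [hq]
  unfold s2
  simp only [mul_sum]
  refine sum_le_sum fun a _ => sum_le_sum fun b _ => ?_
  have ha := hw a
  have hb := hw b
  have hb0 : 0 < w b := by linarith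
  have : 0 ≤ (w a - θ) * (w b * A a b ^ 2) := by
    have h1 : 0 ≤ w a - θ := by linarith
    positivity
  nlinarith

end

theorem alg_main (h4 : St_lap4) (h2 : St_lap2) : St_alg := by
  intro ι _ _ j hj hcard S hS W A hW hRic hA htr n θ κ hn hθ hκ
  have hjr : (1 : ℝ) ≤ j := by exact_mod_cast hj
  have hnr : 32 * (j : ℝ) ≤ n := by rw [hn]; exact_mod_cast hcard
  have hn0 : 0 < n := by linarith
  have hθ0 : 0 < θ := by rw [hθ]; positivity
  have hθ1 : θ ≤ 1 := by rw [hθ, div_le_one hn0]; exact hnr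
  have hnθ : n * θ = 32 * j := by rw [hθ]; field_simp
  have hwθ : ∀ a, θ ≤ wt θ S a := by
    intro a; unfold wt; split_ifs
    · exact hθ1
    · exact le_rfl
  have hw0 : ∀ a, 0 ≤ wt θ S a := fun a => le_trans hθ0.le (hwθ a)
  have hw1 : ∀ a, wt θ S a ≤ 1 := by
    intro a; unfold wt; split_ifs
    · exact le_rfl
    · exact hθ1
  have hsum : ∑ a, wt θ S a ≤ 2 * j + n * θ := by
    have h5 : ∀ a, wt θ S a ≤ (if a ∈ S then 1 else 0) + θ := by
      intro a; unfold wt; split_ifs <;> linarith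
    calc ∑ a, wt θ S a ≤ ∑ a, ((if a ∈ S then (1 : ℝ) else 0) + θ) := sum_le_sum fun a _ => h5 a
      _ = 2 * j + n * θ := by
        rw [sum_add_distrib, sum_ite_mem, univ_inter, sum_const, sum_const, card_univ, hS, hn]
        simp
  have l4 := h4 ι (wt θ S) hw0 hw1 W hW hRic
  have l2 := h2 ι (wt θ S) hw0 hw1 A hA htr
  rw [← hn] at l4 l2
  have k4 := alg_key4 (wt θ S) θ hθ0 hwθ W hW
  have k2 := alg_key2 (wt θ S) θ hθ0 hwθ A hA
  have m4 := alg_low4 (wt θ S) θ hθ0 hwθ W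
  have m2 := alg_low2 (wt θ S) θ hθ0 hwθ A
  have p4 := alg_s4_nonneg (wt θ S) hw0 W
  have p2 := alg_s2_nonneg (wt θ S) hw0 A
  set q4 := Q4 (wt θ S) W with hq4
  set q2 := Q2 (wt θ S) A with hq2
  set t4 := s4 (wt θ S) W with ht4
  set t2 := s2 (wt θ S) A with ht2
  set σ := ∑ a, wt θ S a with hσ
  have b4 : -(8 * n) * q4 + (8 * σ + 16) * t4 ≤ -n * q4 + 2 * n * θ ^ 4 * hs4 W := by
    have e1 : (8 * σ + 16) * t4 ≤ (8 * (2 * j + n * θ) + 16 * j) * t4 := by
      apply mul_le_mul_of_nonneg_right _ p4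
      linarith
    have e2 : 32 * j * t4 ≤ n * q4 := by
      calc 32 * j * t4 = n * (θ * t4) := by rw [← hnθ]; ring
        _ ≤ n * q4 := by gcongr
    have e3 : 2 * n * (q4 - θ ^ 4 * hs4 W) ≤ 2 * n * (4 * (q4 - θ * t4)) := by gcongr
    nlinarith
  have b2 : -(4 * n) * q2 + (4 * σ + 4) * t2 ≤ -n * q2 + 2 * n * θ ^ 2 * hs2 A := by
    have e1 : (4 * σ + 4) * t2 ≤ (4 * (2 * j + n * θ) + 4 * j) * t2 := by
      apply mul_le_mul_of_nonneg_right _ p2
      linarith
    have e2 : 32 * j * t2 ≤ n * q2 := by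
      calc 32 * j * t2 = n * (θ * t2) := by rw [← hnθ]; ring
        _ ≤ n * q2 := by gcongr
    have e3 : 2 * n * (q2 - θ ^ 2 * hs2 A) ≤ 2 * n * (2 * (q2 - θ * t2)) := by gcongr
    have e4 : 0 ≤ (j : ℝ) * t2 := by positivity
    nlinarith
  have hh2 : 0 ≤ hs2 A := by
    unfold hs2
    exact sum_nonneg fun a _ => sum_nonneg fun b _ => sq_nonneg _
  have hκ0 : 0 ≤ κ := by rw [hκ]; positivity
  have c2 : κ * (2 * n * θ ^ 2 * hs2 A) ≤ 2 * n * θ ^ 4 * (n ^ 2 * hs2 A) := by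
    have e1 : κ ≤ θ ^ 2 * n ^ 2 := by
      have : θ ^ 2 * n ^ 2 = (32 * j) ^ 2 := by rw [← hnθ]; ring
      rw [this, hκ]; nlinarith
    have e2 : 0 ≤ 2 * n * θ ^ 2 * hs2 A := by positivity
    calc κ * (2 * n * θ ^ 2 * hs2 A) ≤ (θ ^ 2 * n ^ 2) * (2 * n * θ ^ 2 * hs2 A) := by gcongr
      _ = _ := by ring
  have hsplit : (1 / 2) * ∑ i, ∑ l, QQ2 (wt θ S) κ W A i l =
      ∑ i, ∑ l, (ip4 (wt θ S) W (D4 i l (D4 i l W)) + Q4 (wt θ S) (D4 i l W)) +
      κ * ∑ i, ∑ l, (ip2 (wt θ S) A (D2 i l (D2 i l A)) + Q2 (wt θ S) (D2 i l A)) := by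
    unfold QQ2
    rw [mul_sum, mul_sum, ← sum_add_distrib]
    refine sum_congr rfl fun i _ => ?_
    rw [mul_sum, mul_sum, ← sum_add_distrib]
    refine sum_congr rfl fun l _ => ?_
    ring
  rw [hsplit]
  have f4 := le_trans l4 b4
  have f2 := mul_le_mul_of_nonneg_left (le_trans l2 b2) hκ0
  have hQQ : QQ (wt θ S) κ W A = q4 + κ * q2 := rfl
  rw [hQQ]
  nlinarith

end Pool.Agent.H933R2.HopfN
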