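import Pool.Agent.H933R2.HopfN.St

set_option autoImplicit false
set_option linter.all false

namespace Pool.Agent.H933R2.HopfN

section
variable {ι : Type} [Fintype ι] [DecidableEq ι]

lemma lap2_k1 (a : ι) (f : ι → ℝ) : ∑ i, kd a i * f i = f a := by simp [kd]

lemma lap2_k2 (a : ι) (f : ι → ℝ) : ∑ i, kd i a * f i = f a := by simp [kd]

lemma lap2_S1 (a : ι) (F : ι → ι → ℝ) : ∑ i, ∑ l, kd a i * F i l = ∑ l, F a l := by
  simp_rw [← Finset.mul_sum]
  exact lap2_k1 a (fun i => ∑ l, F i l)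

lemma lap2_S2 (a : ι) (F : ι → ι → ℝ) : ∑ i, ∑ l, kd a l * F i l = ∑ i, F i a := by
  refine Finset.sum_congr rfl fun i _ => ?_
  exact lap2_k1 a (fun l => F i l)

lemma lap2_I (A : T2 ι) (hs : IsSym A) (ht : tr2 A = 0) (a b : ι) :
    ∑ i, ∑ l, D2 i l (D2 i l A) a b = -(4 * (Fintype.card ι : ℝ)) * A a b := by
  have ht' : ∑ l, A l l = 0 := ht
  have e0 : ∑ i, ∑ l, D2 i l (D2 i l A) a b =
      ∑ i, ∑ l, ((kd a i * (D2 i l A) l b - kd a l * (D2 i l A) i b) +
        (kd b i * (D2 i l A) a l - kd b l * (D2 i l A) a i)) := rfl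
  have e1 : ∑ l, (D2 a l A) l b = -(Fintype.card ι : ℝ) * A a b := by
    have : ∀ l, (D2 a l A) l b = kd l a * A l b - A a b + kd b a * A l l - kd b l * A l a := by
      intro l
      simp only [D2, kd]
      simp
      ring
    simp_rw [this]
    rw [Finset.sum_sub_distrib, Finset.sum_add_distrib, Finset.sum_sub_distrib,
      ← Finset.mul_sum, ht', lap2_k2 a (fun l => A l b), lap2_k1 b (fun l => A l a)]
    simp
    rw [hs a b]
    ring
  have e2 : ∑ i, (D2 i a A) i b = (Fintype.card ι : ℝ) * A a b := by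
    have : ∀ i, (D2 i a A) i b = - (D2 a i A) i b := by
      intro i
      simp only [D2]
      ring
    simp_rw [this]
    rw [Finset.sum_neg_distrib, e1]
    ring
  have e3 : ∑ l, (D2 b l A) a l = -(Fintype.card ι : ℝ) * A a b := by
    have : ∀ l, (D2 b l A) a l = kd a b * A l l - kd a l * A b l + kd l b * A a l - A a b := by
      intro l
      simp only [D2, kd]
      simp
      ring
    simp_rw [this]
    rw [Finset.sum_sub_distrib, Finset.sum_add_distrib, Finset.sum_sub_distrib,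
      ← Finset.mul_sum, ht', lap2_k1 a (fun l => A b l), lap2_k2 b (fun l => A a l)]
    simp
    rw [hs a b]
    ring
  have e4 : ∑ i, (D2 i b A) a i = (Fintype.card ι : ℝ) * A a b := by
    have : ∀ i, (D2 i b A) a i = - (D2 b i A) a i := by
      intro i
      simp only [D2]
      ring
    simp_rw [this]
    rw [Finset.sum_neg_distrib, e3]
    ring
  rw [e0]
  simp only [Finset.sum_add_distrib, Finset.sum_sub_distrib]
  rw [lap2_S1 a (fun i l => (D2 i l A) l b), lap2_S2 a (fun i l => (D2 i l A) i b),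
    lap2_S1 b (fun i l => (D2 i l A) a l), lap2_S2 b (fun i l => (D2 i l A) a i), e1, e2, e3, e4]
  ring

lemma lap2_prod (a b : ι) (X Y : ι → ℝ) :
    ∑ i, ∑ l, (kd a i * X l - kd a l * X i) * (kd b i * Y l - kd b l * Y i) =
      2 * (kd a b * ∑ l, X l * Y l - X b * Y a) := by
  have h : ∀ i l, (kd a i * X l - kd a l * X i) * (kd b i * Y l - kd b l * Y i) =
      kd a i * (kd b i * (X l * Y l)) - kd a i * (kd b l * (X l * Y i))
        - kd a l * (kd b i * (X i * Y l)) + kd a l * (kd b l * (X i * Y i)) := by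
    intro i l
    ring
  simp_rw [h]
  simp only [Finset.sum_add_distrib, Finset.sum_sub_distrib]
  rw [lap2_S1 a (fun i l => kd b i * (X l * Y l)), lap2_S1 a (fun i l => kd b l * (X l * Y i)),
    lap2_S2 a (fun i l => kd b i * (X i * Y l)), lap2_S2 a (fun i l => kd b l * (X i * Y i))]
  rw [lap2_k1 b (fun l => X l * Y a), ← Finset.mul_sum]
  have hba : kd b a = kd a b := by simp [kd, eq_comm]
  rw [hba]
  ring

lemma lap2_d1 (w G : ι → ℝ) : ∑ a, ∑ b, w a * w b * (2 * G b) =
    2 * (∑ a, w a) * ∑ b, w b * G b := by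
  rw [mul_assoc, Finset.sum_mul_sum, Finset.mul_sum]
  refine Finset.sum_congr rfl fun a _ => ?_
  rw [Finset.mul_sum]
  refine Finset.sum_congr rfl fun b _ => ?_
  ring

lemma lap2_sq (A : T2 ι) (a b : ι) :
    ∑ i, ∑ l, (D2 i l A a b) ^ 2 =
      2 * (∑ l, A l b ^ 2) + 2 * (∑ l, A a l ^ 2) - 4 * A a b ^ 2
        + 4 * (kd a b * ∑ l, A l b * A a l) - 4 * (A a a * A b b) := by
  have h : ∀ i l, (D2 i l A a b) ^ 2 =
      (kd a i * A l b - kd a l * A i b) * (kd a i * A l b - kd a l * A i b) +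
      (kd b i * A a l - kd b l * A a i) * (kd b i * A a l - kd b l * A a i) +
      2 * ((kd a i * A l b - kd a l * A i b) * (kd b i * A a l - kd b l * A a i)) := by
    intro i l
    simp only [D2]
    ring
  simp_rw [h]
  simp only [Finset.sum_add_distrib, ← Finset.mul_sum]
  rw [lap2_prod a a (fun l => A l b) (fun l => A l b),
    lap2_prod b b (fun l => A a l) (fun l => A a l),
    lap2_prod a b (fun l => A l b) (fun l => A a l)]
  have haa : kd a a = 1 := by simp [kd]
  have hbb : kd b b = 1 := by simp [kd]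
  rw [haa, hbb]
  simp only [← pow_two]
  ring

end

theorem lap2_main : St_lap2 := by
  intro ι _ _ w hw0 hw1 A hs ht
  have hpart1 : ∑ i, ∑ l, ip2 w A (D2 i l (D2 i l A)) =
      -(4 * (Fintype.card ι : ℝ)) * Q2 w A := by
    have h1 : ∑ i, ∑ l, ip2 w A (D2 i l (D2 i l A)) =
        ∑ a, ∑ b, w a * w b * (A a b * ∑ i, ∑ l, D2 i l (D2 i l A) a b) := by
      simp only [ip2, Finset.mul_sum]
      calc ∑ i, ∑ l, ∑ a, ∑ b, w a * w b * (A a b * D2 i l (D2 i l A) a b)
          = ∑ i, ∑ a, ∑ l, ∑ b, w a * w b * (A a b * D2 i l (D2 i l A) a b) :=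
            Finset.sum_congr rfl fun i _ => Finset.sum_comm
        _ = ∑ a, ∑ i, ∑ l, ∑ b, w a * w b * (A a b * D2 i l (D2 i l A) a b) := Finset.sum_comm
        _ = ∑ a, ∑ i, ∑ b, ∑ l, w a * w b * (A a b * D2 i l (D2 i l A) a b) :=
            Finset.sum_congr rfl fun a _ => Finset.sum_congr rfl fun i _ => Finset.sum_comm
        _ = ∑ a, ∑ b, ∑ i, ∑ l, w a * w b * (A a b * D2 i l (D2 i l A) a b) :=
            Finset.sum_congr rfl fun a _ => Finset.sum_comm
    rw [h1]
    simp_rw [lap2_I A hs ht]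
    simp only [Q2, ip2, Finset.mul_sum]
    refine Finset.sum_congr rfl fun a _ => Finset.sum_congr rfl fun b _ => ?_
    ring
  have hQ : ∑ i, ∑ l, Q2 w (D2 i l A) =
      ∑ a, ∑ b, w a * w b * ∑ i, ∑ l, (D2 i l A a b) ^ 2 := by
    simp only [Q2, ip2, Finset.mul_sum]
    calc ∑ i, ∑ l, ∑ a, ∑ b, w a * w b * (D2 i l A a b * D2 i l A a b)
        = ∑ i, ∑ a, ∑ l, ∑ b, w a * w b * (D2 i l A a b * D2 i l A a b) :=
          Finset.sum_congr rfl fun i _ => Finset.sum_comm
      _ = ∑ a, ∑ i, ∑ l, ∑ b, w a * w b * (D2 i l A a b * D2 i l A a b) := Finset.sum_comm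
      _ = ∑ a, ∑ i, ∑ b, ∑ l, w a * w b * (D2 i l A a b * D2 i l A a b) :=
          Finset.sum_congr rfl fun a _ => Finset.sum_congr rfl fun i _ => Finset.sum_comm
      _ = ∑ a, ∑ b, ∑ i, ∑ l, w a * w b * (D2 i l A a b * D2 i l A a b) :=
          Finset.sum_congr rfl fun a _ => Finset.sum_comm
      _ = _ := by
          refine Finset.sum_congr rfl fun a _ => Finset.sum_congr rfl fun b _ =>
            Finset.sum_congr rfl fun i _ => Finset.sum_congr rfl fun l _ => ?_
          rw [pow_two]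
  have hs2a : s2 w A = ∑ b, w b * ∑ l, A l b ^ 2 := by
    simp only [s2, Finset.mul_sum]
    exact Finset.sum_comm
  have hs2b : s2 w A = ∑ a, w a * ∑ l, A a l ^ 2 := by
    rw [hs2a]
    refine Finset.sum_congr rfl fun a _ => ?_
    congr 1
    refine Finset.sum_congr rfl fun l _ => ?_
    rw [hs a l]
  have hQ2 : ∑ i, ∑ l, Q2 w (D2 i l A) =
      4 * (∑ a, w a) * s2 w A - 4 * Q2 w A + 4 * (∑ a, w a ^ 2 * ∑ l, A a l ^ 2)
        - 4 * (∑ a, w a * A a a) ^ 2 := by
    rw [hQ]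
    simp_rw [lap2_sq A]
    have e1 : ∑ a, ∑ b, w a * w b * (2 * (∑ l, A l b ^ 2)) = 2 * (∑ a, w a) * s2 w A := by
      rw [hs2a]
      exact lap2_d1 w (fun b => ∑ l, A l b ^ 2)
    have e2 : ∑ a, ∑ b, w a * w b * (2 * (∑ l, A a l ^ 2)) = 2 * (∑ a, w a) * s2 w A := by
      rw [hs2b, ← lap2_d1 w (fun a => ∑ l, A a l ^ 2), Finset.sum_comm]
      refine Finset.sum_congr rfl fun a _ => Finset.sum_congr rfl fun b _ => ?_
      ring
    have e3 : ∑ a, ∑ b, w a * w b * (4 * A a b ^ 2) = 4 * Q2 w A := by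
      simp only [Q2, ip2, Finset.mul_sum]
      refine Finset.sum_congr rfl fun a _ => Finset.sum_congr rfl fun b _ => ?_
      ring
    have e4 : ∑ a, ∑ b, w a * w b * (4 * (kd a b * ∑ l, A l b * A a l)) =
        4 * (∑ a, w a ^ 2 * ∑ l, A a l ^ 2) := by
      rw [Finset.mul_sum]
      refine Finset.sum_congr rfl fun a _ => ?_
      have : ∀ b, w a * w b * (4 * (kd a b * ∑ l, A l b * A a l)) =
          kd a b * (w a * w b * (4 * ∑ l, A l b * A a l)) := by
        intro b
        ring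
      simp_rw [this]
      rw [lap2_k1 a (fun b => w a * w b * (4 * ∑ l, A l b * A a l))]
      have h2 : ∑ l, A l a * A a l = ∑ l, A a l ^ 2 :=
        Finset.sum_congr rfl fun l _ => by rw [hs a l]; ring
      rw [h2]
      ring
    have e5 : ∑ a, ∑ b, w a * w b * (4 * (A a a * A b b)) = 4 * (∑ a, w a * A a a) ^ 2 := by
      rw [pow_two, Finset.sum_mul_sum, Finset.mul_sum]
      refine Finset.sum_congr rfl fun a _ => ?_
      rw [Finset.mul_sum]
      refine Finset.sum_congr rfl fun b _ => ?_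
      ring
    have e6 : ∀ a b, w a * w b * (2 * (∑ l, A l b ^ 2) + 2 * (∑ l, A a l ^ 2) - 4 * A a b ^ 2
        + 4 * (kd a b * ∑ l, A l b * A a l) - 4 * (A a a * A b b)) =
        w a * w b * (2 * (∑ l, A l b ^ 2)) + w a * w b * (2 * (∑ l, A a l ^ 2)) -
        w a * w b * (4 * A a b ^ 2) + w a * w b * (4 * (kd a b * ∑ l, A l b * A a l)) -
        w a * w b * (4 * (A a a * A b b)) := by
      intro a b
      ring
    simp_rw [e6]
    simp only [Finset.sum_add_distrib, Finset.sum_sub_distrib]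
    rw [e1, e2, e3, e4, e5]
    ring
  have hle : ∑ a, w a ^ 2 * ∑ l, A a l ^ 2 ≤ s2 w A := by
    rw [hs2b]
    refine Finset.sum_le_sum fun a _ => ?_
    refine mul_le_mul_of_nonneg_right ?_ (Finset.sum_nonneg fun l _ => sq_nonneg _)
    nlinarith [hw0 a, hw1 a]
  have hQ0 : 0 ≤ Q2 w A := by
    simp only [Q2, ip2]
    refine Finset.sum_nonneg fun a _ => Finset.sum_nonneg fun b _ => ?_
    exact mul_nonneg (mul_nonneg (hw0 a) (hw0 b)) (mul_self_nonneg _)
  simp only [Finset.sum_add_distrib]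
  rw [hpart1, hQ2]
  nlinarith [sq_nonneg (∑ a, w a * A a a)]

end Pool.Agent.H933R2.HopfN
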