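import Pool.Agent.H933R2.HopfN.St

set_option autoImplicit false
set_option linter.all false

/-!
LAP4: the Laplacian of the weighted norm of a Weyl-type tensor.
-/

namespace Pool.Agent.H933R2.HopfN

open Finset

section lap4

variable {ι : Type} [Fintype ι] [DecidableEq ι]

theorem lap4_kd1 (a : ι) (f : ι → ℝ) : ∑ i, kd a i * f i = f a := by
  simp [kd]

theorem lap4_kd_symm (a b : ι) : kd a b = kd b a := by
  unfold kd
  by_cases h : a = b
  · rw [if_pos h, if_pos h.symm]
  · rw [if_neg h, if_neg (Ne.symm h)]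

/-- the double sum over the infinitesimal rotations -/
theorem lap4_dsum (a b : ι) (X Y : ι → ℝ) :
    ∑ i, ∑ l, (kd a i * X l - kd a l * X i) * (kd b i * Y l - kd b l * Y i) =
      2 * (kd a b * ∑ l, X l * Y l - X b * Y a) := by
  have h1 : ∑ i, ∑ l, (kd a i * X l) * (kd b i * Y l) = kd a b * ∑ l, X l * Y l := by
    have : ∀ i, ∑ l, (kd a i * X l) * (kd b i * Y l) = kd a i * (kd b i * ∑ l, X l * Y l) := by
      intro i
      rw [mul_sum, mul_sum]
      exact sum_congr rfl fun l _ => by ring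
    rw [sum_congr rfl fun i _ => this i, lap4_kd1, lap4_kd_symm b a]
  have h2 : ∑ i, ∑ l, (kd a i * X l) * (kd b l * Y i) = X b * Y a := by
    have : ∀ i, ∑ l, (kd a i * X l) * (kd b l * Y i) = kd a i * (X b * Y i) := by
      intro i
      have e : ∀ l, (kd a i * X l) * (kd b l * Y i) = kd b l * (kd a i * (X l * Y i)) := by
        intro l; ring
      rw [sum_congr rfl fun l _ => e l, lap4_kd1]
    rw [sum_congr rfl fun i _ => this i, lap4_kd1]
  have h3 : ∑ i, ∑ l, (kd a l * X i) * (kd b i * Y l) = X b * Y a := by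
    have : ∀ i, ∑ l, (kd a l * X i) * (kd b i * Y l) = kd b i * (X i * Y a) := by
      intro i
      have e : ∀ l, (kd a l * X i) * (kd b i * Y l) = kd a l * (kd b i * (X i * Y l)) := by
        intro l; ring
      rw [sum_congr rfl fun l _ => e l, lap4_kd1]
    rw [sum_congr rfl fun i _ => this i, lap4_kd1]
  have h4 : ∑ i, ∑ l, (kd a l * X i) * (kd b l * Y i) = kd a b * ∑ l, X l * Y l := by
    rw [sum_comm]
    exact h1
  have e : ∀ i l, (kd a i * X l - kd a l * X i) * (kd b i * Y l - kd b l * Y i) =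
      (kd a i * X l) * (kd b i * Y l) - (kd a i * X l) * (kd b l * Y i) -
      (kd a l * X i) * (kd b i * Y l) + (kd a l * X i) * (kd b l * Y i) := by
    intro i l; ring
  simp only [e, sum_add_distrib, sum_sub_distrib]
  rw [h1, h2, h3, h4]
  ring

/-- weighted sums -/
def lap4S (w : ι → ℝ) (F : T4 ι) : ℝ :=
  ∑ a, ∑ b, ∑ c, ∑ d, w a * w b * w c * w d * F a b c d

theorem lap4S_congr (w : ι → ℝ) {F G : T4 ι} (h : ∀ a b c d, F a b c d = G a b c d) :
    lap4S w F = lap4S w G := by
  unfold lap4S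
  exact sum_congr rfl fun a _ => sum_congr rfl fun b _ => sum_congr rfl fun c _ =>
    sum_congr rfl fun d _ => by rw [h]

theorem lap4S_mono (w : ι → ℝ) (hw : ∀ a, 0 ≤ w a) {F G : T4 ι}
    (h : ∀ a b c d, F a b c d ≤ G a b c d) : lap4S w F ≤ lap4S w G := by
  unfold lap4S
  refine sum_le_sum fun a _ => sum_le_sum fun b _ => sum_le_sum fun c _ =>
    sum_le_sum fun d _ => mul_le_mul_of_nonneg_left (h a b c d) ?_
  exact mul_nonneg (mul_nonneg (mul_nonneg (hw a) (hw b)) (hw c)) (hw d)

theorem lap4S_add (w : ι → ℝ) (F G : T4 ι) :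
    lap4S w (fun a b c d => F a b c d + G a b c d) = lap4S w F + lap4S w G := by
  simp only [lap4S, mul_add, sum_add_distrib]

theorem lap4S_smul (w : ι → ℝ) (r : ℝ) (F : T4 ι) :
    lap4S w (fun a b c d => r * F a b c d) = r * lap4S w F := by
  simp only [lap4S, mul_sum]
  exact sum_congr rfl fun a _ => sum_congr rfl fun b _ => sum_congr rfl fun c _ =>
    sum_congr rfl fun d _ => by ring

theorem lap4S_sum2 (w : ι → ℝ) (F : ι → ι → T4 ι) :
    ∑ i, ∑ l, lap4S w (F i l) = lap4S w (fun a b c d => ∑ i, ∑ l, F i l a b c d) := by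
  have h1 : ∀ (G : ι → T4 ι), ∑ i, lap4S w (G i) = lap4S w (fun a b c d => ∑ i, G i a b c d) := by
    intro G
    unfold lap4S
    rw [sum_comm]
    refine sum_congr rfl fun a _ => ?_
    rw [sum_comm]
    refine sum_congr rfl fun b _ => ?_
    rw [sum_comm]
    refine sum_congr rfl fun c _ => ?_
    rw [sum_comm]
    refine sum_congr rfl fun d _ => ?_
    rw [mul_sum]
  rw [sum_congr rfl fun i _ => h1 (F i), h1]

theorem lap4S_12 (w : ι → ℝ) (F : T4 ι) :
    lap4S w (fun a b c d => F b a c d) = lap4S w F := by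
  unfold lap4S
  rw [sum_comm]
  exact sum_congr rfl fun a _ => sum_congr rfl fun b _ => sum_congr rfl fun c _ =>
    sum_congr rfl fun d _ => by ring

theorem lap4S_34 (w : ι → ℝ) (F : T4 ι) :
    lap4S w (fun a b c d => F a b d c) = lap4S w F := by
  unfold lap4S
  refine sum_congr rfl fun a _ => sum_congr rfl fun b _ => ?_
  rw [sum_comm]
  exact sum_congr rfl fun c _ => sum_congr rfl fun d _ => by ring

theorem lap4S_23 (w : ι → ℝ) (F : T4 ι) :
    lap4S w (fun a b c d => F a c b d) = lap4S w F := by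
  unfold lap4S
  refine sum_congr rfl fun a _ => ?_
  rw [sum_comm]
  exact sum_congr rfl fun b _ => sum_congr rfl fun c _ => sum_congr rfl fun d _ => by ring

theorem lap4S_pair (w : ι → ℝ) (F : T4 ι) :
    lap4S w (fun a b c d => F c d a b) = lap4S w F := by
  -- (a b c d) -> (a c b d) -> (c a b d) -> (c a d b) -> (c d a b)
  have h1 := lap4S_23 w (fun a b c d => F b d a c)
  have h2 := lap4S_12 w (fun a b c d => F a d b c)
  have h3 := lap4S_34 w (fun a b c d => F a c b d)
  have h4 := lap4S_23 w F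
  rw [← h4, ← h3, ← h2, ← h1]

theorem lap4S_24 (w : ι → ℝ) (F : T4 ι) :
    lap4S w (fun a b c d => F a d c b) = lap4S w F := by
  have h1 := lap4S_23 w (fun a b c d => F a d b c)
  have h2 := lap4S_34 w (fun a b c d => F a c b d)
  have h3 := lap4S_23 w F
  rw [← h3, ← h2, ← h1]

variable {W : T4 ι}

/-- the infinitesimal rotation of the first slot -/
def lap4t (W : T4 ι) (i l a b c d : ι) : ℝ := kd a i * W l b c d - kd a l * W i b c d

theorem lap4_D4 (h : IsCurv W) (i l a b c d : ι) : D4 i l W a b c d =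
    lap4t W i l a b c d - lap4t W i l b a c d + lap4t W i l c d a b - lap4t W i l d c a b := by
  unfold D4 lap4t
  rw [h.a1 a l c d, h.a1 a i c d, h.ps a b l d, h.ps a b i d]
  have e1 : W l c a b = - W a b c l := by
    rw [h.ps a b l c, h.a2 a b c l]
  have e2 : W i c a b = - W a b c i := by
    rw [h.ps a b i c, h.a2 a b c i]
  rw [e1, e2]
  ring

theorem lap4_K (a b c d a' b' c' d' : ι) :
    ∑ i, ∑ l, lap4t W i l a b c d * lap4t W i l a' b' c' d' =
      2 * (kd a a' * ∑ l, W l b c d * W l b' c' d' - W a' b c d * W a b' c' d') :=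
  lap4_dsum a a' (fun l => W l b c d) (fun l => W l b' c' d')

theorem lap4t_34 (h : IsCurv W) (i l a b c d : ι) :
    lap4t W i l a b d c = - lap4t W i l a b c d := by
  unfold lap4t
  rw [h.a2 l b c d, h.a2 i b c d]
  ring

/-- the three types of products -/
def lap4f11 (W : T4 ι) : T4 ι := fun a b c d =>
  ∑ i, ∑ l, lap4t W i l a b c d * lap4t W i l a b c d
def lap4f12 (W : T4 ι) : T4 ι := fun a b c d =>
  ∑ i, ∑ l, lap4t W i l a b c d * lap4t W i l b a c d
def lap4f13 (W : T4 ι) : T4 ι := fun a b c d =>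
  ∑ i, ∑ l, lap4t W i l a b c d * lap4t W i l c d a b

theorem lap4_square (h : IsCurv W) (a b c d : ι) :
    ∑ i, ∑ l, D4 i l W a b c d * D4 i l W a b c d =
      lap4f11 W a b c d + lap4f11 W b a c d + lap4f11 W c d a b + lap4f11 W d c a b +
      (-2) * lap4f12 W a b c d + (-2) * lap4f12 W c d a b +
      2 * lap4f13 W a b c d + 2 * lap4f13 W a b d c + 2 * lap4f13 W b a c d +
      2 * lap4f13 W b a d c := by
  unfold lap4f11 lap4f12 lap4f13
  simp only [mul_sum, ← sum_add_distrib]
  refine sum_congr rfl fun i _ => sum_congr rfl fun l _ => ?_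
  rw [lap4_D4 h]
  rw [lap4t_34 h i l a b c d, lap4t_34 h i l b a c d, lap4t_34 h i l c d a b,
    lap4t_34 h i l d c a b]
  ring

theorem lap4_sum_square (h : IsCurv W) (w : ι → ℝ) :
    ∑ i, ∑ l, Q4 w (D4 i l W) = 4 * lap4S w (lap4f11 W) - 4 * lap4S w (lap4f12 W) +
      8 * lap4S w (lap4f13 W) := by
  have h0 : ∑ i, ∑ l, Q4 w (D4 i l W) = lap4S w (fun a b c d =>
      ∑ i, ∑ l, D4 i l W a b c d * D4 i l W a b c d) :=
    lap4S_sum2 w (fun i l a b c d => D4 i l W a b c d * D4 i l W a b c d)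
  rw [h0, lap4S_congr w (lap4_square h)]
  simp only [lap4S_add, lap4S_smul]
  have e1 : lap4S w (fun a b c d => lap4f11 W b a c d) = lap4S w (lap4f11 W) := lap4S_12 w _
  have e2 : lap4S w (fun a b c d => lap4f11 W c d a b) = lap4S w (lap4f11 W) := lap4S_pair w _
  have e3 : lap4S w (fun a b c d => lap4f11 W d c a b) = lap4S w (lap4f11 W) := by
    rw [← lap4S_12 w (lap4f11 W)]
    exact lap4S_pair w (fun a b c d => lap4f11 W b a c d)
  have e4 : lap4S w (fun a b c d => lap4f12 W c d a b) = lap4S w (lap4f12 W) := lap4S_pair w _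
  have e5 : lap4S w (fun a b c d => lap4f13 W a b d c) = lap4S w (lap4f13 W) := lap4S_34 w _
  have e6 : lap4S w (fun a b c d => lap4f13 W b a c d) = lap4S w (lap4f13 W) := lap4S_12 w _
  have e7 : lap4S w (fun a b c d => lap4f13 W b a d c) = lap4S w (lap4f13 W) := by
    rw [← lap4S_12 w (lap4f13 W)]
    exact lap4S_34 w (fun a b c d => lap4f13 W b a c d)
  rw [e1, e2, e3, e4, e5, e6, e7]
  ring

theorem lap4_s4 (w : ι → ℝ) (F : T4 ι) :
    ∑ b, ∑ c, ∑ d, w b * w c * w d * ∑ l, F l b c d ^ 2 = s4 w F := by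
  unfold s4
  symm
  rw [sum_comm]
  refine sum_congr rfl fun b _ => ?_
  rw [sum_comm]
  refine sum_congr rfl fun c _ => ?_
  rw [sum_comm]
  refine sum_congr rfl fun d _ => ?_
  rw [mul_sum]

theorem lap4_free (w : ι → ℝ) (F : T4 ι) :
    lap4S w (fun _ b c d => ∑ l, F l b c d ^ 2) = (∑ a, w a) * s4 w F := by
  unfold lap4S
  rw [← lap4_s4, sum_mul]
  refine sum_congr rfl fun a _ => ?_
  rw [mul_sum]
  refine sum_congr rfl fun b _ => ?_
  rw [mul_sum]
  refine sum_congr rfl fun c _ => ?_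
  rw [mul_sum]
  exact sum_congr rfl fun d _ => by ring

theorem lap4_f11 (w : ι → ℝ) :
    lap4S w (lap4f11 W) = 2 * ((∑ a, w a) * s4 w W - Q4 w W) := by
  have h1 : ∀ a b c d, lap4f11 W a b c d =
      2 * (∑ l, W l b c d ^ 2) + (-2) * (W a b c d * W a b c d) := by
    intro a b c d
    unfold lap4f11
    rw [lap4_K]
    have e1 : kd a a = 1 := by simp [kd]
    rw [e1]
    simp only [sq]
    ring
  rw [lap4S_congr w h1]
  rw [lap4S_add w (fun a b c d => 2 * ∑ l, W l b c d ^ 2)
    (fun a b c d => (-2) * (W a b c d * W a b c d))]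
  rw [lap4S_smul w 2 (fun a b c d => ∑ l, W l b c d ^ 2),
    lap4S_smul w (-2) (fun a b c d => W a b c d * W a b c d), lap4_free]
  have e2 : lap4S w (fun a b c d => W a b c d * W a b c d) = Q4 w W := rfl
  rw [e2]
  ring

theorem lap4_diag (h : IsCurv W) (a c d : ι) : W a a c d = 0 := by
  have := h.a1 a a c d
  linarith

theorem lap4_f12 (h : IsCurv W) (w : ι → ℝ) (hw : ∀ a, 0 ≤ w a) :
    0 ≤ lap4S w (lap4f12 W) := by
  have h0 : lap4S w (fun _ _ _ _ => 0) = 0 := by simp [lap4S]
  rw [← h0]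
  apply lap4S_mono w hw
  intro a b c d
  unfold lap4f12
  rw [lap4_K, lap4_diag h, zero_mul, sub_zero]
  by_cases hab : a = b
  · subst hab
    have e1 : kd a a = 1 := by simp [kd]
    rw [e1, one_mul]
    have : 0 ≤ ∑ l, W l a c d * W l a c d := sum_nonneg fun l _ => mul_self_nonneg _
    linarith
  · have e1 : kd a b = 0 := by simp [kd, hab]
    rw [e1]
    simp

theorem lap4_f13 (h : IsCurv W) (w : ι → ℝ) (hw : ∀ a, 0 ≤ w a) (hw1 : ∀ a, w a ≤ 1) :
    lap4S w (lap4f13 W) ≤ 2 * s4 w W := by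
  -- the part with the Kronecker delta
  have hA : lap4S w (fun a b c d => kd a c * ∑ l, W l b c d ^ 2) ≤ s4 w W := by
    have e1 : lap4S w (fun a b c d => kd a c * ∑ l, W l b c d ^ 2) =
        ∑ b, ∑ c, ∑ d, w c * (w b * w c * w d * ∑ l, W l b c d ^ 2) := by
      unfold lap4S
      rw [sum_comm]
      refine sum_congr rfl fun b _ => ?_
      rw [sum_comm]
      refine sum_congr rfl fun c _ => ?_
      rw [sum_comm]
      refine sum_congr rfl fun d _ => ?_
      have e2 : ∀ a, w a * w b * w c * w d * (kd a c * ∑ l, W l b c d ^ 2) =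
          kd c a * (w a * (w b * w c * w d * ∑ l, W l b c d ^ 2)) := by
        intro a
        rw [lap4_kd_symm a c]
        ring
      rw [sum_congr rfl fun a _ => e2 a, lap4_kd1]
    rw [e1, ← lap4_s4]
    refine sum_le_sum fun b _ => sum_le_sum fun c _ => sum_le_sum fun d _ => ?_
    have h3 : 0 ≤ w b * w c * w d * ∑ l, W l b c d ^ 2 :=
      mul_nonneg (mul_nonneg (mul_nonneg (hw b) (hw c)) (hw d))
        (sum_nonneg fun l _ => sq_nonneg _)
    exact mul_le_of_le_one_left h3 (hw1 c)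
  have hB : lap4S w (fun a b c d => kd a c * ∑ l, W l b c d * W l d a b) ≤ s4 w W := by
    have h1 : lap4S w (fun a b c d => kd a c * ∑ l, W l b c d * W l d a b) ≤
        lap4S w (fun a b c d => (1 / 2) * (kd a c * ∑ l, W l b c d ^ 2) +
          (1 / 2) * (kd a c * ∑ l, W l d c b ^ 2)) := by
      apply lap4S_mono w hw
      intro a b c d
      by_cases hac : a = c
      · subst hac
        have e1 : kd a a = 1 := by simp [kd]
        rw [e1, one_mul, one_mul, one_mul, mul_sum, mul_sum, ← sum_add_distrib]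
        refine sum_le_sum fun l _ => ?_
        nlinarith [sq_nonneg (W l b a d - W l d a b)]
      · have e1 : kd a c = 0 := by simp [kd, hac]
        rw [e1]
        simp
    refine le_trans h1 ?_
    rw [lap4S_add w (fun a b c d => (1 / 2) * (kd a c * ∑ l, W l b c d ^ 2))
      (fun a b c d => (1 / 2) * (kd a c * ∑ l, W l d c b ^ 2)),
      lap4S_smul w (1 / 2) (fun a b c d => kd a c * ∑ l, W l b c d ^ 2),
      lap4S_smul w (1 / 2) (fun a b c d => kd a c * ∑ l, W l d c b ^ 2)]
    have e2 : lap4S w (fun a b c d => kd a c * ∑ l, W l d c b ^ 2) =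
        lap4S w (fun a b c d => kd a c * ∑ l, W l b c d ^ 2) :=
      lap4S_24 w (fun a b c d => kd a c * ∑ l, W l b c d ^ 2)
    rw [e2]
    linarith
  have hC : 0 ≤ lap4S w (fun a b c d => W c b c d * W a d a b) := by
    have e1 : lap4S w (fun a b c d => W c b c d * W a d a b) =
        ∑ b, ∑ d, w b * w d * (∑ c, w c * W c b c d) ^ 2 := by
      unfold lap4S
      rw [sum_comm]
      refine sum_congr rfl fun b _ => ?_
      have e2 : ∀ a, ∑ c, ∑ d, w a * w b * w c * w d * (W c b c d * W a d a b) =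
          ∑ d, ∑ c, w a * w b * w c * w d * (W c b c d * W a d a b) := fun a => sum_comm
      rw [sum_congr rfl fun a _ => e2 a, sum_comm]
      refine sum_congr rfl fun d _ => ?_
      rw [sq, sum_mul_sum, mul_sum]
      refine sum_congr rfl fun a _ => ?_
      rw [mul_sum]
      refine sum_congr rfl fun c _ => ?_
      rw [h.ps a b a d]
      ring
    rw [e1]
    exact sum_nonneg fun b _ => sum_nonneg fun d _ =>
      mul_nonneg (mul_nonneg (hw b) (hw d)) (sq_nonneg _)
  have e1 : ∀ a b c d, lap4f13 W a b c d =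
      2 * (kd a c * ∑ l, W l b c d * W l d a b) + (-2) * (W c b c d * W a d a b) := by
    intro a b c d
    unfold lap4f13
    rw [lap4_K]
    ring
  rw [lap4S_congr w e1,
    lap4S_add w (fun a b c d => 2 * (kd a c * ∑ l, W l b c d * W l d a b))
      (fun a b c d => (-2) * (W c b c d * W a d a b)),
    lap4S_smul w 2 (fun a b c d => kd a c * ∑ l, W l b c d * W l d a b),
    lap4S_smul w (-2) (fun a b c d => W c b c d * W a d a b)]
  linarith

/-- the symmetries of the derivative -/
theorem lap4_a1 (h : IsCurv W) (i l a b c d : ι) : D4 i l W b a c d = - D4 i l W a b c d := by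
  rw [lap4_D4 h, lap4_D4 h, lap4t_34 h i l c d a b, lap4t_34 h i l d c a b]
  ring

theorem lap4_a2 (h : IsCurv W) (i l a b c d : ι) : D4 i l W a b d c = - D4 i l W a b c d := by
  rw [lap4_D4 h, lap4_D4 h, lap4t_34 h i l a b c d, lap4t_34 h i l b a c d]
  ring

theorem lap4_ps (h : IsCurv W) (i l a b c d : ι) : D4 i l W c d a b = D4 i l W a b c d := by
  rw [lap4_D4 h, lap4_D4 h]
  ring

theorem lap4_anti (i l a b c d : ι) : D4 i l W a b c d = - D4 l i W a b c d := by
  unfold D4
  ring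

/-- one slot of the Laplacian -/
theorem lap4_E (h : IsCurv W) (hr : ∀ a b, Ric W a b = 0) (a b c d : ι) :
    ∑ l, D4 a l W l b c d = (1 - (Fintype.card ι : ℝ)) * W a b c d := by
  have e0 : ∀ l, D4 a l W l b c d = kd a l * W l b c d - W a b c d - kd b l * W l a c d +
      kd c a * W l b l d - kd c l * W l b a d - kd d a * W l b l c - kd d l * W l b c a := by
    intro l
    unfold D4
    have e1 : kd l l = 1 := by simp [kd]
    rw [e1, lap4_kd_symm l a, lap4_diag h l c d, h.a2 l b l c]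
    ring
  rw [sum_congr rfl fun l _ => e0 l]
  simp only [sum_add_distrib, sum_sub_distrib, ← mul_sum]
  have r1 : ∑ l, W l b l d = 0 := hr b d
  have r2 : ∑ l, W l b l c = 0 := hr b c
  rw [lap4_kd1 a (fun l => W l b c d), lap4_kd1 b (fun l => W l a c d),
    lap4_kd1 c (fun l => W l b a d), lap4_kd1 d (fun l => W l b c a), r1, r2]
  rw [sum_const, card_univ, nsmul_eq_mul]
  have e2 : W b a c d = - W a b c d := h.a1 a b c d
  have e3 : W c b a d = - W a d b c := by
    rw [h.ps a d c b, h.a2 a d b c]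
  have e4 : W d b c a = - W a c d b := by
    rw [h.ps c a d b, h.a1 a c d b]
  have e5 := h.bi a b c d
  rw [e2, e3, e4]
  linarith

theorem lap4_slot (V : ι → ι → ι → ℝ) (hV : ∀ i l x, V i l x = - V l i x) (a : ι) :
    ∑ i, ∑ l, (kd a i * V i l l - kd a l * V i l i) = 2 * ∑ l, V a l l := by
  simp only [sum_sub_distrib]
  have e1 : ∑ i, ∑ l, kd a i * V i l l = ∑ l, V a l l := by
    simp only [← mul_sum]
    exact lap4_kd1 a (fun i => ∑ l, V i l l)
  have e2 : ∑ i, ∑ l, kd a l * V i l i = - ∑ l, V a l l := by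
    have e3 : ∀ i, ∑ l, kd a l * V i l i = V i a i := fun i => lap4_kd1 a (fun l => V i l i)
    rw [sum_congr rfl fun i _ => e3 i, ← sum_neg_distrib]
    exact sum_congr rfl fun i _ => hV i a i
  rw [e1, e2]
  ring

theorem lap4_I (h : IsCurv W) (hr : ∀ a b, Ric W a b = 0) (a b c d : ι) :
    ∑ i, ∑ l, D4 i l (D4 i l W) a b c d = 8 * (1 - (Fintype.card ι : ℝ)) * W a b c d := by
  have e1 := lap4_slot (fun i l x => D4 i l W x b c d) (fun i l x => lap4_anti i l x b c d) a
  have e2 := lap4_slot (fun i l x => D4 i l W a x c d) (fun i l x => lap4_anti i l a x c d) b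
  have e3 := lap4_slot (fun i l x => D4 i l W a b x d) (fun i l x => lap4_anti i l a b x d) c
  have e4 := lap4_slot (fun i l x => D4 i l W a b c x) (fun i l x => lap4_anti i l a b c x) d
  have h0 : ∑ i, ∑ l, D4 i l (D4 i l W) a b c d =
      (∑ i, ∑ l, (kd a i * D4 i l W l b c d - kd a l * D4 i l W i b c d)) +
      (∑ i, ∑ l, (kd b i * D4 i l W a l c d - kd b l * D4 i l W a i c d)) +
      (∑ i, ∑ l, (kd c i * D4 i l W a b l d - kd c l * D4 i l W a b i d)) +
      (∑ i, ∑ l, (kd d i * D4 i l W a b c l - kd d l * D4 i l W a b c i)) := by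
    simp only [← sum_add_distrib]
    rfl
  rw [h0, e1, e2, e3, e4]
  have f2 : ∑ l, D4 b l W a l c d = - ((1 - (Fintype.card ι : ℝ)) * W b a c d) := by
    rw [← lap4_E h hr, ← sum_neg_distrib]
    exact sum_congr rfl fun l _ => lap4_a1 h b l l a c d
  have f3 : ∑ l, D4 c l W a b l d = (1 - (Fintype.card ι : ℝ)) * W c d a b := by
    rw [← lap4_E h hr]
    exact sum_congr rfl fun l _ => lap4_ps h c l l d a b
  have f4 : ∑ l, D4 d l W a b c l = - ((1 - (Fintype.card ι : ℝ)) * W d c a b) := by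
    rw [← lap4_E h hr, ← sum_neg_distrib]
    refine sum_congr rfl fun l _ => ?_
    rw [lap4_ps h d l c l a b, lap4_a1 h d l l c a b]
  rw [lap4_E h hr a b c d, f2, f3, f4]
  have g1 : W b a c d = - W a b c d := h.a1 a b c d
  have g2 : W c d a b = W a b c d := h.ps a b c d
  have g3 : W d c a b = - W a b c d := by rw [h.a1 c d a b, g2]
  rw [g1, g2, g3]
  ring

theorem lap4_main : St_lap4 := by
  intro ι _ _ w hw hw1 W h hr
  simp only [sum_add_distrib]
  have h1 : ∑ i, ∑ l, ip4 w W (D4 i l (D4 i l W)) =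
      8 * (1 - (Fintype.card ι : ℝ)) * Q4 w W := by
    have h2 : ∑ i, ∑ l, ip4 w W (D4 i l (D4 i l W)) = lap4S w (fun a b c d =>
        ∑ i, ∑ l, W a b c d * D4 i l (D4 i l W) a b c d) :=
      lap4S_sum2 w (fun i l a b c d => W a b c d * D4 i l (D4 i l W) a b c d)
    rw [h2]
    have h3 : ∀ a b c d, ∑ i, ∑ l, W a b c d * D4 i l (D4 i l W) a b c d =
        8 * (1 - (Fintype.card ι : ℝ)) * (W a b c d * W a b c d) := by
      intro a b c d
      simp only [← mul_sum]
      rw [lap4_I h hr]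
      ring
    rw [lap4S_congr w h3, lap4S_smul]
    rfl
  rw [h1, lap4_sum_square h, lap4_f11]
  have h4 := lap4_f12 h w hw
  have h5 := lap4_f13 h w hw hw1
  nlinarith

end lap4

end Pool.Agent.H933R2.HopfN
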