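import Pool.Agent.H933R2.HopfN.St2
import Pool.Agent.H933R2.HopfN.ALG
import Pool.Agent.H933R2.HopfN.LAP4
import Pool.Agent.H933R2.HopfN.LAP2

set_option autoImplicit false
set_option linter.all false

namespace Pool.Agent.H933R2.HopfN

open Finset

/-- ALG2: pointwise inequality, L2 version, refined form -/
theorem alg2_main : St_alg2 := by
  intro ι _ _ S θ κ hθ0 hθ1 hκ0 W A hW hRic hA htr a ha
  set n : ℝ := (Fintype.card ι : ℝ) with hn
  have hn0 : 0 ≤ n := by positivity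
  have hwθ : ∀ a, θ ≤ wt θ S a := by
    intro a; unfold wt; split_ifs
    · exact hθ1
    · exact le_rfl
  have hw0 : ∀ a, 0 ≤ wt θ S a := fun a => le_trans hθ0.le (hwθ a)
  have hw1 : ∀ a, wt θ S a ≤ 1 := by
    intro a; unfold wt; split_ifs
    · exact le_rfl
    · exact hθ1
  have hsum : ∑ a, wt θ S a ≤ S.card + n * θ := by
    have h5 : ∀ a, wt θ S a ≤ (if a ∈ S then 1 else 0) + θ := by
      intro a; unfold wt; split_ifs <;> linarith
    calc ∑ a, wt θ S a ≤ ∑ a, ((if a ∈ S then (1 : ℝ) else 0) + θ) := sum_le_sum fun a _ => h5 a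
      _ = S.card + n * θ := by
        rw [sum_add_distrib, sum_ite_mem, univ_inter, sum_const, sum_const, card_univ, hn]
        simp
  have l4 := lap4_main ι (wt θ S) hw0 hw1 W hW hRic
  have l2 := lap2_main ι (wt θ S) hw0 hw1 A hA htr
  rw [← hn] at l4 l2
  have k4 := alg_key4 (wt θ S) θ hθ0 hwθ W hW
  have k2 := alg_key2 (wt θ S) θ hθ0 hwθ A hA
  have m4 := alg_low4 (wt θ S) θ hθ0 hwθ W
  have m2 := alg_low2 (wt θ S) θ hθ0 hwθ A
  have p4 := alg_s4_nonneg (wt θ S) hw0 W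
  have p2 := alg_s2_nonneg (wt θ S) hw0 A
  set q4 := Q4 (wt θ S) W with hq4
  set q2 := Q2 (wt θ S) A with hq2
  set t4 := s4 (wt θ S) W with ht4
  set t2 := s2 (wt θ S) A with ht2
  set σ := ∑ a, wt θ S a with hσ
  set s : ℝ := (S.card : ℝ) with hs
  have hs0 : 0 ≤ s := by positivity
  have hQQ : QQ (wt θ S) κ W A = q4 + κ * q2 := rfl
  rw [hQQ]
  constructor
  · have e2 := mul_le_mul_of_nonneg_left k2 hκ0
    rw [ha]
    linarith
  · have hsplit : (1 / 2) * ∑ i, ∑ l, QQ2 (wt θ S) κ W A i l =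
        ∑ i, ∑ l, (ip4 (wt θ S) W (D4 i l (D4 i l W)) + Q4 (wt θ S) (D4 i l W)) +
        κ * ∑ i, ∑ l, (ip2 (wt θ S) A (D2 i l (D2 i l A)) + Q2 (wt θ S) (D2 i l A)) := by
      unfold QQ2
      rw [mul_sum, mul_sum, ← sum_add_distrib]
      refine sum_congr rfl fun i _ => ?_
      rw [mul_sum, mul_sum, ← sum_add_distrib]
      refine sum_congr rfl fun l _ => ?_
      ring
    rw [hsplit]
    have b4 : -(8 * n) * q4 + (8 * σ + 16) * t4 ≤
        -(8 * n) * (q4 - θ * t4) + (8 * s + 16) * t4 := by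
      have e1 : (8 * σ + 16) * t4 ≤ (8 * (s + n * θ) + 16) * t4 := by
        apply mul_le_mul_of_nonneg_right _ p4
        linarith
      linarith
    have b2 : -(4 * n) * q2 + (4 * σ + 4) * t2 ≤
        -(4 * n) * (q2 - θ * t2) + (4 * s + 8) * t2 := by
      have e1 : (4 * σ + 4) * t2 ≤ (4 * (s + n * θ) + 8) * t2 := by
        apply mul_le_mul_of_nonneg_right _ p2
        linarith
      linarith
    have f4 := le_trans l4 b4
    have f2 := mul_le_mul_of_nonneg_left (le_trans l2 b2) hκ0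
    have hq2n : 0 ≤ q2 := le_trans (by positivity) m2
    have e3 : (8 * s + 16) / θ * (q4 + κ * q2 - a) =
        (8 * s + 16) * t4 + κ * ((4 * s + 8) * t2) + (8 * s + 16) / θ * (κ / 2 * q2) := by
      rw [ha]; field_simp; ring
    rw [e3]
    have e4 : 0 ≤ (8 * s + 16) / θ * (κ / 2 * q2) := by positivity
    have e5 : -(8 * n) * a = -(8 * n) * (q4 - θ * t4) + κ * (-(4 * n) * (q2 - θ * t2)) := by
      rw [ha]; ring
    rw [e5]
    linarith

end Pool.Agent.H933R2.HopfN
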