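import Pool.Agent.H933R2.HopfN.St2
import Pool.Agent.H933R2.HopfN.LAP2

set_option autoImplicit false
set_option linter.all false

namespace Pool.Agent.H933R2.HopfN

open Finset

section

variable {ι : Type} [Fintype ι] [DecidableEq ι]

lemma algs_wt (S : Finset ι) (f : ι → ℝ) : ∑ a, wt 0 S a * f a = ∑ a ∈ S, f a := by
  unfold wt
  simp

lemma algs_nr_single (b : ι) : nr (Pi.single b (1 : ℝ)) = 1 := by
  unfold nr
  have : ∑ a, (Pi.single b (1 : ℝ) : ι → ℝ) a ^ 2 = 1 := by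
    rw [Finset.sum_eq_single b]
    · simp
    · intro a _ hab
      rw [Pi.single_eq_of_ne hab]; simp
    · simp
  rw [this]; simp

lemma algs_sq {N ω : ℝ} (hN : 0 ≤ N) (hω : 0 ≤ ω) (h : |N| ≤ ω * Real.sqrt N) : N ≤ ω ^ 2 := by
  rw [abs_of_nonneg hN] at h
  have h1 : Real.sqrt N * Real.sqrt N = N := Real.mul_self_sqrt hN
  have h0 : 0 ≤ Real.sqrt N := Real.sqrt_nonneg N
  rcases h0.eq_or_lt with h2 | h2
  · rw [← h2] at h1
    nlinarith
  · have h3 : Real.sqrt N ≤ ω := by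
      by_contra hcon
      push Not at hcon
      nlinarith
    nlinarith

lemma algs_bd4 (E : T4 ι) (ω : ℝ) (hω : 0 ≤ ω) (h : Bd4 E ω) (b c d : ι) :
    ∑ a, E a b c d ^ 2 ≤ ω ^ 2 := by
  have h1 := h (fun a => E a b c d) (Pi.single b (1 : ℝ)) (Pi.single c (1 : ℝ))
    (Pi.single d (1 : ℝ))
  rw [algs_nr_single, algs_nr_single, algs_nr_single] at h1
  have h2 : ev4 E (fun a => E a b c d) (Pi.single b (1 : ℝ)) (Pi.single c (1 : ℝ))
      (Pi.single d (1 : ℝ)) = ∑ a, E a b c d ^ 2 := by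
    unfold ev4
    refine sum_congr rfl fun a _ => ?_
    rw [Finset.sum_eq_single b, Finset.sum_eq_single c, Finset.sum_eq_single d]
    · simp; ring
    · intro x _ hx; rw [Pi.single_eq_of_ne hx]; simp
    · simp
    · intro x _ hx; rw [Pi.single_eq_of_ne hx]; simp
    · simp
    · intro x _ hx; rw [Pi.single_eq_of_ne hx]; simp
    · simp
  rw [h2] at h1
  refine algs_sq (sum_nonneg fun a _ => sq_nonneg _) hω ?_
  have h3 : nr (fun a => E a b c d) = Real.sqrt (∑ a, E a b c d ^ 2) := rfl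
  rw [h3] at h1
  linarith

lemma algs_bd2 (A : T2 ι) (ρ : ℝ) (hρ : 0 ≤ ρ) (h : Bd2 A ρ) (b : ι) :
    ∑ a, A a b ^ 2 ≤ ρ ^ 2 := by
  have h1 := h (fun a => A a b) (Pi.single b (1 : ℝ))
  rw [algs_nr_single] at h1
  have h2 : ev2 A (fun a => A a b) (Pi.single b (1 : ℝ)) = ∑ a, A a b ^ 2 := by
    unfold ev2
    refine sum_congr rfl fun a _ => ?_
    rw [Finset.sum_eq_single b]
    · simp; ring
    · intro x _ hx; rw [Pi.single_eq_of_ne hx]; simp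
    · simp
  rw [h2] at h1
  refine algs_sq (sum_nonneg fun a _ => sq_nonneg _) hρ ?_
  have h3 : nr (fun a => A a b) = Real.sqrt (∑ a, A a b ^ 2) := rfl
  rw [h3] at h1
  linarith

lemma algs_Q4 (S : Finset ι) (E : T4 ι) :
    Q4 (wt 0 S) E = ∑ a ∈ S, ∑ b ∈ S, ∑ c ∈ S, ∑ d ∈ S, E a b c d ^ 2 := by
  unfold Q4 ip4
  rw [← algs_wt S]
  refine sum_congr rfl fun a _ => ?_
  rw [← algs_wt S, mul_sum]
  refine sum_congr rfl fun b _ => ?_
  rw [← algs_wt S, mul_sum, mul_sum]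
  refine sum_congr rfl fun c _ => ?_
  rw [← algs_wt S, mul_sum, mul_sum, mul_sum]
  refine sum_congr rfl fun d _ => ?_
  ring

lemma algs_Q2 (S : Finset ι) (A : T2 ι) :
    Q2 (wt 0 S) A = ∑ a ∈ S, ∑ b ∈ S, A a b ^ 2 := by
  unfold Q2 ip2
  rw [← algs_wt S]
  refine sum_congr rfl fun a _ => ?_
  rw [← algs_wt S, mul_sum]
  refine sum_congr rfl fun b _ => ?_
  ring

lemma algs_s4 (S : Finset ι) (E : T4 ι) (ω : ℝ) (hω : 0 ≤ ω) (h : Bd4 E ω) :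
    s4 (wt 0 S) E ≤ (S.card : ℝ) ^ 3 * ω ^ 2 := by
  have e : s4 (wt 0 S) E = ∑ b ∈ S, ∑ c ∈ S, ∑ d ∈ S, ∑ a, E a b c d ^ 2 := by
    unfold s4
    rw [sum_comm, ← algs_wt S]
    refine sum_congr rfl fun b _ => ?_
    rw [sum_comm, ← algs_wt S, mul_sum]
    refine sum_congr rfl fun c _ => ?_
    rw [sum_comm, ← algs_wt S, mul_sum, mul_sum]
    refine sum_congr rfl fun d _ => ?_
    rw [mul_sum, mul_sum, mul_sum]
    refine sum_congr rfl fun a _ => ?_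
    ring
  rw [e]
  calc ∑ b ∈ S, ∑ c ∈ S, ∑ d ∈ S, ∑ a, E a b c d ^ 2
      ≤ ∑ b ∈ S, ∑ c ∈ S, ∑ d ∈ S, ω ^ 2 :=
        sum_le_sum fun b _ => sum_le_sum fun c _ => sum_le_sum fun d _ =>
          algs_bd4 E ω hω h b c d
    _ = (S.card : ℝ) ^ 3 * ω ^ 2 := by
        simp only [sum_const, nsmul_eq_mul]; ring

lemma algs_s2 (S : Finset ι) (A : T2 ι) (ρ : ℝ) (hρ : 0 ≤ ρ) (h : Bd2 A ρ) :
    s2 (wt 0 S) A ≤ (S.card : ℝ) * ρ ^ 2 := by
  have e : s2 (wt 0 S) A = ∑ b ∈ S, ∑ a, A a b ^ 2 := by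
    unfold s2
    rw [sum_comm, ← algs_wt S]
    refine sum_congr rfl fun b _ => ?_
    rw [mul_sum]
  rw [e]
  calc ∑ b ∈ S, ∑ a, A a b ^ 2
      ≤ ∑ b ∈ S, ρ ^ 2 := sum_le_sum fun b _ => algs_bd2 A ρ hρ h b
    _ = (S.card : ℝ) * ρ ^ 2 := by
        simp only [sum_const, nsmul_eq_mul]

lemma algs_ricS (S : Finset ι) (E : T4 ι) :
    ∑ b ∈ S, ∑ d ∈ S, RicS S E b d ^ 2 ≤ (S.card : ℝ) * Q4 (wt 0 S) E := by
  rw [algs_Q4]
  have h1 : ∀ b d, RicS S E b d ^ 2 ≤ (S.card : ℝ) * ∑ a ∈ S, E a b a d ^ 2 := by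
    intro b d
    unfold RicS
    exact sq_sum_le_card_mul_sum_sq
  calc ∑ b ∈ S, ∑ d ∈ S, RicS S E b d ^ 2
      ≤ ∑ b ∈ S, ∑ d ∈ S, (S.card : ℝ) * ∑ a ∈ S, E a b a d ^ 2 :=
        sum_le_sum fun b _ => sum_le_sum fun d _ => h1 b d
    _ = (S.card : ℝ) * ∑ a ∈ S, ∑ b ∈ S, ∑ d ∈ S, E a b a d ^ 2 := by
        simp only [← mul_sum]
        congr 1
        rw [sum_comm]
        rw [sum_comm]
        calc ∑ b ∈ S, ∑ d ∈ S, ∑ a ∈ S, E a b a d ^ 2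
            = ∑ b ∈ S, ∑ a ∈ S, ∑ d ∈ S, E a b a d ^ 2 :=
              sum_congr rfl fun b _ => sum_comm
          _ = _ := sum_comm
    _ ≤ (S.card : ℝ) * ∑ a ∈ S, ∑ b ∈ S, ∑ c ∈ S, ∑ d ∈ S, E a b c d ^ 2 := by
        refine mul_le_mul_of_nonneg_left ?_ (Nat.cast_nonneg _)
        refine sum_le_sum fun a ha => sum_le_sum fun b _ => ?_
        exact single_le_sum (f := fun c => ∑ d ∈ S, E a b c d ^ 2)
          (fun c _ => sum_nonneg fun d _ => sq_nonneg _) ha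

lemma algs_cross (S : Finset ι) (E : T4 ι) (α : ℝ) (hα : 0 < α) :
    16 * ∑ b ∈ S, ∑ d ∈ S, RicS S E b d * (Ric E b d - RicS S E b d) ≤
      8 * α * ((S.card : ℝ) * Q4 (wt 0 S) E) + 8 / α * Q2 (wt 0 S) (Ric E) := by
  have h0 := algs_ricS S E
  have h1 : 16 * ∑ b ∈ S, ∑ d ∈ S, RicS S E b d * (Ric E b d - RicS S E b d) ≤
      8 * α * ∑ b ∈ S, ∑ d ∈ S, RicS S E b d ^ 2 + 8 / α * Q2 (wt 0 S) (Ric E) := by
    rw [algs_Q2, mul_sum, mul_sum, mul_sum, ← sum_add_distrib]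
    refine sum_le_sum fun b _ => ?_
    rw [mul_sum, mul_sum, mul_sum, ← sum_add_distrib]
    refine sum_le_sum fun d _ => ?_
    set x := RicS S E b d
    set y := Ric E b d
    have h2 : 8 * α * x ^ 2 + 8 / α * y ^ 2 - 16 * (x * y) = 8 / α * (α * x - y) ^ 2 := by
      field_simp; ring
    have h3 : 0 ≤ 8 / α * (α * x - y) ^ 2 := by positivity
    nlinarith [sq_nonneg x]
  have h4 : 8 * α * ∑ b ∈ S, ∑ d ∈ S, RicS S E b d ^ 2 ≤
      8 * α * ((S.card : ℝ) * Q4 (wt 0 S) E) := by gcongr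
  linarith

lemma algs_sym (E : T4 ι) (hE : IsCurv E) : IsSym (Ric E) := by
  intro a b
  unfold Ric
  exact sum_congr rfl fun x _ => hE.ps x a x b

end

theorem algs_main (h1 : St_lap4r) : St_algs := by
  intro ι _ _ j hj hcard S hS E hE htr n κ ω ρ hn hκ hω hρ hB4 hB2
  have hjr : (1 : ℝ) ≤ j := by exact_mod_cast hj
  have hnr : 2 * (j : ℝ) ≤ n := by rw [hn]; exact_mod_cast hcard
  have hn0 : 0 < n := by linarith
  have hj0 : (0 : ℝ) < j := by linarith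
  have hSr : (S.card : ℝ) = 2 * j := by rw [hS]; push_cast; ring
  have hw0 : ∀ a, 0 ≤ wt 0 S a := by
    intro a; unfold wt; split_ifs <;> norm_num
  have hw1 : ∀ a, wt 0 S a ≤ 1 := by
    intro a; unfold wt; split_ifs <;> norm_num
  have hsum : ∑ a, wt 0 S a = 2 * j := by
    have := algs_wt S (fun _ => 1)
    simp only [mul_one, sum_const, nsmul_eq_mul] at this
    rw [this, hSr]
  have l4 := h1 ι S E hE
  have l2 := lap2_main ι (wt 0 S) hw0 hw1 (Ric E) (algs_sym E hE) htr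
  have c4 := algs_cross S E (21 * n / (64 * j)) (by positivity)
  have b4 := algs_s4 S E ω hω hB4
  have b2 := algs_s2 S (Ric E) ρ hρ hB2
  rw [← hn] at l4 l2
  rw [hsum] at l2
  rw [hSr] at l4 c4 b4 b2
  set q4 := Q4 (wt 0 S) E with hq4
  set q2 := Q2 (wt 0 S) (Ric E) with hq2
  set t4 := s4 (wt 0 S) E with ht4
  set t2 := s2 (wt 0 S) (Ric E) with ht2
  have hκ0 : 0 ≤ κ := by rw [hκ]; positivity
  have d1 : 8 * (21 * n / (64 * j)) * (2 * j * q4) = 21 / 4 * n * q4 := by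
    field_simp; ring
  have d2 : 8 / (21 * n / (64 * j)) * q2 = 5 / 4 * n * κ * q2 := by
    rw [hκ]; field_simp; ring
  rw [d1, d2] at c4
  have hsplit : (1 / 2) * ∑ i, ∑ l, QQ2 (wt 0 S) κ E (Ric E) i l =
      ∑ i, ∑ l, (ip4 (wt 0 S) E (D4 i l (D4 i l E)) + Q4 (wt 0 S) (D4 i l E)) +
      κ * ∑ i, ∑ l, (ip2 (wt 0 S) (Ric E) (D2 i l (D2 i l (Ric E))) +
        Q2 (wt 0 S) (D2 i l (Ric E))) := by
    unfold QQ2
    rw [mul_sum, mul_sum, ← sum_add_distrib]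
    refine sum_congr rfl fun i _ => ?_
    rw [mul_sum, mul_sum, ← sum_add_distrib]
    refine sum_congr rfl fun l _ => ?_
    ring
  rw [hsplit]
  have f2 := mul_le_mul_of_nonneg_left l2 hκ0
  have hQQ : QQ (wt 0 S) κ E (Ric E) = q4 + κ * q2 := rfl
  rw [hQQ]
  have g4 : (8 * (2 * (j : ℝ)) + 8) * t4 ≤ (8 * (2 * j) + 8) * ((2 * j) ^ 3 * ω ^ 2) := by
    gcongr
  have g2 : κ * ((4 * (2 * (j : ℝ)) + 4) * t2) ≤ κ * ((4 * (2 * j) + 4) * (2 * j * ρ ^ 2)) := by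
    gcongr
  nlinarith

end Pool.Agent.H933R2.HopfN
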