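import Pool.Agent.H933R2.HopfN.St

set_option autoImplicit false
set_option linter.all false

/-!
Project HopfN, task COEF: bound of the coefficients of a homogeneous polynomial on complex space.
-/

namespace Pool.Agent.H933R2.HopfN

/-- two words with the same letter counts differ by a permutation of the positions -/
lemma coef_exists_perm {K : Type} [DecidableEq K] {j : ℕ} (α α0 : Fin j → K)
    (h : ∀ κ, cnt α κ = cnt α0 κ) : ∃ π : Equiv.Perm (Fin j), α ∘ π = α0 := by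
  have hc : ∀ κ, Nonempty ({x // α0 x = κ} ≃ {x // α x = κ}) := by
    intro κ
    apply Fintype.card_eq.mp
    rw [Fintype.card_subtype, Fintype.card_subtype]
    exact (h κ).symm
  let e : ∀ κ, ({x // α0 x = κ} ≃ {x // α x = κ}) := fun κ => (hc κ).some
  let π : Equiv.Perm (Fin j) := (Equiv.sigmaFiberEquiv α0).symm.trans
    ((Equiv.sigmaCongrRight e).trans (Equiv.sigmaFiberEquiv α))
  refine ⟨π, ?_⟩
  funext x
  have : α (π x) = α0 x := by
    have h1 : π x = ((e (α0 x)) ⟨x, rfl⟩ : {y // α y = α0 x}) := rfl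
    rw [h1]
    exact ((e (α0 x)) ⟨x, rfl⟩).2
  exact this

lemma coef_sum_cnt {K : Type} [Fintype K] [DecidableEq K] {j : ℕ} (α : Fin j → K) :
    ∑ κ, cnt α κ = j := by
  unfold cnt
  rw [← Finset.card_eq_sum_card_fiberwise (fun x _ => Finset.mem_univ _)]
  simp

lemma coef_prod_word {K : Type} [Fintype K] [DecidableEq K] {j : ℕ} (α : Fin j → K) (x : K → ℂ) :
    ∏ i, x (α i) = ∏ κ, x κ ^ cnt α κ := by
  unfold cnt
  rw [← Finset.prod_fiberwise' Finset.univ α x]
  apply Finset.prod_congr rfl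
  intro κ _
  rw [Finset.prod_const]

/-- the primitive root of unity -/
noncomputable def coef_w (N : ℕ) : ℂ := Complex.exp (2 * Real.pi * Complex.I / N)

lemma coef_w_prim {N : ℕ} (hN : N ≠ 0) : IsPrimitiveRoot (coef_w N) N :=
  Complex.isPrimitiveRoot_exp N hN

lemma coef_orth {N a b : ℕ} (ha : a < N) (hb : b < N) :
    ∑ t : Fin N, ((coef_w N) ^ ((t : ℕ) * b))⁻¹ * ((coef_w N) ^ (t : ℕ)) ^ a =
      if a = b then (N : ℂ) else 0 := by
  have hN : N ≠ 0 := by omega
  have hp := coef_w_prim hN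
  have hne : coef_w N ≠ 0 := Complex.exp_ne_zero _
  have h1 : ∀ t : Fin N, ((coef_w N) ^ ((t : ℕ) * b))⁻¹ * ((coef_w N) ^ (t : ℕ)) ^ a =
      ((coef_w N) ^ a * ((coef_w N) ^ b)⁻¹) ^ (t : ℕ) := by
    intro t
    rw [mul_pow, inv_pow, ← pow_mul, ← pow_mul, ← pow_mul, mul_comm a, mul_comm b, mul_comm]
  rw [Finset.sum_congr rfl fun t _ => h1 t, Fin.sum_univ_eq_sum_range
    (fun t => ((coef_w N) ^ a * ((coef_w N) ^ b)⁻¹) ^ t) N]
  split_ifs with hab
  · subst hab
    rw [mul_inv_cancel₀ (pow_ne_zero _ hne)]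
    simp
  · set η := (coef_w N) ^ a * ((coef_w N) ^ b)⁻¹ with hη
    have hη1 : η ≠ 1 := by
      intro h
      apply hab
      apply hp.pow_inj ha hb
      rw [hη] at h
      field_simp at h
      exact h
    have hηN : η ^ N = 1 := by
      rw [hη, mul_pow, inv_pow, ← pow_mul, ← pow_mul, mul_comm a, mul_comm b, pow_mul, pow_mul,
        hp.pow_eq_one]
      simp
    have := geom_sum_mul η N
    rw [hηN, sub_self] at this
    rcases mul_eq_zero.mp this with h | h
    · exact h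
    · exact absurd (sub_eq_zero.mp h) hη1

lemma coef_norm_w (N : ℕ) : ‖coef_w N‖ = 1 := by
  unfold coef_w
  have : (2 * (Real.pi : ℂ) * Complex.I / N) = ((2 * Real.pi / N : ℝ) : ℂ) * Complex.I := by
    push_cast; ring
  rw [this]
  exact Complex.norm_exp_ofReal_mul_I _

theorem coef_main (hw : St_words) : St_coef := by
  intro K _ _ j c M hM hsym hP α0
  classical
  set k : K → ℕ := cnt α0 with hk
  have hsum : ∑ κ, k κ = j := coef_sum_cnt α0
  set Kl : Finset (Fin j → K) := Finset.univ.filter (fun α : Fin j → K => ∀ κ, cnt α κ = k κ) with hKl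
  have hcard : Kl.card * ∏ κ, (k κ).factorial = j.factorial := hw K j k hsum
  have hconst : ∀ α ∈ Kl, c α = c α0 := by
    intro α hα
    rw [hKl, Finset.mem_filter] at hα
    obtain ⟨π, hπ⟩ := coef_exists_perm α α0 hα.2
    rw [← hπ, hsym]
  set N : ℕ := j + 1 with hN
  set w : ℂ := coef_w N with hw'
  have hwn : ‖w‖ = 1 := coef_norm_w N
  set r : K → ℝ := fun κ => Real.sqrt (k κ) with hr
  set x : (K → Fin N) → K → ℂ := fun u κ => (r κ : ℂ) * w ^ (u κ : ℕ) with hx
  set W : (K → Fin N) → ℂ := fun u => ∏ κ, (w ^ ((u κ : ℕ) * k κ))⁻¹ with hW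
  set PP : (K → Fin N) → ℂ := fun u => ∑ α : Fin j → K, (c α : ℂ) * ∏ i, x u (α i) with hPP
  have hcntle : ∀ (α : Fin j → K) κ, cnt α κ < N := by
    intro α κ
    have := coef_sum_cnt α
    have h2 : cnt α κ ≤ ∑ κ, cnt α κ := Finset.single_le_sum (f := fun κ => cnt α κ)
      (fun _ _ => Nat.zero_le _) (Finset.mem_univ κ)
    omega
  -- Fourier inversion
  have hF : ∑ u, W u * PP u =
      ((Kl.card : ℝ) * c α0 * ∏ κ, r κ ^ k κ : ℝ) * (N : ℂ) ^ Fintype.card K := by
    have h1 : ∀ u, W u * PP u = ∑ α : Fin j → K, (c α : ℂ) *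
        ∏ κ, ((r κ : ℂ) ^ cnt α κ * ((w ^ ((u κ : ℕ) * k κ))⁻¹ * (w ^ (u κ : ℕ)) ^ cnt α κ)) := by
      intro u
      simp only [hPP, hW]
      rw [Finset.mul_sum]
      apply Finset.sum_congr rfl
      intro α _
      rw [coef_prod_word α (x u), mul_left_comm, ← Finset.prod_mul_distrib]
      congr 1
      apply Finset.prod_congr rfl
      intro κ _
      simp only [hx]
      rw [mul_pow]
      ring
    rw [Finset.sum_congr rfl fun u _ => h1 u, Finset.sum_comm]
    have h2 : ∀ α : Fin j → K, ∑ u : K → Fin N, (c α : ℂ) *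
        ∏ κ, ((r κ : ℂ) ^ cnt α κ * ((w ^ ((u κ : ℕ) * k κ))⁻¹ * (w ^ (u κ : ℕ)) ^ cnt α κ)) =
        if α ∈ Kl then ((c α0 * ∏ κ, r κ ^ k κ : ℝ) : ℂ) * (N : ℂ) ^ Fintype.card K else 0 := by
      intro α
      rw [← Finset.mul_sum]
      have h3 := Finset.prod_univ_sum (fun _ : K => (Finset.univ : Finset (Fin N)))
        (fun κ t => ((r κ : ℂ) ^ cnt α κ * ((w ^ ((t : ℕ) * k κ))⁻¹ * (w ^ (t : ℕ)) ^ cnt α κ)))
      rw [Fintype.piFinset_univ] at h3
      rw [← h3]
      have h4 : ∀ κ, ∑ t : Fin N, ((r κ : ℂ) ^ cnt α κ *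
          ((w ^ ((t : ℕ) * k κ))⁻¹ * (w ^ (t : ℕ)) ^ cnt α κ)) =
          (r κ : ℂ) ^ cnt α κ * if cnt α κ = k κ then (N : ℂ) else 0 := by
        intro κ
        rw [← Finset.mul_sum, coef_orth (hcntle α κ) (hcntle α0 κ)]
      rw [Finset.prod_congr rfl fun κ _ => h4 κ]
      split_ifs with hα
      · have hα' := hα
        rw [hKl, Finset.mem_filter] at hα'
        have h5 : ∀ κ, ((r κ : ℂ) ^ cnt α κ * if cnt α κ = k κ then (N : ℂ) else 0) =
            (r κ : ℂ) ^ k κ * (N : ℂ) := by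
          intro κ
          rw [if_pos (hα'.2 κ), hα'.2 κ]
        rw [Finset.prod_congr rfl fun κ _ => h5 κ, Finset.prod_mul_distrib, Finset.prod_const,
          Finset.card_univ, hconst α hα]
        push_cast
        ring
      · have : ∃ κ, cnt α κ ≠ k κ := by
          by_contra hcon
          push Not at hcon
          exact hα (by rw [hKl, Finset.mem_filter]; exact ⟨Finset.mem_univ _, hcon⟩)
        obtain ⟨κ, hκ⟩ := this
        rw [Finset.prod_eq_zero (Finset.mem_univ κ) (by rw [if_neg hκ, mul_zero]), mul_zero]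
    rw [Finset.sum_congr rfl fun α _ => h2 α, Finset.sum_ite_mem, Finset.univ_inter,
      Finset.sum_const, nsmul_eq_mul]
    push_cast
    ring
  -- the bound
  have hxn : ∀ u, ∑ κ, ‖x u κ‖ ^ 2 = j := by
    intro u
    have : ∀ κ, ‖x u κ‖ ^ 2 = (k κ : ℝ) := by
      intro κ
      simp only [hx, hr]
      rw [norm_mul, norm_pow, hwn, one_pow, mul_one, Complex.norm_real, Real.norm_eq_abs, sq_abs,
        Real.sq_sqrt (Nat.cast_nonneg _)]
    rw [Finset.sum_congr rfl fun κ _ => this κ]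
    exact_mod_cast hsum
  set B : ℝ := Real.sqrt ((M * j) ^ j) with hB
  have hMj : 0 ≤ (M * j) ^ j := by positivity
  have hPPb : ∀ u, ‖PP u‖ ≤ B := by
    intro u
    apply Real.le_sqrt_of_sq_le
    have := hP (x u)
    rw [hxn u] at this
    exact this
  have hWn : ∀ u, ‖W u‖ = 1 := by
    intro u
    simp only [hW]
    rw [norm_prod]
    apply Finset.prod_eq_one
    intro κ _
    rw [norm_inv, norm_pow, hwn, one_pow, inv_one]
  have hNpos : (0 : ℝ) < (N : ℝ) ^ Fintype.card K := by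
    have : (0 : ℝ) < N := by rw [hN]; positivity
    positivity
  have hbound : (Kl.card : ℝ) * |c α0| * ∏ κ, r κ ^ k κ ≤ B := by
    have h1 : ‖∑ u, W u * PP u‖ ≤ (N : ℝ) ^ Fintype.card K * B := by
      refine (norm_sum_le _ _).trans ?_
      have : ∀ u ∈ (Finset.univ : Finset (K → Fin N)), ‖W u * PP u‖ ≤ B := by
        intro u _
        rw [norm_mul, hWn, one_mul]
        exact hPPb u
      refine (Finset.sum_le_sum this).trans ?_
      rw [Finset.sum_const, nsmul_eq_mul]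
      simp
    rw [hF, norm_mul, norm_pow, Complex.norm_real, Complex.norm_natCast, Real.norm_eq_abs,
      abs_mul, abs_mul, Nat.abs_cast, abs_of_nonneg (Finset.prod_nonneg fun κ _ => by positivity :
        (0 : ℝ) ≤ ∏ κ, r κ ^ k κ), mul_comm] at h1
    exact le_of_mul_le_mul_left h1 hNpos
  have hsq : (Kl.card : ℝ) ^ 2 * c α0 ^ 2 * ∏ κ, (k κ : ℝ) ^ k κ ≤ (M * j) ^ j := by
    have h0 : 0 ≤ (Kl.card : ℝ) * |c α0| * ∏ κ, r κ ^ k κ := by
      have : (0 : ℝ) ≤ ∏ κ, r κ ^ k κ := Finset.prod_nonneg fun κ _ => by positivity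
      positivity
    have h1 := pow_le_pow_left₀ h0 hbound 2
    rw [hB, Real.sq_sqrt hMj, mul_pow, mul_pow, sq_abs, ← Finset.prod_pow] at h1
    have h2 : ∀ κ, (r κ ^ k κ) ^ 2 = (k κ : ℝ) ^ k κ := by
      intro κ
      rw [← pow_mul, mul_comm, pow_mul]
      simp only [hr]
      rw [Real.sq_sqrt (Nat.cast_nonneg _)]
    rw [Finset.prod_congr rfl fun κ _ => h2 κ] at h1
    exact h1
  -- conclusion
  have hjj : (j : ℝ) ^ j ≤ Real.exp 1 ^ j * (j.factorial : ℝ) := by
    have h1 := Real.pow_div_factorial_le_exp (j : ℝ) (Nat.cast_nonneg _) j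
    rw [div_le_iff₀ (by exact_mod_cast j.factorial_pos)] at h1
    rw [← Real.exp_nat_mul, mul_one]
    exact h1
  set F : ℝ := ∏ κ, ((k κ).factorial : ℝ) with hFdef
  set Pk : ℝ := ∏ κ, (k κ : ℝ) ^ k κ with hPk
  have hFpos : 0 < F := Finset.prod_pos fun κ _ => by exact_mod_cast (k κ).factorial_pos
  have hFPk : F ≤ Pk := by
    apply Finset.prod_le_prod
    · intro κ _; positivity
    · intro κ _
      exact_mod_cast Nat.factorial_le_pow (k κ)
  have hcardR : (Kl.card : ℝ) * F = (j.factorial : ℝ) := by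
    rw [hFdef]
    exact_mod_cast hcard
  have hjf : (0 : ℝ) < (j.factorial : ℝ) := by exact_mod_cast j.factorial_pos
  have h3 : (Kl.card : ℝ) ^ 2 * c α0 ^ 2 * Pk ≤ (Real.exp 1 * M) ^ j * (j.factorial : ℝ) := by
    refine hsq.trans ?_
    rw [mul_pow, mul_pow]
    have : M ^ j * (j : ℝ) ^ j ≤ M ^ j * (Real.exp 1 ^ j * (j.factorial : ℝ)) := by gcongr
    linarith
  have h4 : (j.factorial : ℝ) ^ 2 * c α0 ^ 2 * F ≤ F ^ 2 * ((Real.exp 1 * M) ^ j * (j.factorial : ℝ)) := by
    calc (j.factorial : ℝ) ^ 2 * c α0 ^ 2 * F ≤ (j.factorial : ℝ) ^ 2 * c α0 ^ 2 * Pk := by gcongr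
      _ = F ^ 2 * ((Kl.card : ℝ) ^ 2 * c α0 ^ 2 * Pk) := by rw [← hcardR]; ring
      _ ≤ _ := by gcongr
  have h5 : (j.factorial : ℝ) * F * (c α0 ^ 2 * (j.factorial : ℝ)) ≤
      (j.factorial : ℝ) * F * ((Real.exp 1 * M) ^ j * F) := by
    calc _ = (j.factorial : ℝ) ^ 2 * c α0 ^ 2 * F := by ring
      _ ≤ _ := h4
      _ = _ := by ring
  exact le_of_mul_le_mul_left h5 (by positivity)

end Pool.Agent.H933R2.HopfN
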