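import Pool.Agent.H933R2.HopfN.St

set_option autoImplicit false
set_option linter.all false

/-!
Task DEC of project HopfN: decomposition of a curvature tensor with vanishing scalar curvature.
-/

namespace Pool.Agent.H933R2.HopfN

theorem dec_kd_comm {ι : Type} [DecidableEq ι] (a b : ι) : kd a b = kd b a := by
  unfold kd
  by_cases h : a = b
  · subst h; rfl
  · rw [if_neg h, if_neg (fun h' => h h'.symm)]

theorem dec_kn_curv {ι : Type} [DecidableEq ι] (A : T2 ι) (hA : IsSym A) : IsCurv (kn A) where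
  a1 a b c d := by unfold kn; ring
  a2 a b c d := by unfold kn; ring
  ps a b c d := by
    unfold kn
    rw [dec_kd_comm c a, dec_kd_comm c b, dec_kd_comm d a, dec_kd_comm d b,
      hA b d, hA a d, hA b c, hA a c]
    ring
  bi a b c d := by
    unfold kn
    rw [dec_kd_comm c b, dec_kd_comm d b, dec_kd_comm d c, hA b c, hA b d, hA c d]
    ring

theorem dec_ric_kn {ι : Type} [Fintype ι] [DecidableEq ι] (A : T2 ι) (b d : ι) :
    Ric (kn A) b d = ((Fintype.card ι : ℝ) - 2) * A b d + kd b d * tr2 A := by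
  unfold Ric kn tr2
  have h1 : ∀ x : ι, kd x x * A b d - kd x d * A b x - kd b x * A x d + kd b d * A x x =
      A b d - (if x = d then A b x else 0) - (if b = x then A x d else 0) + kd b d * A x x := by
    intro x
    unfold kd
    simp only [if_true, one_mul, ite_mul, zero_mul]
  simp_rw [h1]
  rw [Finset.sum_add_distrib, Finset.sum_sub_distrib, Finset.sum_sub_distrib,
    Finset.sum_ite_eq', Finset.sum_ite_eq, Finset.mul_sum]
  simp only [Finset.mem_univ, if_true, Finset.sum_const, Finset.card_univ, nsmul_eq_mul]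
  ring

theorem dec_hs4_nonneg {ι : Type} [Fintype ι] (R : T4 ι) : 0 ≤ hs4 R := by
  unfold hs4; positivity

theorem dec_hs2_nonneg {ι : Type} [Fintype ι] (R : T2 ι) : 0 ≤ hs2 R := by
  unfold hs2; positivity

theorem dec_hs4_comb {ι : Type} [Fintype ι] (R S T : T4 ι)
    (h : ∀ a b c d, R a b c d ^ 2 ≤ 2 * S a b c d ^ 2 + 2 * T a b c d ^ 2) :
    hs4 R ≤ 2 * hs4 S + 2 * hs4 T := by
  unfold hs4
  simp only [Finset.mul_sum, ← Finset.sum_add_distrib]
  exact Finset.sum_le_sum fun a _ => Finset.sum_le_sum fun b _ => Finset.sum_le_sum fun c _ =>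
    Finset.sum_le_sum fun d _ => h a b c d

theorem dec_main (h : St_knb) : St_dec := by
  intro ι _ _ hn E hE hE0
  have hn4 : (4 : ℝ) ≤ (Fintype.card ι : ℝ) := by exact_mod_cast hn
  set n : ℝ := (Fintype.card ι : ℝ) with hndef
  have hn2 : 0 < n - 2 := by linarith
  have hne : n - 2 ≠ 0 := ne_of_gt hn2
  let A : T2 ι := fun b d => (n - 2)⁻¹ * Ric E b d
  let W : T4 ι := fun a b c d => E a b c d - kn A a b c d
  have hsym : IsSym A := by
    intro a b
    show (n - 2)⁻¹ * Ric E b a = (n - 2)⁻¹ * Ric E a b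
    congr 1
    unfold Ric
    exact Finset.sum_congr rfl fun x _ => hE.ps x a x b
  have htr : tr2 A = 0 := by
    show ∑ a, (n - 2)⁻¹ * Ric E a a = 0
    rw [← Finset.mul_sum]
    have : ∑ a, Ric E a a = 0 := hE0
    rw [this, mul_zero]
  have hk := dec_kn_curv A hsym
  have hW : IsCurv W := by
    refine ⟨?_, ?_, ?_, ?_⟩
    · intro a b c d
      show E b a c d - kn A b a c d = -(E a b c d - kn A a b c d)
      rw [hE.a1, hk.a1]; ring
    · intro a b c d
      show E a b d c - kn A a b d c = -(E a b c d - kn A a b c d)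
      rw [hE.a2, hk.a2]; ring
    · intro a b c d
      show E c d a b - kn A c d a b = (E a b c d - kn A a b c d)
      rw [hE.ps, hk.ps]
    · intro a b c d
      show (E a b c d - kn A a b c d) + (E a c d b - kn A a c d b) + (E a d b c - kn A a d b c) = 0
      have h1 := hE.bi a b c d
      have h2 := hk.bi a b c d
      linarith
  have hRic : ∀ a b, Ric W a b = 0 := by
    intro a b
    have h1 : Ric W a b = Ric E a b - Ric (kn A) a b := by
      show ∑ x, (E x a x b - kn A x a x b) = (∑ x, E x a x b) - ∑ x, kn A x a x b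
      rw [Finset.sum_sub_distrib]
    rw [h1, dec_ric_kn, htr, mul_zero, add_zero]
    show Ric E a b - (n - 2) * ((n - 2)⁻¹ * Ric E a b) = 0
    rw [← mul_assoc, mul_inv_cancel₀ hne]
    ring
  have hknA := h ι A
  have hA : hs2 A = (n - 2)⁻¹ ^ 2 * hs2 (Ric E) := by
    show ∑ a, ∑ b, ((n - 2)⁻¹ * Ric E a b) ^ 2 = (n - 2)⁻¹ ^ 2 * ∑ a, ∑ b, Ric E a b ^ 2
    simp only [Finset.mul_sum, mul_pow]
  have hA' : (n - 2) ^ 2 * hs2 A = hs2 (Ric E) := by
    rw [hA, ← mul_assoc, ← mul_pow, mul_inv_cancel₀ hne]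
    ring
  have hA0 := dec_hs2_nonneg A
  have hW0 := dec_hs4_nonneg W
  have h1 : hs4 W ≤ 2 * hs4 E + 2 * hs4 (kn A) := by
    apply dec_hs4_comb
    intro a b c d
    show (E a b c d - kn A a b c d) ^ 2 ≤ _
    nlinarith [sq_nonneg (E a b c d + kn A a b c d)]
  have h2 : hs4 E ≤ 2 * hs4 W + 2 * hs4 (kn A) := by
    apply dec_hs4_comb
    intro a b c d
    show E a b c d ^ 2 ≤ 2 * (E a b c d - kn A a b c d) ^ 2 + 2 * kn A a b c d ^ 2
    nlinarith [sq_nonneg (E a b c d - 2 * kn A a b c d)]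
  refine ⟨W, A, hW, hRic, hsym, htr, ?_, ?_, ?_⟩
  · funext a b c d
    show E a b c d = (E a b c d - kn A a b c d) + kn A a b c d
    ring
  · have h3 : n ^ 2 * hs2 A ≤ 4 * hs2 (Ric E) := by
      rw [← hA']
      nlinarith [mul_nonneg hA0 (mul_nonneg (by linarith : (0 : ℝ) ≤ n - 4)
        (by linarith : (0 : ℝ) ≤ 3 * n - 4))]
    have h4 : 16 * n * hs2 A ≤ 4 * (n ^ 2 * hs2 A) := by
      nlinarith [mul_nonneg hA0 (mul_nonneg (by linarith : (0 : ℝ) ≤ n - 4)
        (by linarith : (0 : ℝ) ≤ n))]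
    have h5 : hs4 (kn A) ≤ 8 * n * hs2 A := hknA
    nlinarith
  · have h4 : 16 * n * hs2 A ≤ 4 * (n ^ 2 * hs2 A) := by
      nlinarith [mul_nonneg hA0 (mul_nonneg (by linarith : (0 : ℝ) ≤ n - 4)
        (by linarith : (0 : ℝ) ≤ n))]
    have h5 : hs4 (kn A) ≤ 8 * n * hs2 A := hknA
    nlinarith

end Pool.Agent.H933R2.HopfN
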