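import Pool.Agent.H933R2.HopfN.St

set_option autoImplicit false
set_option linter.all false

/-! Project HopfN (helper933), task EMB (helper48). -/

namespace Pool.Agent.H933R2.HopfN

open Finset

/-- inner sum for a fixed choice of indices -/
def emb_Phi {ι : Type} (j : ℕ) (R : T4 ι) (g : Pos j → ι) : ℝ :=
  ∑ τ : Equiv.Perm (Pos j),
    sg τ * ∏ i : Fin j, R (g (i, 0)) (g (i, 1)) (g (τ (i, 0))) (g (τ (i, 1)))

lemma emb_sg_mul {α : Type} [Fintype α] [DecidableEq α] (σ τ : Equiv.Perm α) :
    sg (σ * τ) = sg σ * sg τ := by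
  unfold sg
  rw [Equiv.Perm.sign_mul]
  push_cast
  ring

lemma emb_sg_sq {α : Type} [Fintype α] [DecidableEq α] (σ : Equiv.Perm α) :
    sg σ * sg σ = 1 := by
  unfold sg
  rcases Int.units_eq_one_or (Equiv.Perm.sign σ) with h | h <;> rw [h] <;> norm_num

lemma emb_Phi_zero {ι : Type} (j : ℕ) (R : T4 ι) (g : Pos j → ι)
    (hg : ¬ Function.Injective g) : emb_Phi j R g = 0 := by
  classical
  have h1 : ∃ p q, g p = g q ∧ p ≠ q := by
    unfold Function.Injective at hg
    push Not at hg
    exact hg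
  obtain ⟨p, q, hpq, hne⟩ := h1
  have h2 : emb_Phi j R g = - emb_Phi j R g := by
    conv_lhs => unfold emb_Phi
    rw [← Equiv.sum_comp (Equiv.mulLeft (Equiv.swap p q))]
    unfold emb_Phi
    rw [← Finset.sum_neg_distrib]
    refine Finset.sum_congr rfl fun τ _ => ?_
    have h3 : sg (Equiv.swap p q * τ) = - sg τ := by
      unfold sg
      rw [Equiv.Perm.sign_mul, Equiv.Perm.sign_swap hne]
      simp
    have h4 : ∀ x, g (Equiv.swap p q x) = g x := by
      intro x
      by_cases hx : x = p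
      · rw [hx, Equiv.swap_apply_left, hpq]
      · by_cases hy : x = q
        · rw [hy, Equiv.swap_apply_right, hpq]
        · rw [Equiv.swap_apply_of_ne_of_ne hx hy]
    simp only [Equiv.coe_mulLeft, Equiv.Perm.mul_apply, h3, h4]
    ring
  linarith

lemma emb_gb {ι : Type} (j : ℕ) (R : T4 ι) (f : Pos j → ι) :
    gb j (res4 f R) = ∑ σ : Equiv.Perm (Pos j), emb_Phi j R (fun x => f (σ x)) := by
  unfold gb emb_Phi res4
  refine Finset.sum_congr rfl fun σ _ => ?_
  rw [← Equiv.sum_comp (Equiv.mulLeft σ)]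
  refine Finset.sum_congr rfl fun τ _ => ?_
  have h1 : sg σ * (sg σ * sg τ) = sg τ := by
    rw [← mul_assoc, emb_sg_sq, one_mul]
  simp only [Equiv.coe_mulLeft, Equiv.Perm.mul_apply, emb_sg_mul, h1]

lemma emb_GG {ι : Type} [Fintype ι] [DecidableEq ι] (j : ℕ) (R : T4 ι) :
    GG j R = ∑ f : Pos j ↪ ι, emb_Phi j R f := by
  classical
  have h1 : GG j R = ∑ g : Pos j → ι, emb_Phi j R g := rfl
  rw [h1]
  have h2 : ∑ g : Pos j → ι, emb_Phi j R g =
      ∑ g ∈ Finset.univ.filter (fun g : Pos j → ι => Function.Injective g), emb_Phi j R g := by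
    rw [Finset.sum_filter]
    refine Finset.sum_congr rfl fun g _ => ?_
    by_cases hg : Function.Injective g
    · rw [if_pos hg]
    · rw [if_neg hg, emb_Phi_zero j R g hg]
  rw [h2, ← Equiv.sum_comp (Equiv.subtypeInjectiveEquivEmbedding (Pos j) ι)]
  rw [Finset.sum_subtype (Finset.univ.filter (fun g : Pos j → ι => Function.Injective g))
    (p := fun g : Pos j → ι => Function.Injective g) (by intro x; simp)]
  rfl

theorem emb_main : St_emb := by
  classical
  constructor
  · intro ι _ _ j R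
    rw [emb_GG]
    simp only [emb_gb]
    rw [Finset.sum_comm]
    have h1 : ∀ σ : Equiv.Perm (Pos j), ∑ f : Pos j ↪ ι, emb_Phi j R (fun x => f (σ x)) =
        ∑ f : Pos j ↪ ι, emb_Phi j R f := by
      intro σ
      rw [← Equiv.sum_comp (Equiv.embeddingCongr σ (Equiv.refl ι))]
      refine Finset.sum_congr rfl fun f _ => ?_
      congr 1
      funext x
      simp [Equiv.embeddingCongr]
    rw [Finset.sum_congr rfl fun σ _ => h1 σ, Finset.sum_const, Finset.card_univ,
      Fintype.card_perm, Fintype.card_prod, Fintype.card_fin, Fintype.card_fin, nsmul_eq_mul,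
      mul_comm j 2]
  · intro j T
    rw [emb_GG]
    have h1 : gb j T = gb j (res4 (fun x => x) T) := rfl
    rw [h1, emb_gb, ← Equiv.sum_comp (Equiv.embeddingEquivOfFinite (Pos j)).symm]
    rfl

end Pool.Agent.H933R2.HopfN
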