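import Pool.Agent.H933R2.HopfN.St

set_option autoImplicit false
set_option linter.all false

/-! Project HopfN (helper933), task EXPAND (helper48). -/

namespace Pool.Agent.H933R2.HopfN

open Finset

/-- full contraction of a product of different tensors, indexed by a finite type -/
def expand_GJ {ι J : Type} [Fintype ι] [Fintype J] [DecidableEq J] (R : J → T4 ι) : ℝ :=
  ∑ f : J × Fin 2 → ι, ∑ τ : Equiv.Perm (J × Fin 2),
    sg τ * ∏ i : J, R i (f (i, 0)) (f (i, 1)) (f (τ (i, 0))) (f (τ (i, 1)))

lemma expand_GG_eq {ι : Type} [Fintype ι] (m : ℕ) (R : T4 ι) :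
    GG m R = expand_GJ (fun _ : Fin m => R) := rfl

/-- transport of a sum over functions and permutations along an equivalence -/
lemma expand_transport {ι α β : Type} [Fintype ι] [Fintype α] [DecidableEq α] [Fintype β]
    [DecidableEq β] (e : α ≃ β) (F : (α → ι) → (α → ι) → ℝ) :
    ∑ f : α → ι, ∑ τ : Equiv.Perm α, sg τ * F f (fun x => f (τ x)) =
      ∑ f : β → ι, ∑ τ : Equiv.Perm β, sg τ * F (fun x => f (e x)) (fun x => f (τ (e x))) := by
  rw [← Equiv.sum_comp (e.symm.arrowCongr (Equiv.refl ι))]
  refine Finset.sum_congr rfl fun f _ => ?_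
  rw [← Equiv.sum_comp (e.symm.permCongr)]
  refine Finset.sum_congr rfl fun τ _ => ?_
  have h1 : sg (e.symm.permCongr τ) = sg τ := by
    unfold sg
    rw [Equiv.Perm.sign_permCongr]
  rw [h1]
  simp [Equiv.arrowCongr, Equiv.permCongr, Function.comp_def]

lemma expand_GJ_congr {ι J J' : Type} [Fintype ι] [Fintype J] [DecidableEq J] [Fintype J']
    [DecidableEq J'] (e : J' ≃ J) (R : J → T4 ι) :
    expand_GJ (fun i => R (e i)) = expand_GJ R := by
  unfold expand_GJ
  have h := expand_transport (ι := ι) (Equiv.prodCongr e (Equiv.refl (Fin 2)))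
    (fun g g' => ∏ i : J', R (e i) (g (i, 0)) (g (i, 1)) (g' (i, 0)) (g' (i, 1)))
  rw [h]
  refine Finset.sum_congr rfl fun f _ => Finset.sum_congr rfl fun τ _ => ?_
  congr 1
  simp only [Equiv.prodCongr_apply, Prod.map_apply, Equiv.refl_apply]
  exact Equiv.prod_comp e (fun i => R i (f (i, 0)) (f (i, 1)) (f (τ (i, 0))) (f (τ (i, 1))))

/-- the equivalence used for one step -/
def expand_eq (J : Type) : Option J × Fin 2 ≃ Option (Option (J × Fin 2)) where
  toFun x := match x with
    | (none, 0) => none
    | (none, 1) => some none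
    | (some j, i) => some (some (j, i))
  invFun y := match y with
    | none => (none, 0)
    | some none => (none, 1)
    | some (some (j, i)) => (some j, i)
  left_inv x := by
    rcases x with ⟨x, i⟩
    cases x with
    | none => fin_cases i <;> rfl
    | some j => rfl
  right_inv y := by
    rcases y with _ | _ | ⟨j, i⟩ <;> rfl

lemma expand_step (hc : St_contr) {ι J : Type} [Fintype ι] [DecidableEq ι] [Fintype J]
    [DecidableEq J] (R : Option J → T4 ι) (hR : R none = Id4) :
    expand_GJ R = 2 * ((Fintype.card ι : ℝ) - 2 * (Fintype.card J : ℝ)) *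
      ((Fintype.card ι : ℝ) - 2 * (Fintype.card J : ℝ) - 1) * expand_GJ (fun j => R (some j)) := by
  classical
  set n : ℝ := (Fintype.card ι : ℝ) with hn
  -- the product over `J`
  set h' : (J × Fin 2 → ι) → (J × Fin 2 → ι) → ℝ := fun g g' =>
    ∏ j : J, R (some j) (g (j, 0)) (g (j, 1)) (g' (j, 0)) (g' (j, 1)) with hh'
  set A : ℝ := ∑ f : Option J × Fin 2 → ι, ∑ τ : Equiv.Perm (Option J × Fin 2),
    sg τ * (kd (f (none, 0)) (f (τ (none, 0))) * (kd (f (none, 1)) (f (τ (none, 1))) *
      h' (fun x => f (some x.1, x.2)) (fun x => f (τ (some x.1, x.2))))) with hA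
  set B : ℝ := ∑ f : Option J × Fin 2 → ι, ∑ τ : Equiv.Perm (Option J × Fin 2),
    sg τ * (kd (f (none, 0)) (f (τ (none, 1))) * (kd (f (none, 1)) (f (τ (none, 0))) *
      h' (fun x => f (some x.1, x.2)) (fun x => f (τ (some x.1, x.2))))) with hB
  have h1 : expand_GJ R = A - B := by
    rw [hA, hB, ← Finset.sum_sub_distrib]
    unfold expand_GJ
    refine Finset.sum_congr rfl fun f _ => ?_
    rw [← Finset.sum_sub_distrib]
    refine Finset.sum_congr rfl fun τ _ => ?_
    rw [Fintype.prod_option, hR, hh']
    simp only [Id4]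
    ring
  have h2 : B = - A := by
    rw [hA, hB, ← Finset.sum_neg_distrib]
    refine Finset.sum_congr rfl fun f _ => ?_
    rw [← Equiv.sum_comp (Equiv.mulRight (Equiv.swap ((none, 0) : Option J × Fin 2) (none, 1))),
      ← Finset.sum_neg_distrib]
    refine Finset.sum_congr rfl fun τ _ => ?_
    have hne : ((none, 0) : Option J × Fin 2) ≠ (none, 1) := by simp
    have hs : sg (τ * Equiv.swap ((none, 0) : Option J × Fin 2) (none, 1)) = - sg τ := by
      unfold sg
      rw [Equiv.Perm.sign_mul, Equiv.Perm.sign_swap hne]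
      simp
    have h3 : ∀ x : J × Fin 2, Equiv.swap ((none, 0) : Option J × Fin 2) (none, 1)
        (some x.1, x.2) = (some x.1, x.2) := fun x =>
      Equiv.swap_apply_of_ne_of_ne (by simp) (by simp)
    simp only [Equiv.coe_mulRight, Equiv.Perm.mul_apply, Equiv.swap_apply_left,
      Equiv.swap_apply_right, hs, h3]
    ring
  have h4 : A = (n - 2 * (Fintype.card J : ℝ)) * (n - 2 * (Fintype.card J : ℝ) - 1) *
      expand_GJ (fun j => R (some j)) := by
    have e1 := expand_transport (ι := ι) (expand_eq J)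
      (fun g g' => kd (g (none, 0)) (g' (none, 0)) * (kd (g (none, 1)) (g' (none, 1)) *
        h' (fun x => g (some x.1, x.2)) (fun x => g' (some x.1, x.2))))
    rw [hA, e1]
    have e2 := hc ι (Option (J × Fin 2)) (fun g g' => kd (g none) (g' none) *
      h' (fun x => g (some x)) (fun x => g' (some x)))
    have e3 := hc ι (J × Fin 2) h'
    have e4 : ∀ x : J × Fin 2, expand_eq J (some x.1, x.2) = some (some x) := fun x => rfl
    have e5 : expand_eq J (none, 0) = none := rfl
    have e6 : expand_eq J (none, 1) = some none := rfl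
    simp only [e4, e5, e6]
    rw [e2, e3]
    have e7 : (Fintype.card (Option (J × Fin 2)) : ℝ) = 2 * (Fintype.card J : ℝ) + 1 := by
      rw [Fintype.card_option, Fintype.card_prod, Fintype.card_fin]
      push_cast
      ring
    have e8 : (Fintype.card (J × Fin 2) : ℝ) = 2 * (Fintype.card J : ℝ) := by
      rw [Fintype.card_prod, Fintype.card_fin]
      push_cast
      ring
    rw [e7, e8]
    unfold expand_GJ
    rw [hh']
    ring
  rw [h1, h2, h4]
  ring

/-- coefficients -/
def expand_c (n : ℝ) (j : ℕ) : ℕ → ℝ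
  | 0 => 1
  | p + 1 => 2 * (n - 2 * ((p + j : ℕ) : ℝ)) * (n - 2 * ((p + j : ℕ) : ℝ) - 1) * expand_c n j p

lemma expand_subset (hc : St_contr) {ι : Type} [Fintype ι] [DecidableEq ι] (E : T4 ι) (j : ℕ) :
    ∀ (p : ℕ) (J : Type) [Fintype J] [DecidableEq J] (s : Finset J), s.card = p →
      Fintype.card J = p + j →
      expand_GJ (fun i => if i ∈ s then (Id4 : T4 ι) else E) =
        expand_c (Fintype.card ι : ℝ) j p * GG j E := by
  intro p
  induction p with
  | zero =>
    intro J _ _ s hs hJ
    have h0 : s = ∅ := Finset.card_eq_zero.mp hs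
    subst h0
    simp only [Finset.notMem_empty, if_false, expand_c, one_mul]
    rw [expand_GG_eq]
    have e : Fin j ≃ J := (Fintype.equivFinOfCardEq (by omega)).symm
    exact (expand_GJ_congr e (fun _ => E)).symm
  | succ p ih =>
    intro J _ _ s hs hJ
    obtain ⟨x, hx⟩ : s.Nonempty := by
      rw [← Finset.card_pos]
      omega
    have e : Option {y : J // y ≠ x} ≃ J := Equiv.optionSubtypeNe x
    rw [← expand_GJ_congr (Equiv.optionSubtypeNe x)
      (fun i => if i ∈ s then (Id4 : T4 ι) else E)]
    rw [expand_step hc _ (by simp [hx])]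
    have hcard : Fintype.card {y : J // y ≠ x} = p + j := by
      have := Fintype.card_congr (Equiv.optionSubtypeNe x)
      rw [Fintype.card_option] at this
      omega
    rw [hcard]
    have h5 := ih {y : J // y ≠ x} (s.subtype (fun y => y ≠ x)) (by
      rw [Finset.card_subtype]
      have : s.filter (fun y => y ≠ x) = s.erase x := by
        ext y
        simp only [Finset.mem_filter, Finset.mem_erase]
        tauto
      rw [this, Finset.card_erase_of_mem hx]
      omega) hcard
    have h6 : (fun j : {y : J // y ≠ x} =>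
        (fun i : Option {y : J // y ≠ x} =>
          if (Equiv.optionSubtypeNe x) i ∈ s then (Id4 : T4 ι) else E) (some j)) =
        (fun i : {y : J // y ≠ x} => if i ∈ s.subtype (fun y => y ≠ x) then (Id4 : T4 ι) else E) := by
      funext i
      simp
    simp only at h6
    rw [h6, h5, expand_c]
    push_cast
    ring

lemma expand_c_value (m j : ℕ) : ∀ p : ℕ, p + j ≤ m →
    expand_c ((2 * m : ℕ) : ℝ) j p * ((2 * m - 2 * j - 2 * p).factorial : ℝ) =
      2 ^ p * ((2 * m - 2 * j).factorial : ℝ) := by
  intro p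
  induction p with
  | zero => intro _; simp [expand_c]
  | succ p ih =>
    intro hp
    have h1 := ih (by omega)
    obtain ⟨t, ht⟩ : ∃ t, m = p + j + 1 + t := ⟨m - (p + j + 1), by omega⟩
    have h2 : 2 * m - 2 * j - 2 * p = (2 * t + 1) + 1 := by omega
    have h3 : 2 * m - 2 * j - 2 * (p + 1) = 2 * t := by omega
    rw [h2, Nat.factorial_succ, Nat.factorial_succ] at h1
    rw [h3, expand_c]
    have h4 : ((2 * m : ℕ) : ℝ) - 2 * ((p + j : ℕ) : ℝ) = 2 * (t : ℝ) + 2 := by
      rw [ht]
      push_cast
      ring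
    rw [h4, pow_succ]
    push_cast at h1 ⊢
    have h5 : 2 * (2 * (t : ℝ) + 2) * (2 * (t : ℝ) + 2 - 1) * expand_c (2 * (m : ℝ)) j p *
        ((2 * t).factorial : ℝ) =
        2 * (expand_c (2 * (m : ℝ)) j p * ((2 * (t : ℝ) + 1 + 1) * ((2 * (t : ℝ) + 1) *
          ((2 * t).factorial : ℝ)))) := by ring
    rw [h5, h1]
    ring

theorem expand_main (h : St_contr) : St_expand := by
  intro m ι _ _ hcard k E
  -- expansion of the product
  have h1 : GG m (fun a b c d => k * Id4 a b c d + E a b c d) =
      ∑ s ∈ (Finset.univ : Finset (Fin m)).powerset, k ^ s.card *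
        expand_GJ (fun i : Fin m => if i ∈ s then (Id4 : T4 ι) else E) := by
    unfold GG expand_GJ
    simp only [Finset.mul_sum]
    symm
    rw [Finset.sum_comm]
    refine Finset.sum_congr rfl fun f _ => ?_
    rw [Finset.sum_comm]
    refine Finset.sum_congr rfl fun τ _ => ?_
    rw [Finset.prod_add, Finset.mul_sum]
    refine Finset.sum_congr rfl fun s _ => ?_
    rw [Finset.prod_mul_distrib, Finset.prod_const]
    have h2 : ∏ i : Fin m, (if i ∈ s then (Id4 : T4 ι) else E) (f (i, 0)) (f (i, 1))
        (f (τ (i, 0))) (f (τ (i, 1))) =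
        (∏ i ∈ s, (Id4 : T4 ι) (f (i, 0)) (f (i, 1)) (f (τ (i, 0))) (f (τ (i, 1)))) *
        ∏ i ∈ Finset.univ \ s, E (f (i, 0)) (f (i, 1)) (f (τ (i, 0))) (f (τ (i, 1))) := by
      rw [← Finset.prod_sdiff (Finset.subset_univ s), mul_comm]
      congr 1
      · refine Finset.prod_congr rfl fun i hi => ?_
        rw [if_pos hi]
      · refine Finset.prod_congr rfl fun i hi => ?_
        rw [if_neg (Finset.mem_sdiff.mp hi).2]
    rw [h2]
    ring
  rw [h1]
  have h2 : ∀ s ∈ (Finset.univ : Finset (Fin m)).powerset, k ^ s.card *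
        expand_GJ (fun i : Fin m => if i ∈ s then (Id4 : T4 ι) else E) =
      (fun p : ℕ => (2 * k) ^ p * ((2 * p).factorial : ℝ) * GG (m - p) E) s.card := by
    intro s _
    have hs : s.card ≤ m := by
      have := Finset.card_le_univ s
      simpa using this
    rw [expand_subset h E (m - s.card) s.card (Fin m) s rfl (by rw [Fintype.card_fin]; omega)]
    have h3 := expand_c_value m (m - s.card) s.card (by omega)
    have h4 : 2 * m - 2 * (m - s.card) - 2 * s.card = 0 := by omega
    have h5 : 2 * m - 2 * (m - s.card) = 2 * s.card := by omega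
    rw [h4, h5, Nat.factorial_zero, Nat.cast_one, mul_one] at h3
    rw [hcard, h3]
    simp only
    rw [mul_pow]
    ring
  have h6 := Finset.sum_powerset_apply_card (fun p : ℕ => (2 * k) ^ p *
    ((2 * p).factorial : ℝ) * GG (m - p) E) (x := (Finset.univ : Finset (Fin m)))
  rw [Finset.sum_congr rfl h2]
  simp only at h6 ⊢
  rw [h6, Finset.card_univ, Fintype.card_fin, ← Finset.sum_range_reflect]
  refine Finset.sum_congr rfl fun j hj => ?_
  have hj' : j ≤ m := by
    have := Finset.mem_range.mp hj
    omega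
  have e1 : m + 1 - 1 - j = m - j := by omega
  have e2 : m - (m - j) = j := by omega
  have e3 : 2 * (m - j) = 2 * m - 2 * j := by omega
  rw [e1, e2, e3, Nat.choose_symm hj', nsmul_eq_mul]
  ring

end Pool.Agent.H933R2.HopfN
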