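import Pool.Agent.H933R2.HopfN.St

set_option autoImplicit false
set_option linter.all false

namespace Pool.Agent.H933R2.HopfN

lemma fin_GG0 {ι : Type} [Fintype ι] (E : T4 ι) : GG 0 E = 1 := by
  unfold GG
  simp [sg]

lemma fin_univ_perm : (Finset.univ : Finset (Equiv.Perm (Pos 1))) =
    {1, Equiv.swap ((0, 0) : Pos 1) (0, 1)} := by decide

def fin_equiv (ι : Type) : (Pos 1 → ι) ≃ ι × ι where
  toFun f := (f (0, 0), f (0, 1))
  invFun p := fun q => if q.2 = 0 then p.1 else p.2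
  left_inv f := by
    funext q
    rcases q with ⟨i, j⟩
    fin_cases i
    fin_cases j <;> simp
  right_inv p := by
    rcases p with ⟨a, b⟩
    simp

lemma fin_GG1 {ι : Type} [Fintype ι] (E : T4 ι) (hE : IsCurv E) (ht : tr2 (Ric E) = 0) :
    GG 1 E = 0 := by
  unfold GG
  have h1 : ∀ f : Pos 1 → ι, ∑ τ : Equiv.Perm (Pos 1),
      sg τ * ∏ i : Fin 1, E (f (i, 0)) (f (i, 1)) (f (τ (i, 0))) (f (τ (i, 1))) =
      2 * E (f (0, 0)) (f (0, 1)) (f (0, 0)) (f (0, 1)) := by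
    intro f
    have hne : (1 : Equiv.Perm (Pos 1)) ≠ Equiv.swap ((0, 0) : Pos 1) (0, 1) := by decide
    rw [fin_univ_perm, Finset.sum_pair hne]
    have hs1 : sg (1 : Equiv.Perm (Pos 1)) = 1 := by simp [sg]
    have hs2 : sg (Equiv.swap ((0, 0) : Pos 1) (0, 1)) = -1 := by
      unfold sg
      rw [Equiv.Perm.sign_swap (by decide)]
      simp
    rw [hs1, hs2]
    simp only [Fin.prod_univ_one, Equiv.Perm.coe_one, id_eq, Equiv.swap_apply_left,
      Equiv.swap_apply_right]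
    rw [hE.a2 (f (0, 0)) (f (0, 1)) (f (0, 0)) (f (0, 1))]
    ring
  rw [Finset.sum_congr rfl fun f _ => h1 f]
  have h2 : ∑ f : Pos 1 → ι, 2 * E (f (0, 0)) (f (0, 1)) (f (0, 0)) (f (0, 1)) =
      ∑ p : ι × ι, 2 * E p.1 p.2 p.1 p.2 :=
    Fintype.sum_equiv (fin_equiv ι) _ _ (fun f => rfl)
  rw [h2, Fintype.sum_prod_type, Finset.sum_comm]
  have h3 : ∑ y : ι, ∑ x : ι, 2 * E x y x y = 2 * tr2 (Ric E) := by
    unfold tr2 Ric
    rw [Finset.mul_sum]
    refine Finset.sum_congr rfl fun y _ => ?_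
    rw [Finset.mul_sum]
  simp only
  rw [h3, ht, mul_zero]

lemma fin_geom (r : ℝ) (h0 : 0 ≤ r) (h1 : r ≤ 1 / 2) (n : ℕ) :
    ∑ i ∈ Finset.range n, r ^ i ≤ 2 := by
  induction n with
  | zero => simp
  | succ n ih =>
    rw [Finset.sum_range_succ']
    have : ∑ i ∈ Finset.range n, r ^ (i + 1) = r * ∑ i ∈ Finset.range n, r ^ i := by
      rw [Finset.mul_sum]
      refine Finset.sum_congr rfl fun i _ => ?_
      rw [pow_succ]
      ring
    rw [this, pow_zero]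
    have h2 : 0 ≤ ∑ i ∈ Finset.range n, r ^ i := Finset.sum_nonneg fun i _ => pow_nonneg h0 i
    nlinarith

theorem fin_main (h1 : St_expand) (h2 : St_emb) (h3 : St_term) : St_fin := by
  intro m hm ι _ _ hcard E hE ht k hk hX
  set X : ℝ := hs4 E + hs2 (Ric E) with hXd
  have hX0 : 0 ≤ X := by
    rw [hXd]
    unfold hs4 hs2
    positivity
  rw [h1 m ι hcard k E]
  -- the terms
  set T : ℕ → ℝ := fun j => (m.choose j : ℝ) * (2 * k) ^ (m - j) *
        ((2 * m - 2 * j).factorial : ℝ) * GG j E with hT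
  have hm' : (0 : ℝ) < m := by
    have : 0 < m := by omega
    exact_mod_cast this
  have hk' : 0 < |k| := abs_pos.mpr hk
  set P : ℝ := |2 * k| ^ m * ((2 * m).factorial : ℝ) with hP
  have hP0 : 0 ≤ P := by positivity
  have h2k : |2 * k| = 2 * |k| := by rw [abs_mul]; norm_num
  set ρ : ℝ := 64512 * Real.sqrt (20 * X) / (2 * m * |k|) with hρ
  have hρ0 : 0 ≤ ρ := by positivity
  have hden : (2 * (m : ℝ) * |k|) ^ 2 = (2 * m * k) ^ 2 := by
    rw [mul_pow, mul_pow (2 * (m : ℝ)) k, sq_abs]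
  have hden0 : 0 < (2 * (m : ℝ) * k) ^ 2 := by
    rw [← hden]; positivity
  have hρ2 : ρ ^ 2 = 64512 ^ 2 * 20 * (X / (2 * m * k) ^ 2) := by
    rw [hρ, div_pow, hden, mul_pow, Real.sq_sqrt (by positivity)]
    ring
  have hu : X / (2 * m * k) ^ 2 ≤ 1 / 10 ^ 12 := by
    rw [div_le_div_iff₀ hden0 (by norm_num)]
    linarith
  have hu0 : 0 ≤ X / (2 * m * k) ^ 2 := by positivity
  have hρh : ρ ≤ 1 / 2 := by
    have h5 : ρ ^ 2 ≤ (1 / 2 : ℝ) ^ 2 := by
      rw [hρ2]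
      have := mul_le_mul_of_nonneg_left hu (show (0 : ℝ) ≤ 64512 ^ 2 * 20 by norm_num)
      refine this.trans ?_
      norm_num
    exact abs_le_of_sq_le_sq' h5 (by norm_num) |>.2
  have hterm : ∀ j : ℕ, 1 ≤ j → j ≤ m → |T j| ≤ ρ ^ j * P := by
    intro j hj1 hj2
    have h5 := h3 m hm ι hcard E hE ht X hXd |k| hk' j hj1 hj2
    have h6 : |T j| = (m.choose j : ℝ) * (2 * |k|) ^ (m - j) *
        ((2 * m - 2 * j).factorial : ℝ) * |GG j E| := by
      simp only [hT]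
      rw [abs_mul, abs_mul, abs_mul, abs_pow, h2k, Nat.abs_cast, Nat.abs_cast]
    rw [h6, hP, h2k]
    exact h5
  have hT0 : T 0 = (2 * k) ^ m * ((2 * m).factorial : ℝ) := by
    simp only [hT]
    rw [fin_GG0]
    simp
  have hT1 : T 1 = 0 := by
    simp only [hT]
    rw [fin_GG1 E hE ht, mul_zero]
  have hsum : ∑ j ∈ Finset.range (m + 1), T j - (2 * k) ^ m * ((2 * m).factorial : ℝ) =
      ∑ i ∈ Finset.range (m - 1), T (i + 2) := by
    obtain ⟨n, rfl⟩ : ∃ n, m = n + 1 := ⟨m - 1, by omega⟩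
    rw [Finset.sum_range_succ', Finset.sum_range_succ']
    rw [show (0 : ℕ) + 1 = 1 from rfl, hT1, hT0]
    simp
  show |∑ j ∈ Finset.range (m + 1), T j - (2 * k) ^ m * ((2 * m).factorial : ℝ)| ≤
      2 * 10 ^ 11 * X / (2 * m * k) ^ 2 * P
  rw [hsum]
  calc |∑ i ∈ Finset.range (m - 1), T (i + 2)| ≤ ∑ i ∈ Finset.range (m - 1), |T (i + 2)| :=
        Finset.abs_sum_le_sum_abs _ _
    _ ≤ ∑ i ∈ Finset.range (m - 1), ρ ^ 2 * P * ρ ^ i := by
        refine Finset.sum_le_sum fun i hi => ?_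
        have hi' := Finset.mem_range.mp hi
        refine (hterm (i + 2) (by omega) (by omega)).trans (le_of_eq ?_)
        rw [pow_add]
        ring
    _ = ρ ^ 2 * P * ∑ i ∈ Finset.range (m - 1), ρ ^ i := by rw [Finset.mul_sum]
    _ ≤ ρ ^ 2 * P * 2 := by
        refine mul_le_mul_of_nonneg_left (fin_geom ρ hρ0 hρh _) (by positivity)
    _ = (64512 ^ 2 * 20 * 2) * (X / (2 * m * k) ^ 2) * P := by
        rw [hρ2]
        ring
    _ ≤ (2 * 10 ^ 11) * (X / (2 * m * k) ^ 2) * P := by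
        refine mul_le_mul_of_nonneg_right ?_ hP0
        refine mul_le_mul_of_nonneg_right ?_ hu0
        norm_num
    _ = 2 * 10 ^ 11 * X / (2 * m * k) ^ 2 * P := by ring

end Pool.Agent.H933R2.HopfN
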