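import Pool.Agent.H933R2.HopfN.St

set_option autoImplicit false
set_option linter.all false

/-!
Task GRD: the gradient of the functional.
-/

namespace Pool.Agent.H933R2.HopfN

open Finset

section
variable {ι : Type} [Fintype ι] [DecidableEq ι]

theorem grd_aux_kd (i : ι) (f : ι → ℝ) : ∑ a, kd a i * f a = f i := by
  simp [kd]

theorem grd_aux_comm (f : ι → ι → ι → ι → ℝ) :
    ∑ a, ∑ b, ∑ c, ∑ d, f c d a b = ∑ a, ∑ b, ∑ c, ∑ d, f a b c d := by
  have h1 : ∑ a, ∑ b, ∑ c, ∑ d, f c d a b =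
      ∑ p : ι × ι, ∑ r : ι × ι, f r.1 r.2 p.1 p.2 := by
    simp only [Fintype.sum_prod_type]
  have h2 : ∑ a, ∑ b, ∑ c, ∑ d, f a b c d =
      ∑ r : ι × ι, ∑ p : ι × ι, f r.1 r.2 p.1 p.2 := by
    simp only [Fintype.sum_prod_type]
  rw [h1, h2, sum_comm]

/-- the Gram matrix of `W` -/
def grdH (w : ι → ℝ) (W : T4 ι) (i l : ι) : ℝ :=
  ∑ b, ∑ c, ∑ d, w b * w c * w d * (W i b c d * W l b c d)

def grdB (w : ι → ℝ) (A : T2 ι) (i l : ι) : ℝ := ∑ b, w b * (A i b * A l b)

theorem grd_aux_S1 (w : ι → ℝ) (W : T4 ι) (i l : ι) :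
    ∑ a, ∑ b, ∑ c, ∑ d, w a * w b * w c * w d *
      (W a b c d * (kd a i * W l b c d - kd a l * W i b c d)) = (w i - w l) * grdH w W i l := by
  have h1 : ∀ a, ∑ b, ∑ c, ∑ d, w a * w b * w c * w d *
      (W a b c d * (kd a i * W l b c d - kd a l * W i b c d)) =
      kd a i * (w a * ∑ b, ∑ c, ∑ d, w b * w c * w d * (W a b c d * W l b c d)) -
      kd a l * (w a * ∑ b, ∑ c, ∑ d, w b * w c * w d * (W a b c d * W i b c d)) := by
    intro a
    simp only [mul_sum]
    rw [← sum_sub_distrib]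
    refine sum_congr rfl fun b _ => ?_
    rw [← sum_sub_distrib]
    refine sum_congr rfl fun c _ => ?_
    rw [← sum_sub_distrib]
    refine sum_congr rfl fun d _ => ?_
    ring
  rw [sum_congr rfl fun a _ => h1 a, sum_sub_distrib, grd_aux_kd, grd_aux_kd]
  have h2 : ∑ b, ∑ c, ∑ d, w b * w c * w d * (W l b c d * W i b c d) = grdH w W i l := by
    unfold grdH
    refine sum_congr rfl fun b _ => sum_congr rfl fun c _ => sum_congr rfl fun d _ => ?_
    ring
  rw [h2]
  unfold grdH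
  ring

theorem grd_aux_ip4 (w : ι → ℝ) (W : T4 ι) (hW : IsCurv W) (i l : ι) :
    ip4 w W (D4 i l W) = 4 * ((w i - w l) * grdH w W i l) := by
  let X : ι → ι → ι → ι → ℝ := fun a b c d => w a * w b * w c * w d *
      (W a b c d * (kd a i * W l b c d - kd a l * W i b c d))
  have hX : ∑ a, ∑ b, ∑ c, ∑ d, X a b c d = (w i - w l) * grdH w W i l := grd_aux_S1 w W i l
  have h2 : ∑ a, ∑ b, ∑ c, ∑ d, X b a c d = (w i - w l) * grdH w W i l := by
    rw [← hX]; exact sum_comm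
  have h3 : ∑ a, ∑ b, ∑ c, ∑ d, X c d a b = (w i - w l) * grdH w W i l := by
    rw [← hX]; exact grd_aux_comm X
  have h4 : ∑ a, ∑ b, ∑ c, ∑ d, X d c a b = (w i - w l) * grdH w W i l := by
    rw [← h2]; exact grd_aux_comm (fun a b c d => X b a c d)
  have h5 : ip4 w W (D4 i l W) = ∑ a, ∑ b, ∑ c, ∑ d, X a b c d +
      ∑ a, ∑ b, ∑ c, ∑ d, X b a c d + ∑ a, ∑ b, ∑ c, ∑ d, X c d a b +
      ∑ a, ∑ b, ∑ c, ∑ d, X d c a b := by
    unfold ip4
    simp only [← sum_add_distrib]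
    refine sum_congr rfl fun a _ => sum_congr rfl fun b _ => sum_congr rfl fun c _ =>
      sum_congr rfl fun d _ => ?_
    simp only [X, D4]
    have e1 : W b a c d = - W a b c d := hW.a1 a b c d
    have e2 : W l a c d = - W a l c d := hW.a1 a l c d
    have e3 : W i a c d = - W a i c d := hW.a1 a i c d
    have e4 : W c d a b = W a b c d := hW.ps a b c d
    have e5 : W l d a b = W a b l d := hW.ps a b l d
    have e6 : W i d a b = W a b i d := hW.ps a b i d
    have e7 : W d c a b = - W a b c d := by rw [hW.a1 c d a b, hW.ps a b c d]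
    have e8 : W l c a b = - W a b c l := by rw [hW.a1 c l a b, hW.ps a b c l]
    have e9 : W i c a b = - W a b c i := by rw [hW.a1 c i a b, hW.ps a b c i]
    rw [e1, e2, e3, e4, e5, e6, e7, e8, e9]
    ring
  rw [h5, hX, h2, h3, h4]
  ring

theorem grd_aux_ip2 (w : ι → ℝ) (A : T2 ι) (hA : IsSym A) (i l : ι) :
    ip2 w A (D2 i l A) = 2 * ((w i - w l) * grdB w A i l) := by
  let X : ι → ι → ℝ := fun a b => w a * w b * (A a b * (kd a i * A l b - kd a l * A i b))
  have hX : ∑ a, ∑ b, X a b = (w i - w l) * grdB w A i l := by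
    have h1 : ∀ a, ∑ b, X a b = kd a i * (w a * ∑ b, w b * (A a b * A l b)) -
        kd a l * (w a * ∑ b, w b * (A a b * A i b)) := by
      intro a
      simp only [mul_sum, X]
      rw [← sum_sub_distrib]
      refine sum_congr rfl fun b _ => ?_
      ring
    rw [sum_congr rfl fun a _ => h1 a, sum_sub_distrib, grd_aux_kd, grd_aux_kd]
    have h2 : ∑ b, w b * (A l b * A i b) = grdB w A i l := by
      unfold grdB
      refine sum_congr rfl fun b _ => ?_
      ring
    rw [h2]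
    unfold grdB
    ring
  have h2 : ∑ a, ∑ b, X b a = (w i - w l) * grdB w A i l := by
    rw [← hX]; exact sum_comm
  have h5 : ip2 w A (D2 i l A) = ∑ a, ∑ b, X a b + ∑ a, ∑ b, X b a := by
    unfold ip2
    simp only [← sum_add_distrib]
    refine sum_congr rfl fun a _ => sum_congr rfl fun b _ => ?_
    simp only [X, D2]
    rw [hA a b, hA a l, hA a i]
    ring
  rw [h5, hX, h2]
  ring

theorem grd_aux_csH (w : ι → ℝ) (hw : ∀ a, 0 ≤ w a) (W : T4 ι) (i l : ι) :
    grdH w W i l ^ 2 ≤ grdH w W i i * grdH w W l l := by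
  have key : ∀ i l, grdH w W i l = ∑ p : ι × ι × ι, w p.1 * w p.2.1 * w p.2.2 *
      (W i p.1 p.2.1 p.2.2 * W l p.1 p.2.1 p.2.2) := by
    intro i l
    simp only [Fintype.sum_prod_type]
    rfl
  rw [key i l, key i i, key l l]
  refine sum_sq_le_sum_mul_sum_of_sq_eq_mul _ ?_ ?_ ?_
  · intro p _
    have := mul_nonneg (mul_nonneg (hw p.1) (hw p.2.1)) (hw p.2.2)
    exact mul_nonneg this (mul_self_nonneg _)
  · intro p _
    have := mul_nonneg (mul_nonneg (hw p.1) (hw p.2.1)) (hw p.2.2)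
    exact mul_nonneg this (mul_self_nonneg _)
  · intro p _
    ring

theorem grd_aux_csB (w : ι → ℝ) (hw : ∀ a, 0 ≤ w a) (A : T2 ι) (i l : ι) :
    grdB w A i l ^ 2 ≤ grdB w A i i * grdB w A l l := by
  unfold grdB
  refine sum_sq_le_sum_mul_sum_of_sq_eq_mul _ ?_ ?_ ?_
  · intro p _
    exact mul_nonneg (hw p) (mul_self_nonneg _)
  · intro p _
    exact mul_nonneg (hw p) (mul_self_nonneg _)
  · intro p _
    ring

theorem grd_aux_H0 (w : ι → ℝ) (hw : ∀ a, 0 ≤ w a) (W : T4 ι) (i : ι) : 0 ≤ grdH w W i i := by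
  unfold grdH
  refine sum_nonneg fun b _ => sum_nonneg fun c _ => sum_nonneg fun d _ => ?_
  exact mul_nonneg (mul_nonneg (mul_nonneg (hw b) (hw c)) (hw d)) (mul_self_nonneg _)

theorem grd_aux_B0 (w : ι → ℝ) (hw : ∀ a, 0 ≤ w a) (A : T2 ι) (i : ι) : 0 ≤ grdB w A i i := by
  unfold grdB
  exact sum_nonneg fun b _ => mul_nonneg (hw b) (mul_self_nonneg _)

end

theorem grd_aux_num (H B h h' b b' κ : ℝ) (hκ : 0 ≤ κ) (hh : 0 ≤ h) (hh' : 0 ≤ h') (hb : 0 ≤ b)
    (hb' : 0 ≤ b') (h1 : H ^ 2 ≤ h * h') (h2 : B ^ 2 ≤ b * b') :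
    (H + κ / 2 * B) ^ 2 ≤ (h + κ * b) * (h' + κ * b') := by
  have h3 : (H * B) ^ 2 ≤ ((h * b' + h' * b) / 2) ^ 2 := by
    have h4 : (H * B) ^ 2 ≤ (h * h') * (b * b') := by
      rw [mul_pow]
      exact mul_le_mul h1 h2 (sq_nonneg _) (mul_nonneg hh hh')
    nlinarith [sq_nonneg (h * b' - h' * b)]
  have h5 : 0 ≤ (h * b' + h' * b) / 2 := by positivity
  have h6 : H * B ≤ (h * b' + h' * b) / 2 := (abs_le_of_sq_le_sq' h3 h5).2
  have h7 : κ * (H * B) ≤ κ * ((h * b' + h' * b) / 2) := mul_le_mul_of_nonneg_left h6 hκ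
  have h8 : κ ^ 2 * B ^ 2 ≤ κ ^ 2 * (b * b') := mul_le_mul_of_nonneg_left h2 (sq_nonneg _)
  have h9 : 0 ≤ κ * (h * b' + h' * b) := by positivity
  have h10 : 0 ≤ κ ^ 2 * (b * b') := by positivity
  nlinarith

theorem grd_main : St_grd := by
  intro ι _ _ S θ κ hθ hθ1 hκ W A hW hA
  set w : ι → ℝ := wt θ S with hw
  have hw0 : ∀ a, 0 ≤ w a := by
    intro a
    simp only [hw, wt]
    split_ifs
    · exact zero_le_one
    · exact hθ.le
  let g : ι → ℝ := fun i => grdH w W i i + κ * grdB w A i i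
  have hg : ∀ i, 0 ≤ g i := fun i =>
    add_nonneg (grd_aux_H0 w hw0 W i) (mul_nonneg hκ (grd_aux_B0 w hw0 A i))
  let sI : ι → ℝ := fun i => if i ∈ S then 1 else 0
  have hsI : ∀ i, sI i * sI i = sI i := by
    intro i; simp only [sI]; split_ifs <;> simp
  have hs0 : ∀ i, 0 ≤ sI i := by
    intro i; simp only [sI]; split_ifs <;> simp
  have hs1 : ∀ i, sI i ≤ 1 := by
    intro i; simp only [sI]; split_ifs <;> simp
  have hws : ∀ i, w i = sI i + θ * (1 - sI i) := by
    intro i; simp only [hw, wt, sI]; split_ifs <;> simp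
  -- the pointwise bound
  have h1 : ∀ i l, QQ1 w κ W A i l ^ 2 ≤
      64 * ((sI i * (1 - sI l) + (1 - sI i) * sI l) * (g i * g l)) := by
    intro i l
    have e1 : QQ1 w κ W A i l = 8 * ((w i - w l) * (grdH w W i l + κ / 2 * grdB w A i l)) := by
      unfold QQ1
      rw [grd_aux_ip4 w W hW, grd_aux_ip2 w A hA]
      ring
    have e2 := grd_aux_num (grdH w W i l) (grdB w A i l) (grdH w W i i) (grdH w W l l)
      (grdB w A i i) (grdB w A l l) κ hκ (grd_aux_H0 w hw0 W i) (grd_aux_H0 w hw0 W l)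
      (grd_aux_B0 w hw0 A i) (grd_aux_B0 w hw0 A l) (grd_aux_csH w hw0 W i l)
      (grd_aux_csB w hw0 A i l)
    have e3 : (w i - w l) ^ 2 ≤ sI i * (1 - sI l) + (1 - sI i) * sI l := by
      have e4 : (w i - w l) ^ 2 = (1 - θ) ^ 2 * (sI i * (1 - sI l) + (1 - sI i) * sI l) := by
        rw [hws i, hws l]
        have e5 : (sI i - sI l) ^ 2 = sI i * (1 - sI l) + (1 - sI i) * sI l := by
          have := hsI i
          have := hsI l
          nlinarith
        rw [← e5]
        ring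
      rw [e4]
      have e6 : 0 ≤ sI i * (1 - sI l) + (1 - sI i) * sI l :=
        add_nonneg (mul_nonneg (hs0 i) (by linarith [hs1 l]))
          (mul_nonneg (by linarith [hs1 i]) (hs0 l))
      have e7 : (1 - θ) ^ 2 ≤ 1 := by nlinarith
      nlinarith
    rw [e1]
    have e8 : (8 * ((w i - w l) * (grdH w W i l + κ / 2 * grdB w A i l))) ^ 2 =
        64 * ((w i - w l) ^ 2 * (grdH w W i l + κ / 2 * grdB w A i l) ^ 2) := by ring
    rw [e8]
    refine mul_le_mul_of_nonneg_left ?_ (by norm_num)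
    exact mul_le_mul e3 e2 (sq_nonneg _) (le_trans (sq_nonneg _) e3)
  set x : ℝ := ∑ i, sI i * g i with hx
  set y : ℝ := ∑ i, (1 - sI i) * g i with hy
  have h2 : ∑ i, ∑ l, QQ1 w κ W A i l ^ 2 ≤ 128 * (x * y) := by
    have h3 : ∑ i, ∑ l, QQ1 w κ W A i l ^ 2 ≤
        ∑ i, ∑ l, 64 * ((sI i * (1 - sI l) + (1 - sI i) * sI l) * (g i * g l)) :=
      sum_le_sum fun i _ => sum_le_sum fun l _ => h1 i l
    have h4 : ∑ i, ∑ l, 64 * ((sI i * (1 - sI l) + (1 - sI i) * sI l) * (g i * g l)) =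
        64 * (x * y) + 64 * (y * x) := by
      rw [hx, hy, sum_mul_sum, sum_mul_sum, mul_sum, mul_sum, ← sum_add_distrib]
      refine sum_congr rfl fun i _ => ?_
      rw [mul_sum, mul_sum, ← sum_add_distrib]
      refine sum_congr rfl fun l _ => ?_
      ring
    rw [h4] at h3
    linarith
  have h5 : QQ w κ W A = x + θ * y := by
    have e1 : Q4 w W = ∑ i, w i * grdH w W i i := by
      unfold Q4 ip4 grdH
      refine sum_congr rfl fun a _ => ?_
      simp only [mul_sum]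
      refine sum_congr rfl fun b _ => sum_congr rfl fun c _ => sum_congr rfl fun d _ => ?_
      ring
    have e2 : Q2 w A = ∑ i, w i * grdB w A i i := by
      unfold Q2 ip2 grdB
      refine sum_congr rfl fun a _ => ?_
      simp only [mul_sum]
      refine sum_congr rfl fun b _ => ?_
      ring
    unfold QQ
    rw [e1, e2, hx, hy, mul_sum, mul_sum, ← sum_add_distrib, ← sum_add_distrib]
    refine sum_congr rfl fun i _ => ?_
    rw [hws i]
    ring
  have hx0 : 0 ≤ x := sum_nonneg fun i _ => mul_nonneg (hs0 i) (hg i)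
  have hy0 : 0 ≤ y := sum_nonneg fun i _ => mul_nonneg (by linarith [hs1 i]) (hg i)
  rw [h5]
  refine le_trans h2 ?_
  rw [div_mul_eq_mul_div, le_div_iff₀ hθ]
  nlinarith [sq_nonneg (x - θ * y)]

end Pool.Agent.H933R2.HopfN
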