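import Pool.Agent.H933R2.HopfN.St

set_option autoImplicit false
set_option linter.all false

namespace Pool.Agent.H933R2.HopfN

open scoped ComplexOrder

theorem had_amgm {P : Type} [Fintype P] (z : P → ℝ) (hz : ∀ i, 0 ≤ z i) :
    ∏ i, z i ≤ ((∑ i, z i) / (Fintype.card P : ℝ)) ^ (Fintype.card P) := by
  classical
  rcases isEmpty_or_nonempty P with h | h
  · simp
  have hN : (0:ℝ) < Fintype.card P := by exact_mod_cast Fintype.card_pos
  have h1 := Real.geom_mean_le_arith_mean_weighted Finset.univ (fun _ : P => 1 / (Fintype.card P : ℝ)) z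
    (fun i _ => by positivity) (by simp [Finset.sum_const, nsmul_eq_mul]) (fun i _ => hz i)
  have h2 : (∏ i, z i ^ (1 / (Fintype.card P : ℝ))) ^ (Fintype.card P) = ∏ i, z i := by
    rw [← Finset.prod_pow]
    apply Finset.prod_congr rfl
    intro i _
    rw [← Real.rpow_natCast, ← Real.rpow_mul (hz i)]
    rw [one_div_mul_cancel hN.ne', Real.rpow_one]
  have h3 : 0 ≤ ∏ i, z i ^ (1 / (Fintype.card P : ℝ)) :=
    Finset.prod_nonneg fun i _ => Real.rpow_nonneg (hz i) _
  rw [← h2]
  apply pow_le_pow_left₀ h3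
  refine le_trans h1 (le_of_eq ?_)
  rw [← Finset.mul_sum]; ring

theorem had_main : St_had := by
  intro P _ _ X
  have hps := Matrix.posSemidef_self_mul_conjTranspose X
  have hH := hps.isHermitian
  have h1 := had_amgm hH.eigenvalues (fun i => hps.eigenvalues_nonneg i)
  have h2 : ((∏ i, hH.eigenvalues i : ℝ) : ℂ) = ((‖X.det‖ ^ 2 : ℝ) : ℂ) := by
    have := hH.det_eq_prod_eigenvalues
    rw [Matrix.det_mul, Matrix.det_conjTranspose] at this
    push_cast
    rw [← Complex.mul_conj'] 
    simpa using this.symm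
  have h3 : ((∑ i, hH.eigenvalues i : ℝ) : ℂ) = ((∑ a, ∑ b, ‖X a b‖ ^ 2 : ℝ) : ℂ) := by
    have := hH.trace_eq_sum_eigenvalues
    push_cast
    rw [Matrix.trace] at this
    simp only [Matrix.diag_apply, Matrix.mul_apply, Matrix.conjTranspose_apply] at this
    have h4 : ∀ a b, X a b * star (X a b) = ((‖X a b‖ : ℝ) : ℂ) ^ 2 := fun a b => Complex.mul_conj' _
    simp only [h4] at this
    rw [this]; simp
  have h2' := Complex.ofReal_injective h2
  have h3' := Complex.ofReal_injective h3
  rw [← h2', ← h3']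
  exact h1

end Pool.Agent.H933R2.HopfN
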