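import Pool.Agent.H933R2.HopfN.St

set_option autoImplicit false

/-! HOLD: the Hoelder step. -/

namespace Pool.Agent.H933R2.HopfN

theorem hold_young (B Q : ℝ) (hB : 0 ≤ B) (hQ : 0 ≤ Q) (q : ℕ) :
    ((q : ℝ) + 1) * (B * Q ^ q) ≤ B ^ (q + 1) + q * Q ^ (q + 1) := by
  induction q with
  | zero => simp
  | succ q ih =>
    have h1 := mul_le_mul_of_nonneg_right ih hB
    have h2 : 0 ≤ ((q : ℝ) + 1) * Q ^ q * (B - Q) ^ 2 := by positivity
    push_cast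
    have e1 : ((q : ℝ) + 1) * (B * Q ^ q) * B = ((q : ℝ) + 1) * (B ^ 2 * Q ^ q) := by ring
    have e2 : (B ^ (q + 1) + q * Q ^ (q + 1)) * B = B ^ (q + 1 + 1) + q * (B * Q ^ (q + 1)) := by
      ring
    have e3 : ((q : ℝ) + 1) * Q ^ q * (B - Q) ^ 2 = ((q : ℝ) + 1) * (B ^ 2 * Q ^ q) -
        2 * ((q : ℝ) + 1) * (B * Q ^ (q + 1)) + ((q : ℝ) + 1) * Q ^ (q + 1 + 1) := by ring
    rw [e1, e2] at h1
    rw [e3] at h2
    linarith

theorem hold_main : St_hold := by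
  intro F _ Q B q hq hB hQ h
  obtain ⟨p, rfl⟩ : ∃ p, q = p + 1 := ⟨q - 1, by omega⟩
  rw [Nat.add_sub_cancel] at h
  have h1 : ∀ f ∈ (Finset.univ : Finset F), ((p : ℝ) + 1) * (B * Q f ^ p) ≤
      B ^ (p + 1) + p * Q f ^ (p + 1) := fun f _ => hold_young B (Q f) hB (hQ f) p
  have h2 := Finset.sum_le_sum h1
  rw [← Finset.mul_sum, ← Finset.mul_sum, Finset.sum_add_distrib, ← Finset.mul_sum,
    Finset.sum_const, Finset.card_univ, nsmul_eq_mul] at h2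
  have h3 : ((p : ℝ) + 1) * ∑ f, Q f ^ (p + 1) ≤ ((p : ℝ) + 1) * (B * ∑ f, Q f ^ p) :=
    mul_le_mul_of_nonneg_left h (by positivity)
  linarith

end Pool.Agent.H933R2.HopfN
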