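import Pool.Agent.H933R2.HopfN.St

set_option autoImplicit false
set_option linter.all false

namespace Pool.Agent.H933R2.HopfN

theorem hsum_geom (x : ℝ) (hx0 : 0 ≤ x) (hx1 : x ≤ 1/2) (n : ℕ) :
    ∑ i ∈ Finset.range n, x ^ i ≤ Real.exp (2 * x) := by
  have h1 := geom_sum_mul_neg x n
  have h2 : 0 ≤ x ^ n := pow_nonneg hx0 n
  have h3 : (∑ i ∈ Finset.range n, x ^ i) * (1 - x) ≤ 1 := by rw [h1]; linarith
  have h4 : 0 ≤ ∑ i ∈ Finset.range n, x ^ i := Finset.sum_nonneg fun i _ => pow_nonneg hx0 i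
  have h5 := Real.add_one_le_exp (2 * x)
  have h6 : ∑ i ∈ Finset.range n, x ^ i ≤ 2 * x + 1 := by
    by_contra hc
    push Not at hc
    nlinarith
  linarith

theorem hsum_prod {K : Type} [Fintype K] [DecidableEq K] {j : ℕ} (α : Fin j → K) (lam : K → ℝ) :
    ∏ i, lam (α i) = ∏ κ, lam κ ^ cnt α κ := by
  rw [← Finset.prod_fiberwise Finset.univ α (fun i => lam (α i))]
  apply Finset.prod_congr rfl
  intro κ _
  unfold cnt
  rw [← Finset.prod_const]
  apply Finset.prod_congr rfl
  intro i hi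
  rw [(Finset.mem_filter.1 hi).2]

theorem hsum_cnt_sum {K : Type} [Fintype K] [DecidableEq K] {j : ℕ} (α : Fin j → K) :
    ∑ κ, cnt α κ = j := by
  have h := Finset.card_eq_sum_card_fiberwise (s := (Finset.univ : Finset (Fin j)))
    (t := (Finset.univ : Finset K)) (f := α) (fun i _ => Finset.mem_univ _)
  rw [Finset.card_univ, Fintype.card_fin] at h
  exact h.symm

theorem hsum_main (hw : St_words) : St_hsum := by
  intro K _ _ j hj hK lam hlam
  set L : ℝ := Real.sqrt (∑ κ, lam κ ^ 2) with hL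
  have hL0 : 0 ≤ L := Real.sqrt_nonneg _
  have hLsq : L ^ 2 = ∑ κ, lam κ ^ 2 := Real.sq_sqrt (Finset.sum_nonneg fun κ _ => sq_nonneg _)
  have hle : ∀ κ, lam κ ≤ L := by
    intro κ
    rw [hL]
    apply Real.le_sqrt_of_sq_le
    exact Finset.single_le_sum (f := fun κ => lam κ ^ 2) (fun κ _ => sq_nonneg _) (Finset.mem_univ κ)
  rcases hL0.eq_or_lt with h0 | hLpos
  · have hz : ∀ κ, lam κ = 0 := fun κ => le_antisymm (by rw [h0]; exact hle κ) (hlam κ)
    have : ∀ α : Fin j → K, ∏ i, lam (α i) = 0 := by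
      intro α
      apply Finset.prod_eq_zero (Finset.mem_univ (⟨0, by omega⟩ : Fin j))
      exact hz _
    simp only [this, mul_zero, Finset.sum_const_zero]
    positivity
  set s : ℝ := 1 / (2 * L) with hs
  have hs0 : 0 < s := by positivity
  have h2L : 2 * L * s = 1 := by rw [hs]; field_simp
  have hsum : ∑ κ, lam κ ≤ 2 * j * L := by
    have h1 : (∑ κ, lam κ) ^ 2 ≤ (2 * j * L) ^ 2 := by
      have h2 := sq_sum_le_card_mul_sum_sq (s := (Finset.univ : Finset K)) (f := lam)
      rw [Finset.card_univ, ← hLsq] at h2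
      have h3 : (Fintype.card K : ℝ) ≤ 4 * j ^ 2 := by exact_mod_cast hK
      calc (∑ κ, lam κ) ^ 2 ≤ (Fintype.card K : ℝ) * L ^ 2 := h2
        _ ≤ (4 * j ^ 2) * L ^ 2 := mul_le_mul_of_nonneg_right h3 (sq_nonneg _)
        _ = _ := by ring
    exact (abs_le_of_sq_le_sq' h1 (by positivity)).2
  have hx : ∀ κ, s * lam κ ≤ 1/2 := by
    intro κ
    have := mul_le_mul_of_nonneg_left (hle κ) hs0.le
    have h2 : s * L = 1/2 := by linarith
    linarith
  have hx0 : ∀ κ, 0 ≤ s * lam κ := fun κ => mul_nonneg hs0.le (hlam κ)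
  -- grouping
  have hmaps : ∀ α ∈ (Finset.univ : Finset (Fin j → K)), (fun κ => cnt α κ) ∈
      Fintype.piFinset (fun _ : K => Finset.range (j+1)) := by
    intro α _
    rw [Fintype.mem_piFinset]
    intro κ
    rw [Finset.mem_range]
    have : cnt α κ ≤ ∑ κ, cnt α κ :=
      Finset.single_le_sum (f := fun κ => cnt α κ) (fun _ _ => Nat.zero_le _) (Finset.mem_univ κ)
    rw [hsum_cnt_sum] at this
    omega
  rw [← Finset.sum_fiberwise_of_maps_to hmaps]
  have hterm : ∀ k ∈ Fintype.piFinset (fun _ : K => Finset.range (j+1)),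
      ∑ α ∈ Finset.univ.filter (fun α : Fin j → K => (fun κ => cnt α κ) = k),
        (∏ κ, ((cnt α κ).factorial : ℝ)) * ∏ i, lam (α i)
      ≤ (j.factorial : ℝ) * (2 * L) ^ j * ∏ κ, (s * lam κ) ^ k κ := by
    intro k _
    have hnn : 0 ≤ (j.factorial : ℝ) * (2 * L) ^ j * ∏ κ, (s * lam κ) ^ k κ := by
      apply mul_nonneg (by positivity)
      exact Finset.prod_nonneg fun κ _ => pow_nonneg (hx0 κ) _
    by_cases hk : ∑ κ, k κ = j
    · have h1 : ∑ α ∈ Finset.univ.filter (fun α : Fin j → K => (fun κ => cnt α κ) = k),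
          (∏ κ, ((cnt α κ).factorial : ℝ)) * ∏ i, lam (α i)
          = ∑ α ∈ Finset.univ.filter (fun α : Fin j → K => (fun κ => cnt α κ) = k),
            (∏ κ, ((k κ).factorial : ℝ)) * ∏ κ, lam κ ^ k κ := by
        apply Finset.sum_congr rfl
        intro α hα
        have h2 := (Finset.mem_filter.1 hα).2
        have h3 : ∀ κ, cnt α κ = k κ := fun κ => congrFun h2 κ
        rw [hsum_prod]
        simp only [h3]
      have hfe : Finset.univ.filter (fun α : Fin j → K => (fun κ => cnt α κ) = k)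
          = Finset.univ.filter (fun α : Fin j → K => ∀ κ, cnt α κ = k κ) := by
        apply Finset.filter_congr
        intro α _
        exact ⟨fun h κ => congrFun h κ, fun h => funext h⟩
      have h4 := hw K j k hk
      have h5 : ((Finset.univ.filter (fun α : Fin j → K => ∀ κ, cnt α κ = k κ)).card : ℝ) *
          ∏ κ, ((k κ).factorial : ℝ) = (j.factorial : ℝ) := by
        rw [← h4]; push_cast; rfl
      rw [h1, Finset.sum_const, nsmul_eq_mul, hfe, ← mul_assoc, h5]
      apply le_of_eq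
      have h6 : ∏ κ, (s * lam κ) ^ k κ = s ^ j * ∏ κ, lam κ ^ k κ := by
        simp only [mul_pow, Finset.prod_mul_distrib]
        rw [Finset.prod_pow_eq_pow_sum, hk]
      rw [h6]
      calc (j.factorial : ℝ) * ∏ κ, lam κ ^ k κ
          = (j.factorial : ℝ) * ((2 * L * s) ^ j * ∏ κ, lam κ ^ k κ) := by
            rw [h2L, one_pow, one_mul]
        _ = _ := by rw [mul_pow]; ring
    · have h1 : Finset.univ.filter (fun α : Fin j → K => (fun κ => cnt α κ) = k) = ∅ := by
        rw [Finset.filter_eq_empty_iff]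
        intro α _ h2
        apply hk
        rw [← h2]
        exact hsum_cnt_sum α
      rw [h1, Finset.sum_empty]; exact hnn
  refine le_trans (Finset.sum_le_sum hterm) ?_
  rw [← Finset.mul_sum, ← Finset.prod_univ_sum (fun _ : K => Finset.range (j+1))
    (fun κ i => (s * lam κ) ^ i)]
  have hprod : ∏ κ, ∑ i ∈ Finset.range (j+1), (s * lam κ) ^ i ≤ Real.exp (2 * j) := by
    calc ∏ κ, ∑ i ∈ Finset.range (j+1), (s * lam κ) ^ i
        ≤ ∏ κ, Real.exp (2 * (s * lam κ)) := by
          apply Finset.prod_le_prod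
          · intro κ _
            exact Finset.sum_nonneg fun i _ => pow_nonneg (hx0 κ) i
          · intro κ _
            exact hsum_geom _ (hx0 κ) (hx κ) _
      _ = Real.exp (∑ κ, 2 * (s * lam κ)) := by rw [Real.exp_sum]
      _ ≤ Real.exp (2 * j) := by
          apply Real.exp_le_exp.2
          rw [← Finset.mul_sum, ← Finset.mul_sum]
          have := mul_le_mul_of_nonneg_left hsum hs0.le
          have h3 : s * (2 * j * L) = j * (2 * L * s) := by ring
          rw [h3, h2L] at this
          linarith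
  calc (j.factorial : ℝ) * (2 * L) ^ j * ∏ κ, ∑ i ∈ Finset.range (j+1), (s * lam κ) ^ i
      ≤ (j.factorial : ℝ) * (2 * L) ^ j * Real.exp (2 * j) :=
        mul_le_mul_of_nonneg_left hprod (by positivity)
    _ = (j.factorial : ℝ) * (2 * Real.exp 2 * L) ^ j := by
        have : Real.exp (2 * j) = Real.exp 2 ^ j := by
          rw [← Real.exp_nat_mul]; congr 1; ring
        rw [this]; ring

end Pool.Agent.H933R2.HopfN
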