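import Pool.Agent.H933R2.HopfN.St

set_option autoImplicit false

/-! Task INV (helper30): invariance of the full contraction under orthogonal matrices. -/

namespace Pool.Agent.H933R2.HopfN

open Finset

/-- sum over pairs of words -/
theorem inv_prod_sum {ι : Type} [Fintype ι] (j : ℕ) (H : Fin j → ι → ι → ι → ι → ℝ) :
    ∏ i : Fin j, ∑ a, ∑ b, ∑ c, ∑ d, H i a b c d =
      ∑ x : Pos j → ι, ∑ y : Pos j → ι, ∏ i : Fin j, H i (x (i, 0)) (x (i, 1)) (y (i, 0)) (y (i, 1)) := by
  classical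
  have e1 : ∀ G : ι → ι → ℝ, ∑ a, ∑ b, G a b = ∑ u : Fin 2 → ι, G (u 0) (u 1) := by
    intro G
    rw [← Fintype.sum_prod_type']
    exact (Fintype.sum_equiv (finTwoArrowEquiv ι) _ _ (fun u => rfl)).symm
  have e2 : ∀ i : Fin j, ∑ a, ∑ b, ∑ c, ∑ d, H i a b c d =
      ∑ z : (Fin 2 → ι) × (Fin 2 → ι), H i (z.1 0) (z.1 1) (z.2 0) (z.2 1) := by
    intro i
    rw [e1 (fun a b => ∑ c, ∑ d, H i a b c d), Fintype.sum_prod_type]
    refine sum_congr rfl fun u _ => ?_
    exact e1 (fun c d => H i (u 0) (u 1) c d)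
  rw [prod_congr rfl fun i _ => e2 i, Finset.prod_univ_sum, Fintype.piFinset_univ,
    ← Fintype.sum_prod_type']
  refine Fintype.sum_equiv
    (⟨fun U => (fun p => (U p.1).1 p.2, fun p => (U p.1).2 p.2),
      fun x i => (fun e => x.1 (i, e), fun e => x.2 (i, e)), fun U => rfl, fun x => rfl⟩ :
      (Fin j → (Fin 2 → ι) × (Fin 2 → ι)) ≃ (Pos j → ι) × (Pos j → ι)) _ _ (fun U => rfl)

/-- the sum over all words `f` -/
theorem inv_orth {ι : Type} [Fintype ι] [DecidableEq ι] (j : ℕ) (O : Matrix ι ι ℝ) (hO : Orth O)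
    (τ : Equiv.Perm (Pos j)) (x y : Pos j → ι) :
    ∑ f : Pos j → ι, (∏ p, O (f p) (x p)) * ∏ p, O (f (τ p)) (y p) =
      if y = x ∘ τ then 1 else 0 := by
  classical
  have h1 : ∀ f : Pos j → ι, ∏ p, O (f (τ p)) (y p) = ∏ p, O (f p) (y (τ.symm p)) := by
    intro f
    rw [← Equiv.prod_comp τ (fun p => O (f p) (y (τ.symm p)))]
    simp
  have h2 : ∀ a b : ι, ∑ c, O c a * O c b = if a = b then 1 else 0 := by
    intro a b
    have := congrFun (congrFun hO a) b
    rw [Matrix.mul_apply, Matrix.one_apply] at this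
    simpa [Matrix.transpose_apply] using this
  calc ∑ f : Pos j → ι, (∏ p, O (f p) (x p)) * ∏ p, O (f (τ p)) (y p)
      = ∑ f : Pos j → ι, ∏ p, (O (f p) (x p) * O (f p) (y (τ.symm p))) := by
        refine sum_congr rfl fun f _ => ?_
        rw [h1 f, prod_mul_distrib]
    _ = ∏ p, ∑ c, (O c (x p) * O c (y (τ.symm p))) := by
        rw [Finset.prod_univ_sum, Fintype.piFinset_univ]
    _ = ∏ p, if x p = y (τ.symm p) then 1 else 0 := prod_congr rfl fun p _ => h2 _ _
    _ = if y = x ∘ τ then 1 else 0 := by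
        by_cases h : y = x ∘ τ
        · rw [if_pos h]
          apply prod_eq_one
          intro p _
          rw [if_pos]
          rw [h]; simp
        · rw [if_neg h]
          obtain ⟨p, hp⟩ : ∃ p, y p ≠ x (τ p) := by
            by_contra hcon
            push Not at hcon
            exact h (funext hcon)
          apply prod_eq_zero (mem_univ (τ p))
          rw [if_neg]
          simpa using Ne.symm hp

theorem inv_main : St_inv := by
  intro ι _ _ j O hO R
  classical
  unfold GG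
  have key : ∀ (f : Pos j → ι) (τ : Equiv.Perm (Pos j)),
      (∏ i : Fin j, act4 O R (f (i, 0)) (f (i, 1)) (f (τ (i, 0))) (f (τ (i, 1)))) =
      ∑ x : Pos j → ι, ∑ y : Pos j → ι, ((∏ p, O (f p) (x p)) * ∏ p, O (f (τ p)) (y p)) *
        ∏ i : Fin j, R (x (i, 0)) (x (i, 1)) (y (i, 0)) (y (i, 1)) := by
    intro f τ
    unfold act4
    rw [inv_prod_sum j (fun i a' b' c' d' => O (f (i, 0)) a' * O (f (i, 1)) b' *
      O (f (τ (i, 0))) c' * O (f (τ (i, 1))) d' * R a' b' c' d')]
    refine sum_congr rfl fun x _ => sum_congr rfl fun y _ => ?_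
    rw [Fintype.prod_prod_type, Fintype.prod_prod_type]
    simp only [Fin.prod_univ_two]
    rw [← prod_mul_distrib, ← prod_mul_distrib]
    refine prod_congr rfl fun i _ => ?_
    ring
  calc ∑ f : Pos j → ι, ∑ τ : Equiv.Perm (Pos j), sg τ *
        ∏ i : Fin j, act4 O R (f (i, 0)) (f (i, 1)) (f (τ (i, 0))) (f (τ (i, 1)))
      = ∑ τ : Equiv.Perm (Pos j), ∑ x : Pos j → ι, ∑ y : Pos j → ι,
          (sg τ * ∏ i : Fin j, R (x (i, 0)) (x (i, 1)) (y (i, 0)) (y (i, 1))) *
          ∑ f : Pos j → ι, (∏ p, O (f p) (x p)) * ∏ p, O (f (τ p)) (y p) := by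
        rw [sum_comm]
        refine sum_congr rfl fun τ _ => ?_
        rw [sum_congr rfl fun f _ => by rw [key f τ, mul_sum]]
        rw [sum_comm]
        refine sum_congr rfl fun x _ => ?_
        rw [sum_congr rfl fun f _ => by rw [mul_sum]]
        rw [sum_comm]
        refine sum_congr rfl fun y _ => ?_
        rw [mul_sum]
        refine sum_congr rfl fun f _ => ?_
        ring
    _ = ∑ τ : Equiv.Perm (Pos j), ∑ x : Pos j → ι, sg τ *
          ∏ i : Fin j, R (x (i, 0)) (x (i, 1)) (x (τ (i, 0))) (x (τ (i, 1))) := by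
        refine sum_congr rfl fun τ _ => sum_congr rfl fun x _ => ?_
        rw [sum_congr rfl fun y _ => by rw [inv_orth j O hO τ x y]]
        simp
    _ = _ := by rw [sum_comm]

end Pool.Agent.H933R2.HopfN
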