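import Pool.Agent.H933R2.HopfN.St

set_option autoImplicit false
set_option linter.all false

/-!
Project HopfN, task INVT (helper847): behaviour of the tensors under orthogonal matrices.
-/

namespace Pool.Agent.H933R2.HopfN

variable {ι : Type} [Fintype ι]

/-- fourfold sums -/
def invt_S4 (f : ι → ι → ι → ι → ℝ) : ℝ := ∑ a, ∑ b, ∑ c, ∑ d, f a b c d

lemma invt_sw12 (f : ι → ι → ι → ι → ℝ) : invt_S4 f = invt_S4 (fun a b c d => f b a c d) := by
  unfold invt_S4
  rw [Finset.sum_comm]

lemma invt_sw34 (f : ι → ι → ι → ι → ℝ) : invt_S4 f = invt_S4 (fun a b c d => f a b d c) := by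
  unfold invt_S4
  refine Finset.sum_congr rfl fun a _ => Finset.sum_congr rfl fun b _ => ?_
  rw [Finset.sum_comm]

lemma invt_sw23 (f : ι → ι → ι → ι → ℝ) : invt_S4 f = invt_S4 (fun a b c d => f a c b d) := by
  unfold invt_S4
  refine Finset.sum_congr rfl fun a _ => ?_
  rw [Finset.sum_comm]

lemma invt_pair (f : ι → ι → ι → ι → ℝ) : invt_S4 f = invt_S4 (fun a b c d => f c d a b) := by
  rw [invt_sw23 f, invt_sw12, invt_sw34, invt_sw23]

lemma invt_cyc (f : ι → ι → ι → ι → ℝ) : invt_S4 f = invt_S4 (fun a b c d => f a c d b) := by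
  rw [invt_sw34 f, invt_sw23]

lemma invt_act (O : Matrix ι ι ℝ) (R : T4 ι) (a b c d : ι) : act4 O R a b c d =
    invt_S4 (fun x y z w => O a x * O b y * O c z * O d w * R x y z w) := rfl

lemma invt_congr {f g : ι → ι → ι → ι → ℝ} (h : ∀ a b c d, f a b c d = g a b c d) :
    invt_S4 f = invt_S4 g := by
  unfold invt_S4
  exact Finset.sum_congr rfl fun a _ => Finset.sum_congr rfl fun b _ =>
    Finset.sum_congr rfl fun c _ => Finset.sum_congr rfl fun d _ => h a b c d

lemma invt_neg (f : ι → ι → ι → ι → ℝ) :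
    invt_S4 (fun a b c d => - f a b c d) = - invt_S4 f := by
  unfold invt_S4
  simp only [Finset.sum_neg_distrib]

lemma invt_add (f g : ι → ι → ι → ι → ℝ) :
    invt_S4 (fun a b c d => f a b c d + g a b c d) = invt_S4 f + invt_S4 g := by
  unfold invt_S4
  simp only [Finset.sum_add_distrib]

lemma invt_curv (O : Matrix ι ι ℝ) (R : T4 ι) (hR : IsCurv R) : IsCurv (act4 O R) where
  a1 a b c d := by
    rw [invt_act, invt_act, invt_sw12, ← invt_neg]
    exact invt_congr fun x y z w => by rw [hR.a1 x y z w]; ring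
  a2 a b c d := by
    rw [invt_act, invt_act, invt_sw34, ← invt_neg]
    exact invt_congr fun x y z w => by rw [hR.a2 x y z w]; ring
  ps a b c d := by
    rw [invt_act, invt_act, invt_pair]
    exact invt_congr fun x y z w => by rw [hR.ps x y z w]; ring
  bi a b c d := by
    have h1 : act4 O R a c d b =
        invt_S4 (fun x y z w => O a x * O b y * O c z * O d w * R x z w y) := by
      rw [invt_act, invt_cyc]
      exact invt_congr fun x y z w => by ring
    have h2 : act4 O R a d b c =
        invt_S4 (fun x y z w => O a x * O b y * O c z * O d w * R x w y z) := by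
      rw [invt_act, invt_cyc, invt_cyc]
      exact invt_congr fun x y z w => by ring
    rw [h1, h2, invt_act, ← invt_add, ← invt_add]
    have h3 : invt_S4 (fun x y z w : ι => (0 : ℝ)) = 0 := by simp [invt_S4]
    rw [← h3]
    exact invt_congr fun x y z w => by
      have := hR.bi x y z w
      linear_combination (O a x * O b y * O c z * O d w) * this

/-! ### one-index actions -/

def invt_u1 (O : Matrix ι ι ℝ) (R : T4 ι) : T4 ι := fun a b c d => ∑ x, O a x * R x b c d
def invt_u2 (O : Matrix ι ι ℝ) (R : T4 ι) : T4 ι := fun a b c d => ∑ x, O b x * R a x c d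
def invt_u3 (O : Matrix ι ι ℝ) (R : T4 ι) : T4 ι := fun a b c d => ∑ x, O c x * R a b x d
def invt_u4 (O : Matrix ι ι ℝ) (R : T4 ι) : T4 ι := fun a b c d => ∑ x, O d x * R a b c x

lemma invt_act_u (O : Matrix ι ι ℝ) (R : T4 ι) :
    act4 O R = invt_u1 O (invt_u2 O (invt_u3 O (invt_u4 O R))) := by
  funext a b c d
  simp only [act4, invt_u1, invt_u2, invt_u3, invt_u4, Finset.mul_sum]
  exact Finset.sum_congr rfl fun a _ => Finset.sum_congr rfl fun b _ =>
    Finset.sum_congr rfl fun c _ => Finset.sum_congr rfl fun d _ => by ring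

section comm

variable (O O' : Matrix ι ι ℝ) (R : T4 ι)

lemma invt_21 : invt_u2 O' (invt_u1 O R) = invt_u1 O (invt_u2 O' R) := by
  funext a b c d
  simp only [invt_u1, invt_u2, Finset.mul_sum]
  rw [Finset.sum_comm]
  exact Finset.sum_congr rfl fun _ _ => Finset.sum_congr rfl fun _ _ => by ring

lemma invt_31 : invt_u3 O' (invt_u1 O R) = invt_u1 O (invt_u3 O' R) := by
  funext a b c d
  simp only [invt_u1, invt_u3, Finset.mul_sum]
  rw [Finset.sum_comm]
  exact Finset.sum_congr rfl fun _ _ => Finset.sum_congr rfl fun _ _ => by ring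

lemma invt_41 : invt_u4 O' (invt_u1 O R) = invt_u1 O (invt_u4 O' R) := by
  funext a b c d
  simp only [invt_u1, invt_u4, Finset.mul_sum]
  rw [Finset.sum_comm]
  exact Finset.sum_congr rfl fun _ _ => Finset.sum_congr rfl fun _ _ => by ring

lemma invt_32 : invt_u3 O' (invt_u2 O R) = invt_u2 O (invt_u3 O' R) := by
  funext a b c d
  simp only [invt_u2, invt_u3, Finset.mul_sum]
  rw [Finset.sum_comm]
  exact Finset.sum_congr rfl fun _ _ => Finset.sum_congr rfl fun _ _ => by ring

lemma invt_42 : invt_u4 O' (invt_u2 O R) = invt_u2 O (invt_u4 O' R) := by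
  funext a b c d
  simp only [invt_u2, invt_u4, Finset.mul_sum]
  rw [Finset.sum_comm]
  exact Finset.sum_congr rfl fun _ _ => Finset.sum_congr rfl fun _ _ => by ring

lemma invt_43 : invt_u4 O' (invt_u3 O R) = invt_u3 O (invt_u4 O' R) := by
  funext a b c d
  simp only [invt_u3, invt_u4, Finset.mul_sum]
  rw [Finset.sum_comm]
  exact Finset.sum_congr rfl fun _ _ => Finset.sum_congr rfl fun _ _ => by ring

lemma invt_11 : invt_u1 O' (invt_u1 O R) = invt_u1 (O' * O) R := by
  funext a b c d
  simp only [invt_u1, Matrix.mul_apply, Finset.mul_sum, Finset.sum_mul]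
  rw [Finset.sum_comm]
  exact Finset.sum_congr rfl fun _ _ => Finset.sum_congr rfl fun _ _ => by ring

lemma invt_22 : invt_u2 O' (invt_u2 O R) = invt_u2 (O' * O) R := by
  funext a b c d
  simp only [invt_u2, Matrix.mul_apply, Finset.mul_sum, Finset.sum_mul]
  rw [Finset.sum_comm]
  exact Finset.sum_congr rfl fun _ _ => Finset.sum_congr rfl fun _ _ => by ring

lemma invt_33 : invt_u3 O' (invt_u3 O R) = invt_u3 (O' * O) R := by
  funext a b c d
  simp only [invt_u3, Matrix.mul_apply, Finset.mul_sum, Finset.sum_mul]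
  rw [Finset.sum_comm]
  exact Finset.sum_congr rfl fun _ _ => Finset.sum_congr rfl fun _ _ => by ring

lemma invt_44 : invt_u4 O' (invt_u4 O R) = invt_u4 (O' * O) R := by
  funext a b c d
  simp only [invt_u4, Matrix.mul_apply, Finset.mul_sum, Finset.sum_mul]
  rw [Finset.sum_comm]
  exact Finset.sum_congr rfl fun _ _ => Finset.sum_congr rfl fun _ _ => by ring

lemma invt_comp4 : act4 O' (act4 O R) = act4 (O' * O) R := by
  rw [invt_act_u O R, invt_act_u O' _, invt_act_u (O' * O) R]
  rw [invt_41, invt_31, invt_21, invt_11, invt_42, invt_32, invt_22, invt_43, invt_33, invt_44]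

end comm

/-! ### orthogonality -/

variable [DecidableEq ι]

lemma invt_col (O : Matrix ι ι ℝ) (hO : Orth O) (x y : ι) :
    ∑ a, O a x * O a y = if x = y then 1 else 0 := by
  have h := congrFun (congrFun hO x) y
  rw [Matrix.mul_apply, Matrix.one_apply] at h
  simpa only [Matrix.transpose_apply] using h

lemma invt_row (O : Matrix ι ι ℝ) (hO : Orth O) (x y : ι) :
    ∑ a, O x a * O y a = if x = y then 1 else 0 := by
  have h0 : O * O.transpose = 1 := mul_eq_one_comm.mp hO
  have h := congrFun (congrFun h0 x) y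
  rw [Matrix.mul_apply, Matrix.one_apply] at h
  simpa only [Matrix.transpose_apply] using h

lemma invt_sq (O : Matrix ι ι ℝ) (hO : Orth O) (v : ι → ℝ) :
    ∑ a, (∑ x, O a x * v x) ^ 2 = ∑ x, v x ^ 2 := by
  have h1 : ∀ a, (∑ x, O a x * v x) ^ 2 = ∑ x, ∑ y, v x * v y * (O a x * O a y) := by
    intro a
    rw [sq, Finset.sum_mul_sum]
    exact Finset.sum_congr rfl fun _ _ => Finset.sum_congr rfl fun _ _ => by ring
  simp only [h1]
  rw [Finset.sum_comm]
  refine Finset.sum_congr rfl fun x _ => ?_
  rw [Finset.sum_comm]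
  simp only [← Finset.mul_sum, invt_col O hO]
  simp [sq]

lemma invt_n1 (O : Matrix ι ι ℝ) (hO : Orth O) (R : T4 ι) : hs4 (invt_u1 O R) = hs4 R := by
  have h : ∀ T : T4 ι, hs4 T = ∑ b, ∑ c, ∑ d, ∑ a, T a b c d ^ 2 := by
    intro T
    show invt_S4 (fun a b c d => T a b c d ^ 2) = invt_S4 (fun b c d a => T a b c d ^ 2)
    rw [invt_sw12, invt_sw23, invt_sw34]
  rw [h, h]
  refine Finset.sum_congr rfl fun b _ => Finset.sum_congr rfl fun c _ =>
    Finset.sum_congr rfl fun d _ => ?_
  exact invt_sq O hO fun x => R x b c d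

lemma invt_n2 (O : Matrix ι ι ℝ) (hO : Orth O) (R : T4 ι) : hs4 (invt_u2 O R) = hs4 R := by
  have h : ∀ T : T4 ι, hs4 T = ∑ a, ∑ c, ∑ d, ∑ b, T a b c d ^ 2 := by
    intro T
    show invt_S4 (fun a b c d => T a b c d ^ 2) = invt_S4 (fun a c d b => T a b c d ^ 2)
    rw [invt_sw23, invt_sw34]
  rw [h, h]
  refine Finset.sum_congr rfl fun a _ => Finset.sum_congr rfl fun c _ =>
    Finset.sum_congr rfl fun d _ => ?_
  exact invt_sq O hO fun x => R a x c d

lemma invt_n3 (O : Matrix ι ι ℝ) (hO : Orth O) (R : T4 ι) : hs4 (invt_u3 O R) = hs4 R := by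
  have h : ∀ T : T4 ι, hs4 T = ∑ a, ∑ b, ∑ d, ∑ c, T a b c d ^ 2 := by
    intro T
    show invt_S4 (fun a b c d => T a b c d ^ 2) = invt_S4 (fun a b d c => T a b c d ^ 2)
    rw [invt_sw34]
  rw [h, h]
  refine Finset.sum_congr rfl fun a _ => Finset.sum_congr rfl fun b _ =>
    Finset.sum_congr rfl fun d _ => ?_
  exact invt_sq O hO fun x => R a b x d

lemma invt_n4 (O : Matrix ι ι ℝ) (hO : Orth O) (R : T4 ι) : hs4 (invt_u4 O R) = hs4 R := by
  refine Finset.sum_congr rfl fun a _ => Finset.sum_congr rfl fun b _ =>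
    Finset.sum_congr rfl fun c _ => ?_
  exact invt_sq O hO fun x => R a b c x

lemma invt_hs4 (O : Matrix ι ι ℝ) (hO : Orth O) (R : T4 ι) : hs4 (act4 O R) = hs4 R := by
  rw [invt_act_u, invt_n1 O hO, invt_n2 O hO, invt_n3 O hO, invt_n4 O hO]

lemma invt_hs2 (O : Matrix ι ι ℝ) (hO : Orth O) (A : T2 ι) : hs2 (act2 O A) = hs2 A := by
  have h1 : ∀ a b, act2 O A a b = ∑ x, O a x * ∑ y, O b y * A x y := by
    intro a b
    simp only [act2, Finset.mul_sum]
    exact Finset.sum_congr rfl fun _ _ => Finset.sum_congr rfl fun _ _ => by ring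
  unfold hs2
  simp only [h1]
  rw [Finset.sum_comm]
  simp only [fun b => invt_sq O hO (fun x => ∑ y, O b y * A x y)]
  rw [Finset.sum_comm]
  refine Finset.sum_congr rfl fun x _ => ?_
  exact invt_sq O hO fun y => A x y

lemma invt_ric (O : Matrix ι ι ℝ) (hO : Orth O) (R : T4 ι) :
    Ric (act4 O R) = act2 O (Ric R) := by
  funext b d
  have h1 : ∀ x, act4 O R x b x d = ∑ y, ∑ w, ∑ a, ∑ c,
      (O b y * O d w * R a y c w) * (O x a * O x c) := by
    intro x
    rw [invt_act]
    have e : invt_S4 (fun a y c w => O x a * O b y * O x c * O d w * R a y c w) =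
        invt_S4 (fun y w a c => O x a * O b y * O x c * O d w * R a y c w) := by
      rw [invt_sw12, invt_sw34, invt_sw23]
    rw [e]
    exact invt_congr fun _ _ _ _ => by ring
  unfold Ric act2
  simp only [h1]
  rw [Finset.sum_comm]
  refine Finset.sum_congr rfl fun y _ => ?_
  rw [Finset.sum_comm]
  refine Finset.sum_congr rfl fun w _ => ?_
  rw [Finset.sum_comm, Finset.mul_sum]
  refine Finset.sum_congr rfl fun a _ => ?_
  rw [Finset.sum_comm]
  simp only [← Finset.mul_sum, invt_col O hO]
  simp

lemma invt_tr (O : Matrix ι ι ℝ) (hO : Orth O) (A : T2 ι) : tr2 (act2 O A) = tr2 A := by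
  unfold tr2 act2
  rw [Finset.sum_comm]
  refine Finset.sum_congr rfl fun x _ => ?_
  rw [Finset.sum_comm]
  simp only [← Finset.sum_mul, invt_col O hO]
  simp

lemma invt_sym (O : Matrix ι ι ℝ) (A : T2 ι) (hA : IsSym A) : IsSym (act2 O A) := by
  intro a b
  unfold act2
  rw [Finset.sum_comm]
  exact Finset.sum_congr rfl fun x _ => Finset.sum_congr rfl fun y _ => by
    rw [hA x y]; ring

lemma invt_comp2 (O O' : Matrix ι ι ℝ) (A : T2 ι) :
    act2 O' (act2 O A) = act2 (O' * O) A := by
  funext a b
  have h1 : ∀ (P : Matrix ι ι ℝ) (B : T2 ι) (a b : ι),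
      act2 P B a b = ∑ x, P a x * ∑ y, P b y * B x y := by
    intro P B a b
    simp only [act2, Finset.mul_sum]
    exact Finset.sum_congr rfl fun _ _ => Finset.sum_congr rfl fun _ _ => by ring
  have h2 : act2 O' (act2 O A) a b =
      ∑ x, ∑ y, ∑ z, ∑ w, (O' a x * O x z) * (O' b y * O y w) * A z w := by
    unfold act2
    simp only [Finset.mul_sum]
    exact Finset.sum_congr rfl fun _ _ => Finset.sum_congr rfl fun _ _ =>
      Finset.sum_congr rfl fun _ _ => Finset.sum_congr rfl fun _ _ => by ring
  have h3 : act2 (O' * O) A a b =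
      ∑ z, ∑ w, ∑ x, ∑ y, (O' a x * O x z) * (O' b y * O y w) * A z w := by
    unfold act2
    simp only [Matrix.mul_apply]
    refine Finset.sum_congr rfl fun z _ => Finset.sum_congr rfl fun w _ => ?_
    rw [Finset.sum_mul_sum, Finset.sum_mul]
    exact Finset.sum_congr rfl fun _ _ => by rw [Finset.sum_mul]
  rw [h2, h3]
  exact invt_pair fun x y z w => (O' a x * O x z) * (O' b y * O y w) * A z w

lemma invt_kn1 (O : Matrix ι ι ℝ) (hO : Orth O) (A : T2 ι) (a b c d : ι) :
    invt_S4 (fun x y z w => O a x * O b y * O c z * O d w * (kd x z * A y w)) =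
      kd a c * act2 O A b d := by
  have e : invt_S4 (fun x y z w => O a x * O b y * O c z * O d w * (kd x z * A y w)) =
      invt_S4 (fun y w x z => (O b y * O d w * A y w) * (O a x * (O c z * kd x z))) := by
    rw [invt_sw12, invt_sw34, invt_sw23]
    exact invt_congr fun _ _ _ _ => by ring
  rw [e]
  unfold invt_S4
  simp only [← Finset.mul_sum]
  have h2 : ∑ x, O a x * ∑ z, O c z * kd x z = kd a c := by
    simp only [kd, mul_ite, mul_one, mul_zero, Finset.sum_ite_eq, Finset.mem_univ, if_true]
    exact invt_row O hO a c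
  rw [h2]
  simp only [← Finset.sum_mul]
  rw [mul_comm]
  rfl

lemma invt_kn (O : Matrix ι ι ℝ) (hO : Orth O) (A : T2 ι) :
    act4 O (kn A) = kn (act2 O A) := by
  funext a b c d
  have h1 := invt_kn1 O hO A a b c d
  have h2 : invt_S4 (fun x y z w => O a x * O b y * O c z * O d w * (kd x w * A y z)) =
      kd a d * act2 O A b c := by
    rw [← invt_kn1 O hO A a b d c, invt_sw34]
    exact invt_congr fun _ _ _ _ => by ring
  have h3 : invt_S4 (fun x y z w => O a x * O b y * O c z * O d w * (kd y z * A x w)) =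
      kd b c * act2 O A a d := by
    rw [← invt_kn1 O hO A b a c d, invt_sw12]
    exact invt_congr fun _ _ _ _ => by ring
  have h4 : invt_S4 (fun x y z w => O a x * O b y * O c z * O d w * (kd y w * A x z)) =
      kd b d * act2 O A a c := by
    rw [← invt_kn1 O hO A b a d c, invt_sw12, invt_sw34]
    exact invt_congr fun _ _ _ _ => by ring
  rw [invt_act]
  have e : invt_S4 (fun x y z w => O a x * O b y * O c z * O d w * kn A x y z w) =
      invt_S4 (fun x y z w => O a x * O b y * O c z * O d w * (kd x z * A y w)) +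
      - invt_S4 (fun x y z w => O a x * O b y * O c z * O d w * (kd x w * A y z)) +
      - invt_S4 (fun x y z w => O a x * O b y * O c z * O d w * (kd y z * A x w)) +
      invt_S4 (fun x y z w => O a x * O b y * O c z * O d w * (kd y w * A x z)) := by
    rw [← invt_neg, ← invt_neg, ← invt_add, ← invt_add, ← invt_add]
    exact invt_congr fun x y z w => by unfold kn; ring
  rw [e, h1, h2, h3, h4]
  unfold kn
  ring

lemma invt_one4 (R : T4 ι) : act4 1 R = R := by
  rw [invt_act_u]
  funext a b c d
  simp [invt_u1, invt_u2, invt_u3, invt_u4, Matrix.one_apply]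

lemma invt_one2 (A : T2 ι) : act2 1 A = A := by
  funext a b
  simp only [act2, Matrix.one_apply]
  simp

theorem invt_main : St_invt := by
  intro ι _ _
  exact
    { curv := fun O _ R hR => invt_curv O R hR
      ric := fun O hO R => invt_ric O hO R
      n4 := fun O hO R => invt_hs4 O hO R
      n2 := fun O hO A => invt_hs2 O hO A
      sym := fun O _ A hA => invt_sym O A hA
      tr := fun O hO A => invt_tr O hO A
      knn := fun O hO A => invt_kn O hO A
      add4 := by
        intro O R T
        funext a b c d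
        show act4 O (R + T) a b c d = act4 O R a b c d + act4 O T a b c d
        rw [invt_act, invt_act, invt_act, ← invt_add]
        exact invt_congr fun x y z w => by
          show _ * (R x y z w + T x y z w) = _
          ring
      comp4 := fun O O' R => invt_comp4 O O' R
      comp2 := fun O O' A => invt_comp2 O O' A
      one4 := invt_one4
      one2 := invt_one2
      mul := by
        intro O O' hO hO'
        unfold Orth at *
        rw [Matrix.transpose_mul, Matrix.mul_assoc, ← Matrix.mul_assoc O'.transpose, hO',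
          Matrix.one_mul, hO] }

end Pool.Agent.H933R2.HopfN
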