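import Pool.Agent.H933R2.HopfN.St

set_option autoImplicit false
set_option linter.all false

namespace Pool.Agent.H933R2.HopfN

theorem knb_kd {ι : Type} [Fintype ι] [DecidableEq ι] (a : ι) (f : ι → ℝ) :
    ∑ c, kd a c * f c = f a := by
  simp [kd]

theorem knb_sq {ι : Type} [DecidableEq ι] (a b : ι) (x : ℝ) : (kd a b * x) ^ 2 = kd a b * x ^ 2 := by
  unfold kd; split_ifs <;> ring

theorem knb_s1 {ι : Type} [Fintype ι] [DecidableEq ι] (B : T2 ι) :
    ∑ a : ι, ∑ b : ι, ∑ c : ι, ∑ d : ι, (kd a c * B b d) ^ 2 = (Fintype.card ι : ℝ) * hs2 B := by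
  have h : ∀ a b : ι, ∑ c, ∑ d, (kd a c * B b d) ^ 2 = ∑ d, B b d ^ 2 := by
    intro a b
    simp only [knb_sq, ← Finset.mul_sum]
    exact knb_kd a (fun _ => ∑ d, B b d ^ 2)
  simp only [h]
  rw [Finset.sum_const, Finset.card_univ, nsmul_eq_mul]; rfl

theorem knb_s2 {ι : Type} [Fintype ι] [DecidableEq ι] (B : T2 ι) :
    ∑ a : ι, ∑ b : ι, ∑ c : ι, ∑ d : ι, (kd a d * B b c) ^ 2 = (Fintype.card ι : ℝ) * hs2 B := by
  rw [← knb_s1]
  apply Finset.sum_congr rfl; intro a _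
  apply Finset.sum_congr rfl; intro b _
  rw [Finset.sum_comm]

theorem knb_s3 {ι : Type} [Fintype ι] [DecidableEq ι] (B : T2 ι) :
    ∑ a : ι, ∑ b : ι, ∑ c : ι, ∑ d : ι, (kd b c * B a d) ^ 2 = (Fintype.card ι : ℝ) * hs2 B := by
  rw [← knb_s1, Finset.sum_comm]

theorem knb_s4 {ι : Type} [Fintype ι] [DecidableEq ι] (B : T2 ι) :
    ∑ a : ι, ∑ b : ι, ∑ c : ι, ∑ d : ι, (kd b d * B a c) ^ 2 = (Fintype.card ι : ℝ) * hs2 B := by
  rw [← knb_s2, Finset.sum_comm]

theorem knb_c12 {ι : Type} [Fintype ι] [DecidableEq ι] (B : T2 ι) :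
    ∑ a : ι, ∑ b : ι, ∑ c : ι, ∑ d : ι, (kd a c * B b d) * (kd a d * B b c) = hs2 B := by
  have h : ∀ a b : ι, ∑ c, ∑ d, (kd a c * B b d) * (kd a d * B b c) = B b a ^ 2 := by
    intro a b
    have h1 : ∀ c, ∑ d, (kd a c * B b d) * (kd a d * B b c) = kd a c * (B b a * B b c) := by
      intro c
      have h2 : ∀ d, (kd a c * B b d) * (kd a d * B b c) = kd a d * (kd a c * (B b d * B b c)) := by
        intro d; ring
      simp only [h2]
      rw [knb_kd a (fun d => kd a c * (B b d * B b c))]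
    simp only [h1]
    rw [knb_kd a (fun c => B b a * B b c)]; ring
  simp only [h]
  rw [Finset.sum_comm]; rfl

theorem knb_c13 {ι : Type} [Fintype ι] [DecidableEq ι] (B : T2 ι) :
    ∑ a : ι, ∑ b : ι, ∑ c : ι, ∑ d : ι, (kd a c * B b d) * (kd b c * B a d) = hs2 B := by
  have h : ∀ a b : ι, ∑ c, ∑ d, (kd a c * B b d) * (kd b c * B a d)
      = kd a b * ∑ d, B b d * B a d := by
    intro a b
    have h1 : ∀ c, ∑ d, (kd a c * B b d) * (kd b c * B a d)
        = kd a c * (kd b c * ∑ d, B b d * B a d) := by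
      intro c
      rw [Finset.mul_sum, Finset.mul_sum]
      apply Finset.sum_congr rfl; intro d _; ring
    simp only [h1]
    rw [knb_kd a (fun c => kd b c * ∑ d, B b d * B a d)]
    unfold kd
    by_cases hab : a = b
    · subst hab; simp
    · simp [hab, Ne.symm hab]
  simp only [h]
  have h2 : ∀ a : ι, ∑ b, kd a b * ∑ d, B b d * B a d = ∑ d, B a d ^ 2 := by
    intro a
    rw [knb_kd a (fun b => ∑ d, B b d * B a d)]
    apply Finset.sum_congr rfl; intro d _; ring
  simp only [h2]; rfl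

theorem knb_c42 {ι : Type} [Fintype ι] [DecidableEq ι] (B : T2 ι) :
    ∑ a : ι, ∑ b : ι, ∑ c : ι, ∑ d : ι, (kd b d * B a c) * (kd a d * B b c) = hs2 B := by
  rw [← knb_c13]
  apply Finset.sum_congr rfl; intro a _
  apply Finset.sum_congr rfl; intro b _
  rw [Finset.sum_comm]
  apply Finset.sum_congr rfl; intro c _
  apply Finset.sum_congr rfl; intro d _
  ring

theorem knb_c43 {ι : Type} [Fintype ι] [DecidableEq ι] (B : T2 ι) :
    ∑ a : ι, ∑ b : ι, ∑ c : ι, ∑ d : ι, (kd b d * B a c) * (kd b c * B a d) = hs2 B := by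
  rw [← knb_c12, Finset.sum_comm]
  apply Finset.sum_congr rfl; intro a _
  apply Finset.sum_congr rfl; intro b _
  apply Finset.sum_congr rfl; intro c _
  apply Finset.sum_congr rfl; intro d _
  ring

theorem knb_main : St_knb := by
  intro ι _ _ B
  have hpt : ∀ a b c d : ι, kn B a b c d ^ 2 ≤
      2 * (kd a c * B b d) ^ 2 + 2 * (kd a d * B b c) ^ 2 + 2 * (kd b c * B a d) ^ 2
        + 2 * (kd b d * B a c) ^ 2
      - 2 * ((kd a c * B b d) * (kd a d * B b c)) - 2 * ((kd a c * B b d) * (kd b c * B a d))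
      - 2 * ((kd b d * B a c) * (kd a d * B b c)) - 2 * ((kd b d * B a c) * (kd b c * B a d)) := by
    intro a b c d
    unfold kn
    nlinarith [sq_nonneg (kd a c * B b d - kd b d * B a c), sq_nonneg (kd a d * B b c - kd b c * B a d)]
  have hsum : hs4 (kn B) ≤ ∑ a : ι, ∑ b : ι, ∑ c : ι, ∑ d : ι,
      (2 * (kd a c * B b d) ^ 2 + 2 * (kd a d * B b c) ^ 2 + 2 * (kd b c * B a d) ^ 2
        + 2 * (kd b d * B a c) ^ 2
      - 2 * ((kd a c * B b d) * (kd a d * B b c)) - 2 * ((kd a c * B b d) * (kd b c * B a d))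
      - 2 * ((kd b d * B a c) * (kd a d * B b c)) - 2 * ((kd b d * B a c) * (kd b c * B a d))) := by
    unfold hs4
    apply Finset.sum_le_sum; intro a _
    apply Finset.sum_le_sum; intro b _
    apply Finset.sum_le_sum; intro c _
    apply Finset.sum_le_sum; intro d _
    exact hpt a b c d
  refine le_trans hsum ?_
  simp only [Finset.sum_add_distrib, Finset.sum_sub_distrib, ← Finset.mul_sum]
  rw [knb_s1, knb_s2, knb_s3, knb_s4, knb_c12, knb_c13, knb_c42, knb_c43]
  have : 0 ≤ hs2 B := Finset.sum_nonneg fun a _ => Finset.sum_nonneg fun b _ => sq_nonneg _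
  linarith

end Pool.Agent.H933R2.HopfN
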