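import Pool.Agent.H933R2.HopfN.St

set_option autoImplicit false

/-!
Task MIN: existence of an optimal orthonormal frame.
-/

namespace Pool.Agent.H933R2.HopfN

theorem min_aux1 (ι F : Type) [Fintype ι] [DecidableEq ι] [Fintype F] (S : F → Finset ι)
    (θ κ : ℝ) (q : ℕ) (W : T4 ι) (A : T2 ι) :
    Continuous (fun O : Matrix ι ι ℝ => Psi S θ κ q (act4 O W) (act2 O A)) := by
  have hO : ∀ a b : ι, Continuous (fun O : Matrix ι ι ℝ => O a b) := fun a b =>
    (continuous_apply b).comp (continuous_apply a)
  have h4 : ∀ a b c d : ι, Continuous (fun O : Matrix ι ι ℝ => act4 O W a b c d) := by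
    intro a b c d
    unfold act4
    refine continuous_finset_sum _ fun a' _ => continuous_finset_sum _ fun b' _ =>
      continuous_finset_sum _ fun c' _ => continuous_finset_sum _ fun d' _ => ?_
    exact ((((hO a a').mul (hO b b')).mul (hO c c')).mul (hO d d')).mul continuous_const
  have h2 : ∀ a b : ι, Continuous (fun O : Matrix ι ι ℝ => act2 O A a b) := by
    intro a b
    unfold act2
    refine continuous_finset_sum _ fun a' _ => continuous_finset_sum _ fun b' _ => ?_
    exact ((hO a a').mul (hO b b')).mul continuous_const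
  unfold Psi QQ Q4 Q2 ip4 ip2
  refine continuous_finset_sum _ fun f _ => Continuous.pow (Continuous.add ?_ ?_) q
  · refine continuous_finset_sum _ fun a _ => continuous_finset_sum _ fun b _ =>
      continuous_finset_sum _ fun c _ => continuous_finset_sum _ fun d _ => ?_
    exact continuous_const.mul ((h4 a b c d).mul (h4 a b c d))
  · refine continuous_const.mul ?_
    refine continuous_finset_sum _ fun a _ => continuous_finset_sum _ fun b _ => ?_
    exact continuous_const.mul ((h2 a b).mul (h2 a b))

theorem min_aux2 (ι : Type) [Fintype ι] [DecidableEq ι] :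
    IsCompact {O : Matrix ι ι ℝ | Orth O} := by
  have h1 : IsCompact (Set.pi Set.univ (fun _ : ι => Set.pi Set.univ
      (fun _ : ι => Set.Icc (-1 : ℝ) 1))) :=
    isCompact_univ_pi fun _ => isCompact_univ_pi fun _ => isCompact_Icc
  have h2 : IsClosed {O : Matrix ι ι ℝ | Orth O} := by
    have hc : Continuous (fun O : Matrix ι ι ℝ => O.transpose * O) :=
      (continuous_id.matrix_transpose).matrix_mul continuous_id
    exact isClosed_eq hc continuous_const
  have h3 : {O : Matrix ι ι ℝ | Orth O} ⊆ (Set.pi Set.univ (fun _ : ι => Set.pi Set.univ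
      (fun _ : ι => Set.Icc (-1 : ℝ) 1))) := by
    intro O hO a _ b _
    have hO' : O.transpose * O = 1 := hO
    have h4 := congrFun (congrFun hO' b) b
    rw [Matrix.mul_apply, Matrix.one_apply_eq] at h4
    have h5 : O a b * O a b ≤ 1 := by
      rw [← h4]
      have := Finset.single_le_sum (f := fun x => O.transpose b x * O x b)
        (fun x _ => by
          show 0 ≤ O x b * O x b
          exact mul_self_nonneg _) (Finset.mem_univ a)
      exact this
    rw [Set.mem_Icc]
    constructor <;> nlinarith
  exact h1.of_isClosed_subset h2 h3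

theorem min_main : St_min := by
  intro ι F _ _ _ S θ κ q W A
  have hne : ({O : Matrix ι ι ℝ | Orth O}).Nonempty := ⟨1, by
    show (1 : Matrix ι ι ℝ).transpose * 1 = 1
    simp⟩
  obtain ⟨O, hO, hmin⟩ := (min_aux2 ι).exists_isMinOn hne
    (min_aux1 ι F S θ κ q W A).continuousOn
  exact ⟨O, hO, fun O' hO' => hmin hO'⟩

end Pool.Agent.H933R2.HopfN
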