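import Pool.Agent.H933R2.HopfN.St

set_option autoImplicit false
set_option linter.all false

namespace Pool.Agent.H933R2.HopfN

theorem mom_wt_nonneg {ι : Type} [DecidableEq ι] {θ : ℝ} (hθ : 0 ≤ θ) (S : Finset ι) (a : ι) :
    0 ≤ wt θ S a := by
  unfold wt
  split_ifs
  · norm_num
  · exact hθ

theorem mom_QQ_nonneg {ι : Type} [Fintype ι] [DecidableEq ι] {θ κ : ℝ} (hθ : 0 ≤ θ) (hκ : 0 ≤ κ)
    (S : Finset ι) (W : T4 ι) (A : T2 ι) : 0 ≤ QQ (wt θ S) κ W A := by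
  unfold QQ Q4 Q2 ip4 ip2
  have hw := fun a => mom_wt_nonneg hθ S a
  refine add_nonneg ?_ (mul_nonneg hκ ?_)
  · refine Finset.sum_nonneg fun a _ => Finset.sum_nonneg fun b _ => Finset.sum_nonneg fun c _ =>
      Finset.sum_nonneg fun d _ => ?_
    exact mul_nonneg (mul_nonneg (mul_nonneg (mul_nonneg (hw a) (hw b)) (hw c)) (hw d))
      (mul_self_nonneg _)
  · refine Finset.sum_nonneg fun a _ => Finset.sum_nonneg fun b _ => ?_
    exact mul_nonneg (mul_nonneg (hw a) (hw b)) (mul_self_nonneg _)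

theorem mom_hs4_nonneg {ι : Type} [Fintype ι] (R : T4 ι) : 0 ≤ hs4 R := by
  unfold hs4
  exact Finset.sum_nonneg fun a _ => Finset.sum_nonneg fun b _ => Finset.sum_nonneg fun c _ =>
      Finset.sum_nonneg fun d _ => sq_nonneg _

theorem mom_hs2_nonneg {ι : Type} [Fintype ι] (A : T2 ι) : 0 ≤ hs2 A := by
  unfold hs2
  exact Finset.sum_nonneg fun a _ => Finset.sum_nonneg fun b _ => sq_nonneg _

theorem mom_term (j : ℕ) (hj : 1 ≤ j) (n Q T1 T2' H : ℝ) (hn : 0 < n) (hQ : 0 ≤ Q)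
    (h1 : (1 / 2) * T1 ≤ - n * Q + 2 * n * H) (h2 : T2' ≤ n / j * Q ^ 2) :
    (j : ℝ) * Q ^ (j - 1) * T1 + (j : ℝ) * ((j : ℝ) - 1) * Q ^ (j - 2) * T2' ≤
      (j * n) * (4 * H * Q ^ (j - 1) - Q ^ j) := by
  have hj1 : (1 : ℝ) ≤ j := by exact_mod_cast hj
  have hjpos : (0 : ℝ) < j := by linarith
  have hp : Q ^ j = Q ^ (j - 1) * Q := by
    rw [← pow_succ]
    congr 1
    omega
  have e1 : (j : ℝ) * Q ^ (j - 1) * T1 ≤ (j : ℝ) * Q ^ (j - 1) * (2 * (- n * Q + 2 * n * H)) := by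
    refine mul_le_mul_of_nonneg_left (by linarith) (by positivity)
  have e2 : (j : ℝ) * ((j : ℝ) - 1) * Q ^ (j - 2) * T2' ≤ j * n * Q ^ j := by
    rcases Nat.lt_or_ge 1 j with h | h
    · have hp2 : Q ^ j = Q ^ (j - 2) * Q ^ 2 := by
        rw [← pow_add]
        congr 1
        omega
      calc (j : ℝ) * ((j : ℝ) - 1) * Q ^ (j - 2) * T2'
          ≤ (j : ℝ) * ((j : ℝ) - 1) * Q ^ (j - 2) * (n / j * Q ^ 2) := by
            refine mul_le_mul_of_nonneg_left h2 ?_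
            have : (0 : ℝ) ≤ (j : ℝ) - 1 := by linarith
            positivity
        _ = ((j : ℝ) - 1) * n * (Q ^ (j - 2) * Q ^ 2) := by
            field_simp
        _ = ((j : ℝ) - 1) * n * Q ^ j := by rw [hp2]
        _ ≤ j * n * Q ^ j := by
            have : (0 : ℝ) ≤ Q ^ j := by positivity
            have h3 : ((j : ℝ) - 1) * n ≤ j * n := by nlinarith
            exact mul_le_mul_of_nonneg_right h3 this
    · have : j = 1 := by omega
      subst this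
      simp only [Nat.cast_one, sub_self, mul_zero, zero_mul, one_mul, pow_one]
      positivity
  calc (j : ℝ) * Q ^ (j - 1) * T1 + (j : ℝ) * ((j : ℝ) - 1) * Q ^ (j - 2) * T2'
      ≤ (j : ℝ) * Q ^ (j - 1) * (2 * (- n * Q + 2 * n * H)) + j * n * Q ^ j := add_le_add e1 e2
    _ = (j * n) * (4 * H * Q ^ (j - 1) - Q ^ j) := by
        rw [hp]
        ring

theorem mom_main (h1 : St_invt) (h2 : St_min) (h3 : St_var) (h4 : St_alg) (h5 : St_grd)
    (h6 : St_hold) : St_mom := by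
  intro ι F _ _ _ j hj hcard S hS W A hW hRic hA htr n θ κ hn hθ hκ
  have hI := h1 ι
  have hj1 : (1 : ℝ) ≤ j := by exact_mod_cast hj
  have hjpos : (0 : ℝ) < j := by linarith
  have hn32 : 32 * (j : ℝ) ≤ n := by
    rw [hn]
    exact_mod_cast hcard
  have hnpos : 0 < n := by linarith
  have hθpos : 0 < θ := by
    rw [hθ]
    positivity
  have hθ1 : θ ≤ 1 := by
    rw [hθ, div_le_one hnpos]
    exact hn32
  have hκ0 : 0 ≤ κ := by
    rw [hκ]
    positivity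
  obtain ⟨O, hO, hmin⟩ := h2 ι F S θ κ j W A
  refine ⟨O, hO, ?_⟩
  set W' := act4 O W with hW'
  set A' := act2 O A with hA'
  have cW : IsCurv W' := hI.curv O hO W hW
  have cRic : ∀ a b, Ric W' a b = 0 := by
    intro a b
    rw [hW', hI.ric O hO W]
    unfold act2
    refine Finset.sum_eq_zero fun a' _ => Finset.sum_eq_zero fun b' _ => ?_
    rw [hRic, mul_zero]
  have cA : IsSym A' := hI.sym O hO A hA
  have ctr : tr2 A' = 0 := by rw [hA', hI.tr O hO A, htr]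
  have e4 : hs4 W' = hs4 W := hI.n4 O hO W
  have e2 : hs2 A' = hs2 A := hI.n2 O hO A
  have hvar := h3 ι F S θ κ j hj W' A' (by
    intro O' hO'
    rw [hW', hA', hI.comp4 O O' W, hI.comp2 O O' A]
    exact hmin (O' * O) (hI.mul O O' hO hO'))
  set Q : F → ℝ := fun f => QQ (wt θ (S f)) κ W' A' with hQ
  have hQ0 : ∀ f, 0 ≤ Q f := fun f => mom_QQ_nonneg hθpos.le hκ0 (S f) W' A'
  set H : ℝ := θ ^ 4 * (hs4 W + n ^ 2 * hs2 A) with hH
  have hH0 : 0 ≤ H := by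
    have := mom_hs4_nonneg W
    have := mom_hs2_nonneg A
    positivity
  have hsum : 0 ≤ ∑ i, ∑ l, ∑ f : F, ((j : ℝ) * Q f ^ (j - 1) * QQ2 (wt θ (S f)) κ W' A' i l +
      (j : ℝ) * ((j : ℝ) - 1) * Q f ^ (j - 2) * QQ1 (wt θ (S f)) κ W' A' i l ^ 2) :=
    Finset.sum_nonneg fun i _ => Finset.sum_nonneg fun l _ => hvar i l
  have hswap : ∑ i, ∑ l, ∑ f : F, ((j : ℝ) * Q f ^ (j - 1) * QQ2 (wt θ (S f)) κ W' A' i l +
      (j : ℝ) * ((j : ℝ) - 1) * Q f ^ (j - 2) * QQ1 (wt θ (S f)) κ W' A' i l ^ 2) =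
      ∑ f : F, ((j : ℝ) * Q f ^ (j - 1) * (∑ i, ∑ l, QQ2 (wt θ (S f)) κ W' A' i l) +
      (j : ℝ) * ((j : ℝ) - 1) * Q f ^ (j - 2) *
        (∑ i, ∑ l, QQ1 (wt θ (S f)) κ W' A' i l ^ 2)) := by
    have s1 : ∀ i, ∑ l, ∑ f : F, ((j : ℝ) * Q f ^ (j - 1) * QQ2 (wt θ (S f)) κ W' A' i l +
      (j : ℝ) * ((j : ℝ) - 1) * Q f ^ (j - 2) * QQ1 (wt θ (S f)) κ W' A' i l ^ 2) =
      ∑ f : F, ∑ l, ((j : ℝ) * Q f ^ (j - 1) * QQ2 (wt θ (S f)) κ W' A' i l +
      (j : ℝ) * ((j : ℝ) - 1) * Q f ^ (j - 2) * QQ1 (wt θ (S f)) κ W' A' i l ^ 2) :=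
      fun i => Finset.sum_comm
    rw [Finset.sum_congr rfl fun i _ => s1 i, Finset.sum_comm]
    refine Finset.sum_congr rfl fun f _ => ?_
    rw [Finset.mul_sum, Finset.mul_sum, ← Finset.sum_add_distrib]
    refine Finset.sum_congr rfl fun i _ => ?_
    rw [Finset.mul_sum, Finset.mul_sum, ← Finset.sum_add_distrib]
  rw [hswap] at hsum
  have hθn : 32 / θ = n / j := by
    rw [hθ]
    field_simp
  have hbound : ∀ f, (j : ℝ) * Q f ^ (j - 1) * (∑ i, ∑ l, QQ2 (wt θ (S f)) κ W' A' i l) +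
      (j : ℝ) * ((j : ℝ) - 1) * Q f ^ (j - 2) *
        (∑ i, ∑ l, QQ1 (wt θ (S f)) κ W' A' i l ^ 2) ≤
      (j * n) * (4 * H * Q f ^ (j - 1) - Q f ^ j) := by
    intro f
    refine mom_term j hj n (Q f) _ _ H hnpos (hQ0 f) ?_ ?_
    · have := h4 ι j hj hcard (S f) (hS f) W' A' cW cRic cA ctr n θ κ hn hθ hκ
      rw [e4, e2] at this
      rw [hH]
      calc _ ≤ _ := this
        _ = _ := by ring
    · have := h5 ι (S f) θ κ hθpos hθ1 hκ0 W' A' cW cA
      rw [hθn] at this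
      exact this
  have htot := hsum.trans (Finset.sum_le_sum fun f _ => hbound f)
  rw [← Finset.mul_sum, Finset.sum_sub_distrib, ← Finset.mul_sum] at htot
  have hjn : (0 : ℝ) < j * n := by positivity
  have hfin : ∑ f, Q f ^ j ≤ 4 * H * ∑ f, Q f ^ (j - 1) := by
    have := nonneg_of_mul_nonneg_right htot hjn
    linarith
  have := h6 F Q (4 * H) j hj (by positivity) hQ0 hfin
  calc _ ≤ _ := this
    _ = _ := by
      rw [hH]
      congr 2
      ring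

end Pool.Agent.H933R2.HopfN
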