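import Pool.Agent.H933R2.HopfN.St
import Pool.Agent.Helper929.Pfaffian

set_option autoImplicit false
set_option linter.all false

/-!
Task PF: the square of the Pfaffian sum is a multiple of the determinant.
-/

namespace Pool.Agent.H933R2.HopfN

open Equiv Pool.Agent.Helper929

/-- product over consecutive pairs -/
def pf_Q {R α : Type} [CommRing R] (A : α → α → R) : (n : ℕ) → (Fin n → α) → R
  | 0, _ => 1
  | 1, _ => 0
  | (n + 2), v => A (v 0) (v (Fin.succ 0)) * pf_Q A n (fun k => v k.succ.succ)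

theorem pf_Q_comp {R α β : Type} [CommRing R] (A : α → α → R) (f : β → α) :
    ∀ (n : ℕ) (v : Fin n → β), pf_Q A n (fun k => f (v k)) = pf_Q (fun a b => A (f a) (f b)) n v
  | 0, _ => rfl
  | 1, _ => rfl
  | (n + 2), v => by
    simp only [pf_Q]
    rw [pf_Q_comp A f n (fun k => v k.succ.succ)]

/-- sum over permutations -/
def pf_S (n : ℕ) (A : Fin n → Fin n → ℂ) : ℂ :=
  ∑ σ : Perm (Fin n), ((Perm.sign σ : ℤ) : ℂ) * pf_Q A n (fun k => σ k)

theorem pf_sum_fix {n : ℕ} (g : Perm (Fin (n + 1)) → ℂ) :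
    ∑ e : Perm (Fin (n + 1)), (if e 0 = 0 then g e else 0) =
      ∑ e : Perm (Fin n), g (Perm.decomposeFin.symm (0, e)) := by
  rw [← Perm.decomposeFin.symm.sum_comp, Fintype.sum_prod_type]
  rw [Finset.sum_eq_single 0]
  · refine Finset.sum_congr rfl fun e _ => ?_
    rw [if_pos (Perm.decomposeFin_symm_apply_zero 0 e)]
  · intro p _ hp
    refine Finset.sum_eq_zero fun e _ => ?_
    rw [if_neg]
    rw [Perm.decomposeFin_symm_apply_zero]
    exact hp
  · intro h
    exact absurd (Finset.mem_univ _) h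

theorem pf_sum_split {n : ℕ} (f : Perm (Fin (n + 1)) → ℂ) :
    ∑ e : Perm (Fin (n + 1)), f e = ∑ k : Fin (n + 1), ∑ e : Perm (Fin n),
      f (k.cycleRange.symm * Perm.decomposeFin.symm (0, e)) := by
  have h1 : ∀ e : Perm (Fin (n + 1)), f e = ∑ k : Fin (n + 1), if e 0 = k then f e else 0 := by
    intro e
    rw [Finset.sum_ite_eq Finset.univ (e 0) (fun _ => f e)]
    simp
  rw [Finset.sum_congr rfl fun e _ => h1 e, Finset.sum_comm]
  refine Finset.sum_congr rfl fun k _ => ?_
  rw [← pf_sum_fix (fun e => f (k.cycleRange.symm * e)),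
    ← Equiv.sum_comp (Equiv.mulLeft (k.cycleRange.symm : Perm (Fin (n + 1))))]
  refine Finset.sum_congr rfl fun e _ => ?_
  have h2 : ((Equiv.mulLeft (k.cycleRange.symm : Perm (Fin (n + 1)))) e) 0 = k ↔ e 0 = 0 := by
    rw [Equiv.coe_mulLeft, Perm.mul_apply]
    constructor
    · intro h
      apply (k.cycleRange.symm : Perm (Fin (n + 1))).injective
      rw [h]
      simp
    · intro h
      rw [h]
      simp
  simp only [h2]
  rfl

theorem pf_tuple_zero {n : ℕ} (k : Fin (n + 1)) (e : Perm (Fin n)) :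
    (k.cycleRange.symm * Perm.decomposeFin.symm (0, e)) 0 = k := by
  rw [Perm.mul_apply, Perm.decomposeFin_symm_apply_zero]
  simp

theorem pf_tuple_succ {n : ℕ} (k : Fin (n + 1)) (e : Perm (Fin n)) (x : Fin n) :
    (k.cycleRange.symm * Perm.decomposeFin.symm (0, e)) x.succ = k.succAbove (e x) := by
  rw [Perm.mul_apply, Perm.decomposeFin_symm_apply_succ]
  simp

theorem pf_tuple_sign {n : ℕ} (k : Fin (n + 1)) (e : Perm (Fin n)) :
    ((Perm.sign (k.cycleRange.symm * Perm.decomposeFin.symm (0, e)) : ℤ) : ℂ) =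
      (-1) ^ (k : ℕ) * ((Perm.sign e : ℤ) : ℂ) := by
  rw [Perm.sign_mul, Perm.sign_symm, Fin.sign_cycleRange, Perm.decomposeFin.symm_sign]
  simp

/-- first expansion: sum over the tuples starting with `0` -/
theorem pf_S0 {n : ℕ} (B : Fin (n + 2) → Fin (n + 2) → ℂ) :
    ∑ e : Perm (Fin (n + 1)), ((Perm.sign e : ℤ) : ℂ) *
      (B 0 (e 0).succ * pf_Q B n (fun k => (e k.succ).succ)) =
    ∑ l : Fin (n + 1), (-1) ^ (l : ℕ) * B 0 l.succ *
      pf_S n (fun a b => B (l.succAbove a).succ (l.succAbove b).succ) := by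
  rw [pf_sum_split]
  refine Finset.sum_congr rfl fun l _ => ?_
  unfold pf_S
  rw [Finset.mul_sum]
  refine Finset.sum_congr rfl fun e _ => ?_
  rw [pf_tuple_sign, pf_tuple_zero]
  simp only [pf_tuple_succ]
  rw [pf_Q_comp B (fun a : Fin n => (l.succAbove a).succ) n (fun k => e k)]
  ring

theorem pf_S_step {n : ℕ} (A : Fin (n + 2) → Fin (n + 2) → ℂ) :
    pf_S (n + 2) A = ∑ k : Fin (n + 2), (-1) ^ (k : ℕ) *
      ∑ l : Fin (n + 1), (-1) ^ (l : ℕ) *
        A (k.cycleRange.symm 0) (k.cycleRange.symm l.succ) *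
        pf_S n (fun a b => A (k.cycleRange.symm (l.succAbove a).succ)
          (k.cycleRange.symm (l.succAbove b).succ)) := by
  unfold pf_S
  rw [pf_sum_split]
  refine Finset.sum_congr rfl fun k _ => ?_
  have h := pf_S0 (fun a b => A (k.cycleRange.symm a) (k.cycleRange.symm b))
  unfold pf_S at h
  rw [← h, Finset.mul_sum]
  refine Finset.sum_congr rfl fun e _ => ?_
  rw [pf_tuple_sign]
  simp only [pf_Q]
  have h0 : (k.cycleRange.symm * Perm.decomposeFin.symm (0, e)) 0 = k.cycleRange.symm 0 := by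
    rw [pf_tuple_zero]
    simp
  have h1 : ∀ x : Fin (n + 1), (k.cycleRange.symm * Perm.decomposeFin.symm (0, e)) x.succ =
      k.cycleRange.symm (e x).succ := by
    intro x
    rw [pf_tuple_succ]
    simp
  simp only [h1]
  rw [h0, ← pf_Q_comp A (fun a => k.cycleRange.symm a) n (fun x => (e x.succ).succ)]
  ring

/-- the constants -/
def pf_c : ℕ → ℂ
  | 0 => 1
  | 1 => 1
  | (n + 2) => ((n + 2 : ℕ) : ℂ) * pf_c n

theorem pf_perm' {n : ℕ} (A : Matrix (Fin n) (Fin n) ℂ) (hA : ∀ i j, A i j = - A j i)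
    (σ : Perm (Fin n)) : pf n (A.submatrix σ σ) = ((Perm.sign σ : ℤ) : ℂ) * pf n A := by
  have h := pf_gram A hA (σ.permMatrix ℂ)
  have h1 : σ.permMatrix ℂ * A * (σ.permMatrix ℂ).transpose = A.submatrix σ σ := by
    rw [Matrix.transpose_permMatrix, Equiv.Perm.permMatrix, Equiv.Perm.permMatrix,
      PEquiv.toMatrix_toPEquiv_mul, PEquiv.mul_toMatrix_toPEquiv]
    rfl
  rw [h1, Matrix.det_permutation] at h
  exact h

theorem pf_S_eq : ∀ (n : ℕ) (A : Matrix (Fin n) (Fin n) ℂ), (∀ i j, A i j = - A j i) →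
    pf_S n (fun a b => A a b) = pf_c n * pf n A
  | 0, A, _ => by
    simp [pf_S, pf_Q, pf_c, pf]
  | 1, A, _ => by
    simp [pf_S, pf_Q, pf]
  | (n + 2), A, hA => by
    rw [pf_S_step]
    have key : ∀ k : Fin (n + 2), (-1 : ℂ) ^ (k : ℕ) *
        ∑ l : Fin (n + 1), (-1) ^ (l : ℕ) *
          A (k.cycleRange.symm 0) (k.cycleRange.symm l.succ) *
          pf_S n (fun a b => A (k.cycleRange.symm (l.succAbove a).succ)
            (k.cycleRange.symm (l.succAbove b).succ)) = pf_c n * pf (n + 2) A := by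
      intro k
      have h1 := pf_perm' A hA k.cycleRange.symm
      have h2 : pf (n + 2) (A.submatrix k.cycleRange.symm k.cycleRange.symm) =
          ∑ l : Fin (n + 1), (-1) ^ (l : ℕ) *
            A (k.cycleRange.symm 0) (k.cycleRange.symm l.succ) *
            pf n (Matrix.of fun a b => A (k.cycleRange.symm (l.succAbove a).succ)
              (k.cycleRange.symm (l.succAbove b).succ)) := rfl
      have h3 : ∀ l : Fin (n + 1), pf_S n (fun a b => A (k.cycleRange.symm (l.succAbove a).succ)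
            (k.cycleRange.symm (l.succAbove b).succ)) =
          pf_c n * pf n (Matrix.of fun a b => A (k.cycleRange.symm (l.succAbove a).succ)
              (k.cycleRange.symm (l.succAbove b).succ)) := by
        intro l
        exact pf_S_eq n (Matrix.of fun a b => A (k.cycleRange.symm (l.succAbove a).succ)
          (k.cycleRange.symm (l.succAbove b).succ)) (fun i j => hA _ _)
      have h4 : ∑ l : Fin (n + 1), (-1 : ℂ) ^ (l : ℕ) *
          A (k.cycleRange.symm 0) (k.cycleRange.symm l.succ) *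
          pf_S n (fun a b => A (k.cycleRange.symm (l.succAbove a).succ)
            (k.cycleRange.symm (l.succAbove b).succ)) =
          pf_c n * pf (n + 2) (A.submatrix k.cycleRange.symm k.cycleRange.symm) := by
        rw [h2, Finset.mul_sum]
        refine Finset.sum_congr rfl fun l _ => ?_
        rw [h3 l]
        ring
      rw [h4, h1, Perm.sign_symm, Fin.sign_cycleRange]
      have h5 : ((((-1 : ℤˣ) ^ (k : ℕ) : ℤˣ) : ℤ) : ℂ) = (-1) ^ (k : ℕ) := by
        push_cast
        rfl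
      rw [h5]
      have h6 : (-1 : ℂ) ^ (k : ℕ) * (-1) ^ (k : ℕ) = 1 := by
        rw [← mul_pow]
        norm_num
      linear_combination (pf_c n * pf (n + 2) A) * h6
    rw [Finset.sum_congr rfl fun k _ => key k]
    rw [Finset.sum_const, Finset.card_univ, Fintype.card_fin]
    simp only [pf_c, nsmul_eq_mul]
    ring

theorem pf_c_two (j : ℕ) : pf_c (2 * j) = (2 : ℂ) ^ j * (j.factorial : ℂ) := by
  induction j with
  | zero => simp [pf_c]
  | succ j ih =>
    have h : 2 * (j + 1) = 2 * j + 2 := by ring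
    rw [h]
    simp only [pf_c]
    rw [ih, Nat.factorial_succ]
    push_cast
    ring

/-- the enumeration of the positions -/
def pf_E (j : ℕ) : Pos j ≃ Fin (2 * j) :=
  finProdFinEquiv.trans (finCongr (Nat.mul_comm j 2))

theorem pf_E_val {j : ℕ} (i : Fin j) (ε : Fin 2) : (pf_E j (i, ε) : ℕ) = ε + 2 * i := by
  simp [pf_E, finProdFinEquiv]

theorem pf_Q_prod {R α : Type} [CommRing R] (A : α → α → R) : ∀ (j : ℕ) (v : Fin (2 * j) → α),
    pf_Q A (2 * j) v = ∏ i : Fin j, A (v (pf_E j (i, 0))) (v (pf_E j (i, 1)))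
  | 0, v => by
    simp [pf_Q]
  | (j + 1), v => by
    have h : pf_Q A (2 * (j + 1)) v =
        A (v (0 : Fin (2 * j + 2))) (v (Fin.succ 0 : Fin (2 * j + 2))) *
          pf_Q A (2 * j) (fun k => v (k.succ.succ : Fin (2 * j + 2))) := rfl
    rw [h, pf_Q_prod A j, Fin.prod_univ_succ]
    rfl

theorem pf_main : St_pf := by
  intro j X hX
  set A : Matrix (Fin (2 * j)) (Fin (2 * j)) ℂ :=
    Matrix.of fun a b => X ((pf_E j).symm a) ((pf_E j).symm b) with hA
  have hAs : ∀ i k, A i k = - A k i := fun i k => hX _ _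
  have h1 : ∑ σ : Perm (Pos j), ((Perm.sign σ : ℤ) : ℂ) *
      ∏ i : Fin j, X (σ (i, 0)) (σ (i, 1)) = pf_S (2 * j) (fun a b => A a b) := by
    unfold pf_S
    rw [← (Equiv.permCongr (pf_E j)).sum_comp]
    refine Finset.sum_congr rfl fun σ _ => ?_
    rw [Perm.sign_permCongr, pf_Q_prod]
    congr 1
    refine Finset.prod_congr rfl fun i _ => ?_
    simp [A, Equiv.permCongr_apply]
  have h2 := pf_S_eq (2 * j) A hAs
  have h3 := pf_sq (2 * j) A hAs
  have h4 : A.det = Matrix.det (Matrix.of X) := by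
    rw [← Matrix.det_submatrix_equiv_self (pf_E j).symm (Matrix.of X)]
    rfl
  rw [h1, h2, pf_c_two, mul_pow, h3, h4]

end Pool.Agent.H933R2.HopfN
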