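import Pool.Agent.H933R2.HopfN.St

set_option autoImplicit false
set_option linter.all false

namespace Pool.Agent.H933R2.HopfN

theorem res_wt_nonneg {ι : Type} [DecidableEq ι] (θ : ℝ) (hθ : 0 ≤ θ) (S : Finset ι) (a : ι) :
    0 ≤ wt θ S a := by
  unfold wt; split_ifs
  · exact zero_le_one
  · exact hθ

theorem res_one {ι κ : Type} [Fintype ι] [DecidableEq ι] [Fintype κ] (f : κ ↪ ι) (θ : ℝ)
    (hθ : 0 ≤ θ) (g : ι → ℝ) (hg : ∀ a, 0 ≤ g a) :
    ∑ p, g (f p) ≤ ∑ a, wt θ (Finset.univ.map f) a * g a := by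
  have h1 : ∑ p, g (f p) = ∑ a ∈ Finset.univ.map f, wt θ (Finset.univ.map f) a * g a := by
    rw [Finset.sum_map]
    apply Finset.sum_congr rfl
    intro p _
    have : f p ∈ Finset.univ.map f := Finset.mem_map_of_mem f (Finset.mem_univ p)
    simp only [wt, this, if_true, one_mul]
  rw [h1]
  apply Finset.sum_le_sum_of_subset_of_nonneg (Finset.subset_univ _)
  intro a _ _
  exact mul_nonneg (res_wt_nonneg θ hθ _ a) (hg a)

theorem res_four {ι κ : Type} [Fintype ι] [DecidableEq ι] [Fintype κ] (f : κ ↪ ι) (θ : ℝ)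
    (hθ : 0 ≤ θ) (W : T4 ι) : hs4 (res4 f W) ≤ Q4 (wt θ (Finset.univ.map f)) W := by
  set w := wt θ (Finset.univ.map f) with hw
  have hwn : ∀ a, 0 ≤ w a := fun a => res_wt_nonneg θ hθ _ a
  unfold hs4 res4
  have h4 : ∀ a b c : ι, 0 ≤ ∑ d, w d * W a b c d ^ 2 := fun a b c =>
    Finset.sum_nonneg fun d _ => mul_nonneg (hwn d) (sq_nonneg _)
  have h3 : ∀ a b : ι, 0 ≤ ∑ c, w c * ∑ d, w d * W a b c d ^ 2 := fun a b =>
    Finset.sum_nonneg fun c _ => mul_nonneg (hwn c) (h4 a b c)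
  have h2 : ∀ a : ι, 0 ≤ ∑ b, w b * ∑ c, w c * ∑ d, w d * W a b c d ^ 2 := fun a =>
    Finset.sum_nonneg fun b _ => mul_nonneg (hwn b) (h3 a b)
  calc ∑ a, ∑ b, ∑ c, ∑ d, W (f a) (f b) (f c) (f d) ^ 2
      ≤ ∑ a, ∑ b, ∑ c, ∑ d, w d * W (f a) (f b) (f c) d ^ 2 := by
        apply Finset.sum_le_sum; intro a _
        apply Finset.sum_le_sum; intro b _
        apply Finset.sum_le_sum; intro c _
        exact res_one f θ hθ (fun d => W (f a) (f b) (f c) d ^ 2) (fun d => sq_nonneg _)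
    _ ≤ ∑ a, ∑ b, ∑ c, w c * ∑ d, w d * W (f a) (f b) c d ^ 2 := by
        apply Finset.sum_le_sum; intro a _
        apply Finset.sum_le_sum; intro b _
        exact res_one f θ hθ (fun c => ∑ d, w d * W (f a) (f b) c d ^ 2) (fun c => h4 _ _ c)
    _ ≤ ∑ a, ∑ b, w b * ∑ c, w c * ∑ d, w d * W (f a) b c d ^ 2 := by
        apply Finset.sum_le_sum; intro a _
        exact res_one f θ hθ (fun b => ∑ c, w c * ∑ d, w d * W (f a) b c d ^ 2) (fun b => h3 _ b)
    _ ≤ ∑ a, w a * ∑ b, w b * ∑ c, w c * ∑ d, w d * W a b c d ^ 2 :=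
        res_one f θ hθ (fun a => ∑ b, w b * ∑ c, w c * ∑ d, w d * W a b c d ^ 2) (fun a => h2 a)
    _ = Q4 w W := by
        unfold Q4 ip4
        simp only [Finset.mul_sum]
        apply Finset.sum_congr rfl; intro a _
        apply Finset.sum_congr rfl; intro b _
        apply Finset.sum_congr rfl; intro c _
        apply Finset.sum_congr rfl; intro d _
        ring

theorem res_two {ι κ : Type} [Fintype ι] [DecidableEq ι] [Fintype κ] (f : κ ↪ ι) (θ : ℝ)
    (hθ : 0 ≤ θ) (A : T2 ι) : hs2 (res2 f A) ≤ Q2 (wt θ (Finset.univ.map f)) A := by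
  set w := wt θ (Finset.univ.map f) with hw
  have hwn : ∀ a, 0 ≤ w a := fun a => res_wt_nonneg θ hθ _ a
  unfold hs2 res2
  calc ∑ a, ∑ b, A (f a) (f b) ^ 2
      ≤ ∑ a, ∑ b, w b * A (f a) b ^ 2 := by
        apply Finset.sum_le_sum; intro a _
        exact res_one f θ hθ (fun b => A (f a) b ^ 2) (fun b => sq_nonneg _)
    _ ≤ ∑ a, w a * ∑ b, w b * A a b ^ 2 :=
        res_one f θ hθ (fun a => ∑ b, w b * A a b ^ 2)
          (fun a => Finset.sum_nonneg fun b _ => mul_nonneg (hwn b) (sq_nonneg _))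
    _ = Q2 w A := by
        unfold Q2 ip2
        simp only [Finset.mul_sum]
        apply Finset.sum_congr rfl; intro a _
        apply Finset.sum_congr rfl; intro b _
        ring

theorem res_kn {ι κ : Type} [DecidableEq ι] [DecidableEq κ] (f : κ ↪ ι) (A : T2 ι) :
    res4 f (kn A) = kn (res2 f A) := by
  funext a b c d
  have h : ∀ x y : κ, kd (f x) (f y) = kd x y := by
    intro x y; simp [kd]
  simp only [res4, kn, res2, h]

theorem res_add {κ : Type} [Fintype κ] (X Y : T4 κ) : hs4 (X + Y) ≤ 2 * hs4 X + 2 * hs4 Y := by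
  unfold hs4
  simp only [Finset.mul_sum, ← Finset.sum_add_distrib]
  apply Finset.sum_le_sum; intro a _
  apply Finset.sum_le_sum; intro b _
  apply Finset.sum_le_sum; intro c _
  apply Finset.sum_le_sum; intro d _
  simp only [Pi.add_apply]
  nlinarith [sq_nonneg (X a b c d - Y a b c d)]

theorem res_main (h : St_knb) : St_res := by
  intro ι _ _ j f θ hθ W A
  have h1 : res4 f (W + kn A) = res4 f W + kn (res2 f A) := by
    rw [← res_kn]; rfl
  have h2 := res_add (res4 f W) (kn (res2 f A))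
  have h3 := res_four f θ hθ W
  have h4 := res_two f θ hθ A
  have h5 := h (Pos j) (res2 f A)
  have h6 : (Fintype.card (Pos j) : ℝ) = 2 * j := by
    simp [Pos]; ring
  rw [h6] at h5
  rw [h1]
  unfold QQ
  have hj : (0:ℝ) ≤ 16 * j := by positivity
  have h7 := mul_le_mul_of_nonneg_left h4 hj
  linarith

end Pool.Agent.H933R2.HopfN
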