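import Pool.Agent.H933R2.HopfN.St

set_option autoImplicit false
set_option linter.all false

/-!
SEC: from sectional curvature bounds to Hilbert-Schmidt norms.
-/

namespace Pool.Agent.H933R2.HopfN

section sec
variable {ι : Type} [Fintype ι]

/-- the multilinear form of a tensor -/
def secF (E : T4 ι) (x y z w : ι → ℝ) : ℝ :=
  ∑ a, ∑ b, ∑ c, ∑ d, E a b c d * x a * y b * z c * w d

lemma sec_lin1 (E : T4 ι) (x x' y z w : ι → ℝ) (t : ℝ) :
    secF E (x + t • x') y z w = secF E x y z w + t * secF E x' y z w := by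
  unfold secF
  simp only [Finset.mul_sum, ← Finset.sum_add_distrib, Pi.add_apply, Pi.smul_apply, smul_eq_mul]
  refine Finset.sum_congr rfl fun a _ => Finset.sum_congr rfl fun b _ =>
    Finset.sum_congr rfl fun c _ => Finset.sum_congr rfl fun d _ => ?_
  ring

lemma sec_lin2 (E : T4 ι) (x y y' z w : ι → ℝ) (t : ℝ) :
    secF E x (y + t • y') z w = secF E x y z w + t * secF E x y' z w := by
  unfold secF
  simp only [Finset.mul_sum, ← Finset.sum_add_distrib, Pi.add_apply, Pi.smul_apply, smul_eq_mul]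
  refine Finset.sum_congr rfl fun a _ => Finset.sum_congr rfl fun b _ =>
    Finset.sum_congr rfl fun c _ => Finset.sum_congr rfl fun d _ => ?_
  ring

lemma sec_lin3 (E : T4 ι) (x y z z' w : ι → ℝ) (t : ℝ) :
    secF E x y (z + t • z') w = secF E x y z w + t * secF E x y z' w := by
  unfold secF
  simp only [Finset.mul_sum, ← Finset.sum_add_distrib, Pi.add_apply, Pi.smul_apply, smul_eq_mul]
  refine Finset.sum_congr rfl fun a _ => Finset.sum_congr rfl fun b _ =>
    Finset.sum_congr rfl fun c _ => Finset.sum_congr rfl fun d _ => ?_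
  ring

lemma sec_lin4 (E : T4 ι) (x y z w w' : ι → ℝ) (t : ℝ) :
    secF E x y z (w + t • w') = secF E x y z w + t * secF E x y z w' := by
  unfold secF
  simp only [Finset.mul_sum, ← Finset.sum_add_distrib, Pi.add_apply, Pi.smul_apply, smul_eq_mul]
  refine Finset.sum_congr rfl fun a _ => Finset.sum_congr rfl fun b _ =>
    Finset.sum_congr rfl fun c _ => Finset.sum_congr rfl fun d _ => ?_
  ring

lemma sec_comm4 (g : ι → ι → ι → ι → ℝ) :
    ∑ a, ∑ b, ∑ c, ∑ d, g a b c d = ∑ c, ∑ d, ∑ a, ∑ b, g a b c d := by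
  have h1 : ∀ a : ι, ∑ b, ∑ c, ∑ d, g a b c d = ∑ c, ∑ d, ∑ b, g a b c d := by
    intro a
    rw [Finset.sum_comm]
    exact Finset.sum_congr rfl fun c _ => Finset.sum_comm
  rw [Finset.sum_congr rfl fun a _ => h1 a, Finset.sum_comm]
  exact Finset.sum_congr rfl fun c _ => Finset.sum_comm

lemma sec_cyc (h : ι → ι → ι → ℝ) :
    ∑ a, ∑ b, ∑ c, h b c a = ∑ a, ∑ b, ∑ c, h a b c := by
  rw [Finset.sum_comm]
  exact Finset.sum_congr rfl fun b _ => Finset.sum_comm

lemma sec_ps {E : T4 ι} (hE : IsCurv E) (x y z w : ι → ℝ) :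
    secF E z w x y = secF E x y z w := by
  unfold secF
  rw [sec_comm4]
  refine Finset.sum_congr rfl fun a _ => Finset.sum_congr rfl fun b _ =>
    Finset.sum_congr rfl fun c _ => Finset.sum_congr rfl fun d _ => ?_
  rw [hE.ps]
  ring

lemma sec_a1 {E : T4 ι} (hE : IsCurv E) (x y z w : ι → ℝ) :
    secF E y x z w = - secF E x y z w := by
  unfold secF
  rw [Finset.sum_comm]
  simp only [← Finset.sum_neg_distrib]
  refine Finset.sum_congr rfl fun a _ => Finset.sum_congr rfl fun b _ =>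
    Finset.sum_congr rfl fun c _ => Finset.sum_congr rfl fun d _ => ?_
  rw [hE.a1]
  ring

lemma sec_bi {E : T4 ι} (hE : IsCurv E) (x y z w : ι → ℝ) :
    secF E x y z w + secF E y z x w + secF E z x y w = 0 := by
  have h1 : secF E y z x w = ∑ a, ∑ b, ∑ c, ∑ d, E b c a d * x a * y b * z c * w d := by
    unfold secF
    rw [← sec_cyc (fun a b c => ∑ d, E a b c d * y a * z b * x c * w d)]
    refine Finset.sum_congr rfl fun a _ => Finset.sum_congr rfl fun b _ =>
      Finset.sum_congr rfl fun c _ => Finset.sum_congr rfl fun d _ => ?_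
    ring
  have h2 : secF E z x y w = ∑ a, ∑ b, ∑ c, ∑ d, E c a b d * x a * y b * z c * w d := by
    unfold secF
    rw [← sec_cyc (fun a b c => ∑ d, E a b c d * z a * x b * y c * w d),
      ← sec_cyc (fun a b c => ∑ d, E b c a d * z b * x c * y a * w d)]
    refine Finset.sum_congr rfl fun a _ => Finset.sum_congr rfl fun b _ =>
      Finset.sum_congr rfl fun c _ => Finset.sum_congr rfl fun d _ => ?_
    ring
  rw [h1, h2]
  unfold secF
  simp only [← Finset.sum_add_distrib]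
  refine Finset.sum_eq_zero fun a _ => Finset.sum_eq_zero fun b _ =>
    Finset.sum_eq_zero fun c _ => Finset.sum_eq_zero fun d _ => ?_
  have e1 := hE.bi a b c d
  have e2 : E b c a d = E a d b c := hE.ps a d b c
  have e3 : E c a b d = E a c d b := by
    rw [hE.a1 a c b d, hE.a2 a c d b]
    ring
  rw [e2, e3]
  linear_combination (x a * y b * z c * w d) * e1

/-- polarisation -/
lemma sec_pol (B : (ι → ℝ) → (ι → ℝ) → ℝ) (c : ℝ)
    (hadd : ∀ (x y : ι → ℝ) (t : ℝ), B (x + t • y) (x + t • y) = B x x + 2 * t * B x y + t ^ 2 * B y y)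
    (hB : ∀ x, |B x x| ≤ c * ∑ a, x a ^ 2) (x y : ι → ℝ) :
    B x y ^ 2 ≤ c ^ 2 * (∑ a, x a ^ 2) * (∑ a, y a ^ 2) := by
  have key : ∀ t : ℝ, 0 ≤ (c * ∑ a, y a ^ 2) * (t * t) + (-2 * B x y) * t + c * ∑ a, x a ^ 2 := by
    intro t
    have h1 := hadd x y t
    have h2 := hadd x y (-t)
    have h3 := hB (x + t • y)
    have h4 := hB (x + (-t) • y)
    have h5 : ∑ a, (x + t • y) a ^ 2 + ∑ a, (x + (-t) • y) a ^ 2
        = 2 * (∑ a, x a ^ 2 + t ^ 2 * ∑ a, y a ^ 2) := by
      rw [← Finset.sum_add_distrib, Finset.mul_sum, ← Finset.sum_add_distrib, Finset.mul_sum]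
      refine Finset.sum_congr rfl fun a _ => ?_
      simp only [Pi.add_apply, Pi.smul_apply, smul_eq_mul]
      ring
    have h6 := (abs_le.1 h3).2
    have h7 := (abs_le.1 h4).1
    have h8 : B (x + t • y) (x + t • y) - B (x + (-t) • y) (x + (-t) • y) = 4 * t * B x y := by
      rw [h1, h2]; ring
    have h9 : c * ∑ a, (x + t • y) a ^ 2 + c * ∑ a, (x + (-t) • y) a ^ 2
        = 2 * (c * ∑ a, x a ^ 2 + t ^ 2 * (c * ∑ a, y a ^ 2)) := by
      rw [← mul_add, h5]; ring
    nlinarith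
  have h := discrim_le_zero key
  unfold discrim at h
  nlinarith

lemma sec_one {E : T4 ι} (hE : IsCurv E) {s : ℝ} (hs : 0 ≤ s)
    (h : ∀ x y : ι → ℝ, |∑ a, ∑ b, ∑ c, ∑ d, E a b c d * x a * y b * x c * y d| ≤
      s * (∑ a, x a ^ 2) * (∑ a, y a ^ 2)) (x y z : ι → ℝ) :
    secF E x y x z ^ 2 ≤ (s * ∑ a, x a ^ 2) ^ 2 * (∑ a, y a ^ 2) * (∑ a, z a ^ 2) := by
  refine sec_pol (fun y z => secF E x y x z) (s * ∑ a, x a ^ 2) ?_ ?_ y z
  · intro y z t
    rw [sec_lin2, sec_lin4, sec_lin4, sec_ps hE x y x z]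
    ring
  · intro y
    exact h x y

lemma sec_two {E : T4 ι} (hE : IsCurv E) {s : ℝ} (hs : 0 ≤ s)
    (h : ∀ x y : ι → ℝ, |∑ a, ∑ b, ∑ c, ∑ d, E a b c d * x a * y b * x c * y d| ≤
      s * (∑ a, x a ^ 2) * (∑ a, y a ^ 2)) (x y z w : ι → ℝ) :
    (secF E x y z w + secF E z y x w) ^ 2 ≤
      4 * s ^ 2 * (∑ a, x a ^ 2) * (∑ a, y a ^ 2) * (∑ a, z a ^ 2) * (∑ a, w a ^ 2) := by
  have hn : ∀ v : ι → ℝ, 0 ≤ ∑ a, v a ^ 2 := fun v => Finset.sum_nonneg fun a _ => sq_nonneg _
  have hyw : 0 ≤ (∑ a, y a ^ 2) * (∑ a, w a ^ 2) := mul_nonneg (hn y) (hn w)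
  have h1 := sec_pol (fun x z => secF E x y z w + secF E z y x w)
    (2 * s * Real.sqrt ((∑ a, y a ^ 2) * (∑ a, w a ^ 2))) ?_ ?_ x z
  · have h2 : (2 * s * Real.sqrt ((∑ a, y a ^ 2) * (∑ a, w a ^ 2))) ^ 2
        = 4 * s ^ 2 * ((∑ a, y a ^ 2) * (∑ a, w a ^ 2)) := by
      rw [mul_pow, Real.sq_sqrt hyw]; ring
    rw [h2] at h1
    linarith
  · intro x z t
    rw [sec_lin1, sec_lin3, sec_lin3]
    ring
  · intro x
    have h3 := sec_one hE hs h x y w
    have h4 : (secF E x y x w) ^ 2 ≤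
        (s * Real.sqrt ((∑ a, y a ^ 2) * (∑ a, w a ^ 2)) * ∑ a, x a ^ 2) ^ 2 := by
      have : (s * Real.sqrt ((∑ a, y a ^ 2) * (∑ a, w a ^ 2)) * ∑ a, x a ^ 2) ^ 2
          = (s * ∑ a, x a ^ 2) ^ 2 * ((∑ a, y a ^ 2) * (∑ a, w a ^ 2)) := by
        rw [mul_pow, mul_pow, Real.sq_sqrt hyw]; ring
      rw [this]
      linarith
    have h5 : 0 ≤ s * Real.sqrt ((∑ a, y a ^ 2) * (∑ a, w a ^ 2)) * ∑ a, x a ^ 2 :=
      mul_nonneg (mul_nonneg hs (Real.sqrt_nonneg _)) (hn x)
    have h6 := abs_le_of_sq_le_sq h4 h5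
    have h7 : secF E x y x w + secF E x y x w = 2 * secF E x y x w := by ring
    rw [h7, abs_mul, abs_of_pos (by norm_num : (0 : ℝ) < 2)]
    linarith

lemma sec_three {E : T4 ι} (hE : IsCurv E) {s : ℝ} (hs : 0 ≤ s)
    (h : ∀ x y : ι → ℝ, |∑ a, ∑ b, ∑ c, ∑ d, E a b c d * x a * y b * x c * y d| ≤
      s * (∑ a, x a ^ 2) * (∑ a, y a ^ 2)) (x y z w : ι → ℝ) :
    (secF E x y z w) ^ 2 ≤
      16 / 9 * s ^ 2 * ((∑ a, x a ^ 2) * (∑ a, y a ^ 2) * (∑ a, z a ^ 2) * (∑ a, w a ^ 2)) := by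
  have h1 := sec_two hE hs h x y z w
  have h2 := sec_two hE hs h y x z w
  have h3 : 3 * secF E x y z w = (secF E x y z w + secF E z y x w) -
      (secF E y x z w + secF E z x y w) := by
    have e1 := sec_bi hE x y z w
    have e2 := sec_a1 hE x y z w
    have e3 := sec_a1 hE z y x w
    linarith
  have h4 : (3 * secF E x y z w) ^ 2 ≤
      2 * (secF E x y z w + secF E z y x w) ^ 2 + 2 * (secF E y x z w + secF E z x y w) ^ 2 := by
    rw [h3]
    nlinarith [sq_nonneg ((secF E x y z w + secF E z y x w) + (secF E y x z w + secF E z x y w))]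
  nlinarith

end sec

theorem sec_main : St_sec := by
  intro ι _ _ E s hs hE h
  have hcard : ∀ c : ℝ, ∑ _a : ι, c = (Fintype.card ι : ℝ) * c := by
    intro c; simp
  have hn : ∀ v : ι → ℝ, 0 ≤ ∑ a, v a ^ 2 := fun v => Finset.sum_nonneg fun a _ => sq_nonneg _
  have he : ∀ b : ι, ∑ a, (Pi.single b (1 : ℝ) : ι → ℝ) a ^ 2 = 1 := by
    intro b
    rw [Finset.sum_eq_single b]
    · simp
    · intro a _ hab
      simp [Pi.single_eq_of_ne hab]
    · simp
  constructor
  · have key : ∀ b c d : ι, ∑ a, E a b c d ^ 2 ≤ 16 / 9 * s ^ 2 := by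
      intro b c d
      have h1 := sec_three hE hs h (fun a => E a b c d) (Pi.single b 1) (Pi.single c 1)
        (Pi.single d 1)
      have h2 : secF E (fun a => E a b c d) (Pi.single b 1) (Pi.single c 1) (Pi.single d 1)
          = ∑ a, E a b c d ^ 2 := by
        unfold secF
        refine Finset.sum_congr rfl fun a _ => ?_
        rw [Finset.sum_eq_single b, Finset.sum_eq_single c, Finset.sum_eq_single d]
        · simp; ring
        · intro d' _ hd; simp [Pi.single_eq_of_ne hd]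
        · simp
        · intro c' _ hc; simp [Pi.single_eq_of_ne hc]
        · simp
        · intro b' _ hb; simp [Pi.single_eq_of_ne hb]
        · simp
      rw [h2, he, he, he] at h1
      simp only [mul_one] at h1
      have h3 : 0 ≤ ∑ a, E a b c d ^ 2 := hn _
      rcases h3.eq_or_lt with h4 | h4
      · rw [← h4]; positivity
      · have h5 : (∑ a, E a b c d ^ 2) * (∑ a, E a b c d ^ 2)
            ≤ 16 / 9 * s ^ 2 * (∑ a, E a b c d ^ 2) := by
          rw [← sq]; exact h1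
        exact le_of_mul_le_mul_right h5 h4
    have e1 : hs4 E = ∑ b, ∑ c, ∑ d, ∑ a, E a b c d ^ 2 := by
      unfold hs4
      rw [Finset.sum_comm]
      refine Finset.sum_congr rfl fun b _ => ?_
      rw [Finset.sum_comm]
      refine Finset.sum_congr rfl fun c _ => ?_
      rw [Finset.sum_comm]
    rw [e1]
    calc ∑ b, ∑ c, ∑ d, ∑ a, E a b c d ^ 2 ≤ ∑ _b : ι, ∑ _c : ι, ∑ _d : ι, 16 / 9 * s ^ 2 :=
          Finset.sum_le_sum fun b _ => Finset.sum_le_sum fun c _ => Finset.sum_le_sum fun d _ =>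
            key b c d
      _ = (16 / 9) * (Fintype.card ι : ℝ) ^ 3 * s ^ 2 := by
          rw [hcard, hcard, hcard]; ring
  · have key : ∀ d : ι, ∑ b, Ric E b d ^ 2 ≤ (Fintype.card ι : ℝ) ^ 2 * s ^ 2 := by
      intro d
      set u : ι → ℝ := fun b => Ric E b d with hu
      have h1 : ∀ x : ι, |secF E (Pi.single x 1) u (Pi.single x 1) (Pi.single d 1)| ≤
          s * Real.sqrt (∑ a, u a ^ 2) := by
        intro x
        have h2 := sec_one hE hs h (Pi.single x 1) u (Pi.single d 1)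
        rw [he, he] at h2
        apply abs_le_of_sq_le_sq _ (mul_nonneg hs (Real.sqrt_nonneg _))
        rw [mul_pow, Real.sq_sqrt (hn u)]
        simpa using h2
      have h2 : ∑ b, u b ^ 2 = ∑ x, secF E (Pi.single x 1) u (Pi.single x 1) (Pi.single d 1) := by
        have e1 : ∀ x : ι, secF E (Pi.single x 1) u (Pi.single x 1) (Pi.single d 1)
            = ∑ b, E x b x d * u b := by
          intro x
          unfold secF
          rw [Finset.sum_eq_single x]
          · refine Finset.sum_congr rfl fun b _ => ?_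
            rw [Finset.sum_eq_single x, Finset.sum_eq_single d]
            · simp
            · intro d' _ hd; simp [Pi.single_eq_of_ne hd]
            · simp
            · intro c' _ hc; simp [Pi.single_eq_of_ne hc]
            · simp
          · intro a' _ ha; simp [Pi.single_eq_of_ne ha]
          · simp
        rw [Finset.sum_congr rfl fun x _ => e1 x, Finset.sum_comm]
        refine Finset.sum_congr rfl fun b _ => ?_
        rw [← Finset.sum_mul, sq]
        rfl
      have h3 : ∑ b, u b ^ 2 ≤ (Fintype.card ι : ℝ) * (s * Real.sqrt (∑ a, u a ^ 2)) := by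
        rw [h2, ← hcard]
        refine Finset.sum_le_sum fun x _ => ?_
        refine (le_abs_self _).trans ?_
        have := h1 x
        rw [h2] at this
        exact this
      have h4 : 0 ≤ ∑ b, u b ^ 2 := hn u
      have h5 : Real.sqrt (∑ a, u a ^ 2) ^ 2 = ∑ b, u b ^ 2 := Real.sq_sqrt h4
      have h6 : 0 ≤ Real.sqrt (∑ a, u a ^ 2) := Real.sqrt_nonneg _
      have h7 : Real.sqrt (∑ a, u a ^ 2) ≤ (Fintype.card ι : ℝ) * s := by
        rcases h6.eq_or_lt with h8 | h8
        · rw [← h8]; positivity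
        · have h9 : Real.sqrt (∑ a, u a ^ 2) * Real.sqrt (∑ a, u a ^ 2)
              ≤ ((Fintype.card ι : ℝ) * s) * Real.sqrt (∑ a, u a ^ 2) := by
            rw [← sq, h5]; linarith
          exact le_of_mul_le_mul_right h9 h8
      calc ∑ b, Ric E b d ^ 2 = Real.sqrt (∑ a, u a ^ 2) ^ 2 := h5.symm
        _ ≤ ((Fintype.card ι : ℝ) * s) ^ 2 := by gcongr
        _ = (Fintype.card ι : ℝ) ^ 2 * s ^ 2 := by ring
    have e1 : hs2 (Ric E) = ∑ d, ∑ b, Ric E b d ^ 2 := by
      unfold hs2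
      rw [Finset.sum_comm]
    rw [e1]
    calc ∑ d, ∑ b, Ric E b d ^ 2 ≤ ∑ _d : ι, (Fintype.card ι : ℝ) ^ 2 * s ^ 2 :=
          Finset.sum_le_sum fun d _ => key d
      _ = (Fintype.card ι : ℝ) ^ 3 * s ^ 2 := by rw [hcard]; ring

end Pool.Agent.H933R2.HopfN
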