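import Pool.Agent.H933R2.HopfN.St

set_option autoImplicit false
set_option linter.all false

namespace Pool.Agent.H933R2.HopfN

open Matrix

theorem spec_aux1 {I : Type} [Fintype I] [DecidableEq I] (M : Matrix I I ℝ)
    (hM : Mᵀ = M) : ∃ (lam : I → ℝ) (U : Matrix I I ℝ),
      M = U * Matrix.diagonal lam * Uᵀ ∧ Uᵀ * U = 1 := by
  have hH : M.IsHermitian := by
    unfold Matrix.IsHermitian
    rw [Matrix.conjTranspose_eq_transpose_of_trivial]; exact hM
  refine ⟨hH.eigenvalues, (hH.eigenvectorUnitary : Matrix I I ℝ), ?_, ?_⟩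
  · have h := hH.spectral_theorem
    rw [Unitary.conjStarAlgAut_apply] at h
    have e1 : (star (hH.eigenvectorUnitary : Matrix I I ℝ)) =
        ((hH.eigenvectorUnitary : Matrix I I ℝ))ᵀ := by
      rw [Matrix.star_eq_conjTranspose, Matrix.conjTranspose_eq_transpose_of_trivial]
    rw [← e1]
    exact h
  · have e1 : (star (hH.eigenvectorUnitary : Matrix I I ℝ)) =
        ((hH.eigenvectorUnitary : Matrix I I ℝ))ᵀ := by
      rw [Matrix.star_eq_conjTranspose, Matrix.conjTranspose_eq_transpose_of_trivial]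
    rw [← e1]
    exact Unitary.coe_star_mul_self _

theorem spec_aux2 {I : Type} [Fintype I] [DecidableEq I] (U : Matrix I I ℝ)
    (hU : Uᵀ * U = 1) (y : I → ℝ) :
    ∑ i, (∑ k, y k * U i k) ^ 2 = ∑ k, y k ^ 2 := by
  have h1 : ∀ i, (∑ k, y k * U i k) = (U *ᵥ y) i := by
    intro i
    simp only [Matrix.mulVec, dotProduct]
    exact Finset.sum_congr rfl (fun k _ => mul_comm _ _)
  have h2 : ∑ i, (∑ k, y k * U i k) ^ 2 = (U *ᵥ y) ⬝ᵥ (U *ᵥ y) := by
    simp only [h1, dotProduct]
    exact Finset.sum_congr rfl (fun k _ => by ring)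
  rw [h2, Matrix.dotProduct_mulVec, Matrix.vecMul_mulVec, hU]
  simp only [Matrix.vecMul_one, dotProduct]
  exact Finset.sum_congr rfl (fun k _ => by ring)

theorem spec_main : St_spec := by
  intro P _ _ T hT1 hT2
  obtain ⟨lam, U, hM, hU⟩ := spec_aux1 (I := P × P)
    (Matrix.of (fun i j : P × P => T i.1 i.2 j.1 j.2)) (by
      ext i j
      simp only [Matrix.transpose_apply, Matrix.of_apply]
      exact hT2 _ _ _ _)
  set M : Matrix (P × P) (P × P) ℝ := Matrix.of (fun i j : P × P => T i.1 i.2 j.1 j.2) with hMdef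
  have hMU : M * U = U * Matrix.diagonal lam := by
    rw [hM, Matrix.mul_assoc, hU, Matrix.mul_one]
  have hMU' : ∀ i κ, lam κ * U i κ = ∑ j, M i j * U j κ := by
    intro i κ
    have := congrFun (congrFun hMU i) κ
    rw [Matrix.mul_diagonal, Matrix.mul_apply] at this
    rw [this]; ring
  have hMe : ∀ i j, M i j = ∑ κ, lam κ * U i κ * U j κ := by
    intro i j
    have := congrFun (congrFun hM i) j
    rw [Matrix.mul_apply] at this
    rw [this]
    refine Finset.sum_congr rfl (fun κ _ => ?_)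
    rw [Matrix.mul_diagonal, Matrix.transpose_apply]; ring
  refine ⟨lam, fun κ a b => if lam κ = 0 then 0 else U (a, b) κ, ?_, ?_, ?_, ?_⟩
  · intro a b c d
    have h := hMe (a, b) (c, d)
    have e : M (a, b) (c, d) = T a b c d := rfl
    rw [← e, h]
    refine Finset.sum_congr rfl (fun κ _ => ?_)
    by_cases h0 : lam κ = 0
    · simp [h0]
    · simp [h0]
  · have h1 : hs4 T = ∑ i, ∑ j, M i j ^ 2 := by
      unfold hs4
      rw [Fintype.sum_prod_type]
      refine Finset.sum_congr rfl (fun a _ => Finset.sum_congr rfl (fun b _ => ?_))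
      rw [Fintype.sum_prod_type]
      rfl
    have h2 : ∑ i, ∑ j, M i j ^ 2 = Matrix.trace (M * Mᵀ) := by
      unfold Matrix.trace
      refine Finset.sum_congr rfl (fun a _ => ?_)
      rw [Matrix.diag_apply, Matrix.mul_apply]
      refine Finset.sum_congr rfl (fun b _ => ?_)
      rw [Matrix.transpose_apply]; ring
    rw [h1, h2, hM]
    simp only [Matrix.transpose_mul, Matrix.transpose_transpose, Matrix.diagonal_transpose]
    rw [show U * Matrix.diagonal lam * Uᵀ * (U * (Matrix.diagonal lam * Uᵀ)) =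
      U * (Matrix.diagonal lam * (Uᵀ * U) * Matrix.diagonal lam * Uᵀ) by
        simp only [Matrix.mul_assoc], hU, Matrix.mul_one, Matrix.trace_mul_comm,
      Matrix.mul_assoc, hU, Matrix.mul_one, Matrix.diagonal_mul_diagonal, Matrix.trace_diagonal]
    exact Finset.sum_congr rfl (fun κ _ => by ring)
  · intro κ a b
    by_cases h0 : lam κ = 0
    · simp [h0]
    · simp only [h0, if_false]
      have h1 := hMU' (b, a) κ
      have h2 := hMU' (a, b) κ
      have h3 : ∑ j, M (b, a) j * U j κ = - ∑ j, M (a, b) j * U j κ := by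
        rw [← Finset.sum_neg_distrib]
        refine Finset.sum_congr rfl (fun j _ => ?_)
        have : M (b, a) j = - M (a, b) j := hT1 _ _ _ _
        rw [this]; ring
      have h4 : lam κ * U (b, a) κ = lam κ * (- U (a, b) κ) := by
        rw [h1, h3, ← h2]; ring
      exact mul_left_cancel₀ h0 h4
  · intro x
    have key : ∀ i : P × P, ‖∑ κ, x κ * ((if lam κ = 0 then (0:ℝ) else U i κ : ℝ) : ℂ)‖ ^ 2 =
        (∑ κ, (if lam κ = 0 then 0 else (x κ).re) * U i κ) ^ 2 +
        (∑ κ, (if lam κ = 0 then 0 else (x κ).im) * U i κ) ^ 2 := by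
      intro i
      rw [← Complex.normSq_eq_norm_sq, Complex.normSq_apply, Complex.re_sum, Complex.im_sum]
      have e1 : ∀ κ, (x κ * ((if lam κ = 0 then (0:ℝ) else U i κ : ℝ) : ℂ)).re =
          (if lam κ = 0 then 0 else (x κ).re) * U i κ := by
        intro κ
        by_cases h0 : lam κ = 0
        · simp [h0]
        · simp [h0]
      have e2 : ∀ κ, (x κ * ((if lam κ = 0 then (0:ℝ) else U i κ : ℝ) : ℂ)).im =
          (if lam κ = 0 then 0 else (x κ).im) * U i κ := by
        intro κ
        by_cases h0 : lam κ = 0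
        · simp [h0]
        · simp [h0]
      simp only [e1, e2]
      ring
    have h1 : ∑ a, ∑ b, ‖∑ κ, x κ * ((if lam κ = 0 then (0:ℝ) else U (a, b) κ : ℝ) : ℂ)‖ ^ 2 =
        ∑ i : P × P, ‖∑ κ, x κ * ((if lam κ = 0 then (0:ℝ) else U i κ : ℝ) : ℂ)‖ ^ 2 := by
      rw [Fintype.sum_prod_type]
    rw [h1]
    simp only [key]
    rw [Finset.sum_add_distrib, spec_aux2 U hU, spec_aux2 U hU, ← Finset.sum_add_distrib]
    refine Finset.sum_le_sum (fun κ _ => ?_)
    rw [← Complex.normSq_eq_norm_sq, Complex.normSq_apply]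
    by_cases h0 : lam κ = 0
    · simp only [h0, if_true]
      nlinarith [mul_self_nonneg (x κ).re, mul_self_nonneg (x κ).im]
    · simp only [h0, if_false]
      apply le_of_eq; ring

end Pool.Agent.H933R2.HopfN
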