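import Pool.Agent.H933R2.HopfN.St

set_option autoImplicit false

/-! Task SQ: expansion of `gb` in squares of polarised Pfaffians. -/

namespace Pool.Agent.H933R2.HopfN

open Finset

theorem sq_swap {A B C : Type} [Fintype A] [Fintype B] [Fintype C] (F : A → B → C → ℝ) :
    ∑ a, ∑ b, ∑ c, F a b c = ∑ c, ∑ a, ∑ b, F a b c := by
  have h : ∑ a, ∑ b, ∑ c, F a b c = ∑ a, ∑ c, ∑ b, F a b c :=
    Finset.sum_congr rfl fun a _ => Finset.sum_comm
  rw [h, Finset.sum_comm]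

theorem sq_aux {K : Type} [Fintype K] (j : ℕ) (lam : K → ℝ) (v : K → Pos j → Pos j → ℝ) :
    gb j (fun a b c d => ∑ κ, lam κ * v κ a b * v κ c d) =
      ∑ α : Fin j → K, (∏ i, lam (α i)) * pp j v α ^ 2 := by
  classical
  unfold gb
  have h1 : ∀ σ τ : Equiv.Perm (Pos j), (∏ i : Fin j, ∑ κ, lam κ * v κ (σ (i, 0)) (σ (i, 1)) *
      v κ (τ (i, 0)) (τ (i, 1))) = ∑ α : Fin j → K, (∏ i, lam (α i)) *
        ((∏ i, v (α i) (σ (i, 0)) (σ (i, 1))) * ∏ i, v (α i) (τ (i, 0)) (τ (i, 1))) := by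
    intro σ τ
    rw [Finset.prod_univ_sum, Fintype.piFinset_univ]
    refine Finset.sum_congr rfl fun α _ => ?_
    rw [Finset.prod_mul_distrib, Finset.prod_mul_distrib, mul_assoc]
  simp only [h1, Finset.mul_sum]
  rw [sq_swap]
  refine Finset.sum_congr rfl fun α _ => ?_
  unfold pp
  rw [sq, Finset.sum_mul_sum, Finset.mul_sum]
  refine Finset.sum_congr rfl fun σ _ => ?_
  rw [Finset.mul_sum]
  refine Finset.sum_congr rfl fun τ _ => ?_
  ring

theorem sq_main : St_sq := by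
  intro j K _ lam v
  rw [sq_aux]
  refine (Finset.abs_sum_le_sum_abs _ _).trans (Finset.sum_le_sum fun α _ => ?_)
  rw [abs_mul, Finset.abs_prod, abs_of_nonneg (sq_nonneg (pp j v α))]

end Pool.Agent.H933R2.HopfN
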