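import Pool.Agent.H933R2.HopfN.St

/-!
TERM: bound of one term of the expansion.
-/

set_option autoImplicit false
set_option linter.all false

namespace Pool.Agent.H933R2.HopfN

theorem term_hs4_nonneg {ι : Type} [Fintype ι] (R : T4 ι) : 0 ≤ hs4 R := by
  unfold hs4
  positivity

theorem term_hs2_nonneg {ι : Type} [Fintype ι] (A : T2 ι) : 0 ≤ hs2 A := by
  unfold hs2
  positivity

theorem term_res_curv {ι κ : Type} (f : κ → ι) (R : T4 ι) (h : IsCurv R) : IsCurv (res4 f R) :=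
  ⟨fun a b c d => h.a1 _ _ _ _, fun a b c d => h.a2 _ _ _ _, fun a b c d => h.ps _ _ _ _,
    fun a b c d => h.bi _ _ _ _⟩

theorem term_QQ_one {ι : Type} [Fintype ι] [DecidableEq ι] (S : Finset ι) (κ : ℝ) (E : T4 ι) :
    QQ (wt 1 S) κ E 0 = hs4 E := by
  have hw : ∀ a, wt 1 S a = 1 := fun a => by simp [wt]
  unfold QQ Q4 Q2 ip4 ip2 hs4
  simp only [hw]
  simp [pow_two]

theorem term_kn_zero {ι : Type} [DecidableEq ι] : (kn (0 : T2 ι)) = 0 := by
  funext a b c d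
  simp [kn]

theorem term_frame (h4 : St_mom) (h5 : St_res) (h7 : St_invt) (ι : Type) [Fintype ι]
    [DecidableEq ι] (hι : 0 < Fintype.card ι) (E W : T4 ι) (A : T2 ι)
    (hW : IsCurv W) (hR : ∀ a b, Ric W a b = 0) (hA : IsSym A) (htr : tr2 A = 0)
    (hE : E = W + kn A) (H2 : ℝ) (hH2 : H2 = hs4 W + (Fintype.card ι : ℝ) ^ 2 * hs2 A)
    (hE4 : hs4 E ≤ 4 * H2) (j : ℕ) (hj : 1 ≤ j) (θ : ℝ)
    (hθ : θ = 32 * j / (Fintype.card ι : ℝ)) :
    ∃ O : Matrix ι ι ℝ, Orth O ∧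
      ∑ f : Pos j ↪ ι, Real.sqrt (hs4 (res4 f (act4 O E))) ^ j ≤
        (Fintype.card (Pos j ↪ ι) : ℝ) * (3 * θ ^ 2 * Real.sqrt H2) ^ j := by
  have hn0 : (0 : ℝ) < (Fintype.card ι : ℝ) := by exact_mod_cast hι
  have hj0 : (0 : ℝ) < (j : ℝ) := by exact_mod_cast (by omega : 0 < j)
  have hθ0 : 0 < θ := by rw [hθ]; positivity
  have hH20 : 0 ≤ H2 := by
    rw [hH2]
    have := term_hs4_nonneg W
    have := term_hs2_nonneg A
    positivity
  have hsq : (3 * θ ^ 2 * Real.sqrt H2) ^ 2 = 9 * θ ^ 4 * H2 := by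
    have := Real.sq_sqrt hH20
    calc (3 * θ ^ 2 * Real.sqrt H2) ^ 2 = 9 * θ ^ 4 * (Real.sqrt H2) ^ 2 := by ring
      _ = _ := by rw [this]
  have hpos : 0 ≤ 3 * θ ^ 2 * Real.sqrt H2 := by positivity
  rcases le_or_gt (32 * j) (Fintype.card ι) with hc | hc
  · obtain ⟨O, hO, hsum⟩ := h4 ι (Pos j ↪ ι) j hj hc (fun f => Finset.univ.map f)
      (by intro f; rw [Finset.card_map, Finset.card_univ]; simp; omega) W A hW hR hA htr
      (Fintype.card ι) θ (16 * j) rfl hθ rfl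
    refine ⟨O, hO, ?_⟩
    have hact : act4 O E = act4 O W + kn (act2 O A) := by
      rw [hE, (h7 ι).add4, (h7 ι).knn O hO]
    have hb : ∀ f : Pos j ↪ ι, hs4 (res4 f (act4 O E)) ≤
        2 * QQ (wt θ (Finset.univ.map f)) (16 * j) (act4 O W) (act2 O A) := fun f => by
      rw [hact]
      exact h5 ι j f θ hθ0.le _ _
    rw [← hH2] at hsum
    have hx2 : ∀ f : Pos j ↪ ι, (Real.sqrt (hs4 (res4 f (act4 O E))) ^ j) ^ 2 ≤
        2 ^ j * QQ (wt θ (Finset.univ.map f)) (16 * j) (act4 O W) (act2 O A) ^ j := by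
      intro f
      have h0 := term_hs4_nonneg (res4 f (act4 O E))
      calc (Real.sqrt (hs4 (res4 f (act4 O E))) ^ j) ^ 2 =
            ((Real.sqrt (hs4 (res4 f (act4 O E)))) ^ 2) ^ j := by
              rw [← pow_mul, ← pow_mul, mul_comm]
        _ = (hs4 (res4 f (act4 O E))) ^ j := by rw [Real.sq_sqrt h0]
        _ ≤ (2 * QQ (wt θ (Finset.univ.map f)) (16 * j) (act4 O W) (act2 O A)) ^ j :=
              pow_le_pow_left₀ h0 (hb f) j
        _ = _ := by rw [mul_pow]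
    have hs : ∑ f : Pos j ↪ ι, (Real.sqrt (hs4 (res4 f (act4 O E))) ^ j) ^ 2 ≤
        2 ^ j * ((Fintype.card (Pos j ↪ ι) : ℝ) * (4 * θ ^ 4 * H2) ^ j) := by
      calc _ ≤ ∑ f : Pos j ↪ ι, 2 ^ j *
            QQ (wt θ (Finset.univ.map f)) (16 * j) (act4 O W) (act2 O A) ^ j :=
            Finset.sum_le_sum (fun f _ => hx2 f)
        _ = 2 ^ j * ∑ f : Pos j ↪ ι,
            QQ (wt θ (Finset.univ.map f)) (16 * j) (act4 O W) (act2 O A) ^ j := by
            rw [Finset.mul_sum]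
        _ ≤ _ := mul_le_mul_of_nonneg_left hsum (by positivity)
    have hcs := sq_sum_le_card_mul_sum_sq (s := (Finset.univ : Finset (Pos j ↪ ι)))
      (f := fun f => Real.sqrt (hs4 (res4 f (act4 O E))) ^ j)
    rw [Finset.card_univ] at hcs
    have hfin : (∑ f : Pos j ↪ ι, Real.sqrt (hs4 (res4 f (act4 O E))) ^ j) ^ 2 ≤
        ((Fintype.card (Pos j ↪ ι) : ℝ) * (3 * θ ^ 2 * Real.sqrt H2) ^ j) ^ 2 := by
      calc _ ≤ _ := hcs
        _ ≤ (Fintype.card (Pos j ↪ ι) : ℝ) *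
            (2 ^ j * ((Fintype.card (Pos j ↪ ι) : ℝ) * (4 * θ ^ 4 * H2) ^ j)) :=
            mul_le_mul_of_nonneg_left hs (by positivity)
        _ = (Fintype.card (Pos j ↪ ι) : ℝ) ^ 2 * (8 * θ ^ 4 * H2) ^ j := by
            have : (8 * θ ^ 4 * H2) ^ j = 2 ^ j * (4 * θ ^ 4 * H2) ^ j := by
              rw [← mul_pow]; congr 1; ring
            rw [this]; ring
        _ ≤ (Fintype.card (Pos j ↪ ι) : ℝ) ^ 2 * (9 * θ ^ 4 * H2) ^ j := by
            gcongr
            norm_num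
        _ = _ := by
            have h9 : ((3 * θ ^ 2 * Real.sqrt H2) ^ j) ^ 2 =
                ((3 * θ ^ 2 * Real.sqrt H2) ^ 2) ^ j := by
              rw [← pow_mul, ← pow_mul, Nat.mul_comm]
            rw [← hsq, mul_pow (Fintype.card (Pos j ↪ ι) : ℝ), h9]
    exact (pow_le_pow_iff_left₀ (Finset.sum_nonneg (fun f _ => by positivity)) (by positivity)
      (by norm_num)).mp hfin
  · refine ⟨1, by unfold Orth; simp, ?_⟩
    have hθ1 : 1 ≤ θ := by
      rw [hθ, le_div_iff₀ hn0]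
      have : (Fintype.card ι : ℝ) < ((32 * j : ℕ) : ℝ) := by exact_mod_cast hc
      push_cast at this
      linarith
    rw [(h7 ι).one4]
    have hf : ∀ f : Pos j ↪ ι, Real.sqrt (hs4 (res4 f E)) ^ j ≤
        (3 * θ ^ 2 * Real.sqrt H2) ^ j := by
      intro f
      apply pow_le_pow_left₀ (Real.sqrt_nonneg _)
      rw [Real.sqrt_le_iff]
      refine ⟨hpos, ?_⟩
      rw [hsq]
      have h := h5 ι j f 1 zero_le_one E 0
      rw [term_kn_zero, add_zero, term_QQ_one] at h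
      have h1 : 1 ≤ θ ^ 4 := one_le_pow₀ hθ1
      have h2 : 9 * H2 ≤ 9 * θ ^ 4 * H2 := by nlinarith
      linarith
    calc _ ≤ ∑ f : Pos j ↪ ι, (3 * θ ^ 2 * Real.sqrt H2) ^ j := Finset.sum_le_sum (fun f _ => hf f)
      _ = _ := by rw [Finset.sum_const, Finset.card_univ, nsmul_eq_mul]

theorem term_main (h1 : St_inv) (h2 : St_emb) (h3 : St_top) (h4 : St_mom) (h5 : St_res)
    (h6 : St_dec) (h7 : St_invt) : St_term := by
  intro m hm ι _ _ hι E hE htr X hX k hk j hj hjm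
  obtain ⟨W, A, hW, hRW, hA, htA, hEW, hn1, hn2⟩ := h6 ι (by omega) E hE htr
  obtain ⟨H2, hH2⟩ : ∃ H2 : ℝ, H2 = hs4 W + (Fintype.card ι : ℝ) ^ 2 * hs2 A := ⟨_, rfl⟩
  rw [← hH2] at hn1 hn2
  have hE40 := term_hs4_nonneg E
  have hE20 := term_hs2_nonneg (Ric E)
  have hH2X : H2 ≤ 20 * X := by rw [hX]; linarith
  have hX0 : 0 ≤ X := by rw [hX]; linarith
  obtain ⟨θ, hθ⟩ : ∃ θ : ℝ, θ = 32 * j / (Fintype.card ι : ℝ) := ⟨_, rfl⟩
  obtain ⟨O, hO, hsum⟩ := term_frame h4 h5 h7 ι (by omega) E W A hW hRW hA htA hEW H2 hH2 hn2 j hj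
    θ hθ
  have hm0 : (0 : ℝ) < m := by exact_mod_cast (by omega : 0 < m)
  have hj0 : (0 : ℝ) < j := by exact_mod_cast (by omega : 0 < j)
  have hmr : (Fintype.card ι : ℝ) = 2 * m := by rw [hι]; push_cast; ring
  -- the number of embeddings
  obtain ⟨N, hN⟩ : ∃ N : ℕ, N = Fintype.card (Pos j ↪ ι) := ⟨_, rfl⟩
  rw [← hN] at hsum
  have hNf : (2 * m - 2 * j).factorial * N = (2 * m).factorial := by
    rw [hN, Fintype.card_embedding_eq, hι]
    have hc : Fintype.card (Pos j) = 2 * j := by simp; omega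
    rw [hc]
    exact Nat.factorial_mul_descFactorial (by omega)
  -- the bound of `GG j E`
  have hG1 : ((2 * j).factorial : ℝ) * |GG j E| ≤
      ∑ f : Pos j ↪ ι, |gb j (res4 f (act4 O E))| := by
    have h := h2.1 ι j (act4 O E)
    rw [h1 ι j O hO E] at h
    calc ((2 * j).factorial : ℝ) * |GG j E| = |((2 * j).factorial : ℝ) * GG j E| := by
          rw [abs_mul, abs_of_nonneg (by positivity : (0 : ℝ) ≤ ((2 * j).factorial : ℝ))]
      _ = |∑ f : Pos j ↪ ι, gb j (res4 f (act4 O E))| := by rw [h]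
      _ ≤ _ := Finset.abs_sum_le_sum_abs _ _
  have hcE : IsCurv (act4 O E) := (h7 ι).curv O hO E hE
  have hG2 : ∀ f : Pos j ↪ ι, |gb j (res4 f (act4 O E))| * (j : ℝ) ^ j ≤
      4 ^ j * (j.factorial : ℝ) ^ 2 * 21 ^ j * Real.sqrt (hs4 (res4 f (act4 O E))) ^ j := by
    intro f
    have h := h3 j hj (res4 f (act4 O E)) (term_res_curv _ _ hcE)
    calc _ ≤ _ := h
      _ = _ := by rw [mul_pow]; ring
  have hG3 : ((2 * j).factorial : ℝ) * (j : ℝ) ^ j * |GG j E| ≤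
      (j.factorial : ℝ) ^ 2 * N * (252 * (θ ^ 2 * Real.sqrt H2)) ^ j := by
    calc ((2 * j).factorial : ℝ) * (j : ℝ) ^ j * |GG j E| =
          (((2 * j).factorial : ℝ) * |GG j E|) * (j : ℝ) ^ j := by ring
      _ ≤ (∑ f : Pos j ↪ ι, |gb j (res4 f (act4 O E))|) * (j : ℝ) ^ j :=
          mul_le_mul_of_nonneg_right hG1 (by positivity)
      _ = ∑ f : Pos j ↪ ι, |gb j (res4 f (act4 O E))| * (j : ℝ) ^ j := by rw [Finset.sum_mul]
      _ ≤ ∑ f : Pos j ↪ ι, 4 ^ j * (j.factorial : ℝ) ^ 2 * 21 ^ j *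
            Real.sqrt (hs4 (res4 f (act4 O E))) ^ j := Finset.sum_le_sum (fun f _ => hG2 f)
      _ = 4 ^ j * (j.factorial : ℝ) ^ 2 * 21 ^ j *
            ∑ f : Pos j ↪ ι, Real.sqrt (hs4 (res4 f (act4 O E))) ^ j := by rw [Finset.mul_sum]
      _ ≤ 4 ^ j * (j.factorial : ℝ) ^ 2 * 21 ^ j *
            ((N : ℝ) * (3 * θ ^ 2 * Real.sqrt H2) ^ j) :=
          mul_le_mul_of_nonneg_left hsum (by positivity)
      _ = (j.factorial : ℝ) ^ 2 * N * (4 ^ j * 21 ^ j * (3 * θ ^ 2 * Real.sqrt H2) ^ j) := by ring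
      _ = _ := by
          congr 1
          rw [← mul_pow, ← mul_pow]
          congr 1
          ring
  -- factorials
  have hf1 : (j.factorial : ℝ) * (j : ℝ) ^ j ≤ ((2 * j).factorial : ℝ) := by
    have h := Nat.factorial_mul_pow_le_factorial (n := j) (m := j)
    have h' : j.factorial * j ^ j ≤ (2 * j).factorial := by
      calc j.factorial * j ^ j ≤ j.factorial * (j + 1) ^ j :=
            Nat.mul_le_mul_left _ (Nat.pow_le_pow_left (by omega) _)
        _ ≤ (j + j).factorial := h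
        _ = (2 * j).factorial := by rw [two_mul]
    exact_mod_cast h'
  have hf2 : (m.choose j : ℝ) * (j.factorial : ℝ) ≤ (m : ℝ) ^ j := by
    have h : m.choose j * j.factorial ≤ m ^ j := by
      rw [mul_comm, ← Nat.descFactorial_eq_factorial_mul_choose]
      exact Nat.descFactorial_le_pow m j
    exact_mod_cast h
  have hNf' : ((2 * m - 2 * j).factorial : ℝ) * N = ((2 * m).factorial : ℝ) := by
    exact_mod_cast hNf
  have hjf : (0 : ℝ) < (j.factorial : ℝ) := by exact_mod_cast Nat.factorial_pos j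
  have hjj : (0 : ℝ) < (j : ℝ) ^ j := by positivity
  obtain ⟨D, hD⟩ : ∃ D : ℝ, D = θ ^ 2 * Real.sqrt H2 := ⟨_, rfl⟩
  have hD0 : 0 ≤ D := by rw [hD]; positivity
  rw [← hD] at hG3
  obtain ⟨L, hL⟩ : ∃ L : ℝ, L = (m.choose j : ℝ) * (2 * k) ^ (m - j) *
    ((2 * m - 2 * j).factorial : ℝ) * |GG j E| := ⟨_, rfl⟩
  have hL0 : 0 ≤ L := by rw [hL]; positivity
  rw [← hL]
  have hL1 : L * ((j : ℝ) ^ j * (j : ℝ) ^ j) ≤
      (m : ℝ) ^ j * (2 * k) ^ (m - j) * ((2 * m).factorial : ℝ) * (252 * D) ^ j := by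
    have ha : L * (((2 * j).factorial : ℝ) * (j : ℝ) ^ j) ≤
        (m : ℝ) ^ j * (j.factorial : ℝ) * (2 * k) ^ (m - j) * ((2 * m).factorial : ℝ) *
          (252 * D) ^ j := by
      calc L * (((2 * j).factorial : ℝ) * (j : ℝ) ^ j) =
            (m.choose j : ℝ) * (2 * k) ^ (m - j) * ((2 * m - 2 * j).factorial : ℝ) *
              (((2 * j).factorial : ℝ) * (j : ℝ) ^ j * |GG j E|) := by rw [hL]; ring
        _ ≤ (m.choose j : ℝ) * (2 * k) ^ (m - j) * ((2 * m - 2 * j).factorial : ℝ) *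
              ((j.factorial : ℝ) ^ 2 * N * (252 * D) ^ j) :=
            mul_le_mul_of_nonneg_left hG3 (by positivity)
        _ = ((m.choose j : ℝ) * (j.factorial : ℝ)) * ((j.factorial : ℝ) * (2 * k) ^ (m - j) *
              (((2 * m - 2 * j).factorial : ℝ) * N) * (252 * D) ^ j) := by ring
        _ ≤ (m : ℝ) ^ j * ((j.factorial : ℝ) * (2 * k) ^ (m - j) *
              (((2 * m - 2 * j).factorial : ℝ) * N) * (252 * D) ^ j) :=
            mul_le_mul_of_nonneg_right hf2 (by positivity)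
        _ = _ := by rw [hNf']; ring
    have hb : L * ((j.factorial : ℝ) * (j : ℝ) ^ j * (j : ℝ) ^ j) ≤
        L * (((2 * j).factorial : ℝ) * (j : ℝ) ^ j) :=
      mul_le_mul_of_nonneg_left (mul_le_mul_of_nonneg_right hf1 hjj.le) hL0
    have hc : (j.factorial : ℝ) * (L * ((j : ℝ) ^ j * (j : ℝ) ^ j)) ≤ (j.factorial : ℝ) *
        ((m : ℝ) ^ j * (2 * k) ^ (m - j) * ((2 * m).factorial : ℝ) * (252 * D) ^ j) := by
      calc _ = L * ((j.factorial : ℝ) * (j : ℝ) ^ j * (j : ℝ) ^ j) := by ring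
        _ ≤ _ := hb.trans ha
        _ = _ := by ring
    exact le_of_mul_le_mul_left hc hjf
  have hkj : (2 * k) ^ m = (2 * k) ^ (m - j) * (2 * k) ^ j := by
    rw [← pow_add]; congr 1; omega
  have hL2 : L * (2 * k * (j : ℝ) ^ 2) ^ j ≤
      ((2 * k) ^ m * ((2 * m).factorial : ℝ)) * (252 * m * D) ^ j := by
    calc L * (2 * k * (j : ℝ) ^ 2) ^ j = (L * ((j : ℝ) ^ j * (j : ℝ) ^ j)) * (2 * k) ^ j := by
          rw [mul_pow, ← pow_mul, two_mul j, pow_add]; ring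
      _ ≤ ((m : ℝ) ^ j * (2 * k) ^ (m - j) * ((2 * m).factorial : ℝ) * (252 * D) ^ j) *
            (2 * k) ^ j := mul_le_mul_of_nonneg_right hL1 (by positivity)
      _ = ((2 * k) ^ (m - j) * (2 * k) ^ j * ((2 * m).factorial : ℝ)) *
            ((m : ℝ) ^ j * (252 * D) ^ j) := by ring
      _ = _ := by
          rw [← hkj, ← mul_pow]
          congr 2
          ring
  have hden : 0 < 2 * k * (j : ℝ) ^ 2 := by positivity
  have hL3 : L ≤ ((2 * k) ^ m * ((2 * m).factorial : ℝ)) *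
      (252 * m * D / (2 * k * (j : ℝ) ^ 2)) ^ j := by
    rw [div_pow, ← mul_div_assoc, le_div_iff₀ (by positivity)]
    exact hL2
  have hratio : 252 * m * D / (2 * k * (j : ℝ) ^ 2) = 64512 * Real.sqrt H2 / (2 * m * k) := by
    rw [hD, hθ, hmr]
    field_simp
    ring
  rw [hratio] at hL3
  calc L ≤ _ := hL3
    _ ≤ ((2 * k) ^ m * ((2 * m).factorial : ℝ)) *
        (64512 * Real.sqrt (20 * X) / (2 * m * k)) ^ j := by
        gcongr
    _ = _ := by ring

end Pool.Agent.H933R2.HopfN
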