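import Pool.Agent.H933R2.HopfN.St

set_option autoImplicit false

/-! Task TOP (helper30): bound of the Gauss-Bonnet sum in top degree. -/

namespace Pool.Agent.H933R2.HopfN

open Finset

theorem top_sg_mul {α : Type} [Fintype α] [DecidableEq α] (σ τ : Equiv.Perm α) :
    sg (σ * τ) = sg σ * sg τ := by
  unfold sg
  rw [Equiv.Perm.sign_mul]
  push_cast
  ring

/-- the permutation `π × id` is even -/
theorem top_sg_prod {j : ℕ} (π : Equiv.Perm (Fin j)) :
    sg (Equiv.prodCongrLeft (fun _ : Fin 2 => π) : Equiv.Perm (Pos j)) = 1 := by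
  unfold sg
  rw [Equiv.Perm.sign_prodCongrLeft]
  simp only [prod_const, card_univ, Fintype.card_fin]
  rcases Int.units_eq_one_or (Equiv.Perm.sign π) with h | h <;> rw [h] <;> simp

theorem top_pp_symm {K : Type} (j : ℕ) (v : K → Pos j → Pos j → ℝ) (π : Equiv.Perm (Fin j))
    (α : Fin j → K) : pp j v (α ∘ π) = pp j v α := by
  unfold pp
  set ρ : Equiv.Perm (Pos j) := Equiv.prodCongrLeft (fun _ : Fin 2 => π) with hρ
  have hρa : ∀ i e, ρ (i, e) = (π i, e) := fun i e => rfl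
  rw [← Equiv.sum_comp (Equiv.mulRight ρ)]
  refine sum_congr rfl fun σ _ => ?_
  rw [Equiv.coe_mulRight, top_sg_mul, top_sg_prod, mul_one]
  congr 1
  rw [← Equiv.prod_comp π (fun i => v (α i) (σ (i, 0)) (σ (i, 1)))]
  refine prod_congr rfl fun i _ => ?_
  simp only [Function.comp_apply, Equiv.Perm.mul_apply, hρa]

theorem top_pp_sum {K : Type} [Fintype K] [DecidableEq K] (j : ℕ) (v : K → Pos j → Pos j → ℝ)
    (x : K → ℂ) : ∑ α : Fin j → K, (pp j v α : ℂ) * ∏ i, x (α i) =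
      ∑ σ : Equiv.Perm (Pos j), ((Equiv.Perm.sign σ : ℤ) : ℂ) *
        ∏ i : Fin j, ∑ κ, x κ * (v κ (σ (i, 0)) (σ (i, 1)) : ℂ) := by
  have h1 : ∀ σ : Equiv.Perm (Pos j), ∏ i : Fin j, ∑ κ, x κ * (v κ (σ (i, 0)) (σ (i, 1)) : ℂ) =
      ∑ α : Fin j → K, ∏ i, (x (α i) * (v (α i) (σ (i, 0)) (σ (i, 1)) : ℂ)) := by
    intro σ
    rw [Finset.prod_univ_sum, Fintype.piFinset_univ]
  have h2 : ∑ σ : Equiv.Perm (Pos j), ((Equiv.Perm.sign σ : ℤ) : ℂ) *
        ∏ i : Fin j, ∑ κ, x κ * (v κ (σ (i, 0)) (σ (i, 1)) : ℂ) =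
      ∑ α : Fin j → K, ∑ σ : Equiv.Perm (Pos j), ((Equiv.Perm.sign σ : ℤ) : ℂ) *
        ∏ i, (x (α i) * (v (α i) (σ (i, 0)) (σ (i, 1)) : ℂ)) := by
    rw [sum_comm]
    refine sum_congr rfl fun σ _ => ?_
    rw [h1 σ, mul_sum]
  rw [h2]
  refine sum_congr rfl fun α _ => ?_
  unfold pp sg
  push_cast
  rw [sum_mul]
  refine sum_congr rfl fun σ _ => ?_
  rw [prod_mul_distrib]
  ring

theorem top_exp : Real.exp 1 ^ 3 ≤ 21 := by
  have h := Real.exp_one_lt_d9
  have h0 := Real.exp_pos 1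
  have h2 : Real.exp 1 ≤ 2.72 := by linarith
  calc Real.exp 1 ^ 3 ≤ (2.72 : ℝ) ^ 3 := pow_le_pow_left₀ h0.le h2 3
    _ ≤ 21 := by norm_num

theorem top_main (h1 : St_spec) (h2 : St_sq) (h3 : St_pf) (h4 : St_had) (h5 : St_coef)
    (h6 : St_hsum) : St_top := by
  intro j hj T hT
  classical
  obtain ⟨lam, v, hv, hlam, hanti, hB⟩ := h1 (Pos j) T hT.a1 hT.ps
  have hjR : (0 : ℝ) < j := by exact_mod_cast hj
  have hcardP : Fintype.card (Pos j) = 2 * j := by
    rw [Fintype.card_prod, Fintype.card_fin, Fintype.card_fin]; ring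
  have hcardK : Fintype.card (Pos j × Pos j) ≤ 4 * j ^ 2 := by
    rw [Fintype.card_prod, hcardP]
    apply le_of_eq
    ring
  set N : ℝ := 2 ^ j * (j.factorial : ℝ) with hN
  have hNpos : 0 < N := by positivity
  set c : (Fin j → Pos j × Pos j) → ℝ := fun α => pp j v α / N with hc
  have hcs : ∀ (π : Equiv.Perm (Fin j)) (α : Fin j → Pos j × Pos j), c (α ∘ π) = c α := by
    intro π α
    simp only [hc]
    rw [top_pp_symm]
  have hbound : ∀ x : Pos j × Pos j → ℂ, ‖∑ α : Fin j → Pos j × Pos j, (c α : ℂ) * ∏ i, x (α i)‖ ^ 2 ≤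
      (1 / (2 * j) * ∑ κ, ‖x κ‖ ^ 2) ^ j := by
    intro x
    set X : Pos j → Pos j → ℂ := fun a b => ∑ κ, x κ * (v κ a b : ℂ) with hX
    have hXa : ∀ a b, X b a = - X a b := by
      intro a b
      simp only [hX]
      rw [← sum_neg_distrib]
      refine sum_congr rfl fun κ _ => ?_
      rw [hanti κ a b]
      push_cast
      ring
    have hpf := h3 j X hXa
    have hsum := top_pp_sum j v x
    have hs : ∑ α : Fin j → Pos j × Pos j, (c α : ℂ) * ∏ i, x (α i) =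
        (∑ σ : Equiv.Perm (Pos j), ((Equiv.Perm.sign σ : ℤ) : ℂ) *
          ∏ i : Fin j, X (σ (i, 0)) (σ (i, 1))) / (N : ℂ) := by
      rw [← hsum, sum_div]
      refine sum_congr rfl fun α _ => ?_
      simp only [hc]
      push_cast
      ring
    have hNC : (N : ℂ) = (2 : ℂ) ^ j * (j.factorial : ℂ) := by rw [hN]; push_cast; ring
    have hNC0 : (N : ℂ) ≠ 0 := by exact_mod_cast hNpos.ne'
    have hsq : (∑ α : Fin j → Pos j × Pos j, (c α : ℂ) * ∏ i, x (α i)) ^ 2 = Matrix.det (Matrix.of X) := by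
      rw [hs, div_pow, hpf, ← hNC, mul_div_assoc, mul_comm, div_mul_eq_mul_div,
        mul_div_assoc, div_self (pow_ne_zero 2 hNC0), mul_one]
    have hnorm : ‖∑ α : Fin j → Pos j × Pos j, (c α : ℂ) * ∏ i, x (α i)‖ ^ 2 =
        ‖Matrix.det (Matrix.of X)‖ := by
      rw [← norm_pow, hsq]
    rw [hnorm]
    have hhad := h4 (Pos j) (Matrix.of X)
    rw [hcardP] at hhad
    have hSX : ∑ a, ∑ b, ‖(Matrix.of X) a b‖ ^ 2 ≤ ∑ κ, ‖x κ‖ ^ 2 := hB x
    have hS0 : 0 ≤ ∑ a, ∑ b, ‖(Matrix.of X) a b‖ ^ 2 :=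
      sum_nonneg fun a _ => sum_nonneg fun b _ => sq_nonneg _
    have h7 : ‖Matrix.det (Matrix.of X)‖ ^ 2 ≤
        (((∑ a, ∑ b, ‖(Matrix.of X) a b‖ ^ 2) / (2 * j)) ^ j) ^ 2 := by
      rw [← pow_mul, mul_comm j 2]
      push_cast at hhad
      exact hhad
    have h8 := abs_le_of_sq_le_sq' h7 (by positivity)
    calc ‖Matrix.det (Matrix.of X)‖ ≤ ((∑ a, ∑ b, ‖(Matrix.of X) a b‖ ^ 2) / (2 * j)) ^ j := h8.2
      _ ≤ (1 / (2 * j) * ∑ κ, ‖x κ‖ ^ 2) ^ j := by
          apply pow_le_pow_left₀ (by positivity)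
          rw [one_div, inv_mul_eq_div]
          exact div_le_div_of_nonneg_right hSX (by positivity)
  have hcoef := h5 (Pos j × Pos j) j c (1 / (2 * j)) (by positivity) hcs hbound
  have hsqb := h2 j (Pos j × Pos j) lam v
  have hTeq : (fun a b c d => ∑ κ, lam κ * v κ a b * v κ c d) = T := by
    funext a b c d
    exact (hv a b c d).symm
  rw [hTeq] at hsqb
  have hhs := h6 (Pos j × Pos j) j hj hcardK (fun κ => |lam κ|) (fun κ => abs_nonneg _)
  simp only [sq_abs] at hhs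
  rw [hlam] at hhs
  set L : ℝ := Real.sqrt (hs4 T) with hL
  have hL0 : 0 ≤ L := Real.sqrt_nonneg _
  have hfac : (0 : ℝ) < (j.factorial : ℝ) := by positivity
  -- assembly
  have h9 : |gb j T| * (j.factorial : ℝ) ≤ N ^ 2 * (Real.exp 1 * (1 / (2 * j))) ^ j *
      ((j.factorial : ℝ) * (2 * Real.exp 2 * L) ^ j) := by
    calc |gb j T| * (j.factorial : ℝ)
        ≤ (∑ α : Fin j → Pos j × Pos j, (∏ i, |lam (α i)|) * pp j v α ^ 2) * (j.factorial : ℝ) :=
          mul_le_mul_of_nonneg_right hsqb hfac.le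
      _ = ∑ α : Fin j → Pos j × Pos j, (∏ i, |lam (α i)|) * (N ^ 2 * (c α ^ 2 * (j.factorial : ℝ))) := by
          rw [sum_mul]
          refine sum_congr rfl fun α _ => ?_
          have : pp j v α ^ 2 = N ^ 2 * c α ^ 2 := by
            simp only [hc]
            rw [div_pow, mul_div_assoc', mul_div_assoc, mul_comm, div_mul_eq_mul_div, mul_div_assoc,
              div_self (pow_ne_zero 2 hNpos.ne'), mul_one]
          rw [this]; ring
      _ ≤ ∑ α : Fin j → Pos j × Pos j, (∏ i, |lam (α i)|) * (N ^ 2 *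
            ((Real.exp 1 * (1 / (2 * j))) ^ j * ∏ κ, ((cnt α κ).factorial : ℝ))) := by
          refine sum_le_sum fun α _ => ?_
          apply mul_le_mul_of_nonneg_left _ (prod_nonneg fun i _ => abs_nonneg _)
          exact mul_le_mul_of_nonneg_left (hcoef α) (by positivity)
      _ = N ^ 2 * (Real.exp 1 * (1 / (2 * j))) ^ j *
            ∑ α : Fin j → Pos j × Pos j, (∏ κ, ((cnt α κ).factorial : ℝ)) * ∏ i, |lam (α i)| := by
          rw [mul_sum]
          refine sum_congr rfl fun α _ => ?_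
          ring
      _ ≤ _ := mul_le_mul_of_nonneg_left hhs (by positivity)
  have h10 : |gb j T| ≤ N ^ 2 * (Real.exp 1 * (1 / (2 * j))) ^ j * (2 * Real.exp 2 * L) ^ j := by
    have : |gb j T| * (j.factorial : ℝ) ≤
        (N ^ 2 * (Real.exp 1 * (1 / (2 * j))) ^ j * (2 * Real.exp 2 * L) ^ j) * (j.factorial : ℝ) := by
      refine h9.trans (le_of_eq ?_)
      ring
    exact le_of_mul_le_mul_right this hfac
  have he2 : Real.exp 2 = Real.exp 1 ^ 2 := by
    rw [← Real.exp_nat_mul]; norm_num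
  calc |gb j T| * (j : ℝ) ^ j
      ≤ (N ^ 2 * (Real.exp 1 * (1 / (2 * j))) ^ j * (2 * Real.exp 2 * L) ^ j) * (j : ℝ) ^ j :=
        mul_le_mul_of_nonneg_right h10 (by positivity)
    _ = N ^ 2 * (Real.exp 1 ^ 3 * L) ^ j := by
        rw [mul_assoc, mul_assoc, ← mul_pow, ← mul_pow]
        congr 2
        rw [he2]
        field_simp
    _ ≤ N ^ 2 * (21 * L) ^ j := by
        apply mul_le_mul_of_nonneg_left _ (by positivity)
        exact pow_le_pow_left₀ (by positivity) (mul_le_mul_of_nonneg_right top_exp hL0) j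
    _ = 4 ^ j * (j.factorial : ℝ) ^ 2 * (21 * L) ^ j := by
        rw [hN, mul_pow, ← pow_mul, mul_comm j 2, pow_mul]
        norm_num

end Pool.Agent.H933R2.HopfN
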