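import Pool.Agent.H933R2.HopfN.St

set_option autoImplicit false
set_option linter.all false

namespace Pool.Agent.H933R2.HopfN

open Finset

section

variable {ι : Type} [Fintype ι] [DecidableEq ι]

/-- rotation in the plane `(i, l)` -/
noncomputable def var_rot (i l : ι) (t : ℝ) : Matrix ι ι ℝ := fun a b =>
  kd a b + (Real.cos t - 1) * (kd a i * kd b i + kd a l * kd b l) +
    Real.sin t * (kd a i * kd b l - kd a l * kd b i)

theorem var_kd_self (a : ι) : kd a a = 1 := by simp [kd]

theorem var_kd_comm (a b : ι) : kd a b = kd b a := by simp [kd, eq_comm]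

theorem var_kd_ne {a b : ι} (h : a ≠ b) : kd a b = 0 := by simp [kd, h]

theorem var_kd_sum (x : ι) (f : ι → ℝ) : ∑ c, kd c x * f c = f x := by
  simp [kd]

theorem var_rot_i {i l : ι} (h : i ≠ l) (t : ℝ) (b : ι) :
    var_rot i l t i b = Real.cos t * kd b i + Real.sin t * kd b l := by
  simp only [var_rot, var_kd_self, var_kd_ne h, var_kd_comm i b]; ring

theorem var_rot_l {i l : ι} (h : i ≠ l) (t : ℝ) (b : ι) :
    var_rot i l t l b = Real.cos t * kd b l - Real.sin t * kd b i := by
  simp only [var_rot, var_kd_self, var_kd_ne h.symm, var_kd_comm l b]; ring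

theorem var_rot_zero (i l : ι) : var_rot i l 0 = (1 : Matrix ι ι ℝ) := by
  ext a b
  simp [var_rot, kd, Matrix.one_apply]

theorem var_rot_orth {i l : ι} (h : i ≠ l) (t : ℝ) : Orth (var_rot i l t) := by
  unfold Orth
  ext a b
  rw [Matrix.mul_apply]
  simp only [Matrix.transpose_apply]
  have h1 : ∀ c, var_rot i l t c a * var_rot i l t c b =
      kd c a * var_rot i l t c b +
      kd c i * (((Real.cos t - 1) * kd a i + Real.sin t * kd a l) * var_rot i l t c b) +
      kd c l * (((Real.cos t - 1) * kd a l - Real.sin t * kd a i) * var_rot i l t c b) := by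
    intro c
    have : var_rot i l t c a = kd c a + kd c i * ((Real.cos t - 1) * kd a i + Real.sin t * kd a l) +
      kd c l * ((Real.cos t - 1) * kd a l - Real.sin t * kd a i) := by
      simp only [var_rot]; ring
    rw [this]; ring
  simp only [h1, Finset.sum_add_distrib, var_kd_sum]
  rw [var_rot_i h, var_rot_l h]
  have h2 : (1 : Matrix ι ι ℝ) a b = kd a b := by simp [kd, Matrix.one_apply]
  rw [h2]
  simp only [var_rot]
  have h3 := Real.sin_sq_add_cos_sq t
  have h4 : Real.sin t ^ 2 = 1 - Real.cos t ^ 2 := by linarith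
  ring_nf
  rw [h4]
  ring

theorem var_rot_deriv {i l : ι} (h : i ≠ l) (t : ℝ) (a b : ι) :
    HasDerivAt (fun t => var_rot i l t a b)
      (kd a i * var_rot i l t l b - kd a l * var_rot i l t i b) t := by
  rw [var_rot_i h, var_rot_l h]
  have h1 := ((((Real.hasDerivAt_cos t).sub_const 1).mul_const (kd a i * kd b i + kd a l * kd b l)).const_add
    (kd a b)).add ((Real.hasDerivAt_sin t).mul_const (kd a i * kd b l - kd a l * kd b i))
  refine h1.congr_deriv ?_
  ring

theorem var_act4_deriv {i l : ι} (h : i ≠ l) (W : T4 ι) (t : ℝ) (a b c d : ι) :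
    HasDerivAt (fun t => act4 (var_rot i l t) W a b c d)
      (D4 i l (act4 (var_rot i l t) W) a b c d) t := by
  have h1 : HasDerivAt (fun t => act4 (var_rot i l t) W a b c d)
      (∑ a', ∑ b', ∑ c', ∑ d',
        ((((kd a i * var_rot i l t l a' - kd a l * var_rot i l t i a') * var_rot i l t b b' +
          var_rot i l t a a' * (kd b i * var_rot i l t l b' - kd b l * var_rot i l t i b')) *
          var_rot i l t c c' + var_rot i l t a a' * var_rot i l t b b' *
          (kd c i * var_rot i l t l c' - kd c l * var_rot i l t i c')) * var_rot i l t d d' +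
          var_rot i l t a a' * var_rot i l t b b' * var_rot i l t c c' *
          (kd d i * var_rot i l t l d' - kd d l * var_rot i l t i d')) * W a' b' c' d') t := by
    unfold act4
    refine HasDerivAt.fun_sum fun a' _ => HasDerivAt.fun_sum fun b' _ =>
      HasDerivAt.fun_sum fun c' _ => HasDerivAt.fun_sum fun d' _ => ?_
    exact ((((var_rot_deriv h t a a').mul (var_rot_deriv h t b b')).mul
      (var_rot_deriv h t c c')).mul (var_rot_deriv h t d d')).mul_const (W a' b' c' d')
  refine h1.congr_deriv ?_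
  simp only [D4, act4, Finset.mul_sum, ← Finset.sum_sub_distrib, ← Finset.sum_add_distrib]
  refine Finset.sum_congr rfl fun a' _ => Finset.sum_congr rfl fun b' _ =>
    Finset.sum_congr rfl fun c' _ => Finset.sum_congr rfl fun d' _ => ?_
  ring

theorem var_act2_deriv {i l : ι} (h : i ≠ l) (A : T2 ι) (t : ℝ) (a b : ι) :
    HasDerivAt (fun t => act2 (var_rot i l t) A a b)
      (D2 i l (act2 (var_rot i l t) A) a b) t := by
  have h1 : HasDerivAt (fun t => act2 (var_rot i l t) A a b)
      (∑ a', ∑ b',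
        ((kd a i * var_rot i l t l a' - kd a l * var_rot i l t i a') * var_rot i l t b b' +
          var_rot i l t a a' * (kd b i * var_rot i l t l b' - kd b l * var_rot i l t i b')) *
          A a' b') t := by
    unfold act2
    refine HasDerivAt.fun_sum fun a' _ => HasDerivAt.fun_sum fun b' _ => ?_
    exact ((var_rot_deriv h t a a').mul (var_rot_deriv h t b b')).mul_const (A a' b')
  refine h1.congr_deriv ?_
  simp only [D2, act2, Finset.mul_sum, ← Finset.sum_sub_distrib, ← Finset.sum_add_distrib]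
  refine Finset.sum_congr rfl fun a' _ => Finset.sum_congr rfl fun b' _ => ?_
  ring

theorem var_D4_deriv (i l : ι) {R : ℝ → T4 ι} {R' : T4 ι} {t : ℝ}
    (hR : ∀ a b c d, HasDerivAt (fun t => R t a b c d) (R' a b c d) t) (a b c d : ι) :
    HasDerivAt (fun t => D4 i l (R t) a b c d) (D4 i l R' a b c d) t := by
  unfold D4
  exact (((((hR l b c d).const_mul (kd a i)).sub ((hR i b c d).const_mul (kd a l))).add
    (((hR a l c d).const_mul (kd b i)).sub ((hR a i c d).const_mul (kd b l)))).add
    (((hR a b l d).const_mul (kd c i)).sub ((hR a b i d).const_mul (kd c l)))).add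
    (((hR a b c l).const_mul (kd d i)).sub ((hR a b c i).const_mul (kd d l)))

theorem var_D2_deriv (i l : ι) {R : ℝ → T2 ι} {R' : T2 ι} {t : ℝ}
    (hR : ∀ a b, HasDerivAt (fun t => R t a b) (R' a b) t) (a b : ι) :
    HasDerivAt (fun t => D2 i l (R t) a b) (D2 i l R' a b) t := by
  unfold D2
  exact (((hR l b).const_mul (kd a i)).sub ((hR i b).const_mul (kd a l))).add
    (((hR a l).const_mul (kd b i)).sub ((hR a i).const_mul (kd b l)))

theorem var_ip4_deriv (w : ι → ℝ) {R T : ℝ → T4 ι} {R' T' : T4 ι} {t : ℝ}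
    (hR : ∀ a b c d, HasDerivAt (fun t => R t a b c d) (R' a b c d) t)
    (hT : ∀ a b c d, HasDerivAt (fun t => T t a b c d) (T' a b c d) t) :
    HasDerivAt (fun t => ip4 w (R t) (T t)) (ip4 w R' (T t) + ip4 w (R t) T') t := by
  have h1 : HasDerivAt (fun t => ip4 w (R t) (T t)) (∑ a, ∑ b, ∑ c, ∑ d,
      w a * w b * w c * w d * (R' a b c d * T t a b c d + R t a b c d * T' a b c d)) t := by
    unfold ip4
    refine HasDerivAt.fun_sum fun a _ => HasDerivAt.fun_sum fun b _ =>
      HasDerivAt.fun_sum fun c _ => HasDerivAt.fun_sum fun d _ => ?_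
    exact ((hR a b c d).mul (hT a b c d)).const_mul _
  refine h1.congr_deriv ?_
  simp only [ip4, mul_add, ← Finset.sum_add_distrib]

theorem var_ip2_deriv (w : ι → ℝ) {R T : ℝ → T2 ι} {R' T' : T2 ι} {t : ℝ}
    (hR : ∀ a b, HasDerivAt (fun t => R t a b) (R' a b) t)
    (hT : ∀ a b, HasDerivAt (fun t => T t a b) (T' a b) t) :
    HasDerivAt (fun t => ip2 w (R t) (T t)) (ip2 w R' (T t) + ip2 w (R t) T') t := by
  have h1 : HasDerivAt (fun t => ip2 w (R t) (T t)) (∑ a, ∑ b,
      w a * w b * (R' a b * T t a b + R t a b * T' a b)) t := by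
    unfold ip2
    refine HasDerivAt.fun_sum fun a _ => HasDerivAt.fun_sum fun b _ => ?_
    exact ((hR a b).mul (hT a b)).const_mul _
  refine h1.congr_deriv ?_
  simp only [ip2, mul_add, ← Finset.sum_add_distrib]

theorem var_ip4_comm (w : ι → ℝ) (R T : T4 ι) : ip4 w R T = ip4 w T R := by
  unfold ip4
  refine Finset.sum_congr rfl fun a _ => Finset.sum_congr rfl fun b _ =>
    Finset.sum_congr rfl fun c _ => Finset.sum_congr rfl fun d _ => ?_
  ring

theorem var_ip2_comm (w : ι → ℝ) (R T : T2 ι) : ip2 w R T = ip2 w T R := by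
  unfold ip2
  refine Finset.sum_congr rfl fun a _ => Finset.sum_congr rfl fun b _ => ?_
  ring

theorem var_act4_one (W : T4 ι) : act4 (1 : Matrix ι ι ℝ) W = W := by
  funext a b c d
  simp [act4, Matrix.one_apply]

theorem var_act2_one (A : T2 ι) : act2 (1 : Matrix ι ι ℝ) A = A := by
  funext a b
  simp [act2, Matrix.one_apply]

/-- second order condition -/
theorem var_second {phi phi1 : ℝ → ℝ} {c : ℝ} (h1 : ∀ t, HasDerivAt phi (phi1 t) t)
    (h2 : HasDerivAt phi1 c 0) (hmin : ∀ t, phi 0 ≤ phi t) : 0 ≤ c := by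
  by_contra hc
  have hc' : c < 0 := not_le.1 hc
  have hd : deriv phi = phi1 := funext fun t => (h1 t).deriv
  have hdd : deriv (deriv phi) 0 = c := by rw [hd]; exact h2.deriv
  have hlm : IsLocalMin phi 0 := Filter.Eventually.of_forall hmin
  have h0 : deriv phi 0 = 0 := hlm.deriv_eq_zero
  have hlM : IsLocalMax phi 0 :=
    isLocalMax_of_deriv_deriv_neg (by rw [hdd]; exact hc') h0 (h1 0).continuousAt
  have heq : phi =ᶠ[nhds 0] fun _ => phi 0 := by
    filter_upwards [hlM] with t ht
    exact le_antisymm ht (hmin t)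
  have h3 : deriv phi =ᶠ[nhds 0] deriv (fun _ => phi 0) := heq.deriv
  have h4 : deriv (deriv phi) 0 = deriv (deriv fun _ : ℝ => phi 0) 0 := h3.deriv_eq
  have h5 : deriv (fun _ : ℝ => phi 0) = fun _ => 0 := by
    funext x; exact deriv_const x (phi 0)
  rw [hdd, h5, deriv_const] at h4
  exact hc'.ne h4

theorem var_QQ_deriv (w : ι → ℝ) (κ : ℝ) (i l : ι) {R : ℝ → T4 ι} {B : ℝ → T2 ι} {t : ℝ}
    (hR : ∀ a b c d, HasDerivAt (fun t => R t a b c d) (D4 i l (R t) a b c d) t)
    (hB : ∀ a b, HasDerivAt (fun t => B t a b) (D2 i l (B t) a b) t) :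
    HasDerivAt (fun t => QQ w κ (R t) (B t)) (QQ1 w κ (R t) (B t) i l) t := by
  have h1 := (var_ip4_deriv w hR hR).add ((var_ip2_deriv w hB hB).const_mul κ)
  refine h1.congr_deriv ?_
  unfold QQ1
  rw [var_ip4_comm w (D4 i l (R t)), var_ip2_comm w (D2 i l (B t))]
  ring

theorem var_QQ1_deriv (w : ι → ℝ) (κ : ℝ) (i l : ι) {R : ℝ → T4 ι} {B : ℝ → T2 ι} {t : ℝ}
    (hR : ∀ a b c d, HasDerivAt (fun t => R t a b c d) (D4 i l (R t) a b c d) t)
    (hB : ∀ a b, HasDerivAt (fun t => B t a b) (D2 i l (B t) a b) t) :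
    HasDerivAt (fun t => QQ1 w κ (R t) (B t) i l) (QQ2 w κ (R t) (B t) i l) t := by
  have h1 := ((var_ip4_deriv w hR (var_D4_deriv i l hR)).const_mul 2).add
    (((var_ip2_deriv w hB (var_D2_deriv i l hB)).const_mul 2).const_mul κ)
  refine h1.congr_deriv ?_
  unfold QQ2 Q4 Q2
  ring

theorem var_D4_self (i : ι) (R : T4 ι) : D4 i i R = fun _ _ _ _ => 0 := by
  funext a b c d
  simp [D4]

theorem var_D2_self (i : ι) (A : T2 ι) : D2 i i A = fun _ _ => 0 := by
  funext a b
  simp [D2]

end

theorem var_main : St_var := by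
  intro ι F _ _ _ S θ κ q hq W A hmin i l
  by_cases hil : i = l
  · subst hil
    refine Finset.sum_nonneg fun f _ => ?_
    have h1 : QQ1 (wt θ (S f)) κ W A i i = 0 := by
      simp [QQ1, var_D4_self, var_D2_self, ip4, ip2]
    have h2 : QQ2 (wt θ (S f)) κ W A i i = 0 := by
      simp [QQ2, var_D4_self, var_D2_self, ip4, ip2, Q4, Q2]
    rw [h1, h2]; simp
  · set R : ℝ → T4 ι := fun t => act4 (var_rot i l t) W with hRdef
    set B : ℝ → T2 ι := fun t => act2 (var_rot i l t) A with hBdef
    have hR : ∀ t a b c d, HasDerivAt (fun t => R t a b c d) (D4 i l (R t) a b c d) t :=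
      fun t a b c d => var_act4_deriv hil W t a b c d
    have hB : ∀ t a b, HasDerivAt (fun t => B t a b) (D2 i l (B t) a b) t :=
      fun t a b => var_act2_deriv hil A t a b
    have hR0 : R 0 = W := by simp only [hRdef, var_rot_zero, var_act4_one]
    have hB0 : B 0 = A := by simp only [hBdef, var_rot_zero, var_act2_one]
    have hq1 : ((q - 1 : ℕ) : ℝ) = (q : ℝ) - 1 := by
      rw [Nat.cast_sub hq, Nat.cast_one]
    have key := var_second (phi := fun t => Psi S θ κ q (R t) (B t))
      (phi1 := fun t => ∑ f : F, (q : ℝ) * QQ (wt θ (S f)) κ (R t) (B t) ^ (q - 1) *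
        QQ1 (wt θ (S f)) κ (R t) (B t) i l)
      (c := ∑ f : F, ((q : ℝ) * QQ (wt θ (S f)) κ W A ^ (q - 1) *
          QQ2 (wt θ (S f)) κ W A i l +
        (q : ℝ) * ((q : ℝ) - 1) * QQ (wt θ (S f)) κ W A ^ (q - 2) *
          QQ1 (wt θ (S f)) κ W A i l ^ 2)) ?_ ?_ ?_
    · exact key
    · intro t
      unfold Psi
      refine HasDerivAt.fun_sum fun f _ => ?_
      exact (var_QQ_deriv (wt θ (S f)) κ i l (hR t) (hB t)).pow q
    · refine HasDerivAt.fun_sum fun f _ => ?_
      have h1 := (((var_QQ_deriv (wt θ (S f)) κ i l (hR 0) (hB 0)).pow (q - 1)).const_mul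
        (q : ℝ)).mul (var_QQ1_deriv (wt θ (S f)) κ i l (hR 0) (hB 0))
      refine h1.congr_deriv ?_
      simp only [Pi.pow_apply]
      rw [hR0, hB0, hq1, Nat.sub_sub]
      ring
    · intro t
      show Psi S θ κ q (R 0) (B 0) ≤ Psi S θ κ q (R t) (B t)
      rw [hR0, hB0]
      exact hmin _ (var_rot_orth hil t)

end Pool.Agent.H933R2.HopfN
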