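import Pool.Agent.H933R2.HopfN.St

set_option autoImplicit false
set_option linter.all false

namespace Pool.Agent.H933R2.HopfN

theorem words_cnt_cons {K : Type} [DecidableEq K] {j : ℕ} (κ₀ : K) (β : Fin j → K) (κ : K) :
    cnt (Fin.cons κ₀ β : Fin (j+1) → K) κ = (if κ₀ = κ then 1 else 0) + cnt β κ := by
  unfold cnt
  rw [Finset.card_filter, Finset.card_filter, Fin.sum_univ_succ]
  simp

theorem words_main : St_words := by
  intro K _ _ j
  induction j with
  | zero =>
    intro k hk
    have hk0 : ∀ κ, k κ = 0 := by
      intro κ
      have := (Finset.sum_eq_zero_iff.1 hk) κ (Finset.mem_univ κ)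
      exact this
    have h1 : (Finset.univ.filter (fun α : Fin 0 → K => ∀ κ, cnt α κ = k κ)) = Finset.univ := by
      apply Finset.filter_true_of_mem
      intro α _ κ
      rw [hk0]; simp [cnt]
    rw [h1]
    simp [hk0]
  | succ j ih =>
    intro k hk
    rw [Finset.card_filter]
    rw [← (Fin.consEquiv (fun _ : Fin (j+1) => K)).sum_comp, Fintype.sum_prod_type, Finset.sum_mul]
    have hterm : ∀ κ₀ : K, (∑ β : Fin j → K, (if (∀ κ, cnt ((Fin.consEquiv
        (fun _ : Fin (j+1) => K)) (κ₀, β)) κ = k κ) then 1 else 0)) * ∏ κ, (k κ).factorial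
        = k κ₀ * j.factorial := by
      intro κ₀
      have hc : ∀ β : Fin j → K, (Fin.consEquiv (fun _ : Fin (j+1) => K)) (κ₀, β)
          = (Fin.cons κ₀ β : Fin (j+1) → K) := fun β => rfl
      simp only [hc, words_cnt_cons]
      rcases Nat.eq_zero_or_pos (k κ₀) with h0 | h0
      · rw [h0, zero_mul]
        have : ∀ β : Fin j → K, ¬ (∀ κ, (if κ₀ = κ then 1 else 0) + cnt β κ = k κ) := by
          intro β hβ
          have := hβ κ₀
          rw [h0] at this
          simp at this
        simp [this]
      · set k' : K → ℕ := Function.update k κ₀ (k κ₀ - 1) with hk'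
        have hk'0 : k' κ₀ = k κ₀ - 1 := by simp [hk']
        have hk'1 : ∀ κ, κ ≠ κ₀ → k' κ = k κ := by
          intro κ hκ; simp [hk', hκ]
        have hiff : ∀ β : Fin j → K, (∀ κ, (if κ₀ = κ then 1 else 0) + cnt β κ = k κ) ↔
            (∀ κ, cnt β κ = k' κ) := by
          intro β
          constructor
          · intro h κ
            by_cases hκ : κ = κ₀
            · subst hκ
              have := h κ
              simp only [if_true] at this
              rw [hk'0]; omega
            · have := h κ
              rw [if_neg (Ne.symm hκ)] at this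
              rw [hk'1 κ hκ]; omega
          · intro h κ
            by_cases hκ : κ = κ₀
            · subst hκ
              have := h κ
              simp only [if_true]
              rw [this, hk'0]; omega
            · have := h κ
              rw [if_neg (Ne.symm hκ), this, hk'1 κ hκ]; omega
        simp only [hiff]
        rw [← Finset.card_filter]
        have hsum : ∑ κ, k' κ = j := by
          have h1 := Finset.add_sum_erase Finset.univ k (Finset.mem_univ κ₀)
          have h2 := Finset.add_sum_erase Finset.univ k' (Finset.mem_univ κ₀)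
          have h3 : ∑ κ ∈ Finset.univ.erase κ₀, k' κ = ∑ κ ∈ Finset.univ.erase κ₀, k κ := by
            apply Finset.sum_congr rfl
            intro κ hκ
            exact hk'1 κ (Finset.ne_of_mem_erase hκ)
          rw [h3, hk'0] at h2
          omega
        have hprod : ∏ κ, (k κ).factorial = k κ₀ * ∏ κ, (k' κ).factorial := by
          rw [← Finset.mul_prod_erase Finset.univ (fun κ => (k κ).factorial) (Finset.mem_univ κ₀),
            ← Finset.mul_prod_erase Finset.univ (fun κ => (k' κ).factorial) (Finset.mem_univ κ₀)]
          have h3 : ∏ κ ∈ Finset.univ.erase κ₀, (k' κ).factorial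
              = ∏ κ ∈ Finset.univ.erase κ₀, (k κ).factorial := by
            apply Finset.prod_congr rfl
            intro κ hκ
            rw [hk'1 κ (Finset.ne_of_mem_erase hκ)]
          rw [h3, hk'0, ← mul_assoc, Nat.mul_factorial_pred (by omega)]
        rw [hprod]
        have := ih k' hsum
        calc _ = k κ₀ * ((Finset.univ.filter (fun α : Fin j → K => ∀ κ, cnt α κ = k' κ)).card *
                ∏ κ, (k' κ).factorial) := by ring
          _ = _ := by rw [this]
    rw [Finset.sum_congr rfl (fun κ₀ _ => hterm κ₀), ← Finset.sum_mul, hk, Nat.factorial_succ]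

end Pool.Agent.H933R2.HopfN
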