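import Pool.Agent.H933R2.HopfN.CONTR
import Pool.Agent.H933R2.HopfN.EXPAND
import Pool.Agent.H933R2.HopfN.INV
import Pool.Agent.H933R2.HopfN.EMB
import Pool.Agent.H933R2.HopfN.SPEC
import Pool.Agent.H933R2.HopfN.SQ
import Pool.Agent.H933R2.HopfN.PF
import Pool.Agent.H933R2.HopfN.HAD
import Pool.Agent.H933R2.HopfN.WORDS
import Pool.Agent.H933R2.HopfN.COEF
import Pool.Agent.H933R2.HopfN.HSUM
import Pool.Agent.H933R2.HopfN.TOP
import Pool.Agent.H933R2.HopfN.INVT
import Pool.Agent.H933R2.HopfN.LAP4
import Pool.Agent.H933R2.HopfN.LAP2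
import Pool.Agent.H933R2.HopfN.GRD
import Pool.Agent.H933R2.HopfN.ALG
import Pool.Agent.H933R2.HopfN.MIN
import Pool.Agent.H933R2.HopfN.VAR
import Pool.Agent.H933R2.HopfN.HOLD
import Pool.Agent.H933R2.HopfN.MOM
import Pool.Agent.H933R2.HopfN.KNB
import Pool.Agent.H933R2.HopfN.RES
import Pool.Agent.H933R2.HopfN.DEC
import Pool.Agent.H933R2.HopfN.SEC
import Pool.Agent.H933R2.HopfN.TERM
import Pool.Agent.H933R2.HopfN.FIN

namespace Pool.Agent.H933R2.HopfN

theorem all_top : St_top := top_main spec_main sq_main pf_main had_main (coef_main words_main)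
  (hsum_main words_main)
theorem all_alg : St_alg := alg_main lap4_main lap2_main
theorem all_mom : St_mom := mom_main invt_main min_main var_main all_alg grd_main hold_main
theorem all_res : St_res := res_main knb_main
theorem all_dec : St_dec := dec_main knb_main
theorem all_term : St_term := term_main inv_main emb_main all_top all_mom all_res all_dec invt_main
theorem all_expand : St_expand := expand_main contr_main
theorem all_fin : St_fin := fin_main all_expand emb_main all_term

end Pool.Agent.H933R2.HopfN
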