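import Pool.Agent.H933R2.HopfN.St2
import Pool.Agent.H933R2.HopfN.DEC

set_option autoImplicit false
set_option linter.all false

/-!
Task DEC2 of project HopfN: decomposition of a curvature tensor with orthogonality.
-/

namespace Pool.Agent.H933R2.HopfN

theorem dec2_kd {ι : Type} [Fintype ι] [DecidableEq ι] (a : ι) (F : ι → ℝ) :
    ∑ b, kd a b * F b = F a := by
  unfold kd
  simp only [ite_mul, one_mul, zero_mul]
  rw [Finset.sum_ite_eq, if_pos (Finset.mem_univ a)]

/-- trace-free tensors are orthogonal to Kulkarni-Nomizu products with the metric -/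
theorem dec2_orth {ι : Type} [Fintype ι] [DecidableEq ι] (W : T4 ι) (hW : IsCurv W)
    (hR : ∀ a b, Ric W a b = 0) (A : T2 ι) :
    ∑ a, ∑ b, ∑ c, ∑ d, W a b c d * kn A a b c d = 0 := by
  have hR' : ∀ b d, ∑ x, W x b x d = 0 := hR
  have t1 : ∑ a, ∑ b, ∑ c, ∑ d, kd a c * (W a b c d * A b d) = 0 := by
    have h1 : ∀ a b, ∑ c, ∑ d, kd a c * (W a b c d * A b d) = ∑ d, W a b a d * A b d := by
      intro a b
      rw [← dec2_kd a (fun c => ∑ d, W a b c d * A b d)]
      simp only [Finset.mul_sum]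
    simp only [h1]
    rw [Finset.sum_comm]
    refine Finset.sum_eq_zero fun b _ => ?_
    rw [Finset.sum_comm]
    refine Finset.sum_eq_zero fun d _ => ?_
    rw [← Finset.sum_mul, hR', zero_mul]
  have t2 : ∑ a, ∑ b, ∑ c, ∑ d, kd a d * (W a b c d * A b c) = 0 := by
    have h1 : ∀ a b c, ∑ d, kd a d * (W a b c d * A b c) = -(W a b a c * A b c) := by
      intro a b c
      rw [dec2_kd a (fun d => W a b c d * A b c), hW.a2 a b a c]
      ring
    simp only [h1]
    rw [Finset.sum_comm]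
    refine Finset.sum_eq_zero fun b _ => ?_
    rw [Finset.sum_comm]
    refine Finset.sum_eq_zero fun c _ => ?_
    rw [Finset.sum_neg_distrib, ← Finset.sum_mul, hR', zero_mul, neg_zero]
  have t3 : ∑ a, ∑ b, ∑ c, ∑ d, kd b c * (W a b c d * A a d) = 0 := by
    have h1 : ∀ a b, ∑ c, ∑ d, kd b c * (W a b c d * A a d) =
        ∑ d, -(W b a b d * A a d) := by
      intro a b
      have h2 : ∑ c, ∑ d, kd b c * (W a b c d * A a d) = ∑ d, W a b b d * A a d := by
        rw [← dec2_kd b (fun c => ∑ d, W a b c d * A a d)]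
        simp only [Finset.mul_sum]
      rw [h2]
      refine Finset.sum_congr rfl fun d _ => ?_
      rw [hW.a1 b a b d]
      ring
    simp only [h1]
    refine Finset.sum_eq_zero fun a _ => ?_
    rw [Finset.sum_comm]
    refine Finset.sum_eq_zero fun d _ => ?_
    rw [Finset.sum_neg_distrib, ← Finset.sum_mul, hR', zero_mul, neg_zero]
  have t4 : ∑ a, ∑ b, ∑ c, ∑ d, kd b d * (W a b c d * A a c) = 0 := by
    have h1 : ∀ a b c, ∑ d, kd b d * (W a b c d * A a c) = W b a b c * A a c := by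
      intro a b c
      rw [dec2_kd b (fun d => W a b c d * A a c), hW.a1 b a c b, hW.a2 b a b c]
      ring
    simp only [h1]
    refine Finset.sum_eq_zero fun a _ => ?_
    rw [Finset.sum_comm]
    refine Finset.sum_eq_zero fun c _ => ?_
    rw [← Finset.sum_mul, hR', zero_mul]
  have h5 : ∑ a, ∑ b, ∑ c, ∑ d, W a b c d * kn A a b c d =
      ∑ a, ∑ b, ∑ c, ∑ d, kd a c * (W a b c d * A b d) -
      ∑ a, ∑ b, ∑ c, ∑ d, kd a d * (W a b c d * A b c) -
      ∑ a, ∑ b, ∑ c, ∑ d, kd b c * (W a b c d * A a d) +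
      ∑ a, ∑ b, ∑ c, ∑ d, kd b d * (W a b c d * A a c) := by
    simp only [← Finset.sum_sub_distrib, ← Finset.sum_add_distrib]
    refine Finset.sum_congr rfl fun a _ => Finset.sum_congr rfl fun b _ =>
      Finset.sum_congr rfl fun c _ => Finset.sum_congr rfl fun d _ => ?_
    unfold kn
    ring
  rw [h5, t1, t2, t3, t4]
  norm_num

theorem dec2_main : St_dec2 := by
  intro ι _ _ hn E hE hE0
  have hn4 : (4 : ℝ) ≤ (Fintype.card ι : ℝ) := by exact_mod_cast hn
  set n : ℝ := (Fintype.card ι : ℝ) with hndef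
  have hn2 : 0 < n - 2 := by linarith
  have hne : n - 2 ≠ 0 := ne_of_gt hn2
  let A : T2 ι := fun b d => (n - 2)⁻¹ * Ric E b d
  let W : T4 ι := fun a b c d => E a b c d - kn A a b c d
  have hsym : IsSym A := by
    intro a b
    show (n - 2)⁻¹ * Ric E b a = (n - 2)⁻¹ * Ric E a b
    congr 1
    unfold Ric
    exact Finset.sum_congr rfl fun x _ => hE.ps x a x b
  have htr : tr2 A = 0 := by
    show ∑ a, (n - 2)⁻¹ * Ric E a a = 0
    rw [← Finset.mul_sum]
    have : ∑ a, Ric E a a = 0 := hE0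
    rw [this, mul_zero]
  have hk := dec_kn_curv A hsym
  have hW : IsCurv W := by
    refine ⟨?_, ?_, ?_, ?_⟩
    · intro a b c d
      show E b a c d - kn A b a c d = -(E a b c d - kn A a b c d)
      rw [hE.a1, hk.a1]; ring
    · intro a b c d
      show E a b d c - kn A a b d c = -(E a b c d - kn A a b c d)
      rw [hE.a2, hk.a2]; ring
    · intro a b c d
      show E c d a b - kn A c d a b = (E a b c d - kn A a b c d)
      rw [hE.ps, hk.ps]
    · intro a b c d
      show (E a b c d - kn A a b c d) + (E a c d b - kn A a c d b) + (E a d b c - kn A a d b c) = 0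
      have h1 := hE.bi a b c d
      have h2 := hk.bi a b c d
      linarith
  have hRic : ∀ a b, Ric W a b = 0 := by
    intro a b
    have h1 : Ric W a b = Ric E a b - Ric (kn A) a b := by
      show ∑ x, (E x a x b - kn A x a x b) = (∑ x, E x a x b) - ∑ x, kn A x a x b
      rw [Finset.sum_sub_distrib]
    rw [h1, dec_ric_kn, htr, mul_zero, add_zero]
    show Ric E a b - (n - 2) * ((n - 2)⁻¹ * Ric E a b) = 0
    rw [← mul_assoc, mul_inv_cancel₀ hne]
    ring
  have hA : hs2 A = (n - 2)⁻¹ ^ 2 * hs2 (Ric E) := by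
    show ∑ a, ∑ b, ((n - 2)⁻¹ * Ric E a b) ^ 2 = (n - 2)⁻¹ ^ 2 * ∑ a, ∑ b, Ric E a b ^ 2
    simp only [Finset.mul_sum, mul_pow]
  have hA' : (n - 2) ^ 2 * hs2 A = hs2 (Ric E) := by
    rw [hA, ← mul_assoc, ← mul_pow, mul_inv_cancel₀ hne]
    ring
  have hA0 := dec_hs2_nonneg A
  have hE2 : hs4 E = hs4 W + 2 * (∑ a, ∑ b, ∑ c, ∑ d, W a b c d * kn A a b c d) +
      hs4 (kn A) := by
    unfold hs4
    simp only [Finset.mul_sum, ← Finset.sum_add_distrib]
    refine Finset.sum_congr rfl fun a _ => Finset.sum_congr rfl fun b _ =>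
      Finset.sum_congr rfl fun c _ => Finset.sum_congr rfl fun d _ => ?_
    show E a b c d ^ 2 = (E a b c d - kn A a b c d) ^ 2 +
      2 * ((E a b c d - kn A a b c d) * kn A a b c d) + kn A a b c d ^ 2
    ring
  rw [dec2_orth W hW hRic A] at hE2
  have hkn0 := dec_hs4_nonneg (kn A)
  refine ⟨W, A, hW, hRic, hsym, htr, ?_, ?_⟩
  · funext a b c d
    show E a b c d = (E a b c d - kn A a b c d) + kn A a b c d
    ring
  · have h3 : n ^ 2 / 4 * hs2 A ≤ hs2 (Ric E) := by
      rw [← hA']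
      nlinarith [mul_nonneg hA0 (mul_nonneg (by linarith : (0 : ℝ) ≤ n - 4)
        (by linarith : (0 : ℝ) ≤ 3 * n - 4))]
    linarith

end Pool.Agent.H933R2.HopfN
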