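import Pool.Agent.H933R2.HopfN.St2

set_option autoImplicit false
set_option linter.all false

/-!
FACT: `3 j! j^j ≤ (2j)! (7/10)^(j-2)` for `j ≥ 2`.
-/

namespace Pool.Agent.H933R2.HopfN

private lemma fact_step (j : ℕ) (hj : 2 ≤ j) :
    ((j : ℝ) + 1) * (1 + 1 / (j : ℝ)) ^ j ≤ 7 / 5 * (2 * j + 1) := by
  by_cases h : 17 ≤ j
  · have hj0 : (17 : ℝ) ≤ j := by exact_mod_cast h
    have hj1 : (0 : ℝ) < j := by linarith
    have h1 : (1 + 1 / (j : ℝ)) ^ j ≤ Real.exp 1 := by
      calc (1 + 1 / (j : ℝ)) ^ j ≤ (Real.exp (1 / (j : ℝ))) ^ j := by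
            apply pow_le_pow_left₀ (by positivity)
            have := Real.add_one_le_exp (1 / (j : ℝ))
            linarith
        _ = Real.exp 1 := by
            rw [← Real.exp_nat_mul]
            congr 1
            field_simp
    have h2 := Real.exp_one_lt_d9
    have h3 : ((j : ℝ) + 1) * (1 + 1 / (j : ℝ)) ^ j ≤ ((j : ℝ) + 1) * 2.7182818286 :=
      mul_le_mul_of_nonneg_left (h1.trans h2.le) (by positivity)
    refine h3.trans ?_
    norm_num
    linarith
  · push Not at h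
    interval_cases j <;> norm_num

theorem fact_main : St_fact := by
  intro j hj
  induction j, hj using Nat.le_induction with
  | base => norm_num [Nat.factorial]
  | succ j hj ih =>
    have hj0 : (0 : ℝ) < j := by
      have : 0 < j := by omega
      exact_mod_cast this
    have hs := fact_step j hj
    have e1 : (((j + 1).factorial : ℕ) : ℝ) = ((j : ℝ) + 1) * (j.factorial : ℝ) := by
      rw [Nat.factorial_succ]; push_cast; ring
    have e2 : (((2 * (j + 1)).factorial : ℕ) : ℝ) =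
        (2 * (j : ℝ) + 2) * ((2 * j + 1) * ((2 * j).factorial : ℝ)) := by
      rw [show 2 * (j + 1) = (2 * j + 1) + 1 by ring, Nat.factorial_succ, Nat.factorial_succ]
      push_cast
      ring
    have e3 : (((j + 1 : ℕ)) : ℝ) ^ (j + 1) =
        ((j : ℝ) + 1) * ((j : ℝ) ^ j * (1 + 1 / (j : ℝ)) ^ j) := by
      rw [← mul_pow, mul_add, mul_one, mul_one_div_cancel hj0.ne', pow_succ]
      push_cast
      ring
    have e4 : ((7 : ℝ) / 10) ^ (j + 1 - 2) = (7 / 10) ^ (j - 2) * (7 / 10) := by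
      rw [show j + 1 - 2 = (j - 2) + 1 by omega, pow_succ]
    rw [e1, e2, e3, e4]
    have hp : (0 : ℝ) ≤ ((2 * j).factorial : ℝ) * (7 / 10) ^ (j - 2) := by positivity
    have hq : (0 : ℝ) ≤ ((j : ℝ) + 1) * (((j : ℝ) + 1) * (1 + 1 / (j : ℝ)) ^ j) := by positivity
    calc 3 * (((j : ℝ) + 1) * (j.factorial : ℝ) * (((j : ℝ) + 1) *
          ((j : ℝ) ^ j * (1 + 1 / (j : ℝ)) ^ j)))
        = (3 * ((j.factorial : ℝ) * (j : ℝ) ^ j)) *
          (((j : ℝ) + 1) * (((j : ℝ) + 1) * (1 + 1 / (j : ℝ)) ^ j)) := by ring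
      _ ≤ (((2 * j).factorial : ℝ) * (7 / 10) ^ (j - 2)) *
          (((j : ℝ) + 1) * (((j : ℝ) + 1) * (1 + 1 / (j : ℝ)) ^ j)) :=
          mul_le_mul_of_nonneg_right ih hq
      _ ≤ (((2 * j).factorial : ℝ) * (7 / 10) ^ (j - 2)) *
          (((j : ℝ) + 1) * (7 / 5 * (2 * j + 1))) :=
          mul_le_mul_of_nonneg_left (mul_le_mul_of_nonneg_left hs (by positivity)) hp
      _ = _ := by ring

end Pool.Agent.H933R2.HopfN
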