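import Pool.Agent.H933R2.HopfN.St

set_option autoImplicit false

/-! Task CONTR (helper30): contraction of one position of the generalised Kronecker delta. -/

namespace Pool.Agent.H933R2.HopfN

open Finset

theorem contr_sg_none {Q : Type} [Fintype Q] [DecidableEq Q] (s : Equiv.Perm Q) :
    sg (Equiv.Perm.decomposeOption.symm (none, s)) = sg s := by
  unfold sg
  rw [Equiv.Perm.decomposeOption_symm_sign]

theorem contr_sg_some {Q : Type} [Fintype Q] [DecidableEq Q] (r : Q) (s : Equiv.Perm Q) :
    sg (Equiv.Perm.decomposeOption.symm (some r, s)) = - sg s := by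
  unfold sg
  rw [Equiv.Perm.decomposeOption_symm_apply, map_mul, Equiv.optionCongr_sign,
    Equiv.Perm.sign_swap (by simp)]
  simp

theorem contr_main : St_contr := by
  intro ι Q _ _ _ _ h
  classical
  set T : ℝ := ∑ f : Q → ι, ∑ τ : Equiv.Perm Q, sg τ * h f (fun q => f (τ q)) with hT
  -- reindex the functions
  have e1 : ∀ F : (Option Q → ι) → ℝ, ∑ f : Option Q → ι, F f =
      ∑ g : Q → ι, ∑ a : ι, F (fun o => o.elim a g) := by
    intro F
    rw [← Finset.sum_product']
    refine (Fintype.sum_equiv
      (⟨fun x o => o.elim x.2 x.1, fun f => (fun q => f (some q), f none), fun x => rfl,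
        fun f => by funext o; cases o <;> rfl⟩ : (Q → ι) × ι ≃ (Option Q → ι)) _ _ ?_).symm
    intro x
    rfl
  rw [e1]
  have e2 : ∀ g : Q → ι, (∑ a : ι, ∑ τ : Equiv.Perm (Option Q), sg τ *
      (kd ((none : Option Q).elim a g) ((τ none).elim a g) *
        h (fun q => (some q : Option Q).elim a g) (fun q => (τ (some q)).elim a g))) =
      ((Fintype.card ι : ℝ) - (Fintype.card Q : ℝ)) *
        ∑ τ : Equiv.Perm Q, sg τ * h g (fun q => g (τ q)) := by
    intro g
    rw [sum_comm]
    rw [← Equiv.sum_comp (Equiv.Perm.decomposeOption (α := Q)).symm, Fintype.sum_prod_type_right]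
    rw [mul_sum]
    refine sum_congr rfl fun s _ => ?_
    rw [Fintype.sum_option]
    have c1 : (∑ a : ι, sg (Equiv.Perm.decomposeOption.symm (none, s)) *
        (kd ((none : Option Q).elim a g) (((Equiv.Perm.decomposeOption.symm (none, s)) none).elim a g) *
        h (fun q => (some q : Option Q).elim a g)
          (fun q => ((Equiv.Perm.decomposeOption.symm (none, s)) (some q)).elim a g))) =
        (Fintype.card ι : ℝ) * (sg s * h g (fun q => g (s q))) := by
      rw [contr_sg_none]
      have : ∀ a : ι, sg s *
        (kd ((none : Option Q).elim a g) (((Equiv.Perm.decomposeOption.symm (none, s)) none).elim a g) *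
        h (fun q => (some q : Option Q).elim a g)
          (fun q => ((Equiv.Perm.decomposeOption.symm (none, s)) (some q)).elim a g)) =
          sg s * h g (fun q => g (s q)) := by
        intro a
        simp [Equiv.Perm.decomposeOption_symm_apply, kd]
      rw [sum_congr rfl fun a _ => this a, sum_const, card_univ, nsmul_eq_mul]
    have c2 : ∀ r : Q, (∑ a : ι, sg (Equiv.Perm.decomposeOption.symm (some r, s)) *
        (kd ((none : Option Q).elim a g) (((Equiv.Perm.decomposeOption.symm (some r, s)) none).elim a g) *
        h (fun q => (some q : Option Q).elim a g)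
          (fun q => ((Equiv.Perm.decomposeOption.symm (some r, s)) (some q)).elim a g))) =
        - (sg s * h g (fun q => g (s q))) := by
      intro r
      rw [contr_sg_some]
      have hn : (Equiv.Perm.decomposeOption.symm (some r, s)) none = some r := by
        simp [Equiv.Perm.decomposeOption_symm_apply]
      rw [hn]
      rw [Finset.sum_eq_single (g r)]
      · have h2 : (fun q => ((Equiv.Perm.decomposeOption.symm (some r, s)) (some q)).elim (g r) g) =
            fun q => g (s q) := by
          funext q
          rw [Equiv.Perm.decomposeOption_symm_apply]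
          simp only [Equiv.Perm.coe_mul, Function.comp_apply, Equiv.optionCongr_apply, Option.map_some]
          by_cases hq : s q = r
          · rw [hq, Equiv.swap_apply_right]; rfl
          · rw [Equiv.swap_apply_of_ne_of_ne (by simp) (by simpa using hq)]
            rfl
        rw [h2]
        simp [kd]
      · intro a _ ha
        have : kd ((none : Option Q).elim a g) ((some r : Option Q).elim a g) = 0 := by
          simp [kd, ha]
        rw [this, zero_mul, mul_zero]
      · intro hnot
        exact absurd (mem_univ _) hnot
    rw [c1, sum_congr rfl fun r _ => c2 r, sum_const, card_univ, nsmul_eq_mul]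
    ring
  rw [sum_congr rfl fun g _ => e2 g, ← mul_sum]

end Pool.Agent.H933R2.HopfN
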