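import Pool.Agent.H933R2.HopfN.St2
import Pool.Agent.H933R2.HopfN.FIN
import Pool.Agent.H933R2.HopfN.EXPAND
import Pool.Agent.H933R2.HopfN.CONTR

set_option autoImplicit false
set_option linter.all false

/-!
Task FIN2: the L2 pinching estimate with good constants.
-/

namespace Pool.Agent.H933R2.HopfN

lemma fin2_geom (r : ℝ) (h0 : 0 ≤ r) (h1 : r ≤ 555 / 1000) (n : ℕ) :
    ∑ i ∈ Finset.range n, r ^ i ≤ 1000 / 445 := by
  induction n with
  | zero => simp; norm_num
  | succ n ih =>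
    rw [Finset.sum_range_succ']
    have : ∑ i ∈ Finset.range n, r ^ (i + 1) = r * ∑ i ∈ Finset.range n, r ^ i := by
      rw [Finset.mul_sum]
      refine Finset.sum_congr rfl fun i _ => ?_
      rw [pow_succ]
      ring
    rw [this, pow_zero]
    have h2 : 0 ≤ ∑ i ∈ Finset.range n, r ^ i := Finset.sum_nonneg fun i _ => pow_nonneg h0 i
    nlinarith

theorem fin2_main (h3 : St_term2) : St_fin2 := by
  intro m hm ι _ _ hcard E hE ht k hk hX
  set X : ℝ := hs4 E + hs2 (Ric E) with hXd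
  have hX0 : 0 ≤ X := by
    rw [hXd]
    unfold hs4 hs2
    positivity
  have hexp : St_expand := expand_main contr_main
  rw [hexp m ι hcard k E]
  -- the terms
  set T : ℕ → ℝ := fun j => (m.choose j : ℝ) * (2 * k) ^ (m - j) *
        ((2 * m - 2 * j).factorial : ℝ) * GG j E with hT
  have hm' : (0 : ℝ) < m := by
    have : 0 < m := by omega
    exact_mod_cast this
  have hk' : 0 < |k| := abs_pos.mpr hk
  set P : ℝ := |2 * k| ^ m * ((2 * m).factorial : ℝ) with hP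
  have hP0 : 0 ≤ P := by positivity
  have h2k : |2 * k| = 2 * |k| := by rw [abs_mul]; norm_num
  set ρ : ℝ := 555 * Real.sqrt X / (2 * m * |k|) with hρ
  have hρ0 : 0 ≤ ρ := by positivity
  have hden : (2 * (m : ℝ) * |k|) ^ 2 = (2 * m * k) ^ 2 := by
    rw [mul_pow, mul_pow (2 * (m : ℝ)) k, sq_abs]
  have hden0 : 0 < (2 * (m : ℝ) * k) ^ 2 := by
    rw [← hden]; positivity
  have hρ2 : ρ ^ 2 = 555 ^ 2 * (X / (2 * m * k) ^ 2) := by
    rw [hρ, div_pow, hden, mul_pow, Real.sq_sqrt hX0]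
    ring
  have hu : X / (2 * m * k) ^ 2 ≤ 1 / 10 ^ 6 := by
    rw [div_le_div_iff₀ hden0 (by norm_num)]
    linarith
  have hu0 : 0 ≤ X / (2 * m * k) ^ 2 := by positivity
  have hρh : ρ ≤ 555 / 1000 := by
    have h5 : ρ ^ 2 ≤ (555 / 1000 : ℝ) ^ 2 := by
      rw [hρ2]
      have := mul_le_mul_of_nonneg_left hu (show (0 : ℝ) ≤ 555 ^ 2 by norm_num)
      refine this.trans ?_
      norm_num
    exact abs_le_of_sq_le_sq' h5 (by norm_num) |>.2
  have hterm : ∀ j : ℕ, 2 ≤ j → j ≤ m → |T j| ≤ 9 / 10 * ρ ^ j * P := by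
    intro j hj1 hj2
    have h5 := h3 m hm ι hcard E hE ht X hXd |k| hk' j hj1 hj2
    have h6 : |T j| = (m.choose j : ℝ) * (2 * |k|) ^ (m - j) *
        ((2 * m - 2 * j).factorial : ℝ) * |GG j E| := by
      simp only [hT]
      rw [abs_mul, abs_mul, abs_mul, abs_pow, h2k, Nat.abs_cast, Nat.abs_cast]
    rw [h6, hP, h2k]
    exact h5
  have hT0 : T 0 = (2 * k) ^ m * ((2 * m).factorial : ℝ) := by
    simp only [hT]
    rw [fin_GG0]
    simp
  have hT1 : T 1 = 0 := by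
    simp only [hT]
    rw [fin_GG1 E hE ht, mul_zero]
  have hsum : ∑ j ∈ Finset.range (m + 1), T j - (2 * k) ^ m * ((2 * m).factorial : ℝ) =
      ∑ i ∈ Finset.range (m - 1), T (i + 2) := by
    obtain ⟨n, rfl⟩ : ∃ n, m = n + 1 := ⟨m - 1, by omega⟩
    rw [Finset.sum_range_succ', Finset.sum_range_succ']
    rw [show (0 : ℕ) + 1 = 1 from rfl, hT1, hT0]
    simp
  show |∑ j ∈ Finset.range (m + 1), T j - (2 * k) ^ m * ((2 * m).factorial : ℝ)| ≤
      63 * 10 ^ 4 * X / (2 * m * k) ^ 2 * P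
  rw [hsum]
  calc |∑ i ∈ Finset.range (m - 1), T (i + 2)| ≤ ∑ i ∈ Finset.range (m - 1), |T (i + 2)| :=
        Finset.abs_sum_le_sum_abs _ _
    _ ≤ ∑ i ∈ Finset.range (m - 1), 9 / 10 * ρ ^ 2 * P * ρ ^ i := by
        refine Finset.sum_le_sum fun i hi => ?_
        have hi' := Finset.mem_range.mp hi
        refine (hterm (i + 2) (by omega) (by omega)).trans (le_of_eq ?_)
        rw [pow_add]
        ring
    _ = 9 / 10 * ρ ^ 2 * P * ∑ i ∈ Finset.range (m - 1), ρ ^ i := by rw [Finset.mul_sum]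
    _ ≤ 9 / 10 * ρ ^ 2 * P * (1000 / 445) := by
        refine mul_le_mul_of_nonneg_left (fin2_geom ρ hρ0 hρh _) (by positivity)
    _ = (9 / 10 * 555 ^ 2 * (1000 / 445)) * (X / (2 * m * k) ^ 2) * P := by
        rw [hρ2]
        ring
    _ ≤ (63 * 10 ^ 4) * (X / (2 * m * k) ^ 2) * P := by
        refine mul_le_mul_of_nonneg_right ?_ hP0
        refine mul_le_mul_of_nonneg_right ?_ hu0
        norm_num
    _ = 63 * 10 ^ 4 * X / (2 * m * k) ^ 2 * P := by ring

end Pool.Agent.H933R2.HopfN
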