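import Pool.Agent.H933R2.HopfN.St2
import Pool.Agent.H933R2.HopfN.FIN
import Pool.Agent.H933R2.HopfN.All

set_option autoImplicit false
set_option linter.all false

namespace Pool.Agent.H933R2.HopfN

lemma fins_geom (r : ℝ) (h0 : 0 ≤ r) (h1 : r ≤ 513 / 1000) (n : ℕ) :
    ∑ i ∈ Finset.range n, r ^ i ≤ 1000 / 487 := by
  induction n with
  | zero => simp; norm_num
  | succ n ih =>
    rw [Finset.sum_range_succ']
    have : ∑ i ∈ Finset.range n, r ^ (i + 1) = r * ∑ i ∈ Finset.range n, r ^ i := by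
      rw [Finset.mul_sum]
      refine Finset.sum_congr rfl fun i _ => ?_
      rw [pow_succ]
      ring
    rw [this, pow_zero]
    have h2 : 0 ≤ ∑ i ∈ Finset.range n, r ^ i := Finset.sum_nonneg fun i _ => pow_nonneg h0 i
    nlinarith

theorem fins_main (h1 : St_terms) (h2 : St_sup) : St_fins := by
  intro m hm ι _ _ hcard E hE ht ε hε hq k hk hX
  obtain ⟨hb4, hb2⟩ := h2 ι E ε hε hE hq
  rw [hcard] at hb2
  push_cast at hb2
  rw [all_expand m ι hcard k E]
  -- the terms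
  set T : ℕ → ℝ := fun j => (m.choose j : ℝ) * (2 * k) ^ (m - j) *
        ((2 * m - 2 * j).factorial : ℝ) * GG j E with hT
  have hk' : 0 < |k| := abs_pos.mpr hk
  set P : ℝ := |2 * k| ^ m * ((2 * m).factorial : ℝ) with hP
  have hP0 : 0 ≤ P := by positivity
  have h2k : |2 * k| = 2 * |k| := by rw [abs_mul]; norm_num
  set ρ : ℝ := 18 * Real.sqrt (2 * m) * ε / |k| with hρ
  have hρ0 : 0 ≤ ρ := by positivity
  have hρh : ρ ≤ 513 / 1000 := by
    rw [hρ, div_le_iff₀ hk']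
    exact hX
  have hterm : ∀ j : ℕ, 2 ≤ j → j ≤ m → |T j| ≤ 9 / 10 * ρ ^ j * P := by
    intro j hj1 hj2
    have h5 := h1 m hm ι hcard E hE ht ε hε hb4 hb2 |k| hk' j hj1 hj2
    have h6 : |T j| = (m.choose j : ℝ) * (2 * |k|) ^ (m - j) *
        ((2 * m - 2 * j).factorial : ℝ) * |GG j E| := by
      simp only [hT]
      rw [abs_mul, abs_mul, abs_mul, abs_pow, h2k, Nat.abs_cast, Nat.abs_cast]
    rw [h6, hP, h2k]
    exact h5
  have hT0 : T 0 = (2 * k) ^ m * ((2 * m).factorial : ℝ) := by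
    simp only [hT]
    rw [fin_GG0]
    simp
  have hT1 : T 1 = 0 := by
    simp only [hT]
    rw [fin_GG1 E hE ht, mul_zero]
  have hsum : ∑ j ∈ Finset.range (m + 1), T j - (2 * k) ^ m * ((2 * m).factorial : ℝ) =
      ∑ i ∈ Finset.range (m - 1), T (i + 2) := by
    obtain ⟨n, rfl⟩ : ∃ n, m = n + 1 := ⟨m - 1, by omega⟩
    rw [Finset.sum_range_succ', Finset.sum_range_succ']
    rw [show (0 : ℕ) + 1 = 1 from rfl, hT1, hT0]
    simp
  show |∑ j ∈ Finset.range (m + 1), T j - (2 * k) ^ m * ((2 * m).factorial : ℝ)| ≤ 1 / 2 * P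
  rw [hsum]
  calc |∑ i ∈ Finset.range (m - 1), T (i + 2)| ≤ ∑ i ∈ Finset.range (m - 1), |T (i + 2)| :=
        Finset.abs_sum_le_sum_abs _ _
    _ ≤ ∑ i ∈ Finset.range (m - 1), 9 / 10 * ρ ^ 2 * P * ρ ^ i := by
        refine Finset.sum_le_sum fun i hi => ?_
        have hi' := Finset.mem_range.mp hi
        refine (hterm (i + 2) (by omega) (by omega)).trans (le_of_eq ?_)
        rw [pow_add]
        ring
    _ = 9 / 10 * ρ ^ 2 * P * ∑ i ∈ Finset.range (m - 1), ρ ^ i := by rw [Finset.mul_sum]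
    _ ≤ 9 / 10 * ρ ^ 2 * P * (1000 / 487) := by
        refine mul_le_mul_of_nonneg_left (fins_geom ρ hρ0 hρh _) (by positivity)
    _ ≤ 9 / 10 * (513 / 1000) ^ 2 * P * (1000 / 487) := by
        have : ρ ^ 2 ≤ (513 / 1000) ^ 2 := by gcongr
        gcongr
    _ ≤ 1 / 2 * P := by
        have : (9:ℝ) / 10 * (513 / 1000) ^ 2 * (1000 / 487) ≤ 1 / 2 := by norm_num
        nlinarith

end Pool.Agent.H933R2.HopfN
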