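import Pool.Agent.H933R2.HopfN.St2
import Pool.Agent.H933R2.HopfN.COEF

set_option autoImplicit false
set_option linter.all false

/-!
Project HopfN, task GAUSS (helper75): sharp `L²` bound of the coefficients of a homogeneous
polynomial on complex space, by averaging over tori and exponential radii.
-/

namespace Pool.Agent.H933R2.HopfN

open MeasureTheory Set in
/-- the one-dimensional integral -/
lemma gauss_int1 (k : ℕ) :
    ∫ t in Ioi (0 : ℝ), Real.exp (-t) * |t| ^ k = (k.factorial : ℝ) := by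
  rw [← Real.Gamma_nat_eq_factorial, Real.Gamma_eq_integral (by positivity)]
  refine setIntegral_congr_fun measurableSet_Ioi fun t ht => ?_
  beta_reduce
  rw [add_sub_cancel_right, Real.rpow_natCast, abs_of_pos (Set.mem_Ioi.mp ht)]

open MeasureTheory Set in
lemma gauss_ible1 (k : ℕ) :
    IntegrableOn (fun t : ℝ => Real.exp (-t) * |t| ^ k) (Ioi 0) := by
  have h := Real.GammaIntegral_convergent (s := (k : ℝ) + 1) (by positivity)
  refine h.congr_fun (fun t ht => ?_) measurableSet_Ioi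
  simp only
  rw [add_sub_cancel_right, Real.rpow_natCast, abs_of_pos (Set.mem_Ioi.mp ht)]

/-- the measure on the positive orthant -/
noncomputable def gauss_mu (K : Type) [Fintype K] : MeasureTheory.Measure (K → ℝ) :=
  MeasureTheory.Measure.pi fun _ : K => MeasureTheory.volume.restrict (Set.Ioi (0 : ℝ))

open MeasureTheory Set in
lemma gauss_int (K : Type) [Fintype K] (k : K → ℕ) :
    ∫ t, ∏ κ, (Real.exp (-t κ) * |t κ| ^ k κ) ∂(gauss_mu K) = ∏ κ, ((k κ).factorial : ℝ) := by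
  unfold gauss_mu
  rw [integral_fintype_prod_eq_prod (f := fun (κ : K) (s : ℝ) => Real.exp (-s) * |s| ^ k κ)]
  exact Finset.prod_congr rfl fun κ _ => gauss_int1 (k κ)

open MeasureTheory Set in
lemma gauss_ible (K : Type) [Fintype K] (k : K → ℕ) :
    Integrable (fun t : K → ℝ => ∏ κ, (Real.exp (-t κ) * |t κ| ^ k κ)) (gauss_mu K) := by
  unfold gauss_mu
  exact Integrable.fintype_prod_dep (f := fun (κ : K) (s : ℝ) => Real.exp (-s) * |s| ^ k κ)
    (fun κ => gauss_ible1 (k κ))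

lemma gauss_prod {K : Type} [Fintype K] [DecidableEq K] {j : ℕ} (α : Fin j → K) (x : K → ℝ) :
    ∏ i, x (α i) = ∏ κ, x κ ^ cnt α κ := by
  unfold cnt
  rw [← Finset.prod_fiberwise' Finset.univ α x]
  apply Finset.prod_congr rfl
  intro κ _
  rw [Finset.prod_const]

/-- Parseval on the torus -/
lemma gauss_parseval {K : Type} [Fintype K] [DecidableEq K] {j : ℕ} (c : (Fin j → K) → ℝ)
    (r : K → ℝ) :
    ∑ u : K → Fin (j + 1), ‖∑ α : Fin j → K, (c α : ℂ) *
        ∏ i, ((r (α i) : ℂ) * (coef_w (j + 1)) ^ (u (α i) : ℕ))‖ ^ 2 =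
      ((j + 1 : ℕ) : ℝ) ^ Fintype.card K * ∑ α : Fin j → K, ∑ β : Fin j → K,
        if (∀ κ, cnt α κ = cnt β κ) then c α * c β * ∏ κ, r κ ^ (cnt α κ + cnt β κ) else 0 := by
  set N : ℕ := j + 1 with hN
  set w : ℂ := coef_w N with hw'
  have hwn : ‖w‖ = 1 := coef_norm_w N
  have hwne : w ≠ 0 := by
    intro h
    rw [h, norm_zero] at hwn
    exact zero_ne_one hwn
  have hconj : (starRingEnd ℂ) w = w⁻¹ := by
    rw [Complex.inv_def, Complex.normSq_eq_norm_sq, hwn]
    simp
  have hcntle : ∀ (α : Fin j → K) κ, cnt α κ < N := by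
    intro α κ
    have := coef_sum_cnt α
    have h2 : cnt α κ ≤ ∑ κ, cnt α κ := Finset.single_le_sum (f := fun κ => cnt α κ)
      (fun _ _ => Nat.zero_le _) (Finset.mem_univ κ)
    omega
  set x : (K → Fin N) → K → ℂ := fun u κ => (r κ : ℂ) * w ^ (u κ : ℕ) with hx
  have h1 : ∀ u : K → Fin N, ((‖∑ α : Fin j → K, (c α : ℂ) * ∏ i, x u (α i)‖ ^ 2 : ℝ) : ℂ) =
      ∑ α : Fin j → K, ∑ β : Fin j → K, ((c α : ℂ) * (c β : ℂ)) *
        ∏ κ, ((r κ : ℂ) ^ (cnt α κ + cnt β κ) *
          ((w ^ ((u κ : ℕ) * cnt β κ))⁻¹ * (w ^ (u κ : ℕ)) ^ cnt α κ)) := by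
    intro u
    rw [Complex.ofReal_pow, ← Complex.mul_conj', map_sum, Finset.sum_mul_sum]
    apply Finset.sum_congr rfl
    intro α _
    apply Finset.sum_congr rfl
    intro β _
    rw [map_mul, Complex.conj_ofReal, coef_prod_word α (x u), coef_prod_word β (x u), map_prod]
    rw [mul_mul_mul_comm, ← Finset.prod_mul_distrib]
    congr 1
    apply Finset.prod_congr rfl
    intro κ _
    simp only [hx]
    rw [map_pow, map_mul, map_pow, Complex.conj_ofReal, hconj]
    rw [mul_pow, mul_pow, pow_add, inv_pow, inv_pow, ← pow_mul w (u κ : ℕ) (cnt β κ)]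
    ring
  apply Complex.ofReal_injective
  rw [Complex.ofReal_sum]
  rw [Finset.sum_congr rfl fun u _ => h1 u, Finset.sum_comm]
  rw [Complex.ofReal_mul, Complex.ofReal_sum, Finset.mul_sum]
  apply Finset.sum_congr rfl
  intro α _
  rw [Finset.sum_comm, Complex.ofReal_sum, Finset.mul_sum]
  apply Finset.sum_congr rfl
  intro β _
  rw [← Finset.mul_sum]
  have h3 := Finset.prod_univ_sum (fun _ : K => (Finset.univ : Finset (Fin N)))
    (fun κ t => ((r κ : ℂ) ^ (cnt α κ + cnt β κ) *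
          ((w ^ ((t : ℕ) * cnt β κ))⁻¹ * (w ^ (t : ℕ)) ^ cnt α κ)))
  rw [Fintype.piFinset_univ] at h3
  rw [← h3]
  have h4 : ∀ κ, ∑ t : Fin N, ((r κ : ℂ) ^ (cnt α κ + cnt β κ) *
      ((w ^ ((t : ℕ) * cnt β κ))⁻¹ * (w ^ (t : ℕ)) ^ cnt α κ)) =
      (r κ : ℂ) ^ (cnt α κ + cnt β κ) * if cnt α κ = cnt β κ then (N : ℂ) else 0 := by
    intro κ
    rw [← Finset.mul_sum, coef_orth (hcntle α κ) (hcntle β κ)]
  rw [Finset.prod_congr rfl fun κ _ => h4 κ]
  split_ifs with hα
  · have h5 : ∀ κ, ((r κ : ℂ) ^ (cnt α κ + cnt β κ) *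
        if cnt α κ = cnt β κ then (N : ℂ) else 0) =
        (r κ : ℂ) ^ (cnt α κ + cnt β κ) * (N : ℂ) := by
      intro κ
      rw [if_pos (hα κ)]
    rw [Finset.prod_congr rfl fun κ _ => h5 κ, Finset.prod_mul_distrib, Finset.prod_const,
      Finset.card_univ]
    push_cast
    ring
  · have : ∃ κ, cnt α κ ≠ cnt β κ := by
      by_contra hcon
      push Not at hcon
      exact hα hcon
    obtain ⟨κ, hκ⟩ := this
    rw [Finset.prod_eq_zero (Finset.mem_univ κ) (by rw [if_neg hκ, mul_zero])]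
    simp

theorem gauss_main (hw : St_words) : St_gauss := by
  intro K _ _ j c M hM hsym hP lam hlam
  classical
  -- the number of words with the same counts
  set Nu : (Fin j → K) → ℝ := fun α =>
    ((Finset.univ.filter (fun β : Fin j → K => ∀ κ, cnt β κ = cnt α κ)).card : ℝ) with hNu
  have hNuf : ∀ α, Nu α * ∏ κ, ((cnt α κ).factorial : ℝ) = (j.factorial : ℝ) := by
    intro α
    have h := hw K j (cnt α) (coef_sum_cnt α)
    simp only [hNu]
    exact_mod_cast h
  -- Parseval inequality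
  have hpars : ∀ t : K → ℝ, (∀ κ, 0 ≤ t κ) →
      ∑ α : Fin j → K, (c α ^ 2 * Nu α * ∏ κ, lam κ ^ cnt α κ) * ∏ κ, t κ ^ cnt α κ ≤
        ∑ α : Fin j → K, (M ^ j * ∏ κ, lam κ ^ cnt α κ) * ∏ κ, t κ ^ cnt α κ := by
    intro t ht
    set r : K → ℝ := fun κ => Real.sqrt (lam κ * t κ) with hr
    have hp := gauss_parseval c r
    have hN : (0 : ℝ) < ((j + 1 : ℕ) : ℝ) ^ Fintype.card K := by positivity
    have hub : ∑ u : K → Fin (j + 1), ‖∑ α : Fin j → K, (c α : ℂ) *
        ∏ i, ((r (α i) : ℂ) * (coef_w (j + 1)) ^ (u (α i) : ℕ))‖ ^ 2 ≤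
        ((j + 1 : ℕ) : ℝ) ^ Fintype.card K * (M * ∑ κ, lam κ * t κ) ^ j := by
      have h1 : ∀ u ∈ (Finset.univ : Finset (K → Fin (j + 1))), ‖∑ α : Fin j → K, (c α : ℂ) *
          ∏ i, ((r (α i) : ℂ) * (coef_w (j + 1)) ^ (u (α i) : ℕ))‖ ^ 2 ≤
          (M * ∑ κ, lam κ * t κ) ^ j := by
        intro u _
        have h2 := hP (fun κ => (r κ : ℂ) * (coef_w (j + 1)) ^ (u κ : ℕ))
        refine h2.trans (le_of_eq ?_)
        congr 2
        apply Finset.sum_congr rfl
        intro κ _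
        rw [norm_mul, norm_pow, coef_norm_w, one_pow, mul_one, Complex.norm_real,
          Real.norm_eq_abs, sq_abs, hr]
        exact Real.sq_sqrt (mul_nonneg (hlam κ) (ht κ))
      refine (Finset.sum_le_sum h1).trans (le_of_eq ?_)
      rw [Finset.sum_const, nsmul_eq_mul]
      simp
    rw [hp] at hub
    have hub2 := le_of_mul_le_mul_left hub hN
    have hL : ∑ α : Fin j → K, ∑ β : Fin j → K,
        (if (∀ κ, cnt α κ = cnt β κ) then c α * c β * ∏ κ, r κ ^ (cnt α κ + cnt β κ) else 0) =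
        ∑ α : Fin j → K, (c α ^ 2 * Nu α * ∏ κ, lam κ ^ cnt α κ) * ∏ κ, t κ ^ cnt α κ := by
      apply Finset.sum_congr rfl
      intro α _
      have h1 : ∀ β : Fin j → K,
          (if (∀ κ, cnt α κ = cnt β κ) then c α * c β * ∏ κ, r κ ^ (cnt α κ + cnt β κ) else 0) =
          if (∀ κ, cnt β κ = cnt α κ) then
            c α ^ 2 * ((∏ κ, lam κ ^ cnt α κ) * ∏ κ, t κ ^ cnt α κ) else 0 := by
        intro β
        by_cases h : ∀ κ, cnt α κ = cnt β κ
        · rw [if_pos h, if_pos (fun κ => (h κ).symm)]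
          obtain ⟨π, hπ⟩ := coef_exists_perm α β h
          have h2 : c β = c α := by rw [← hπ, hsym]
          rw [h2, ← Finset.prod_mul_distrib, ← sq]
          congr 1
          apply Finset.prod_congr rfl
          intro κ _
          rw [← h κ, ← two_mul, pow_mul, hr]
          simp only
          rw [Real.sq_sqrt (mul_nonneg (hlam κ) (ht κ)), mul_pow]
        · rw [if_neg h, if_neg (fun h' => h (fun κ => (h' κ).symm))]
      rw [Finset.sum_congr rfl fun β _ => h1 β, ← Finset.sum_filter, Finset.sum_const,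
        nsmul_eq_mul]
      simp only [hNu]
      ring
    have hR : (M * ∑ κ, lam κ * t κ) ^ j =
        ∑ α : Fin j → K, (M ^ j * ∏ κ, lam κ ^ cnt α κ) * ∏ κ, t κ ^ cnt α κ := by
      rw [mul_pow]
      have h1 : (∑ κ, lam κ * t κ) ^ j = ∑ α : Fin j → K, ∏ i, (lam (α i) * t (α i)) := by
        have h2 := Finset.prod_univ_sum (fun _ : Fin j => (Finset.univ : Finset K))
          (fun _ κ => lam κ * t κ)
        rw [Fintype.piFinset_univ, Finset.prod_const, Finset.card_univ, Fintype.card_fin] at h2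
        exact h2
      rw [h1, Finset.mul_sum]
      apply Finset.sum_congr rfl
      intro α _
      rw [gauss_prod α (fun κ => lam κ * t κ), mul_assoc, ← Finset.prod_mul_distrib]
      congr 1
      apply Finset.prod_congr rfl
      intro κ _
      rw [mul_pow]
    rw [hL, hR] at hub2
    exact hub2
  -- integration
  set A : (Fin j → K) → ℝ := fun α => c α ^ 2 * Nu α * ∏ κ, lam κ ^ cnt α κ with hA
  set B : (Fin j → K) → ℝ := fun α => M ^ j * ∏ κ, lam κ ^ cnt α κ with hB
  have hint : ∀ A : (Fin j → K) → ℝ,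
      MeasureTheory.Integrable (fun t : K → ℝ => ∑ α : Fin j → K, A α *
        ∏ κ, (Real.exp (-t κ) * |t κ| ^ cnt α κ)) (gauss_mu K) := by
    intro A
    exact MeasureTheory.integrable_finset_sum _ fun α _ => (gauss_ible K (cnt α)).const_mul _
  have hval : ∀ A : (Fin j → K) → ℝ,
      ∫ t, ∑ α : Fin j → K, A α * ∏ κ, (Real.exp (-t κ) * |t κ| ^ cnt α κ) ∂(gauss_mu K) =
        ∑ α : Fin j → K, A α * ∏ κ, ((cnt α κ).factorial : ℝ) := by
    intro A
    rw [MeasureTheory.integral_finset_sum _ fun α _ => (gauss_ible K (cnt α)).const_mul _]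
    apply Finset.sum_congr rfl
    intro α _
    rw [MeasureTheory.integral_const_mul, gauss_int]
  have hmono : ∫ t, ∑ α : Fin j → K, A α *
        ∏ κ, (Real.exp (-t κ) * |t κ| ^ cnt α κ) ∂(gauss_mu K) ≤
      ∫ t, ∑ α : Fin j → K, B α *
        ∏ κ, (Real.exp (-t κ) * |t κ| ^ cnt α κ) ∂(gauss_mu K) := by
    apply MeasureTheory.integral_mono (hint A) (hint B)
    intro t
    simp only
    have h1 := hpars (fun κ => |t κ|) (fun κ => abs_nonneg _)
    have h2 : ∀ A : (Fin j → K) → ℝ, ∑ α : Fin j → K, A α *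
        ∏ κ, (Real.exp (-t κ) * |t κ| ^ cnt α κ) =
        (∏ κ, Real.exp (-t κ)) * ∑ α : Fin j → K, A α * ∏ κ, |t κ| ^ cnt α κ := by
      intro A
      rw [Finset.mul_sum]
      apply Finset.sum_congr rfl
      intro α _
      rw [Finset.prod_mul_distrib]
      ring
    rw [h2, h2]
    apply mul_le_mul_of_nonneg_left h1
    exact Finset.prod_nonneg fun κ _ => (Real.exp_pos _).le
  rw [hval, hval] at hmono
  -- conclusion
  have hLfin : (j.factorial : ℝ) * ∑ α : Fin j → K, c α ^ 2 * ∏ i, lam (α i) =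
      ∑ α : Fin j → K, A α * ∏ κ, ((cnt α κ).factorial : ℝ) := by
    rw [Finset.mul_sum]
    apply Finset.sum_congr rfl
    intro α _
    simp only [hA]
    rw [← hNuf α, gauss_prod α lam]
    ring
  have hRfin : M ^ j * ∑ α : Fin j → K, (∏ κ, ((cnt α κ).factorial : ℝ)) * ∏ i, lam (α i) =
      ∑ α : Fin j → K, B α * ∏ κ, ((cnt α κ).factorial : ℝ) := by
    rw [Finset.mul_sum]
    apply Finset.sum_congr rfl
    intro α _
    simp only [hB]
    rw [gauss_prod α lam]
    ring
  rw [hLfin, hRfin]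
  exact hmono

end Pool.Agent.H933R2.HopfN
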