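import Pool.Agent.H933R2.HopfN.St2
import Pool.Agent.H933R2.HopfN.GRD

set_option autoImplicit false
set_option linter.all false

/-!
Task GRDS: the gradient of the functional, indicator weights, sup norm version.
-/

namespace Pool.Agent.H933R2.HopfN

open Finset

theorem grds_aux_sq {N a : ℝ} (hN : 0 ≤ N) (ha : 0 ≤ a) (h : N ≤ a * √N) : N ≤ a ^ 2 := by
  have h1 := Real.sq_sqrt hN
  have h2 : 0 ≤ √N := Real.sqrt_nonneg N
  rcases eq_or_lt_of_le h2 with h3 | h3
  · rw [← h3] at h1
    have : N = 0 := by rw [← h1]; ring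
    rw [this]; positivity
  · have h4 : √N * √N ≤ a * √N := by nlinarith
    have h5 : √N ≤ a := le_of_mul_le_mul_right h4 h3
    nlinarith

section
variable {ι : Type} [Fintype ι] [DecidableEq ι]

theorem grds_aux_nr (x : ι → ℝ) : nr x ^ 2 = ∑ a, x a ^ 2 :=
  Real.sq_sqrt (sum_nonneg fun a _ => sq_nonneg _)

theorem grds_aux_nr1 (c : ι) : nr (fun a : ι => if a = c then (1:ℝ) else 0) = 1 := by
  unfold nr
  simp

theorem grds_aux_N (w : ι → ℝ) (hw2 : ∀ a, w a ^ 2 = w a) (hw0 : ∀ a, 0 ≤ w a) (E : T4 ι)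
    (ω : ℝ) (hω : 0 ≤ ω) (hE : Bd4 E ω) (x : ι → ℝ) (c d : ι) :
    ∑ b, w b * (∑ a, x a * E a b c d) ^ 2 ≤ ω ^ 2 * ∑ a, x a ^ 2 := by
  set N : ℝ := ∑ b, w b * (∑ a, x a * E a b c d) ^ 2 with hN
  have hN0 : 0 ≤ N := sum_nonneg fun b _ => mul_nonneg (hw0 b) (sq_nonneg _)
  have h1 := hE x (fun b => w b * ∑ a, x a * E a b c d) (fun a => if a = c then 1 else 0)
    (fun a => if a = d then 1 else 0)
  have h2 : ev4 E x (fun b => w b * ∑ a, x a * E a b c d) (fun a => if a = c then 1 else 0)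
    (fun a => if a = d then 1 else 0) = N := by
    unfold ev4
    simp only [mul_ite, mul_one, mul_zero, ite_mul, zero_mul, Finset.sum_ite_eq', Finset.mem_univ,
      if_true, Finset.sum_ite_eq]
    rw [sum_comm, hN]
    refine sum_congr rfl fun b _ => ?_
    rw [← sum_mul, sq]
    have : ∑ a, E a b c d * x a = ∑ a, x a * E a b c d :=
      sum_congr rfl fun a _ => mul_comm _ _
    rw [this]
    ring
  have h3 : nr (fun b => w b * ∑ a, x a * E a b c d) = √N := by
    unfold nr
    congr 1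
    refine sum_congr rfl fun b _ => ?_
    rw [mul_pow, hw2]
  rw [h2, grds_aux_nr1, grds_aux_nr1, h3, mul_one, mul_one] at h1
  have h4 : N ≤ (ω * nr x) * √N := by
    have := (le_abs_self N).trans h1
    linarith
  have h5 := grds_aux_sq hN0 (mul_nonneg hω (show 0 ≤ nr x from Real.sqrt_nonneg _)) h4
  rw [mul_pow, grds_aux_nr] at h5
  exact h5

theorem grds_aux_Q (w : ι → ℝ) (hw2 : ∀ a, w a ^ 2 = w a) (hw0 : ∀ a, 0 ≤ w a) (A : T2 ι)
    (ρ : ℝ) (hρ : 0 ≤ ρ) (hA : Bd2 A ρ) (x : ι → ℝ) :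
    ∑ b, w b * (∑ a, x a * A a b) ^ 2 ≤ ρ ^ 2 * ∑ a, x a ^ 2 := by
  set N : ℝ := ∑ b, w b * (∑ a, x a * A a b) ^ 2 with hN
  have hN0 : 0 ≤ N := sum_nonneg fun b _ => mul_nonneg (hw0 b) (sq_nonneg _)
  have h1 := hA x (fun b => w b * ∑ a, x a * A a b)
  have h2 : ev2 A x (fun b => w b * ∑ a, x a * A a b) = N := by
    unfold ev2
    rw [sum_comm, hN]
    refine sum_congr rfl fun b _ => ?_
    rw [← sum_mul, sq]
    have : ∑ a, A a b * x a = ∑ a, x a * A a b :=
      sum_congr rfl fun a _ => mul_comm _ _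
    rw [this]
    ring
  have h3 : nr (fun b => w b * ∑ a, x a * A a b) = √N := by
    unfold nr
    congr 1
    refine sum_congr rfl fun b _ => ?_
    rw [mul_pow, hw2]
  rw [h2, h3] at h1
  have h4 : N ≤ (ρ * nr x) * √N := by
    have := (le_abs_self N).trans h1
    linarith
  have h5 := grds_aux_sq hN0 (mul_nonneg hρ (show 0 ≤ nr x from Real.sqrt_nonneg _)) h4
  rw [mul_pow, grds_aux_nr] at h5
  exact h5

theorem grds_aux_H (w : ι → ℝ) (W : T4 ι) (i l : ι) :
    grdH w W i l = ∑ p : ι × ι × ι, (w p.1 * w p.2.1 * w p.2.2) *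
      (W i p.1 p.2.1 p.2.2 * W l p.1 p.2.1 p.2.2) := by
  simp only [Fintype.sum_prod_type]
  rfl

end

theorem grds_main : St_grds := by
  intro ι _ _ S κ ω ρ hκ hω hρ E A hE hA hbE hbA
  set w : ι → ℝ := wt 0 S with hw
  have hwv : ∀ a, w a = if a ∈ S then 1 else 0 := fun a => rfl
  have hw0 : ∀ a, 0 ≤ w a := by
    intro a; rw [hwv]; split_ifs <;> simp
  have hw1 : ∀ a, w a ≤ 1 := by
    intro a; rw [hwv]; split_ifs <;> simp
  have hw2 : ∀ a, w a ^ 2 = w a := by
    intro a; rw [hwv]; split_ifs <;> simp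
  have hws : ∑ a, w a = S.card := by
    simp [hwv]
  let g : ι → ℝ := fun i => grdH w E i i + κ * grdB w A i i
  have hg : ∀ i, 0 ≤ g i := fun i =>
    add_nonneg (grd_aux_H0 w hw0 E i) (mul_nonneg hκ (grd_aux_B0 w hw0 A i))
  set K : ℝ := (S.card : ℝ) ^ 2 * ω ^ 2 + κ * ρ ^ 2 with hK
  have hK0 : 0 ≤ K := by positivity
  let U : ι → ι → ℝ := fun i l => grdH w E i l + κ / 2 * grdB w A i l
  -- the main estimate
  have hmain : ∀ i, ∑ l, U i l ^ 2 ≤ g i * K := by
    intro i
    set x : ι → ℝ := U i with hx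
    set T : ℝ := ∑ l, x l ^ 2 with hT
    have hT0 : 0 ≤ T := sum_nonneg fun l _ => sq_nonneg _
    let Ex : ι × ι × ι → ℝ := fun p => ∑ a, x a * E a p.1 p.2.1 p.2.2
    let Ax : ι → ℝ := fun b => ∑ a, x a * A a b
    let H' : ℝ := ∑ p : ι × ι × ι, (w p.1 * w p.2.1 * w p.2.2) * (E i p.1 p.2.1 p.2.2 * Ex p)
    let B' : ℝ := ∑ b, w b * (A i b * Ax b)
    let P : ℝ := ∑ p : ι × ι × ι, (w p.1 * w p.2.1 * w p.2.2) * (Ex p * Ex p)
    let Q : ℝ := ∑ b, w b * (Ax b * Ax b)
    have hP0 : 0 ≤ P := sum_nonneg fun p _ =>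
      mul_nonneg (mul_nonneg (mul_nonneg (hw0 _) (hw0 _)) (hw0 _)) (mul_self_nonneg _)
    have hQ0 : 0 ≤ Q := sum_nonneg fun p _ => mul_nonneg (hw0 _) (mul_self_nonneg _)
    have hT' : T = H' + κ / 2 * B' := by
      have e1 : T = ∑ l, (x l * grdH w E i l + κ / 2 * (x l * grdB w A i l)) := by
        refine sum_congr rfl fun l _ => ?_
        have : x l = grdH w E i l + κ / 2 * grdB w A i l := rfl
        nth_rewrite 1 [sq, this]
        ring
      rw [e1, sum_add_distrib, ← mul_sum]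
      congr 1
      · have e2 : ∀ l, x l * grdH w E i l = ∑ p : ι × ι × ι, (w p.1 * w p.2.1 * w p.2.2) *
            (E i p.1 p.2.1 p.2.2 * (x l * E l p.1 p.2.1 p.2.2)) := by
          intro l
          rw [grds_aux_H, mul_sum]
          refine sum_congr rfl fun p _ => ?_
          ring
        rw [sum_congr rfl fun l _ => e2 l, sum_comm]
        refine sum_congr rfl fun p _ => ?_
        rw [← mul_sum, ← mul_sum]
      · congr 1
        have e2 : ∀ l, x l * grdB w A i l = ∑ b, w b * (A i b * (x l * A l b)) := by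
          intro l
          unfold grdB
          rw [mul_sum]
          refine sum_congr rfl fun p _ => ?_
          ring
        rw [sum_congr rfl fun l _ => e2 l, sum_comm]
        refine sum_congr rfl fun p _ => ?_
        rw [← mul_sum, ← mul_sum]
    have c1 : H' ^ 2 ≤ grdH w E i i * P := by
      rw [grds_aux_H]
      refine sum_sq_le_sum_mul_sum_of_sq_le_mul _ ?_ ?_ ?_
      · intro p _
        exact mul_nonneg (mul_nonneg (mul_nonneg (hw0 _) (hw0 _)) (hw0 _)) (mul_self_nonneg _)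
      · intro p _
        exact mul_nonneg (mul_nonneg (mul_nonneg (hw0 _) (hw0 _)) (hw0 _)) (mul_self_nonneg _)
      · intro p _
        apply le_of_eq
        ring
    have c2 : B' ^ 2 ≤ grdB w A i i * Q := by
      unfold grdB
      refine sum_sq_le_sum_mul_sum_of_sq_le_mul _ ?_ ?_ ?_
      · intro p _
        exact mul_nonneg (hw0 _) (mul_self_nonneg _)
      · intro p _
        exact mul_nonneg (hw0 _) (mul_self_nonneg _)
      · intro p _
        apply le_of_eq
        ring
    have c3 := grd_aux_num H' B' (grdH w E i i) P (grdB w A i i) Q κ hκ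
      (grd_aux_H0 w hw0 E i) hP0 (grd_aux_B0 w hw0 A i) hQ0 c1 c2
    have c4 : P ≤ (S.card : ℝ) ^ 2 * ω ^ 2 * T := by
      have d1 : P = ∑ c, ∑ d, (w c * w d) * ∑ b, w b * (∑ a, x a * E a b c d) ^ 2 := by
        have d2 : P = ∑ b, ∑ c, ∑ d, (w b * w c * w d) * (Ex (b, c, d) * Ex (b, c, d)) := by
          simp only [P, Fintype.sum_prod_type]
        rw [d2, sum_comm]
        refine sum_congr rfl fun c _ => ?_
        rw [sum_comm]
        refine sum_congr rfl fun d _ => ?_
        rw [mul_sum]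
        refine sum_congr rfl fun b _ => ?_
        simp only [Ex]
        ring
      rw [d1]
      calc ∑ c, ∑ d, (w c * w d) * ∑ b, w b * (∑ a, x a * E a b c d) ^ 2
          ≤ ∑ c, ∑ d, (w c * w d) * (ω ^ 2 * T) := by
            refine sum_le_sum fun c _ => sum_le_sum fun d _ => ?_
            exact mul_le_mul_of_nonneg_left (grds_aux_N w hw2 hw0 E ω hω hbE x c d)
              (mul_nonneg (hw0 _) (hw0 _))
        _ = (∑ c, w c) * (∑ d, w d) * (ω ^ 2 * T) := by
            rw [sum_mul_sum, sum_mul]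
            refine sum_congr rfl fun c _ => ?_
            rw [sum_mul]
        _ = (S.card : ℝ) ^ 2 * ω ^ 2 * T := by
            rw [hws]; ring
    have c5 : Q ≤ ρ ^ 2 * T := by
      have d1 : Q = ∑ b, w b * (∑ a, x a * A a b) ^ 2 := by
        refine sum_congr rfl fun b _ => ?_
        simp only [Ax]
        ring
      rw [d1]
      exact grds_aux_Q w hw2 hw0 A ρ hρ hbA x
    have c6 : P + κ * Q ≤ K * T := by
      have := mul_le_mul_of_nonneg_left c5 hκ
      rw [hK]
      nlinarith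
    rw [← hT'] at c3
    have c7 : T * T ≤ (g i * K) * T := by
      have := mul_le_mul_of_nonneg_left c6 (hg i)
      have e : (grdH w E i i + κ * grdB w A i i) = g i := rfl
      rw [e] at c3
      nlinarith
    rcases eq_or_lt_of_le hT0 with h0 | h0
    · rw [← h0]
      exact mul_nonneg (hg i) hK0
    · exact le_of_mul_le_mul_right c7 h0
  -- symmetry of `U`
  have hUs : ∀ i l, U i l = U l i := by
    intro i l
    simp only [U]
    congr 1
    · rw [grds_aux_H, grds_aux_H]
      refine sum_congr rfl fun p _ => ?_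
      ring
    · congr 1
      unfold grdB
      refine sum_congr rfl fun p _ => ?_
      ring
  have hq : ∀ i l, QQ1 w κ E A i l ^ 2 =
      64 * (w i * (1 - w l) * U i l ^ 2) + 64 * (w l * (1 - w i) * U l i ^ 2) := by
    intro i l
    have e1 : QQ1 w κ E A i l = 8 * ((w i - w l) * U i l) := by
      unfold QQ1
      rw [grd_aux_ip4 w E hE, grd_aux_ip2 w A hA]
      simp only [U]
      ring
    rw [e1, hUs l i]
    have e2 := hw2 i
    have e3 := hw2 l
    have e4 : (w i - w l) ^ 2 = w i * (1 - w l) + w l * (1 - w i) := by nlinarith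
    calc (8 * ((w i - w l) * U i l)) ^ 2 = 64 * ((w i - w l) ^ 2 * U i l ^ 2) := by ring
      _ = _ := by rw [e4]; ring
  have h2 : ∑ i, ∑ l, QQ1 w κ E A i l ^ 2 = 128 * ∑ i, w i * ∑ l, (1 - w l) * U i l ^ 2 := by
    simp only [hq]
    simp only [sum_add_distrib]
    have e1 : ∑ i, ∑ l, 64 * (w l * (1 - w i) * U l i ^ 2) =
        ∑ i, ∑ l, 64 * (w i * (1 - w l) * U i l ^ 2) := by
      rw [sum_comm]
    rw [e1]
    have e2 : ∑ i, ∑ l, 64 * (w i * (1 - w l) * U i l ^ 2) =
        64 * ∑ i, w i * ∑ l, (1 - w l) * U i l ^ 2 := by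
      rw [mul_sum]
      refine sum_congr rfl fun i _ => ?_
      rw [mul_sum, mul_sum]
      refine sum_congr rfl fun l _ => ?_
      ring
    rw [e2]
    ring
  have h3 : ∑ i, w i * ∑ l, (1 - w l) * U i l ^ 2 ≤ ∑ i, w i * (g i * K) := by
    refine sum_le_sum fun i _ => mul_le_mul_of_nonneg_left ?_ (hw0 i)
    refine le_trans (sum_le_sum fun l _ => ?_) (hmain i)
    have := sq_nonneg (U i l)
    have := hw0 l
    nlinarith
  have h5 : QQ w κ E A = ∑ i, w i * g i := by
    have e1 : Q4 w E = ∑ i, w i * grdH w E i i := by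
      unfold Q4 ip4 grdH
      refine sum_congr rfl fun a _ => ?_
      simp only [mul_sum]
      refine sum_congr rfl fun b _ => sum_congr rfl fun c _ => sum_congr rfl fun d _ => ?_
      ring
    have e2 : Q2 w A = ∑ i, w i * grdB w A i i := by
      unfold Q2 ip2 grdB
      refine sum_congr rfl fun a _ => ?_
      simp only [mul_sum]
      refine sum_congr rfl fun b _ => ?_
      ring
    unfold QQ
    rw [e1, e2, mul_sum, ← sum_add_distrib]
    refine sum_congr rfl fun i _ => ?_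
    simp only [g]
    ring
  rw [h2, h5]
  have h6 : ∑ i, w i * (g i * K) = (∑ i, w i * g i) * K := by
    rw [sum_mul]
    refine sum_congr rfl fun i _ => ?_
    ring
  rw [h6] at h3
  nlinarith

end Pool.Agent.H933R2.HopfN
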