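import Pool.Agent.H933R2.HopfN.St2
import Pool.Agent.H933R2.HopfN.HSUM

set_option autoImplicit false
set_option linter.all false

/-!
HSUM2: the complete homogeneous sum, good constant.
-/

namespace Pool.Agent.H933R2.HopfN

private lemma hsum2_exp (x : ℝ) (h0 : 0 ≤ x) (h1 : x ≤ 2 / 3) :
    1 ≤ Real.exp (x + x ^ 2) * (1 - x) := by
  have hu : 0 ≤ x + x ^ 2 := by positivity
  have hT := Real.sum_le_exp_of_nonneg hu 5
  simp only [Finset.sum_range_succ, Finset.sum_range_zero, Nat.factorial] at hT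
  norm_num at hT
  have p2 : x ^ 2 ≤ (2 / 3) ^ 2 := pow_le_pow_left₀ h0 h1 2
  have p3 : x ^ 3 ≤ (2 / 3) ^ 3 := pow_le_pow_left₀ h0 h1 3
  have p4 : x ^ 4 ≤ (2 / 3) ^ 4 := pow_le_pow_left₀ h0 h1 4
  have p5 : x ^ 5 ≤ (2 / 3) ^ 5 := pow_le_pow_left₀ h0 h1 5
  have p6 : x ^ 6 ≤ (2 / 3) ^ 6 := pow_le_pow_left₀ h0 h1 6
  have p7 : x ^ 7 ≤ (2 / 3) ^ 7 := pow_le_pow_left₀ h0 h1 7
  norm_num at p2 p3 p4 p5 p6 p7
  have hR : 0 ≤ 1 / 2 - 1 / 3 * x - 1 / 8 * x ^ 2 - 3 / 8 * x ^ 3 - 1 / 4 * x ^ 4 -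
      1 / 4 * x ^ 5 - 1 / 8 * x ^ 6 - 1 / 24 * x ^ 7 := by linarith
  have hP := mul_nonneg (sq_nonneg x) hR
  have h2 : (1 + (x + x ^ 2) + (x + x ^ 2) ^ 2 / 2 + (x + x ^ 2) ^ 3 / 6 +
      (x + x ^ 2) ^ 4 / 24) * (1 - x) ≤ Real.exp (x + x ^ 2) * (1 - x) :=
    mul_le_mul_of_nonneg_right hT (by linarith)
  refine le_trans ?_ h2
  nlinarith [hP]

private lemma hsum2_geom (x : ℝ) (hx0 : 0 ≤ x) (hx1 : x ≤ 2 / 3) (n : ℕ) :
    ∑ i ∈ Finset.range n, x ^ i ≤ Real.exp (x + x ^ 2) := by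
  have h1 := geom_sum_mul_neg x n
  have h2 : 0 ≤ x ^ n := pow_nonneg hx0 n
  have h3 : (∑ i ∈ Finset.range n, x ^ i) * (1 - x) ≤ Real.exp (x + x ^ 2) * (1 - x) := by
    rw [h1]
    have := hsum2_exp x hx0 hx1
    linarith
  exact le_of_mul_le_mul_right h3 (by linarith)

private lemma hsum2_c1 : 3 / 2 * Real.exp (2 * Real.sqrt 2 / 3) ≤ 3851 / 1000 := by
  have hs : Real.sqrt 2 ≤ 1.414215 := by
    rw [Real.sqrt_le_left (by norm_num)]
    norm_num
  have h1 : Real.exp (2 * Real.sqrt 2 / 3) ≤ Real.exp (1 - 0.05719) := by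
    apply Real.exp_le_exp.2
    linarith
  have h2 : 1 + (0.05719 : ℝ) + 0.05719 ^ 2 / 2 ≤ Real.exp 0.05719 :=
    Real.quadratic_le_exp_of_nonneg (by norm_num)
  have h3 : Real.exp (1 - 0.05719) * Real.exp 0.05719 = Real.exp 1 := by
    rw [← Real.exp_add]; congr 1; norm_num
  have h4 := Real.exp_one_lt_d9
  have h5 : 0 < Real.exp (1 - 0.05719) := Real.exp_pos _
  have h6 : Real.exp (1 - 0.05719) * (1 + 0.05719 + 0.05719 ^ 2 / 2) ≤ 2.7182818286 := by
    rw [← h3] at h4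
    exact (mul_le_mul_of_nonneg_left h2 h5.le).trans h4.le
  have h7 : Real.exp (1 - 0.05719) ≤ 3851 / 1500 := by
    have hc : (2.7182818286 : ℝ) ≤ 3851 / 1500 * (1 + 0.05719 + 0.05719 ^ 2 / 2) := by norm_num
    exact le_of_mul_le_mul_right (h6.trans hc) (by norm_num)
  have h8 := h1.trans h7
  linarith

private lemma hsum2_c2 : Real.exp (4 / 9 - Real.sqrt 2 / 6) ≤ 5 / 4 := by
  have hs : 1.4142 ≤ Real.sqrt 2 := Real.le_sqrt_of_sq_le (by norm_num)
  have h1 : Real.exp (4 / 9 - Real.sqrt 2 / 6) ≤ Real.exp (2 * 0.1044) := by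
    apply Real.exp_le_exp.2
    norm_num at hs ⊢
    linarith
  have h2 : 1 - (0.1044 : ℝ) ≤ Real.exp (-0.1044) := by
    have := Real.add_one_le_exp (-0.1044 : ℝ)
    linarith
  have h3 : Real.exp (2 * 0.1044) * Real.exp (-0.1044) ^ 2 = 1 := by
    rw [← Real.exp_nat_mul, ← Real.exp_add, ← Real.exp_zero]
    congr 1
    norm_num
  have h4 : (1 - (0.1044 : ℝ)) ^ 2 ≤ Real.exp (-0.1044) ^ 2 :=
    pow_le_pow_left₀ (by norm_num) h2 2
  have h5 : 0 < Real.exp (2 * 0.1044) := Real.exp_pos _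
  have h6 : Real.exp (2 * 0.1044) * (1 - (0.1044 : ℝ)) ^ 2 ≤ 1 :=
    (mul_le_mul_of_nonneg_left h4 h5.le).trans h3.le
  have hc : (1 : ℝ) ≤ 5 / 4 * (1 - (0.1044 : ℝ)) ^ 2 := by norm_num
  exact h1.trans (le_of_mul_le_mul_right (h6.trans hc) (by norm_num))

theorem hsum2_main (hw : St_words) : St_hsum2 := by
  intro K _ _ j hj lam hlam hK
  set L : ℝ := Real.sqrt (∑ κ, lam κ ^ 2) with hL
  have hL0 : 0 ≤ L := Real.sqrt_nonneg _
  have hLsq : L ^ 2 = ∑ κ, lam κ ^ 2 := Real.sq_sqrt (Finset.sum_nonneg fun κ _ => sq_nonneg _)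
  have hle : ∀ κ, lam κ ≤ L := by
    intro κ
    rw [hL]
    apply Real.le_sqrt_of_sq_le
    exact Finset.single_le_sum (f := fun κ => lam κ ^ 2) (fun κ _ => sq_nonneg _) (Finset.mem_univ κ)
  rcases hL0.eq_or_lt with h0 | hLpos
  · have hz : ∀ κ, lam κ = 0 := fun κ => le_antisymm (by rw [h0]; exact hle κ) (hlam κ)
    have : ∀ α : Fin j → K, ∏ i, lam (α i) = 0 := by
      intro α
      apply Finset.prod_eq_zero (Finset.mem_univ (⟨0, by omega⟩ : Fin j))
      exact hz _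
    simp only [this, mul_zero, Finset.sum_const_zero]
    positivity
  have hj1 : (1 : ℝ) ≤ j := by exact_mod_cast hj
  set s : ℝ := 2 / (3 * L) with hs
  have hs0 : 0 < s := by positivity
  have h2L : 3 / 2 * L * s = 1 := by rw [hs]; field_simp
  have hsL : s * L = 2 / 3 := by linarith
  have hs2 : 0 ≤ Real.sqrt 2 := Real.sqrt_nonneg 2
  have hss : Real.sqrt 2 ^ 2 = 2 := Real.sq_sqrt (by norm_num)
  have hsum : ∑ κ, lam κ ≤ Real.sqrt 2 * (j - 1 / 4) * L := by
    have hnn : 0 ≤ Real.sqrt 2 * ((j : ℝ) - 1 / 4) * L :=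
      mul_nonneg (mul_nonneg hs2 (by linarith)) hL0
    have h1 : (∑ κ, lam κ) ^ 2 ≤ (Real.sqrt 2 * (j - 1 / 4) * L) ^ 2 := by
      calc (∑ κ, lam κ) ^ 2 ≤ (j : ℝ) * (2 * j - 1) * ∑ κ, lam κ ^ 2 := hK
        _ = (j : ℝ) * (2 * j - 1) * L ^ 2 := by rw [hLsq]
        _ ≤ (2 * ((j : ℝ) - 1 / 4) ^ 2) * L ^ 2 := by
          apply mul_le_mul_of_nonneg_right _ (sq_nonneg _)
          nlinarith
        _ = Real.sqrt 2 ^ 2 * ((j : ℝ) - 1 / 4) ^ 2 * L ^ 2 := by rw [hss]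
        _ = _ := by ring
    exact (abs_le_of_sq_le_sq' h1 hnn).2
  have hx : ∀ κ, s * lam κ ≤ 2 / 3 := by
    intro κ
    have := mul_le_mul_of_nonneg_left (hle κ) hs0.le
    linarith
  have hx0 : ∀ κ, 0 ≤ s * lam κ := fun κ => mul_nonneg hs0.le (hlam κ)
  -- grouping
  have hmaps : ∀ α ∈ (Finset.univ : Finset (Fin j → K)), (fun κ => cnt α κ) ∈
      Fintype.piFinset (fun _ : K => Finset.range (j+1)) := by
    intro α _
    rw [Fintype.mem_piFinset]
    intro κ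
    rw [Finset.mem_range]
    have : cnt α κ ≤ ∑ κ, cnt α κ :=
      Finset.single_le_sum (f := fun κ => cnt α κ) (fun _ _ => Nat.zero_le _) (Finset.mem_univ κ)
    rw [hsum_cnt_sum] at this
    omega
  rw [← Finset.sum_fiberwise_of_maps_to hmaps]
  have hterm : ∀ k ∈ Fintype.piFinset (fun _ : K => Finset.range (j+1)),
      ∑ α ∈ Finset.univ.filter (fun α : Fin j → K => (fun κ => cnt α κ) = k),
        (∏ κ, ((cnt α κ).factorial : ℝ)) * ∏ i, lam (α i)
      ≤ (j.factorial : ℝ) * (3 / 2 * L) ^ j * ∏ κ, (s * lam κ) ^ k κ := by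
    intro k _
    have hnn : 0 ≤ (j.factorial : ℝ) * (3 / 2 * L) ^ j * ∏ κ, (s * lam κ) ^ k κ := by
      apply mul_nonneg (by positivity)
      exact Finset.prod_nonneg fun κ _ => pow_nonneg (hx0 κ) _
    by_cases hk : ∑ κ, k κ = j
    · have h1 : ∑ α ∈ Finset.univ.filter (fun α : Fin j → K => (fun κ => cnt α κ) = k),
          (∏ κ, ((cnt α κ).factorial : ℝ)) * ∏ i, lam (α i)
          = ∑ α ∈ Finset.univ.filter (fun α : Fin j → K => (fun κ => cnt α κ) = k),
            (∏ κ, ((k κ).factorial : ℝ)) * ∏ κ, lam κ ^ k κ := by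
        apply Finset.sum_congr rfl
        intro α hα
        have h2 := (Finset.mem_filter.1 hα).2
        have h3 : ∀ κ, cnt α κ = k κ := fun κ => congrFun h2 κ
        rw [hsum_prod]
        simp only [h3]
      have hfe : Finset.univ.filter (fun α : Fin j → K => (fun κ => cnt α κ) = k)
          = Finset.univ.filter (fun α : Fin j → K => ∀ κ, cnt α κ = k κ) := by
        apply Finset.filter_congr
        intro α _
        exact ⟨fun h κ => congrFun h κ, fun h => funext h⟩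
      have h4 := hw K j k hk
      have h5 : ((Finset.univ.filter (fun α : Fin j → K => ∀ κ, cnt α κ = k κ)).card : ℝ) *
          ∏ κ, ((k κ).factorial : ℝ) = (j.factorial : ℝ) := by
        rw [← h4]; push_cast; rfl
      rw [h1, Finset.sum_const, nsmul_eq_mul, hfe, ← mul_assoc, h5]
      apply le_of_eq
      have h6 : ∏ κ, (s * lam κ) ^ k κ = s ^ j * ∏ κ, lam κ ^ k κ := by
        simp only [mul_pow, Finset.prod_mul_distrib]
        rw [Finset.prod_pow_eq_pow_sum, hk]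
      rw [h6]
      calc (j.factorial : ℝ) * ∏ κ, lam κ ^ k κ
          = (j.factorial : ℝ) * ((3 / 2 * L * s) ^ j * ∏ κ, lam κ ^ k κ) := by
            rw [h2L, one_pow, one_mul]
        _ = _ := by rw [mul_pow]; ring
    · have h1 : Finset.univ.filter (fun α : Fin j → K => (fun κ => cnt α κ) = k) = ∅ := by
        rw [Finset.filter_eq_empty_iff]
        intro α _ h2
        apply hk
        rw [← h2]
        exact hsum_cnt_sum α
      rw [h1, Finset.sum_empty]; exact hnn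
  refine le_trans (Finset.sum_le_sum hterm) ?_
  rw [← Finset.mul_sum, ← Finset.prod_univ_sum (fun _ : K => Finset.range (j+1))
    (fun κ i => (s * lam κ) ^ i)]
  have hprod : ∏ κ, ∑ i ∈ Finset.range (j+1), (s * lam κ) ^ i ≤
      Real.exp (2 * Real.sqrt 2 / 3) ^ j * Real.exp (4 / 9 - Real.sqrt 2 / 6) := by
    calc ∏ κ, ∑ i ∈ Finset.range (j+1), (s * lam κ) ^ i
        ≤ ∏ κ, Real.exp (s * lam κ + (s * lam κ) ^ 2) := by
          apply Finset.prod_le_prod
          · intro κ _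
            exact Finset.sum_nonneg fun i _ => pow_nonneg (hx0 κ) i
          · intro κ _
            exact hsum2_geom _ (hx0 κ) (hx κ) _
      _ = Real.exp (∑ κ, (s * lam κ + (s * lam κ) ^ 2)) := by rw [Real.exp_sum]
      _ = Real.exp (s * ∑ κ, lam κ + s ^ 2 * ∑ κ, lam κ ^ 2) := by
          rw [Finset.sum_add_distrib, Finset.mul_sum, Finset.mul_sum]
          simp only [mul_pow]
      _ ≤ Real.exp (j * (2 * Real.sqrt 2 / 3) + (4 / 9 - Real.sqrt 2 / 6)) := by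
          apply Real.exp_le_exp.2
          rw [← hLsq]
          have h3 := mul_le_mul_of_nonneg_left hsum hs0.le
          have h4 : s * (Real.sqrt 2 * (j - 1 / 4) * L) = Real.sqrt 2 * (j - 1 / 4) * (s * L) := by
            ring
          have h5 : s ^ 2 * L ^ 2 = (s * L) ^ 2 := by ring
          rw [h4, hsL] at h3
          rw [h5, hsL]
          nlinarith
      _ = _ := by rw [Real.exp_add, ← Real.exp_nat_mul]
  have hE : 0 ≤ Real.exp (2 * Real.sqrt 2 / 3) ^ j * Real.exp (4 / 9 - Real.sqrt 2 / 6) := by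
    positivity
  calc (j.factorial : ℝ) * (3 / 2 * L) ^ j * ∏ κ, ∑ i ∈ Finset.range (j+1), (s * lam κ) ^ i
      ≤ (j.factorial : ℝ) * (3 / 2 * L) ^ j *
        (Real.exp (2 * Real.sqrt 2 / 3) ^ j * Real.exp (4 / 9 - Real.sqrt 2 / 6)) :=
        mul_le_mul_of_nonneg_left hprod (by positivity)
    _ = (j.factorial : ℝ) * (Real.exp (4 / 9 - Real.sqrt 2 / 6) *
        (3 / 2 * Real.exp (2 * Real.sqrt 2 / 3) * L) ^ j) := by ring
    _ ≤ (j.factorial : ℝ) * (5 / 4 * (3851 / 1000 * L) ^ j) := by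
        apply mul_le_mul_of_nonneg_left _ (by positivity)
        apply mul_le_mul hsum2_c2 _ (by positivity) (by norm_num)
        apply pow_le_pow_left₀ (by positivity)
        exact mul_le_mul_of_nonneg_right hsum2_c1 hL0

end Pool.Agent.H933R2.HopfN
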