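import Pool.Agent.H933R2.HopfN.St2

set_option autoImplicit false
set_option linter.all false

namespace Pool.Agent.H933R2.HopfN

/-- the transpose action on vectors -/
def invb_tv {ι : Type} [Fintype ι] (O : Matrix ι ι ℝ) (x : ι → ℝ) : ι → ℝ :=
  fun a' => ∑ a, O a a' * x a

theorem invb_nr {ι : Type} [Fintype ι] [DecidableEq ι] (O : Matrix ι ι ℝ) (hO : Orth O)
    (x : ι → ℝ) : nr (invb_tv O x) = nr x := by
  have h1 : O * O.transpose = 1 := by
    have := hO
    unfold Orth at this
    exact mul_eq_one_comm.mp this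
  unfold nr
  congr 1
  have h2 : ∀ a b, ∑ c, O a c * O b c = if a = b then (1 : ℝ) else 0 := by
    intro a b
    have := congrFun (congrFun h1 a) b
    rw [Matrix.mul_apply, Matrix.one_apply] at this
    simpa [Matrix.transpose_apply] using this
  calc ∑ c, invb_tv O x c ^ 2 = ∑ c, ∑ a, ∑ b, (O a c * O b c) * (x a * x b) := by
        refine Finset.sum_congr rfl fun c _ => ?_
        unfold invb_tv
        rw [sq, Finset.sum_mul_sum]
        refine Finset.sum_congr rfl fun a _ => Finset.sum_congr rfl fun b _ => ?_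
        ring
    _ = ∑ a, ∑ b, (∑ c, O a c * O b c) * (x a * x b) := by
        rw [Finset.sum_comm]
        refine Finset.sum_congr rfl fun a _ => ?_
        rw [Finset.sum_comm]
        refine Finset.sum_congr rfl fun b _ => ?_
        rw [Finset.sum_mul]
    _ = ∑ a, x a ^ 2 := by
        refine Finset.sum_congr rfl fun a _ => ?_
        simp only [h2]
        simp [sq]

theorem invb_ev2 {ι : Type} [Fintype ι] [DecidableEq ι] (O : Matrix ι ι ℝ)
    (A : T2 ι) (x y : ι → ℝ) :
    ev2 (act2 O A) x y = ev2 A (invb_tv O x) (invb_tv O y) := by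
  unfold ev2 act2 invb_tv
  simp only [Finset.sum_mul, Finset.mul_sum]
  -- LHS: ∑ a, ∑ b, ∑ a', ∑ b', ...; RHS: ∑ a', ∑ b', ∑ ..., 
  calc ∑ a, ∑ b, ∑ a', ∑ b', O a a' * O b b' * A a' b' * x a * y b
      = ∑ a, ∑ a', ∑ b, ∑ b', O a a' * O b b' * A a' b' * x a * y b := by
        refine Finset.sum_congr rfl fun a _ => ?_
        rw [Finset.sum_comm]
    _ = ∑ a', ∑ a, ∑ b, ∑ b', O a a' * O b b' * A a' b' * x a * y b := by
        rw [Finset.sum_comm]
    _ = ∑ a', ∑ a, ∑ b', ∑ b, O a a' * O b b' * A a' b' * x a * y b := by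
        refine Finset.sum_congr rfl fun a' _ => Finset.sum_congr rfl fun a _ => ?_
        rw [Finset.sum_comm]
    _ = ∑ a', ∑ b', ∑ a, ∑ b, O a a' * O b b' * A a' b' * x a * y b := by
        refine Finset.sum_congr rfl fun a' _ => ?_
        rw [Finset.sum_comm]
    _ = _ := by
        refine Finset.sum_congr rfl fun a' _ => Finset.sum_congr rfl fun b' _ => ?_
        rw [Finset.sum_comm]
        refine Finset.sum_congr rfl fun b _ => Finset.sum_congr rfl fun a _ => ?_
        ring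

/-- evaluation on all-purpose functions: multilinear expansion in 4 slots -/
theorem invb_ev4 {ι : Type} [Fintype ι] [DecidableEq ι] (O : Matrix ι ι ℝ)
    (E : T4 ι) (x y z w : ι → ℝ) :
    ev4 (act4 O E) x y z w =
      ev4 E (invb_tv O x) (invb_tv O y) (invb_tv O z) (invb_tv O w) := by
  have hL : ev4 (act4 O E) x y z w =
      ∑ p : ι × ι × ι × ι, ∑ q : ι × ι × ι × ι,
        O p.1 q.1 * O p.2.1 q.2.1 * O p.2.2.1 q.2.2.1 * O p.2.2.2 q.2.2.2 *
          E q.1 q.2.1 q.2.2.1 q.2.2.2 * x p.1 * y p.2.1 * z p.2.2.1 * w p.2.2.2 := by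
    unfold ev4 act4
    simp only [Fintype.sum_prod_type, Finset.sum_mul]
  have hR : ev4 E (invb_tv O x) (invb_tv O y) (invb_tv O z) (invb_tv O w) =
      ∑ q : ι × ι × ι × ι, ∑ p : ι × ι × ι × ι,
        O p.1 q.1 * O p.2.1 q.2.1 * O p.2.2.1 q.2.2.1 * O p.2.2.2 q.2.2.2 *
          E q.1 q.2.1 q.2.2.1 q.2.2.2 * x p.1 * y p.2.1 * z p.2.2.1 * w p.2.2.2 := by
    unfold ev4 invb_tv
    simp only [Fintype.sum_prod_type]
    refine Finset.sum_congr rfl fun a' _ => Finset.sum_congr rfl fun b' _ =>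
      Finset.sum_congr rfl fun c' _ => Finset.sum_congr rfl fun d' _ => ?_
    have h1 : ∀ (f g h k : ι → ℝ) (e : ℝ), e * (∑ a, f a) * (∑ b, g b) * (∑ c, h c) * (∑ d, k d)
        = ∑ a, ∑ b, ∑ c, ∑ d, e * f a * g b * h c * k d := by
      intro f g h k e
      simp only [Finset.mul_sum, Finset.sum_mul]
      calc _ = ∑ d, ∑ c, ∑ b, ∑ a, e * f a * g b * h c * k d := rfl
        _ = ∑ c, ∑ d, ∑ b, ∑ a, e * f a * g b * h c * k d := Finset.sum_comm
        _ = ∑ c, ∑ b, ∑ d, ∑ a, e * f a * g b * h c * k d :=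
            Finset.sum_congr rfl fun c _ => Finset.sum_comm
        _ = ∑ b, ∑ c, ∑ d, ∑ a, e * f a * g b * h c * k d := Finset.sum_comm
        _ = ∑ b, ∑ c, ∑ a, ∑ d, e * f a * g b * h c * k d :=
            Finset.sum_congr rfl fun b _ => Finset.sum_congr rfl fun c _ => Finset.sum_comm
        _ = ∑ b, ∑ a, ∑ c, ∑ d, e * f a * g b * h c * k d :=
            Finset.sum_congr rfl fun b _ => Finset.sum_comm
        _ = ∑ a, ∑ b, ∑ c, ∑ d, e * f a * g b * h c * k d := Finset.sum_comm
    rw [h1]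
    refine Finset.sum_congr rfl fun a _ => Finset.sum_congr rfl fun b _ =>
      Finset.sum_congr rfl fun c _ => Finset.sum_congr rfl fun d _ => ?_
    ring
  rw [hL, hR, Finset.sum_comm]

theorem invb_main : St_invb := by
  intro ι _ _ O hO
  refine ⟨?_, ?_⟩
  · intro E ω h x y z w
    rw [invb_ev4]
    have := h (invb_tv O x) (invb_tv O y) (invb_tv O z) (invb_tv O w)
    rw [invb_nr O hO, invb_nr O hO, invb_nr O hO, invb_nr O hO] at this
    exact this
  · intro A ρ h x y
    rw [invb_ev2]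
    have := h (invb_tv O x) (invb_tv O y)
    rw [invb_nr O hO, invb_nr O hO] at this
    exact this

end Pool.Agent.H933R2.HopfN
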