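import Pool.Agent.H933R2.HopfN.St2
import Pool.Agent.H933R2.HopfN.LAP4

set_option autoImplicit false
set_option linter.all false

/-!
LAP4R: the Laplacian of the norm of the restriction of a curvature tensor, with the Ricci terms.
-/

namespace Pool.Agent.H933R2.HopfN

open Finset

section lap4r

variable {ι : Type} [Fintype ι] [DecidableEq ι] {W : T4 ι}

/-- one slot of the Laplacian, with the Ricci terms -/
theorem lap4r_E (h : IsCurv W) (a b c d : ι) :
    ∑ l, D4 a l W l b c d = (1 - (Fintype.card ι : ℝ)) * W a b c d +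
      kd c a * Ric W b d - kd d a * Ric W b c := by
  have e0 : ∀ l, D4 a l W l b c d = kd a l * W l b c d - W a b c d - kd b l * W l a c d +
      kd c a * W l b l d - kd c l * W l b a d - kd d a * W l b l c - kd d l * W l b c a := by
    intro l
    unfold D4
    have e1 : kd l l = 1 := by simp [kd]
    rw [e1, lap4_kd_symm l a, lap4_diag h l c d, h.a2 l b l c]
    ring
  rw [sum_congr rfl fun l _ => e0 l]
  simp only [sum_add_distrib, sum_sub_distrib, ← mul_sum]
  have r1 : ∑ l, W l b l d = Ric W b d := rfl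
  have r2 : ∑ l, W l b l c = Ric W b c := rfl
  rw [lap4_kd1 a (fun l => W l b c d), lap4_kd1 b (fun l => W l a c d),
    lap4_kd1 c (fun l => W l b a d), lap4_kd1 d (fun l => W l b c a), r1, r2]
  rw [sum_const, card_univ, nsmul_eq_mul]
  have e2 : W b a c d = - W a b c d := h.a1 a b c d
  have e3 : W c b a d = - W a d b c := by
    rw [h.ps a d c b, h.a2 a d b c]
  have e4 : W d b c a = - W a c d b := by
    rw [h.ps c a d b, h.a1 a c d b]
  have e5 := h.bi a b c d
  rw [e2, e3, e4]
  linarith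

theorem lap4r_ric (h : IsCurv W) (a b : ι) : Ric W b a = Ric W a b := by
  unfold Ric
  exact sum_congr rfl fun x _ => h.ps x a x b

theorem lap4r_I (h : IsCurv W) (a b c d : ι) :
    ∑ i, ∑ l, D4 i l (D4 i l W) a b c d = 8 * (1 - (Fintype.card ι : ℝ)) * W a b c d +
      4 * (kd a c * Ric W b d) + (-4) * (kd a d * Ric W b c) + (-4) * (kd b c * Ric W a d) +
      4 * (kd b d * Ric W a c) := by
  have e1 := lap4_slot (fun i l x => D4 i l W x b c d) (fun i l x => lap4_anti i l x b c d) a
  have e2 := lap4_slot (fun i l x => D4 i l W a x c d) (fun i l x => lap4_anti i l a x c d) b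
  have e3 := lap4_slot (fun i l x => D4 i l W a b x d) (fun i l x => lap4_anti i l a b x d) c
  have e4 := lap4_slot (fun i l x => D4 i l W a b c x) (fun i l x => lap4_anti i l a b c x) d
  have h0 : ∑ i, ∑ l, D4 i l (D4 i l W) a b c d =
      (∑ i, ∑ l, (kd a i * D4 i l W l b c d - kd a l * D4 i l W i b c d)) +
      (∑ i, ∑ l, (kd b i * D4 i l W a l c d - kd b l * D4 i l W a i c d)) +
      (∑ i, ∑ l, (kd c i * D4 i l W a b l d - kd c l * D4 i l W a b i d)) +
      (∑ i, ∑ l, (kd d i * D4 i l W a b c l - kd d l * D4 i l W a b c i)) := by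
    simp only [← sum_add_distrib]
    rfl
  rw [h0, e1, e2, e3, e4]
  have f2 : ∑ l, D4 b l W a l c d = - ((1 - (Fintype.card ι : ℝ)) * W b a c d +
      kd c b * Ric W a d - kd d b * Ric W a c) := by
    rw [← lap4r_E h, ← sum_neg_distrib]
    exact sum_congr rfl fun l _ => lap4_a1 h b l l a c d
  have f3 : ∑ l, D4 c l W a b l d = (1 - (Fintype.card ι : ℝ)) * W c d a b +
      kd a c * Ric W d b - kd b c * Ric W d a := by
    rw [← lap4r_E h]
    exact sum_congr rfl fun l _ => lap4_ps h c l l d a b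
  have f4 : ∑ l, D4 d l W a b c l = - ((1 - (Fintype.card ι : ℝ)) * W d c a b +
      kd a d * Ric W c b - kd b d * Ric W c a) := by
    rw [← lap4r_E h, ← sum_neg_distrib]
    refine sum_congr rfl fun l _ => ?_
    rw [lap4_ps h d l c l a b, lap4_a1 h d l l c a b]
  rw [lap4r_E h a b c d, f2, f3, f4]
  have g1 : W b a c d = - W a b c d := h.a1 a b c d
  have g2 : W c d a b = W a b c d := h.ps a b c d
  have g3 : W d c a b = - W a b c d := by rw [h.a1 c d a b, g2]
  rw [g1, g2, g3, lap4_kd_symm c a, lap4_kd_symm d a, lap4_kd_symm c b, lap4_kd_symm d b,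
    lap4r_ric h b d, lap4r_ric h a d, lap4r_ric h b c, lap4r_ric h a c]
  ring

theorem lap4r_w (S : Finset ι) (a : ι) : 0 ≤ wt 0 S a ∧ wt 0 S a ≤ 1 ∧
    wt 0 S a * wt 0 S a = wt 0 S a := by
  unfold wt
  by_cases ha : a ∈ S
  · simp [ha]
  · simp [ha]

theorem lap4r_sumw (S : Finset ι) : ∑ a, wt 0 S a = (S.card : ℝ) := by
  unfold wt
  rw [← sum_filter]
  simp

theorem lap4r_sumS (S : Finset ι) (f : ι → ℝ) : ∑ a, wt 0 S a * f a = ∑ a ∈ S, f a := by
  unfold wt
  have : ∀ a, (if a ∈ S then (1 : ℝ) else 0) * f a = if a ∈ S then f a else 0 := by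
    intro a
    by_cases ha : a ∈ S
    · simp [ha]
    · simp [ha]
  rw [sum_congr rfl fun a _ => this a, ← sum_filter]
  congr 1
  ext a
  simp

/-- the Ricci term -/
def lap4rT (w : ι → ℝ) (W : T4 ι) (R : T2 ι) : ℝ :=
  lap4S w (fun a b c d => W a b c d * (kd a c * R b d))

theorem lap4r_T (S : Finset ι) (R : T2 ι) :
    lap4rT (wt 0 S) W R = ∑ b ∈ S, ∑ d ∈ S, RicS S W b d * R b d := by
  unfold lap4rT lap4S
  have e1 : ∀ a b, ∑ c, ∑ d, wt 0 S a * wt 0 S b * wt 0 S c * wt 0 S d *
      (W a b c d * (kd a c * R b d)) =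
      ∑ d, wt 0 S a * (wt 0 S b * (wt 0 S d * (W a b a d * R b d))) := by
    intro a b
    rw [sum_comm]
    refine sum_congr rfl fun d _ => ?_
    have e2 : ∀ c, wt 0 S a * wt 0 S b * wt 0 S c * wt 0 S d * (W a b c d * (kd a c * R b d)) =
        kd a c * (wt 0 S a * wt 0 S b * wt 0 S c * wt 0 S d * (W a b c d * R b d)) := by
      intro c; ring
    rw [sum_congr rfl fun c _ => e2 c, lap4_kd1]
    have h3 := (lap4r_w S a).2.2
    calc wt 0 S a * wt 0 S b * wt 0 S a * wt 0 S d * (W a b a d * R b d)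
        = (wt 0 S a * wt 0 S a) * (wt 0 S b * (wt 0 S d * (W a b a d * R b d))) := by ring
      _ = _ := by rw [h3]
  rw [sum_congr rfl fun a _ => sum_congr rfl fun b _ => e1 a b]
  rw [sum_comm]
  have e3 : ∀ b, ∑ a, ∑ d, wt 0 S a * (wt 0 S b * (wt 0 S d * (W a b a d * R b d))) =
      wt 0 S b * ∑ d ∈ S, RicS S W b d * R b d := by
    intro b
    rw [sum_comm, ← lap4r_sumS S (fun d => RicS S W b d * R b d), mul_sum]
    refine sum_congr rfl fun d _ => ?_
    unfold RicS
    rw [lap4r_sumS S (fun a => wt 0 S b * (wt 0 S d * (W a b a d * R b d))), sum_mul, mul_sum,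
      mul_sum]
  rw [sum_congr rfl fun b _ => e3 b, lap4r_sumS]

theorem lap4r_f12 (h : IsCurv W) (S : Finset ι) :
    lap4S (wt 0 S) (lap4f12 W) = 2 * s4 (wt 0 S) W := by
  have e1 : ∀ a b c d, lap4f12 W a b c d = 2 * (kd a b * ∑ l, W l a c d ^ 2) := by
    intro a b c d
    unfold lap4f12
    rw [lap4_K, lap4_diag h, zero_mul, sub_zero]
    by_cases hab : a = b
    · subst hab
      simp only [sq]
    · have e1 : kd a b = 0 := by simp [kd, hab]
      rw [e1]
      simp
  rw [lap4S_congr _ e1, lap4S_smul _ 2 (fun a b c d => kd a b * ∑ l, W l a c d ^ 2)]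
  congr 1
  rw [← lap4_s4]
  unfold lap4S
  refine sum_congr rfl fun a _ => ?_
  have e2 : ∀ b, ∑ c, ∑ d, wt 0 S a * wt 0 S b * wt 0 S c * wt 0 S d *
      (kd a b * ∑ l, W l a c d ^ 2) =
      kd a b * ∑ c, ∑ d, wt 0 S a * wt 0 S b * wt 0 S c * wt 0 S d * (∑ l, W l a c d ^ 2) := by
    intro b
    rw [mul_sum]
    refine sum_congr rfl fun c _ => ?_
    rw [mul_sum]
    exact sum_congr rfl fun d _ => by ring
  rw [sum_congr rfl fun b _ => e2 b, lap4_kd1]
  refine sum_congr rfl fun c _ => sum_congr rfl fun d _ => ?_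
  rw [(lap4r_w S a).2.2]

theorem lap4r_f13 (h : IsCurv W) (S : Finset ι) :
    lap4S (wt 0 S) (lap4f13 W) ≤ 2 * s4 (wt 0 S) W -
      2 * ∑ b ∈ S, ∑ d ∈ S, RicS S W b d * RicS S W b d := by
  have hw : ∀ a, 0 ≤ wt 0 S a := fun a => (lap4r_w S a).1
  have hw1 : ∀ a, wt 0 S a ≤ 1 := fun a => (lap4r_w S a).2.1
  generalize hww : wt 0 S = w at hw hw1
  have hA : lap4S w (fun a b c d => kd a c * ∑ l, W l b c d ^ 2) ≤ s4 w W := by
    have e1 : lap4S w (fun a b c d => kd a c * ∑ l, W l b c d ^ 2) =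
        ∑ b, ∑ c, ∑ d, w c * (w b * w c * w d * ∑ l, W l b c d ^ 2) := by
      unfold lap4S
      rw [sum_comm]
      refine sum_congr rfl fun b _ => ?_
      rw [sum_comm]
      refine sum_congr rfl fun c _ => ?_
      rw [sum_comm]
      refine sum_congr rfl fun d _ => ?_
      have e2 : ∀ a, w a * w b * w c * w d * (kd a c * ∑ l, W l b c d ^ 2) =
          kd c a * (w a * (w b * w c * w d * ∑ l, W l b c d ^ 2)) := by
        intro a
        rw [lap4_kd_symm a c]
        ring
      rw [sum_congr rfl fun a _ => e2 a, lap4_kd1]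
    rw [e1, ← lap4_s4]
    refine sum_le_sum fun b _ => sum_le_sum fun c _ => sum_le_sum fun d _ => ?_
    have h3 : 0 ≤ w b * w c * w d * ∑ l, W l b c d ^ 2 :=
      mul_nonneg (mul_nonneg (mul_nonneg (hw b) (hw c)) (hw d))
        (sum_nonneg fun l _ => sq_nonneg _)
    exact mul_le_of_le_one_left h3 (hw1 c)
  have hB : lap4S w (fun a b c d => kd a c * ∑ l, W l b c d * W l d a b) ≤ s4 w W := by
    have h1 : lap4S w (fun a b c d => kd a c * ∑ l, W l b c d * W l d a b) ≤
        lap4S w (fun a b c d => (1 / 2) * (kd a c * ∑ l, W l b c d ^ 2) +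
          (1 / 2) * (kd a c * ∑ l, W l d c b ^ 2)) := by
      apply lap4S_mono w hw
      intro a b c d
      by_cases hac : a = c
      · subst hac
        have e1 : kd a a = 1 := by simp [kd]
        rw [e1, one_mul, one_mul, one_mul, mul_sum, mul_sum, ← sum_add_distrib]
        refine sum_le_sum fun l _ => ?_
        nlinarith [sq_nonneg (W l b a d - W l d a b)]
      · have e1 : kd a c = 0 := by simp [kd, hac]
        rw [e1]
        simp
    refine le_trans h1 ?_
    rw [lap4S_add w (fun a b c d => (1 / 2) * (kd a c * ∑ l, W l b c d ^ 2))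
      (fun a b c d => (1 / 2) * (kd a c * ∑ l, W l d c b ^ 2)),
      lap4S_smul w (1 / 2) (fun a b c d => kd a c * ∑ l, W l b c d ^ 2),
      lap4S_smul w (1 / 2) (fun a b c d => kd a c * ∑ l, W l d c b ^ 2)]
    have e2 : lap4S w (fun a b c d => kd a c * ∑ l, W l d c b ^ 2) =
        lap4S w (fun a b c d => kd a c * ∑ l, W l b c d ^ 2) :=
      lap4S_24 w (fun a b c d => kd a c * ∑ l, W l b c d ^ 2)
    rw [e2]
    linarith
  have hC : lap4S w (fun a b c d => W c b c d * W a d a b) =
      ∑ b ∈ S, ∑ d ∈ S, RicS S W b d * RicS S W b d := by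
    have e1 : lap4S w (fun a b c d => W c b c d * W a d a b) =
        ∑ b, ∑ d, w b * (w d * (∑ c, w c * W c b c d) ^ 2) := by
      unfold lap4S
      rw [sum_comm]
      refine sum_congr rfl fun b _ => ?_
      have e2 : ∀ a, ∑ c, ∑ d, w a * w b * w c * w d * (W c b c d * W a d a b) =
          ∑ d, ∑ c, w a * w b * w c * w d * (W c b c d * W a d a b) := fun a => sum_comm
      rw [sum_congr rfl fun a _ => e2 a, sum_comm]
      refine sum_congr rfl fun d _ => ?_
      rw [sq, sum_mul_sum, mul_sum, mul_sum]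
      refine sum_congr rfl fun a _ => ?_
      rw [mul_sum, mul_sum]
      refine sum_congr rfl fun c _ => ?_
      rw [h.ps a b a d]
      ring
    rw [e1, ← hww]
    simp only [← mul_sum]
    rw [lap4r_sumS S (fun b => ∑ d, wt 0 S d * (∑ c, wt 0 S c * W c b c d) ^ 2)]
    refine sum_congr rfl fun b _ => ?_
    rw [lap4r_sumS S (fun d => (∑ c, wt 0 S c * W c b c d) ^ 2)]
    refine sum_congr rfl fun d _ => ?_
    rw [lap4r_sumS S (fun c => W c b c d), sq]
    rfl
  have e1 : ∀ a b c d, lap4f13 W a b c d =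
      2 * (kd a c * ∑ l, W l b c d * W l d a b) + (-2) * (W c b c d * W a d a b) := by
    intro a b c d
    unfold lap4f13
    rw [lap4_K]
    ring
  rw [lap4S_congr w e1,
    lap4S_add w (fun a b c d => 2 * (kd a c * ∑ l, W l b c d * W l d a b))
      (fun a b c d => (-2) * (W c b c d * W a d a b)),
    lap4S_smul w 2 (fun a b c d => kd a c * ∑ l, W l b c d * W l d a b),
    lap4S_smul w (-2) (fun a b c d => W c b c d * W a d a b), hC]
  linarith

theorem lap4r_main : St_lap4r := by
  intro ι _ _ S W h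
  simp only [sum_add_distrib]
  set w := wt 0 S with hw
  have h1 : ∑ i, ∑ l, ip4 w W (D4 i l (D4 i l W)) =
      8 * (1 - (Fintype.card ι : ℝ)) * Q4 w W +
        16 * ∑ b ∈ S, ∑ d ∈ S, RicS S W b d * Ric W b d := by
    have h2 : ∑ i, ∑ l, ip4 w W (D4 i l (D4 i l W)) = lap4S w (fun a b c d =>
        ∑ i, ∑ l, W a b c d * D4 i l (D4 i l W) a b c d) :=
      lap4S_sum2 w (fun i l a b c d => W a b c d * D4 i l (D4 i l W) a b c d)
    rw [h2]
    have h3 : ∀ a b c d, ∑ i, ∑ l, W a b c d * D4 i l (D4 i l W) a b c d =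
        8 * (1 - (Fintype.card ι : ℝ)) * (W a b c d * W a b c d) +
        4 * (W a b c d * (kd a c * Ric W b d)) + 4 * (W a b d c * (kd a d * Ric W b c)) +
        4 * (W b a c d * (kd b c * Ric W a d)) + 4 * (W b a d c * (kd b d * Ric W a c)) := by
      intro a b c d
      simp only [← mul_sum]
      rw [lap4r_I h, h.a2 a b c d, h.a1 a b c d, h.a1 a b d c, h.a2 a b c d]
      ring
    rw [lap4S_congr w h3]
    simp only [lap4S_add, lap4S_smul]
    have t1 : lap4S w (fun a b c d => W a b d c * (kd a d * Ric W b c)) =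
        lap4S w (fun a b c d => W a b c d * (kd a c * Ric W b d)) :=
      lap4S_34 w (fun a b c d => W a b c d * (kd a c * Ric W b d))
    have t2 : lap4S w (fun a b c d => W b a c d * (kd b c * Ric W a d)) =
        lap4S w (fun a b c d => W a b c d * (kd a c * Ric W b d)) :=
      lap4S_12 w (fun a b c d => W a b c d * (kd a c * Ric W b d))
    have t3 : lap4S w (fun a b c d => W b a d c * (kd b d * Ric W a c)) =
        lap4S w (fun a b c d => W a b c d * (kd a c * Ric W b d)) := by
      rw [← t1]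
      exact lap4S_12 w (fun a b c d => W a b d c * (kd a d * Ric W b c))
    have t4 : lap4S w (fun a b c d => W a b c d * (kd a c * Ric W b d)) =
        ∑ b ∈ S, ∑ d ∈ S, RicS S W b d * Ric W b d := lap4r_T S (Ric W)
    have t5 : lap4S w (fun a b c d => W a b c d * W a b c d) = Q4 w W := rfl
    rw [t1, t2, t3, t4, t5]
    ring
  have h6 : ∑ b ∈ S, ∑ d ∈ S, RicS S W b d * (Ric W b d - RicS S W b d) =
      ∑ b ∈ S, ∑ d ∈ S, RicS S W b d * Ric W b d -
        ∑ b ∈ S, ∑ d ∈ S, RicS S W b d * RicS S W b d := by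
    simp only [mul_sub, sum_sub_distrib]
  rw [h1, h6, lap4_sum_square h, lap4_f11, lap4r_f12 h S, hw, lap4r_sumw]
  have h5 := lap4r_f13 h S
  nlinarith

end lap4r

end Pool.Agent.H933R2.HopfN
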