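import Pool.Agent.H933R2.HopfN.St2
import Pool.Agent.H933R2.HopfN.INVT
import Pool.Agent.H933R2.HopfN.MIN
import Pool.Agent.H933R2.HopfN.VAR
import Pool.Agent.H933R2.HopfN.HOLD
import Pool.Agent.H933R2.HopfN.MOM

set_option autoImplicit false
set_option linter.all false

namespace Pool.Agent.H933R2.HopfN

theorem mom2_core (Q a q0 u : ℝ) (hQ : 0 ≤ Q) (ha : 0 ≤ a) (haQ : a ≤ Q) (hq0 : 0 ≤ q0)
    (h : (Q - q0) / 4 ≤ a) (hu : 0 ≤ u) (hu3 : u ≤ 1 / 3) :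
    -8 * a * Q + 32 / 25 * (1 + u) * Q * (Q - a) + 64 / 25 * (1 - u) * a * (Q - a) ≤
      Q * (-(2 / 5) * Q + 2216 / 1000 * q0) := by
  -- monotonicity in `a`
  have mono : ∀ a0, 0 ≤ a0 → a0 ≤ a →
      -8 * a * Q + 32 / 25 * (1 + u) * Q * (Q - a) + 64 / 25 * (1 - u) * a * (Q - a) ≤
      -8 * a0 * Q + 32 / 25 * (1 + u) * Q * (Q - a0) + 64 / 25 * (1 - u) * a0 * (Q - a0) := by
    intro a0 h0 h1
    have e : (-8 * a * Q + 32 / 25 * (1 + u) * Q * (Q - a) + 64 / 25 * (1 - u) * a * (Q - a)) -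
      (-8 * a0 * Q + 32 / 25 * (1 + u) * Q * (Q - a0) + 64 / 25 * (1 - u) * a0 * (Q - a0)) =
      -((a - a0) * ((8 + 32 / 25 * (1 + u) - 64 / 25 * (1 - u)) * Q +
        64 / 25 * (1 - u) * (a + a0))) := by ring
    have p1 : 0 ≤ (8 + 32 / 25 * (1 + u) - 64 / 25 * (1 - u)) * Q :=
      mul_nonneg (by linarith) hQ
    have p2 : 0 ≤ 64 / 25 * (1 - u) * (a + a0) := mul_nonneg (by linarith) (by linarith)
    have p3 : 0 ≤ (a - a0) * ((8 + 32 / 25 * (1 + u) - 64 / 25 * (1 - u)) * Q +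
        64 / 25 * (1 - u) * (a + a0)) := mul_nonneg (by linarith) (by linarith)
    linarith
  rcases le_total q0 Q with hc | hc
  · refine (mono ((Q - q0) / 4) (by linarith) h).trans ?_
    have e : (-8 * ((Q - q0) / 4) * Q + 32 / 25 * (1 + u) * Q * (Q - (Q - q0) / 4) +
        64 / 25 * (1 - u) * ((Q - q0) / 4) * (Q - (Q - q0) / 4)) -
        Q * (-(2 / 5) * Q + 2216 / 1000 * q0) =
        -((4 / 25 - 12 / 25 * u) * Q ^ 2 + (216 / 1000 - 16 / 25 * u) * (Q * q0) +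
          4 / 25 * (1 - u) * q0 ^ 2) := by ring
    have p1 : 0 ≤ (4 / 25 - 12 / 25 * u) * Q ^ 2 := mul_nonneg (by linarith) (sq_nonneg _)
    have p2 : 0 ≤ (216 / 1000 - 16 / 25 * u) * (Q * q0) :=
      mul_nonneg (by linarith) (mul_nonneg hQ hq0)
    have p3 : 0 ≤ 4 / 25 * (1 - u) * q0 ^ 2 := mul_nonneg (by linarith) (sq_nonneg _)
    linarith
  · refine (mono 0 le_rfl ha).trans ?_
    have p1 : 0 ≤ Q * (q0 - Q) := mul_nonneg hQ (by linarith)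
    have p2 : 0 ≤ (1 / 3 - u) * Q ^ 2 := mul_nonneg (by linarith) (sq_nonneg _)
    have p3 : 0 ≤ Q ^ 2 := sq_nonneg _
    nlinarith

/-- case `j ≥ 3` -/
theorem mom2_term3 (j q : ℕ) (hj : 3 ≤ j) (hqj : 2 * q ≤ j + 1) (hq : 2 ≤ q)
    (n θ Q a q0 T1 T2' : ℝ) (hn : 0 < n) (hθ : θ = 25 * j / (2 * n)) (hQ : 0 ≤ Q) (ha : 0 ≤ a)
    (haQ : a ≤ Q) (hq0 : 0 ≤ q0) (h : (Q - q0) / 4 ≤ a)
    (h1 : (1 / 2) * T1 ≤ - (8 * n) * a + (8 * (2 * j : ℝ) + 16) / θ * (Q - a))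
    (h2 : T2' ≤ 128 / θ * a * (Q - a)) :
    (q : ℝ) * Q ^ (q - 1) * T1 + (q : ℝ) * ((q : ℝ) - 1) * Q ^ (q - 2) * T2' ≤
      2 * q * n * (2 / 5) * (554 / 100 * q0 * Q ^ (q - 1) - Q ^ q) := by
  have hjR : (3 : ℝ) ≤ j := by exact_mod_cast hj
  have hjpos : (0 : ℝ) < j := by linarith
  have hqR : (2 : ℝ) ≤ q := by exact_mod_cast hq
  have hqj' : (2 : ℝ) * q ≤ j + 1 := by exact_mod_cast hqj
  have hp1 : Q ^ (q - 1) = Q ^ (q - 2) * Q := by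
    rw [← pow_succ]; congr 1; omega
  have hp2 : Q ^ q = Q ^ (q - 2) * Q ^ 2 := by
    rw [← pow_add]; congr 1; omega
  have hP : 0 ≤ Q ^ (q - 2) := pow_nonneg hQ _
  have hu : (0 : ℝ) ≤ 1 / j := by positivity
  have hu3 : (1 : ℝ) / j ≤ 1 / 3 := by
    apply one_div_le_one_div_of_le <;> linarith
  have c1 : (8 * (2 * j : ℝ) + 16) / θ = n * (32 / 25 * (1 + 1 / j)) := by
    rw [hθ]; field_simp; ring
  have c2 : 128 / θ = n * (256 / (25 * j)) := by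
    rw [hθ]; field_simp; ring
  rw [c1] at h1
  rw [c2] at h2
  have haQ' : 0 ≤ a * (Q - a) := mul_nonneg ha (by linarith)
  have e1 : (q : ℝ) * Q ^ (q - 1) * T1 ≤ (q : ℝ) * Q ^ (q - 1) *
      (2 * (- (8 * n) * a + n * (32 / 25 * (1 + 1 / j)) * (Q - a))) := by
    refine mul_le_mul_of_nonneg_left (by linarith) (by positivity)
  have e2 : (q : ℝ) * ((q : ℝ) - 1) * Q ^ (q - 2) * T2' ≤
      (q : ℝ) * Q ^ (q - 2) * (2 * (n * (64 / 25 * (1 - 1 / j)) * a * (Q - a))) := by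
    have s1 : (q : ℝ) * ((q : ℝ) - 1) * Q ^ (q - 2) * T2' ≤
        (q : ℝ) * ((q : ℝ) - 1) * Q ^ (q - 2) * (n * (256 / (25 * j)) * a * (Q - a)) := by
      refine mul_le_mul_of_nonneg_left h2 ?_
      have : (0 : ℝ) ≤ (q : ℝ) - 1 := by linarith
      positivity
    refine s1.trans ?_
    have s2 : ((q : ℝ) - 1) * (256 / (25 * j)) ≤ 2 * (64 / 25 * (1 - 1 / j)) := by
      have : 2 * (64 / 25 * (1 - 1 / (j : ℝ))) - ((q : ℝ) - 1) * (256 / (25 * j)) =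
          128 / (25 * j) * ((j : ℝ) + 1 - 2 * q) := by
        field_simp
        ring
      have h3 : 0 ≤ 128 / (25 * (j : ℝ)) * ((j : ℝ) + 1 - 2 * q) :=
        mul_nonneg (by positivity) (by linarith)
      linarith
    have s3 : 0 ≤ (q : ℝ) * Q ^ (q - 2) * n * (a * (Q - a)) := by positivity
    have s4 := mul_le_mul_of_nonneg_left s2 s3
    calc _ = (q : ℝ) * Q ^ (q - 2) * n * (a * (Q - a)) * (((q : ℝ) - 1) * (256 / (25 * j))) := by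
          ring
      _ ≤ _ := s4
      _ = _ := by ring
  have core := mom2_core Q a q0 (1 / j) hQ ha haQ hq0 h hu hu3
  have s5 : 0 ≤ 2 * (q : ℝ) * n * Q ^ (q - 2) := by positivity
  have s6 := mul_le_mul_of_nonneg_left core s5
  calc _ ≤ _ := add_le_add e1 e2
    _ = 2 * (q : ℝ) * n * Q ^ (q - 2) * (-8 * a * Q + 32 / 25 * (1 + 1 / j) * Q * (Q - a) +
        64 / 25 * (1 - 1 / j) * a * (Q - a)) := by rw [hp1]; ring
    _ ≤ _ := s6
    _ = _ := by rw [hp1, hp2]; ring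

/-- case `j = 2` -/
theorem mom2_term2 (n θ Q a q0 T1 T2' : ℝ) (hn : 0 < n) (hθ : θ = 25 * 2 / (2 * n))
    (hQ : 0 ≤ Q) (hq0 : 0 ≤ q0) (h : (Q - q0) / 4 ≤ a)
    (h1 : (1 / 2) * T1 ≤ - (8 * n) * a + (8 * (2 * 2 : ℝ) + 16) / θ * (Q - a)) :
    T1 ≤ 2 * n * (14 / 25) * (554 / 100 * q0 - Q) := by
  have c1 : (8 * (2 * 2 : ℝ) + 16) / θ = n * (48 / 25) := by
    rw [hθ]; field_simp; ring
  rw [c1] at h1
  have h3 : - (8 * n) * a + n * (48 / 25) * (Q - a) ≤ n * ((14 / 25) * (554 / 100 * q0 - Q)) := by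
    have h4 : - 8 * a + (48 / 25) * (Q - a) ≤ (14 / 25) * (554 / 100 * q0 - Q) := by linarith
    have := mul_le_mul_of_nonneg_left h4 hn.le
    linarith
  linarith

theorem mom2_main (h1 : St_alg2) (h2 : St_grd2) : St_mom2 := by
  intro ι F _ _ _ j hj hcard S hS W A hW hRic hA htr n θ κ hn hθ hκ
  have hI := invt_main ι
  have hj2 : (2 : ℝ) ≤ j := by exact_mod_cast hj
  have hjpos : (0 : ℝ) < j := by linarith
  have hn25 : 25 * (j : ℝ) ≤ 2 * n := by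
    rw [hn]
    exact_mod_cast hcard
  have hnpos : 0 < n := by linarith
  have hθpos : 0 < θ := by
    rw [hθ]
    positivity
  have hθ1 : θ ≤ 1 := by
    rw [hθ, div_le_one (by positivity)]
    exact hn25
  have hκ0 : 0 ≤ κ := by
    rw [hκ]
    positivity
  set q : ℕ := (j + 1) / 2 with hqdef
  have hq : 1 ≤ q := by omega
  have hq1 : (1 : ℝ) ≤ q := by exact_mod_cast hq
  obtain ⟨O, hO, hmin⟩ := min_main ι F S θ κ q W A
  refine ⟨O, hO, ?_⟩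
  set W' := act4 O W with hW'
  set A' := act2 O A with hA'
  have cW : IsCurv W' := hI.curv O hO W hW
  have cRic : ∀ a b, Ric W' a b = 0 := by
    intro a b
    rw [hW', hI.ric O hO W]
    unfold act2
    refine Finset.sum_eq_zero fun a' _ => Finset.sum_eq_zero fun b' _ => ?_
    rw [hRic, mul_zero]
  have cA : IsSym A' := hI.sym O hO A hA
  have ctr : tr2 A' = 0 := by rw [hA', hI.tr O hO A, htr]
  have e4 : hs4 W' = hs4 W := hI.n4 O hO W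
  have e2 : hs2 A' = hs2 A := hI.n2 O hO A
  have hvar := var_main ι F S θ κ q hq W' A' (by
    intro O' hO'
    rw [hW', hA', hI.comp4 O O' W, hI.comp2 O O' A]
    exact hmin (O' * O) (hI.mul O O' hO hO'))
  set Q : F → ℝ := fun f => QQ (wt θ (S f)) κ W' A' with hQ
  have hQ0 : ∀ f, 0 ≤ Q f := fun f => mom_QQ_nonneg hθpos.le hκ0 (S f) W' A'
  set H : ℝ := θ ^ 4 * hs4 W + κ * θ ^ 2 * hs2 A with hH
  have hH0 : 0 ≤ H := by
    have := mom_hs4_nonneg W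
    have := mom_hs2_nonneg A
    positivity
  have hsum : 0 ≤ ∑ i, ∑ l, ∑ f : F, ((q : ℝ) * Q f ^ (q - 1) * QQ2 (wt θ (S f)) κ W' A' i l +
      (q : ℝ) * ((q : ℝ) - 1) * Q f ^ (q - 2) * QQ1 (wt θ (S f)) κ W' A' i l ^ 2) :=
    Finset.sum_nonneg fun i _ => Finset.sum_nonneg fun l _ => hvar i l
  have hswap : ∑ i, ∑ l, ∑ f : F, ((q : ℝ) * Q f ^ (q - 1) * QQ2 (wt θ (S f)) κ W' A' i l +
      (q : ℝ) * ((q : ℝ) - 1) * Q f ^ (q - 2) * QQ1 (wt θ (S f)) κ W' A' i l ^ 2) =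
      ∑ f : F, ((q : ℝ) * Q f ^ (q - 1) * (∑ i, ∑ l, QQ2 (wt θ (S f)) κ W' A' i l) +
      (q : ℝ) * ((q : ℝ) - 1) * Q f ^ (q - 2) *
        (∑ i, ∑ l, QQ1 (wt θ (S f)) κ W' A' i l ^ 2)) := by
    have s1 : ∀ i, ∑ l, ∑ f : F, ((q : ℝ) * Q f ^ (q - 1) * QQ2 (wt θ (S f)) κ W' A' i l +
      (q : ℝ) * ((q : ℝ) - 1) * Q f ^ (q - 2) * QQ1 (wt θ (S f)) κ W' A' i l ^ 2) =
      ∑ f : F, ∑ l, ((q : ℝ) * Q f ^ (q - 1) * QQ2 (wt θ (S f)) κ W' A' i l +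
      (q : ℝ) * ((q : ℝ) - 1) * Q f ^ (q - 2) * QQ1 (wt θ (S f)) κ W' A' i l ^ 2) :=
      fun i => Finset.sum_comm
    rw [Finset.sum_congr rfl fun i _ => s1 i, Finset.sum_comm]
    refine Finset.sum_congr rfl fun f _ => ?_
    rw [Finset.mul_sum, Finset.mul_sum, ← Finset.sum_add_distrib]
    refine Finset.sum_congr rfl fun i _ => ?_
    rw [Finset.mul_sum, Finset.mul_sum, ← Finset.sum_add_distrib]
  rw [hswap] at hsum
  have hbound : ∃ α : ℝ, 0 < α ∧ ∀ f, (q : ℝ) * Q f ^ (q - 1) *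
      (∑ i, ∑ l, QQ2 (wt θ (S f)) κ W' A' i l) +
      (q : ℝ) * ((q : ℝ) - 1) * Q f ^ (q - 2) *
        (∑ i, ∑ l, QQ1 (wt θ (S f)) κ W' A' i l ^ 2) ≤
      2 * q * n * α * (554 / 100 * H * Q f ^ (q - 1) - Q f ^ q) := by
    have hdata : ∀ f, ∃ a : ℝ, 0 ≤ a ∧ a ≤ Q f ∧ (Q f - H) / 4 ≤ a ∧
        (1 / 2) * ∑ i, ∑ l, QQ2 (wt θ (S f)) κ W' A' i l ≤
          - (8 * n) * a + (8 * (2 * j : ℝ) + 16) / θ * (Q f - a) ∧
        ∑ i, ∑ l, QQ1 (wt θ (S f)) κ W' A' i l ^ 2 ≤ 128 / θ * a * (Q f - a) := by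
      intro f
      obtain ⟨g1, g2, g3⟩ := h2 ι (S f) θ κ hθpos hθ1 hκ0 W' A' cW cA _ rfl
      obtain ⟨g4, g5⟩ := h1 ι (S f) θ κ hθpos hθ1 hκ0 W' A' cW cRic cA ctr _ rfl
      rw [e4, e2] at g4
      rw [hS f, ← hn] at g5
      push_cast at g5
      exact ⟨_, g1, g2, g4, g5, g3⟩
    rcases Nat.lt_or_ge 2 j with h3 | h3
    · refine ⟨2 / 5, by norm_num, fun f => ?_⟩
      obtain ⟨a, g1, g2, g3, g4, g5⟩ := hdata f
      exact mom2_term3 j q h3 (by omega) (by omega) n θ (Q f) a H _ _ hnpos hθ (hQ0 f) g1 g2 hH0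
        g3 g4 g5
    · refine ⟨14 / 25, by norm_num, fun f => ?_⟩
      obtain ⟨a, g1, g2, g3, g4, g5⟩ := hdata f
      have hj' : j = 2 := by omega
      have hq' : q = 1 := by omega
      have hj'' : (j : ℝ) = 2 := by exact_mod_cast hj'
      rw [hj''] at g4 hθ
      have := mom2_term2 n θ (Q f) a H _ 0 hnpos hθ (hQ0 f) hH0 g3 g4
      rw [hq']
      simp only [Nat.cast_one, one_mul, Nat.sub_self, pow_zero, sub_self, mul_one, zero_mul,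
        add_zero, pow_one]
      linarith
  obtain ⟨α, hα, hbound⟩ := hbound
  have htot := hsum.trans (Finset.sum_le_sum fun f _ => hbound f)
  rw [← Finset.mul_sum, Finset.sum_sub_distrib, ← Finset.mul_sum] at htot
  have hjn : (0 : ℝ) < 2 * q * n * α := by positivity
  have hfin : ∑ f, Q f ^ q ≤ (554 / 100 * H) * ∑ f, Q f ^ (q - 1) := by
    have := nonneg_of_mul_nonneg_right htot hjn
    linarith
  exact hold_main F Q _ q hq (by positivity) hQ0 hfin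

end Pool.Agent.H933R2.HopfN
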