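import Pool.Agent.H933R2.HopfN.St2
import Pool.Agent.H933R2.HopfN.INVT
import Pool.Agent.H933R2.HopfN.MIN
import Pool.Agent.H933R2.HopfN.VAR
import Pool.Agent.H933R2.HopfN.HOLD
import Pool.Agent.H933R2.HopfN.MOM

set_option autoImplicit false
set_option linter.all false

namespace Pool.Agent.H933R2.HopfN

theorem moms_term (q : ℕ) (hq : 1 ≤ q) (n Q T1 T2' R1 G : ℝ) (hQ : 0 ≤ Q)
    (h1 : (1 / 2) * T1 ≤ - (11 / 4) * n * Q + R1) (h2 : T2' ≤ 128 * Q * G) :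
    (q : ℝ) * Q ^ (q - 1) * T1 + (q : ℝ) * ((q : ℝ) - 1) * Q ^ (q - 2) * T2' ≤
      2 * q * ((R1 + 64 * ((q : ℝ) - 1) * G) * Q ^ (q - 1) - 11 / 4 * n * Q ^ q) := by
  have hq1 : (1 : ℝ) ≤ q := by exact_mod_cast hq
  have hp : Q ^ q = Q ^ (q - 1) * Q := by
    rw [← pow_succ]
    congr 1
    omega
  have e1 : (q : ℝ) * Q ^ (q - 1) * T1 ≤
      (q : ℝ) * Q ^ (q - 1) * (2 * (- (11 / 4) * n * Q + R1)) := by
    refine mul_le_mul_of_nonneg_left (by linarith) (by positivity)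
  have e2 : (q : ℝ) * ((q : ℝ) - 1) * Q ^ (q - 2) * T2' ≤
      (q : ℝ) * ((q : ℝ) - 1) * (128 * G) * Q ^ (q - 1) := by
    rcases Nat.lt_or_ge 1 q with h | h
    · have hp2 : Q ^ (q - 1) = Q ^ (q - 2) * Q := by
        rw [← pow_succ]
        congr 1
        omega
      calc (q : ℝ) * ((q : ℝ) - 1) * Q ^ (q - 2) * T2'
          ≤ (q : ℝ) * ((q : ℝ) - 1) * Q ^ (q - 2) * (128 * Q * G) := by
            refine mul_le_mul_of_nonneg_left h2 ?_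
            have : (0 : ℝ) ≤ (q : ℝ) - 1 := by linarith
            positivity
        _ = (q : ℝ) * ((q : ℝ) - 1) * (128 * G) * Q ^ (q - 1) := by
            rw [hp2]; ring
    · have : q = 1 := by omega
      subst this
      simp
  calc (q : ℝ) * Q ^ (q - 1) * T1 + (q : ℝ) * ((q : ℝ) - 1) * Q ^ (q - 2) * T2'
      ≤ (q : ℝ) * Q ^ (q - 1) * (2 * (- (11 / 4) * n * Q + R1)) +
        (q : ℝ) * ((q : ℝ) - 1) * (128 * G) * Q ^ (q - 1) := add_le_add e1 e2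
    _ = 2 * q * ((R1 + 64 * ((q : ℝ) - 1) * G) * Q ^ (q - 1) - 11 / 4 * n * Q ^ q) := by
        rw [hp]
        ring

/-- the numbers -/
theorem moms_num (j : ℕ) (hj : 2 ≤ j) (e : ℝ) (he : 0 ≤ e) :
    ((16 * j + 8) * (2 * j) ^ 3 * (16 / 9 * e) + 2048 * j / 105 * e * ((8 * j + 4) * (2 * j))) +
      64 * ((((j + 1) / 2 : ℕ) : ℝ) - 1) * ((2 * j : ℝ) ^ 2 * (16 / 9 * e) + 2048 * j / 105 * e) ≤
      484 * (j : ℝ) ^ 4 * e := by
  rcases Nat.lt_or_ge 2 j with h3 | h2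
  · have hx : (3 : ℝ) ≤ j := by exact_mod_cast h3
    have hq : (((j + 1) / 2 : ℕ) : ℝ) - 1 ≤ ((j : ℝ) - 1) / 2 := by
      have h4 : 2 * ((j + 1) / 2) ≤ j + 1 := by omega
      have h5 : (2 : ℝ) * (((j + 1) / 2 : ℕ) : ℝ) ≤ (j : ℝ) + 1 := by exact_mod_cast h4
      linarith
    obtain ⟨t, ht⟩ : ∃ t : ℝ, (j : ℝ) = 3 + t := ⟨(j : ℝ) - 3, by ring⟩
    have ht0 : 0 ≤ t := by linarith
    have hG : 0 ≤ (2 * j : ℝ) ^ 2 * (16 / 9 * e) + 2048 * j / 105 * e := by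
      have : (0 : ℝ) ≤ j := by linarith
      positivity
    have step : 64 * ((((j + 1) / 2 : ℕ) : ℝ) - 1) *
        ((2 * j : ℝ) ^ 2 * (16 / 9 * e) + 2048 * j / 105 * e) ≤
        64 * (((j : ℝ) - 1) / 2) * ((2 * j : ℝ) ^ 2 * (16 / 9 * e) + 2048 * j / 105 * e) := by
      refine mul_le_mul_of_nonneg_right (by linarith) hG
    have hpoly : 0 ≤ (j : ℝ) * ((1004 / 105 + 2450 * t + 1654 * t ^ 2 + 256 * t ^ 3) * e) := by
      have : (0 : ℝ) ≤ j := by linarith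
      positivity
    have hgap : 484 * (j : ℝ) ^ 4 * e -
        (((16 * j + 8) * (2 * j) ^ 3 * (16 / 9 * e) +
          2048 * j / 105 * e * ((8 * j + 4) * (2 * j))) +
        64 * (((j : ℝ) - 1) / 2) * ((2 * j : ℝ) ^ 2 * (16 / 9 * e) + 2048 * j / 105 * e)) =
        (j : ℝ) * (((2308 / 9) * (j : ℝ) ^ 3 - 68608 / 105 * (j : ℝ) ^ 2 - 34816 / 63 * j +
          65536 / 105) * e) := by
      ring
    have hcub : 0 ≤ (2308 / 9) * (j : ℝ) ^ 3 - 68608 / 105 * (j : ℝ) ^ 2 - 34816 / 63 * j +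
          65536 / 105 := by
      rw [ht]
      have : (2308 / 9) * (3 + t) ^ 3 - 68608 / 105 * (3 + t) ^ 2 - 34816 / 63 * (3 + t) +
          65536 / 105 =
          (6924 - 9 * (68608 / 105) - 3 * (34816 / 63) + 65536 / 105) +
          (6924 - 6 * (68608 / 105) - 34816 / 63) * t + (2308 - 68608 / 105) * t ^ 2 +
          2308 / 9 * t ^ 3 := by ring
      rw [this]
      have a1 : (0 : ℝ) ≤ 6924 - 9 * (68608 / 105) - 3 * (34816 / 63) + 65536 / 105 := by norm_num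
      have a2 : (0 : ℝ) ≤ 6924 - 6 * (68608 / 105) - 34816 / 63 := by norm_num
      have a3 : (0 : ℝ) ≤ 2308 - 68608 / 105 := by norm_num
      positivity
    have hfin : 0 ≤ (j : ℝ) * (((2308 / 9) * (j : ℝ) ^ 3 - 68608 / 105 * (j : ℝ) ^ 2 -
        34816 / 63 * j + 65536 / 105) * e) := by
      have : (0 : ℝ) ≤ j := by linarith
      exact mul_nonneg this (mul_nonneg hcub he)
    linarith
  · have : j = 2 := by omega
    subst this
    norm_num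
    nlinarith

theorem moms_main (h1 : St_algs) (h2 : St_grds) (h3 : St_invb) : St_moms := by
  intro ι F _ _ _ j hj hcard S hS E hE htr n κ ε hn hκ hε hB4 hB2
  have hI := invt_main ι
  have hj2 : (2 : ℝ) ≤ j := by exact_mod_cast hj
  have hjpos : (0 : ℝ) < j := by linarith
  have hn2 : 2 * (j : ℝ) ≤ n := by
    rw [hn]
    exact_mod_cast hcard
  have hnpos : 0 < n := by linarith
  have hκ0 : 0 ≤ κ := by
    rw [hκ]
    positivity
  set q : ℕ := (j + 1) / 2 with hqdef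
  have hq : 1 ≤ q := by omega
  have hq1 : (1 : ℝ) ≤ q := by exact_mod_cast hq
  obtain ⟨O, hO, hmin⟩ := min_main ι F S 0 κ q E (Ric E)
  refine ⟨O, hO, ?_⟩
  set E' := act4 O E with hE'
  have hric : Ric E' = act2 O (Ric E) := hI.ric O hO E
  rw [← hric] at hmin
  have cE : IsCurv E' := hI.curv O hO E hE
  have ctr : tr2 (Ric E') = 0 := by rw [hric, hI.tr O hO, htr]
  have cS : IsSym (Ric E') := by
    intro b d
    unfold Ric
    refine Finset.sum_congr rfl fun x _ => ?_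
    rw [cE.ps x b x d]
  have b4 : Bd4 E' (4 / 3 * ε) := (h3 ι O hO).1 E _ hB4
  have b2 : Bd2 (Ric E') (n * ε) := by rw [hric]; exact (h3 ι O hO).2 (Ric E) _ hB2
  have hvar := var_main ι F S 0 κ q hq E' (Ric E') (by
    intro O' hO'
    have e1 := hmin (O' * O) (hI.mul O O' hO hO')
    rw [hE', ← hE', hric, hE', hI.comp4 O O' E, hI.comp2 O O' (Ric E)]
    rw [hE', hric] at e1
    exact e1)
  set Q : F → ℝ := fun f => QQ (wt 0 (S f)) κ E' (Ric E') with hQ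
  have hQ0 : ∀ f, 0 ≤ Q f := fun f => mom_QQ_nonneg le_rfl hκ0 (S f) E' (Ric E')
  have hsum : 0 ≤ ∑ i, ∑ l, ∑ f : F, ((q : ℝ) * Q f ^ (q - 1) * QQ2 (wt 0 (S f)) κ E' (Ric E') i l +
      (q : ℝ) * ((q : ℝ) - 1) * Q f ^ (q - 2) * QQ1 (wt 0 (S f)) κ E' (Ric E') i l ^ 2) :=
    Finset.sum_nonneg fun i _ => Finset.sum_nonneg fun l _ => hvar i l
  have hswap : ∑ i, ∑ l, ∑ f : F, ((q : ℝ) * Q f ^ (q - 1) * QQ2 (wt 0 (S f)) κ E' (Ric E') i l +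
      (q : ℝ) * ((q : ℝ) - 1) * Q f ^ (q - 2) * QQ1 (wt 0 (S f)) κ E' (Ric E') i l ^ 2) =
      ∑ f : F, ((q : ℝ) * Q f ^ (q - 1) * (∑ i, ∑ l, QQ2 (wt 0 (S f)) κ E' (Ric E') i l) +
      (q : ℝ) * ((q : ℝ) - 1) * Q f ^ (q - 2) *
        (∑ i, ∑ l, QQ1 (wt 0 (S f)) κ E' (Ric E') i l ^ 2)) := by
    have s1 : ∀ i, ∑ l, ∑ f : F, ((q : ℝ) * Q f ^ (q - 1) * QQ2 (wt 0 (S f)) κ E' (Ric E') i l +
      (q : ℝ) * ((q : ℝ) - 1) * Q f ^ (q - 2) * QQ1 (wt 0 (S f)) κ E' (Ric E') i l ^ 2) =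
      ∑ f : F, ∑ l, ((q : ℝ) * Q f ^ (q - 1) * QQ2 (wt 0 (S f)) κ E' (Ric E') i l +
      (q : ℝ) * ((q : ℝ) - 1) * Q f ^ (q - 2) * QQ1 (wt 0 (S f)) κ E' (Ric E') i l ^ 2) :=
      fun i => Finset.sum_comm
    rw [Finset.sum_congr rfl fun i _ => s1 i, Finset.sum_comm]
    refine Finset.sum_congr rfl fun f _ => ?_
    rw [Finset.mul_sum, Finset.mul_sum, ← Finset.sum_add_distrib]
    refine Finset.sum_congr rfl fun i _ => ?_
    rw [Finset.mul_sum, Finset.mul_sum, ← Finset.sum_add_distrib]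
  rw [hswap] at hsum
  set R1 : ℝ := (16 * j + 8) * (2 * j) ^ 3 * (4 / 3 * ε) ^ 2 +
    κ * (n * ε) ^ 2 * ((8 * j + 4) * (2 * j)) with hR1
  set G : ℝ := (2 * j : ℝ) ^ 2 * (4 / 3 * ε) ^ 2 + κ * (n * ε) ^ 2 with hG
  have hbound : ∀ f, (q : ℝ) * Q f ^ (q - 1) * (∑ i, ∑ l, QQ2 (wt 0 (S f)) κ E' (Ric E') i l) +
      (q : ℝ) * ((q : ℝ) - 1) * Q f ^ (q - 2) *
        (∑ i, ∑ l, QQ1 (wt 0 (S f)) κ E' (Ric E') i l ^ 2) ≤
      2 * q * ((R1 + 64 * ((q : ℝ) - 1) * G) * Q f ^ (q - 1) - 11 / 4 * n * Q f ^ q) := by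
    intro f
    refine moms_term q hq n (Q f) _ _ R1 G (hQ0 f) ?_ ?_
    · exact h1 ι j (by omega) hcard (S f) (hS f) E' cE ctr n κ (4 / 3 * ε) (n * ε) hn hκ
        (by positivity) (by positivity) b4 b2
    · have := h2 ι (S f) κ (4 / 3 * ε) (n * ε) hκ0 (by positivity) (by positivity) E' (Ric E')
        cE cS b4 b2
      rw [hS f] at this
      push_cast at this
      exact this
  have htot := hsum.trans (Finset.sum_le_sum fun f _ => hbound f)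
  rw [← Finset.mul_sum, Finset.sum_sub_distrib, ← Finset.mul_sum, ← Finset.mul_sum] at htot
  have hjn : (0 : ℝ) < 2 * q := by positivity
  have hRR : R1 + 64 * ((q : ℝ) - 1) * G ≤ 484 * (j : ℝ) ^ 4 * ε ^ 2 := by
    have hk : κ * (n * ε) ^ 2 = 2048 * j / 105 * ε ^ 2 := by
      rw [hκ]
      field_simp
    have := moms_num j hj (ε ^ 2) (sq_nonneg ε)
    rw [hR1, hG, hk]
    calc _ = _ := by ring
      _ ≤ _ := this
  have hS0 : 0 ≤ ∑ f, Q f ^ (q - 1) := Finset.sum_nonneg fun f _ => pow_nonneg (hQ0 f) _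
  have hfin : ∑ f, Q f ^ q ≤ (176 * j ^ 4 * ε ^ 2 / n) * ∑ f, Q f ^ (q - 1) := by
    have h5 := nonneg_of_mul_nonneg_right htot hjn
    have h6 : (R1 + 64 * ((q : ℝ) - 1) * G) * ∑ f, Q f ^ (q - 1) ≤
        484 * (j : ℝ) ^ 4 * ε ^ 2 * ∑ f, Q f ^ (q - 1) := mul_le_mul_of_nonneg_right hRR hS0
    have h7 : 11 / 4 * n * ∑ f, Q f ^ q ≤ 484 * (j : ℝ) ^ 4 * ε ^ 2 * ∑ f, Q f ^ (q - 1) := by
      linarith
    rw [div_mul_eq_mul_div, le_div_iff₀ hnpos]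
    nlinarith
  exact hold_main F Q _ q hq (by positivity) hQ0 hfin

end Pool.Agent.H933R2.HopfN
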