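import Pool.Agent.H933R2.HopfN.St2

set_option autoImplicit false
set_option linter.all false

/-! PURE: full contraction of a pure tensor. -/

namespace Pool.Agent.H933R2.HopfN

open Finset

lemma pure_two (a : Fin 2 → Fin 2 → ℝ) :
    a 0 0 * a 1 1 - a 0 1 * a 1 0 =
      ∑ π : Equiv.Perm (Fin 2), ((Equiv.Perm.sign π : ℤ) : ℝ) * ∏ k, a k (π k) := by
  have h1 := Matrix.det_apply' (Matrix.of (fun x y => a y x) : Matrix (Fin 2) (Fin 2) ℝ)
  rw [Matrix.det_fin_two] at h1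
  simp only [Matrix.of_apply] at h1
  rw [← h1]
  ring

lemma pure_X {ι : Type} [DecidableEq ι] (j : ℕ) (f : Pos j → ι) :
    ∑ τ : Equiv.Perm (Pos j), sg τ * ∏ i : Fin j,
      (kd (f (i, 0)) (f (τ (i, 0))) * kd (f (i, 1)) (f (τ (i, 1))) -
        kd (f (i, 0)) (f (τ (i, 1))) * kd (f (i, 1)) (f (τ (i, 0)))) =
      2 ^ j * ∑ τ : Equiv.Perm (Pos j), sg τ * ∏ p, kd (f p) (f (τ p)) := by
  have h1 : ∀ (τ : Equiv.Perm (Pos j)), ∏ i : Fin j,
      (kd (f (i, 0)) (f (τ (i, 0))) * kd (f (i, 1)) (f (τ (i, 1))) -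
        kd (f (i, 0)) (f (τ (i, 1))) * kd (f (i, 1)) (f (τ (i, 0)))) =
      ∑ π : Fin j → Equiv.Perm (Fin 2), ∏ i, (((Equiv.Perm.sign (π i) : ℤ) : ℝ) *
        ∏ k, kd (f (i, k)) (f (τ (i, π i k)))) := by
    intro τ
    have h2 : ∀ i : Fin j,
        (kd (f (i, 0)) (f (τ (i, 0))) * kd (f (i, 1)) (f (τ (i, 1))) -
        kd (f (i, 0)) (f (τ (i, 1))) * kd (f (i, 1)) (f (τ (i, 0)))) =
        ∑ π : Equiv.Perm (Fin 2), ((Equiv.Perm.sign π : ℤ) : ℝ) *
          ∏ k, kd (f (i, k)) (f (τ (i, π k))) :=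
      fun i => pure_two (fun k l => kd (f (i, k)) (f (τ (i, l))))
    rw [Finset.prod_congr rfl (fun i _ => h2 i)]
    rw [Finset.prod_univ_sum, Fintype.piFinset_univ]
  simp_rw [h1, Finset.mul_sum]
  rw [Finset.sum_comm]
  have h3 : ∀ π : Fin j → Equiv.Perm (Fin 2),
      ∑ τ : Equiv.Perm (Pos j), sg τ * ∏ i, (((Equiv.Perm.sign (π i) : ℤ) : ℝ) *
        ∏ k, kd (f (i, k)) (f (τ (i, π i k)))) =
      ∑ τ : Equiv.Perm (Pos j), sg τ * ∏ p, kd (f p) (f (τ p)) := by
    intro π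
    rw [← Equiv.sum_comp (Equiv.mulRight (Equiv.prodCongrRight π : Equiv.Perm (Pos j)))
      (fun τ : Equiv.Perm (Pos j) => sg τ * ∏ p, kd (f p) (f (τ p)))]
    refine Finset.sum_congr rfl fun τ _ => ?_
    have h4 : sg (τ * (Equiv.prodCongrRight π : Equiv.Perm (Pos j))) =
        sg τ * ∏ i, ((Equiv.Perm.sign (π i) : ℤ) : ℝ) := by
      unfold sg
      rw [Equiv.Perm.sign_mul, Equiv.Perm.sign_prodCongrRight]
      push_cast
      rfl
    rw [Equiv.coe_mulRight]
    simp only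
    rw [h4, Finset.prod_mul_distrib, mul_assoc]
    congr 2
    rw [Fintype.prod_prod_type]
    rfl
  rw [Finset.sum_congr rfl (fun π _ => h3 π), Finset.sum_const, Finset.card_univ, nsmul_eq_mul]
  rw [← Finset.mul_sum]
  congr 1
  rw [Fintype.card_fun, Fintype.card_perm, Fintype.card_fin, Fintype.card_fin]
  push_cast
  norm_num [Nat.factorial]

lemma pure_det {ι : Type} [DecidableEq ι] (j : ℕ) (f : Pos j → ι) :
    ∑ τ : Equiv.Perm (Pos j), sg τ * ∏ p, kd (f p) (f (τ p)) =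
      if Function.Injective f then 1 else 0 := by
  have h1 := Matrix.det_apply' (Matrix.of (fun x y => kd (f y) (f x)) :
    Matrix (Pos j) (Pos j) ℝ)
  simp only [Matrix.of_apply] at h1
  have h2 : ∑ τ : Equiv.Perm (Pos j), sg τ * ∏ p, kd (f p) (f (τ p)) =
      (Matrix.of (fun x y => kd (f y) (f x)) : Matrix (Pos j) (Pos j) ℝ).det := by
    rw [h1]; rfl
  rw [h2]
  split_ifs with hf
  · have h3 : (Matrix.of (fun x y => kd (f y) (f x)) : Matrix (Pos j) (Pos j) ℝ) = 1 := by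
      ext x y
      simp only [Matrix.of_apply, Matrix.one_apply, kd, hf.eq_iff]
      by_cases h : x = y
      · simp [h]
      · rw [if_neg (fun h' : y = x => h h'.symm), if_neg h]
    rw [h3, Matrix.det_one]
  · rw [Function.Injective] at hf
    push Not at hf
    obtain ⟨x, y, hxy, hne⟩ := hf
    refine Matrix.det_zero_of_row_eq hne ?_
    ext z
    simp only [Matrix.of_apply, hxy]

theorem pure_main : St_pure := by
  intro ι _ _ j t
  have h1 : ∀ f : Pos j → ι, ∑ τ : Equiv.Perm (Pos j),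
      sg τ * ∏ i : Fin j, (fun a b c d => t a b * (kd a c * kd b d - kd a d * kd b c))
        (f (i, 0)) (f (i, 1)) (f (τ (i, 0))) (f (τ (i, 1))) =
      if Function.Injective f then 2 ^ j * ∏ i : Fin j, t (f (i, 0)) (f (i, 1)) else 0 := by
    intro f
    have h2 : ∀ τ : Equiv.Perm (Pos j),
        sg τ * ∏ i : Fin j, (fun a b c d => t a b * (kd a c * kd b d - kd a d * kd b c))
          (f (i, 0)) (f (i, 1)) (f (τ (i, 0))) (f (τ (i, 1))) =
        (∏ i : Fin j, t (f (i, 0)) (f (i, 1))) * (sg τ * ∏ i : Fin j,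
      (kd (f (i, 0)) (f (τ (i, 0))) * kd (f (i, 1)) (f (τ (i, 1))) -
        kd (f (i, 0)) (f (τ (i, 1))) * kd (f (i, 1)) (f (τ (i, 0))))) := by
      intro τ
      simp only
      rw [Finset.prod_mul_distrib]
      ring
    rw [Finset.sum_congr rfl (fun τ _ => h2 τ), ← Finset.mul_sum, pure_X, pure_det]
    split_ifs <;> ring
  unfold GG
  rw [Finset.sum_congr rfl (fun f _ => h1 f), ← Finset.sum_filter, Finset.mul_sum]
  symm
  refine Finset.sum_bij (fun (f : Pos j ↪ ι) _ => (f : Pos j → ι)) ?_ ?_ ?_ ?_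
  · intro f _
    simp only [Finset.mem_filter, Finset.mem_univ, true_and]
    exact f.injective
  · intro f _ g _ h
    exact DFunLike.coe_injective h
  · intro f hf
    simp only [Finset.mem_filter, Finset.mem_univ, true_and] at hf
    exact ⟨⟨f, hf⟩, Finset.mem_univ _, rfl⟩
  · intro f _
    rfl

end Pool.Agent.H933R2.HopfN
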