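import Pool.Agent.H933R2.HopfN.St2
import Pool.Agent.H933R2.HopfN.RES
import Pool.Agent.H933R2.HopfN.KNB

set_option autoImplicit false
set_option linter.all false

namespace Pool.Agent.H933R2.HopfN

theorem res2_add {κ : Type} [Fintype κ] (X Y : T4 κ) :
    hs4 (X + Y) ≤ 5 / 4 * hs4 X + 5 * hs4 Y := by
  unfold hs4
  simp only [Finset.mul_sum, ← Finset.sum_add_distrib]
  apply Finset.sum_le_sum; intro a _
  apply Finset.sum_le_sum; intro b _
  apply Finset.sum_le_sum; intro c _
  apply Finset.sum_le_sum; intro d _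
  simp only [Pi.add_apply]
  nlinarith [sq_nonneg (X a b c d - 4 * Y a b c d)]

theorem res2_main : St_res2 := by
  intro ι _ _ j f θ hθ W A
  have h1 : res4 f (W + kn A) = res4 f W + kn (res2 f A) := by
    rw [← res_kn]; rfl
  have h2 := res2_add (res4 f W) (kn (res2 f A))
  have h3 := res_four f θ hθ W
  have h4 := res_two f θ hθ A
  have h5 := knb_main (Pos j) (res2 f A)
  have h6 : (Fintype.card (Pos j) : ℝ) = 2 * j := by
    simp [Pos]; ring
  rw [h6] at h5
  rw [h1]
  unfold QQ
  have hj : (0:ℝ) ≤ 16 * j := by positivity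
  have h7 := mul_le_mul_of_nonneg_left h4 hj
  linarith

end Pool.Agent.H933R2.HopfN
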