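import Pool.Agent.H933R2.HopfN.St2
import Pool.Agent.H933R2.HopfN.EXPAND
import Pool.Agent.H933R2.HopfN.CONTR

set_option autoImplicit false
set_option linter.all false

/-!
SHARP: sharpness of the L2 theorem.
-/

namespace Pool.Agent.H933R2.HopfN

theorem sharp_kd_self {ι : Type} [DecidableEq ι] (a : ι) : kd a a = 1 := if_pos rfl

theorem sharp_kd_ne {ι : Type} [DecidableEq ι] {a b : ι} (h : a ≠ b) : kd a b = 0 := if_neg h

theorem sharp_kd_comm {ι : Type} [DecidableEq ι] (a b : ι) : kd a b = kd b a := by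
  unfold kd
  by_cases h : a = b
  · rw [if_pos h, if_pos h.symm]
  · rw [if_neg h, if_neg (Ne.symm h)]

/-- a factor `kd a b` allows to replace `a` by `b` -/
theorem sharp_kd_mul {ι : Type} [DecidableEq ι] (a b : ι) (F : ι → ℝ) :
    kd a b * F a = kd a b * F b := by
  by_cases h : a = b
  · rw [h]
  · rw [sharp_kd_ne h, zero_mul, zero_mul]

theorem sharp_sum_kd {ι : Type} [Fintype ι] [DecidableEq ι] (a : ι) (F : ι → ℝ) :
    ∑ b, kd a b * F b = F a := by
  rw [Finset.sum_eq_single a (fun b _ hb => by rw [sharp_kd_ne (Ne.symm hb), zero_mul])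
    (fun h => absurd (Finset.mem_univ a) h), sharp_kd_self, one_mul]

/-! ### the weights -/

theorem sharp_t6_symm (p q : Pos 3) : t6 p q = t6 q p := by
  unfold t6
  by_cases h : p = q
  · rw [if_pos h, if_pos h.symm]
  · rw [if_neg h, if_neg (Ne.symm h)]
    by_cases h' : p.1 = q.1
    · rw [if_pos h', if_pos h'.symm]
    · rw [if_neg h', if_neg (Ne.symm h')]

theorem sharp_t6_row (p : Pos 3) : ∑ q, t6 p q = 0 := by
  rw [Fintype.sum_prod_type]
  obtain ⟨i, l⟩ := p
  fin_cases i <;> fin_cases l <;>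
    simp [t6, Fin.sum_univ_succ, Prod.ext_iff] <;> norm_num

theorem sharp_t6_sq : ∑ p, ∑ q, t6 p q ^ 2 = 120 := by
  rw [Fintype.sum_prod_type]
  simp [t6, Fintype.sum_prod_type, Fin.sum_univ_succ, Prod.ext_iff]
  norm_num

variable {ι : Type} [Fintype ι] [DecidableEq ι]

/-- the weights on `ι` -/
def sharp_t (g : Pos 3 ↪ ι) : T2 ι :=
  fun a b => ∑ p, ∑ q, kd a (g p) * (kd b (g q) * t6 p q)

theorem sharp_t_apply (g : Pos 3 ↪ ι) (p q : Pos 3) : sharp_t g (g p) (g q) = t6 p q := by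
  unfold sharp_t
  rw [Finset.sum_eq_single p, Finset.sum_eq_single q, sharp_kd_self, sharp_kd_self, one_mul,
    one_mul]
  · intro q' _ h
    rw [sharp_kd_ne (a := g q) (b := g q') (fun h' => h (g.injective h').symm), zero_mul, mul_zero]
  · intro h; exact absurd (Finset.mem_univ _) h
  · intro p' _ h
    refine Finset.sum_eq_zero fun q' _ => ?_
    rw [sharp_kd_ne (a := g p) (b := g p') (fun h' => h (g.injective h').symm), zero_mul]
  · intro h; exact absurd (Finset.mem_univ _) h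

theorem sharp_t_symm (g : Pos 3 ↪ ι) (a b : ι) : sharp_t g b a = sharp_t g a b := by
  unfold sharp_t
  rw [Finset.sum_comm]
  refine Finset.sum_congr rfl fun p _ => Finset.sum_congr rfl fun q _ => ?_
  rw [sharp_t6_symm q p]
  ring

theorem sharp_t_left (g : Pos 3 ↪ ι) {a : ι} (h : ∀ p, g p ≠ a) (b : ι) : sharp_t g a b = 0 := by
  unfold sharp_t
  refine Finset.sum_eq_zero fun p _ => Finset.sum_eq_zero fun q _ => ?_
  rw [sharp_kd_ne (Ne.symm (h p)), zero_mul]

theorem sharp_t_right (g : Pos 3 ↪ ι) {b : ι} (h : ∀ p, g p ≠ b) (a : ι) : sharp_t g a b = 0 := by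
  rw [sharp_t_symm]
  exact sharp_t_left g h a

theorem sharp_t_self (g : Pos 3 ↪ ι) (a : ι) : sharp_t g a a = 0 := by
  by_cases h : ∃ p, g p = a
  · obtain ⟨p, rfl⟩ := h
    rw [sharp_t_apply]
    exact if_pos rfl
  · push Not at h
    exact sharp_t_left g h a

theorem sharp_sum_range (g : Pos 3 ↪ ι) (F : ι → ℝ) (hF : ∀ a, (∀ p, g p ≠ a) → F a = 0) :
    ∑ a, F a = ∑ p, F (g p) := by
  rw [← Finset.sum_map Finset.univ g F]
  symm
  refine Finset.sum_subset (Finset.subset_univ _) fun a _ ha => hF a fun p hp => ha ?_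
  exact Finset.mem_map.mpr ⟨p, Finset.mem_univ p, hp⟩

theorem sharp_t_row (g : Pos 3 ↪ ι) (a : ι) : ∑ b, sharp_t g a b = 0 := by
  by_cases h : ∃ p, g p = a
  · obtain ⟨p, rfl⟩ := h
    rw [sharp_sum_range g _ fun b hb => sharp_t_right g hb _]
    simp only [sharp_t_apply]
    exact sharp_t6_row p
  · push Not at h
    exact Finset.sum_eq_zero fun b _ => sharp_t_left g h b

theorem sharp_t_sq (g : Pos 3 ↪ ι) : ∑ a, ∑ b, sharp_t g a b ^ 2 = 120 := by
  rw [sharp_sum_range g _ fun a ha => Finset.sum_eq_zero fun b _ => by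
    rw [sharp_t_left g ha b]; norm_num]
  rw [← sharp_t6_sq]
  refine Finset.sum_congr rfl fun p _ => ?_
  rw [sharp_sum_range g _ fun b hb => by rw [sharp_t_right g hb]; norm_num]
  simp only [sharp_t_apply]

/-! ### pure tensors -/

/-- the pure tensor with weights `t` -/
def sharp_E (t : T2 ι) : T4 ι := fun a b c d => t a b * (kd a c * kd b d - kd a d * kd b c)

theorem sharp_curv {t : T2 ι} (ht : ∀ a b, t b a = t a b) : IsCurv (sharp_E t) := by
  refine ⟨fun a b c d => ?_, fun a b c d => ?_, fun a b c d => ?_, fun a b c d => ?_⟩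
  · unfold sharp_E
    rw [ht a b]
    ring
  · unfold sharp_E
    ring
  · unfold sharp_E
    have h1 : kd c a * (kd d b * t c d) = kd c a * (kd d b * t a b) := by
      rw [sharp_kd_mul d b (fun x => t c x), sharp_kd_mul c a (fun x => kd d b * t x b)]
    have h2 : kd c b * (kd d a * t c d) = kd c b * (kd d a * t a b) := by
      rw [sharp_kd_mul d a (fun x => t c x), sharp_kd_mul c b (fun x => kd d a * t x a), ht a b]
    rw [sharp_kd_comm a c, sharp_kd_comm b d, sharp_kd_comm a d, sharp_kd_comm b c]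
    linear_combination h1 - h2
  · unfold sharp_E
    have h1 : kd b d * t a b = kd b d * t a d := sharp_kd_mul b d (fun x => t a x)
    have h2 : kd b c * t a b = kd b c * t a c := sharp_kd_mul b c (fun x => t a x)
    have h3 : kd c d * t a c = kd c d * t a d := sharp_kd_mul c d (fun x => t a x)
    rw [sharp_kd_comm c b, sharp_kd_comm d c, sharp_kd_comm d b]
    linear_combination kd a c * h1 - kd a d * h2 - kd a b * h3

theorem sharp_ric {t : T2 ι} (ht : ∀ a b, t b a = t a b) (h0 : ∀ a, t a a = 0)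
    (hr : ∀ a, ∑ b, t a b = 0) (b d : ι) : Ric (sharp_E t) b d = 0 := by
  unfold Ric sharp_E
  have h1 : ∀ x, t x b * (kd x x * kd b d - kd x d * kd b x) = kd b d * t b x := by
    intro x
    rw [sharp_kd_self, one_mul]
    have h2 : kd b x * t x b = 0 := by
      rw [← sharp_kd_mul b x (fun y => t y b), h0, mul_zero]
    rw [← ht b x]
    linear_combination (-kd x d) * h2
  rw [Finset.sum_congr rfl fun x _ => h1 x, ← Finset.mul_sum, hr, mul_zero]

theorem sharp_kd_sq (a b : ι) : kd a b ^ 2 = kd a b := by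
  unfold kd
  split_ifs <;> norm_num

theorem sharp_kd_nonneg (a b : ι) : 0 ≤ kd a b := by
  unfold kd
  split_ifs <;> norm_num

theorem sharp_hs (t : T2 ι) : hs4 (sharp_E t) ≤ 2 * ∑ a, ∑ b, t a b ^ 2 := by
  unfold hs4 sharp_E
  rw [Finset.mul_sum]
  refine Finset.sum_le_sum fun a _ => ?_
  rw [Finset.mul_sum]
  refine Finset.sum_le_sum fun b _ => ?_
  have h1 : ∀ c d, (t a b * (kd a c * kd b d - kd a d * kd b c)) ^ 2 ≤
      t a b ^ 2 * (kd a c * (kd b d * 1) + kd b c * (kd a d * 1)) := by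
    intro c d
    rw [mul_pow]
    refine mul_le_mul_of_nonneg_left ?_ (sq_nonneg _)
    have h2 : (kd a c * kd b d - kd a d * kd b c) ^ 2 =
        kd a c ^ 2 * kd b d ^ 2 + kd a d ^ 2 * kd b c ^ 2 -
          2 * ((kd a c * kd b d) * (kd a d * kd b c)) := by ring
    rw [h2, sharp_kd_sq, sharp_kd_sq, sharp_kd_sq, sharp_kd_sq]
    have h3 : 0 ≤ (kd a c * kd b d) * (kd a d * kd b c) :=
      mul_nonneg (mul_nonneg (sharp_kd_nonneg _ _) (sharp_kd_nonneg _ _))
        (mul_nonneg (sharp_kd_nonneg _ _) (sharp_kd_nonneg _ _))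
    linarith
  refine (Finset.sum_le_sum fun c _ => Finset.sum_le_sum fun d _ => h1 c d).trans (le_of_eq ?_)
  have h4 : ∀ c, ∑ d, t a b ^ 2 * (kd a c * (kd b d * 1) + kd b c * (kd a d * 1)) =
      t a b ^ 2 * (kd a c * 1 + kd b c * 1) := by
    intro c
    rw [← Finset.mul_sum, Finset.sum_add_distrib, ← Finset.mul_sum, ← Finset.mul_sum,
      sharp_sum_kd b, sharp_sum_kd a]
  rw [Finset.sum_congr rfl fun c _ => h4 c, ← Finset.mul_sum, Finset.sum_add_distrib,
    sharp_sum_kd a, sharp_sum_kd b]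
  ring

/-! ### sums over embeddings -/

theorem sharp_A (g : Pos 3 ↪ ι) (j : ℕ) :
    ∑ f : Pos j ↪ ι, ∏ i, sharp_t g (f (i, 0)) (f (i, 1)) =
      ∑ f : Pos j ↪ Pos 3, ∏ i, t6 (f (i, 0)) (f (i, 1)) := by
  have hinj : Function.Injective (fun f : Pos j ↪ Pos 3 => f.trans g) := by
    intro f f' h
    ext1 x
    exact g.injective (DFunLike.congr_fun h x)
  have h1 : ∑ f : Pos j ↪ Pos 3, ∏ i, t6 (f (i, 0)) (f (i, 1)) =
      ∑ f ∈ Finset.univ.map ⟨fun f : Pos j ↪ Pos 3 => f.trans g, hinj⟩,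
        ∏ i, sharp_t g (f (i, 0)) (f (i, 1)) := by
    rw [Finset.sum_map]
    refine Finset.sum_congr rfl fun f _ => Finset.prod_congr rfl fun i _ => ?_
    exact (sharp_t_apply g _ _).symm
  rw [h1]
  symm
  refine Finset.sum_subset (Finset.subset_univ _) fun f _ hf => ?_
  have h2 : ∃ x, ∀ p, g p ≠ f x := by
    by_contra hcon
    push Not at hcon
    choose F hF using hcon
    apply hf
    refine Finset.mem_map.mpr ⟨⟨F, fun x y hxy => ?_⟩, Finset.mem_univ _, ?_⟩
    · apply f.injective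
      rw [← hF x, ← hF y, hxy]
    · ext1 x
      exact hF x
  obtain ⟨⟨i, l⟩, hx⟩ := h2
  refine Finset.prod_eq_zero (Finset.mem_univ i) ?_
  fin_cases l
  · exact sharp_t_left g hx _
  · exact sharp_t_right g hx _

theorem sharp_A_big {j : ℕ} (hj : 4 ≤ j) :
    ∑ f : Pos j ↪ Pos 3, ∏ i, t6 (f (i, 0)) (f (i, 1)) = 0 := by
  have : IsEmpty (Pos j ↪ Pos 3) := by
    refine ⟨fun f => ?_⟩
    have h := Fintype.card_le_of_embedding f
    simp only [Fintype.card_prod, Fintype.card_fin] at h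
    omega
  rw [Finset.univ_eq_empty, Finset.sum_empty]

theorem sharp_A_zero : ∑ f : Pos 0 ↪ Pos 3, ∏ i, t6 (f (i, 0)) (f (i, 1)) = 1 := by
  simp

theorem sharp_A_one : ∑ f : Pos 1 ↪ Pos 3, ∏ i, t6 (f (i, 0)) (f (i, 1)) = 0 := by
  have h1 : ∑ f : Pos 1 ↪ Pos 3, ∏ i, t6 (f (i, 0)) (f (i, 1)) =
      ∑ p ∈ (Finset.univ : Finset (Pos 3)).offDiag, t6 p.1 p.2 := by
    refine Finset.sum_bij' (fun f _ => (f (0, 0), f (0, 1)))
      (fun p hp => ⟨fun x => if x.2 = 0 then p.1 else p.2, ?_⟩) ?_ ?_ ?_ ?_ ?_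
    · have hne : p.1 ≠ p.2 := (Finset.mem_offDiag.mp hp).2.2
      rintro ⟨i, l⟩ ⟨i', l'⟩ h
      have hi : i = i' := Subsingleton.elim _ _
      subst hi
      fin_cases l <;> fin_cases l'
      · rfl
      · exact absurd h hne
      · exact absurd h.symm hne
      · rfl
    · intro f _
      rw [Finset.mem_offDiag]
      refine ⟨Finset.mem_univ _, Finset.mem_univ _, fun h => ?_⟩
      have h2 := f.injective h
      simp at h2
    · intro p hp
      exact Finset.mem_univ _
    · intro f _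
      ext1 x
      obtain ⟨i, l⟩ := x
      have hi : i = 0 := Subsingleton.elim _ _
      subst hi
      fin_cases l
      · rfl
      · rfl
    · intro p hp
      rfl
    · intro f _
      rw [Fin.prod_univ_one]
  rw [h1]
  have h2 : ∑ p ∈ (Finset.univ : Finset (Pos 3)).offDiag, t6 p.1 p.2 =
      ∑ p : Pos 3 × Pos 3, t6 p.1 p.2 := by
    refine Finset.sum_subset (Finset.subset_univ _) fun p _ hp => ?_
    rw [Finset.mem_offDiag] at hp
    have : p.1 = p.2 := by
      by_contra h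
      exact hp ⟨Finset.mem_univ _, Finset.mem_univ _, h⟩
    exact if_pos this
  rw [h2, Fintype.sum_prod_type]
  exact Finset.sum_eq_zero fun p _ => sharp_t6_row p

theorem sharp_choose_three (M : ℕ) :
    (((M + 3).choose 3 : ℕ) : ℝ) * 6 = ((M : ℝ) + 3) * (M + 2) * (M + 1) := by
  have h := Nat.descFactorial_eq_factorial_mul_choose (M + 3) 3
  have h1 : (M + 3).descFactorial 3 = (M + 3) * (M + 2) * (M + 1) := by
    simp only [Nat.descFactorial_succ, Nat.descFactorial_zero]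
    have e1 : M + 3 - 2 = M + 1 := by omega
    have e2 : M + 3 - 1 = M + 2 := by omega
    rw [e1, e2, Nat.sub_zero]
    ring
  rw [h1] at h
  have h2 : (((M + 3) * (M + 2) * (M + 1) : ℕ) : ℝ) =
      ((Nat.factorial 3 * (M + 3).choose 3 : ℕ) : ℝ) := by rw [h]
  push_cast at h2
  rw [h2]
  norm_num [Nat.factorial]
  ring

theorem sharp_choose_two (M : ℕ) :
    (((M + 3).choose 2 : ℕ) : ℝ) * 2 = ((M : ℝ) + 3) * (M + 2) := by
  rw [Nat.cast_choose_two]
  push_cast
  ring

theorem sharp_fact (M : ℕ) : ((Nat.factorial (2 * M + 6) : ℕ) : ℝ) =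
    (2 * M + 6) * (2 * M + 5) * (2 * M + 4) * (2 * M + 3) * ((2 * M + 2) * (2 * M + 1) *
      (Nat.factorial (2 * M) : ℝ)) := by
  simp only [Nat.factorial_succ]
  push_cast
  ring

theorem sharp_fact' (M : ℕ) : ((Nat.factorial (2 * M + 2) : ℕ) : ℝ) =
    (2 * M + 2) * (2 * M + 1) * (Nat.factorial (2 * M) : ℝ) := by
  simp only [Nat.factorial_succ]
  push_cast
  ring

theorem sharp_main (h1 : St_pure) (h2 : St_six) : St_sharp := by
  intro m hm ι _ _ hc
  obtain ⟨M, rfl⟩ : ∃ M, m = M + 3 := ⟨m - 3, by omega⟩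
  have hg : Nonempty (Pos 3 ↪ ι) := Function.Embedding.nonempty_of_card_le (by
    rw [hc]
    simp only [Fintype.card_prod, Fintype.card_fin]
    omega)
  obtain ⟨g⟩ := hg
  set c : ℝ := -(2 * M + 1) with hcdef
  set t : T2 ι := fun a b => c * sharp_t g a b with ht
  have hts : ∀ a b, t b a = t a b := fun a b => by rw [ht]; simp only [sharp_t_symm]
  have ht0 : ∀ a, t a a = 0 := fun a => by rw [ht]; simp only [sharp_t_self, mul_zero]
  have htr : ∀ a, ∑ b, t a b = 0 := fun a => by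
    rw [ht]
    simp only
    rw [← Finset.mul_sum, sharp_t_row, mul_zero]
  have hM : (0 : ℝ) ≤ M := Nat.cast_nonneg M
  refine ⟨sharp_E t, sharp_curv hts, sharp_ric hts ht0 htr, ?_, ?_⟩
  · refine (sharp_hs t).trans ?_
    have h3 : ∑ a, ∑ b, t a b ^ 2 = c ^ 2 * 120 := by
      rw [← sharp_t_sq g, Finset.mul_sum]
      refine Finset.sum_congr rfl fun a _ => ?_
      rw [Finset.mul_sum]
      refine Finset.sum_congr rfl fun b _ => ?_
      rw [ht]
      ring
    rw [h3, hcdef]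
    push_cast
    nlinarith
  · have hG : ∀ j, GG j (sharp_E t) =
        2 ^ j * (c ^ j * ∑ f : Pos j ↪ Pos 3, ∏ i, t6 (f (i, 0)) (f (i, 1))) := by
      intro j
      have h3 := h1 ι j t
      rw [← sharp_A g j]
      refine h3.trans ?_
      congr 1
      rw [Finset.mul_sum]
      refine Finset.sum_congr rfl fun f _ => ?_
      rw [ht, Finset.prod_mul_distrib, Finset.prod_const, Finset.card_univ, Fintype.card_fin]
    have h3 := expand_main contr_main (M + 3) ι hc 1 (sharp_E t)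
    simp only [one_mul, mul_one] at h3
    rw [h3]
    have h4 : ∑ j ∈ Finset.range (M + 3 + 1), ((M + 3).choose j : ℝ) * 2 ^ (M + 3 - j) *
        ((2 * (M + 3) - 2 * j).factorial : ℝ) * GG j (sharp_E t) =
        ∑ j ∈ Finset.range 4, ((M + 3).choose j : ℝ) * 2 ^ (M + 3 - j) *
        ((2 * (M + 3) - 2 * j).factorial : ℝ) * GG j (sharp_E t) := by
      symm
      refine Finset.sum_subset (Finset.range_mono (by omega)) fun j _ hj => ?_
      rw [hG, sharp_A_big (by simpa using hj), mul_zero, mul_zero, mul_zero]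
    rw [h4, Finset.sum_range_succ, Finset.sum_range_succ, Finset.sum_range_succ,
      Finset.sum_range_one, hG 0, hG 1, hG 2, hG 3, sharp_A_zero, sharp_A_one, h2.1, h2.2]
    have e0 : 2 * (M + 3) - 2 * 0 = 2 * M + 6 := by omega
    have e2 : 2 * (M + 3) - 2 * 2 = 2 * M + 2 := by omega
    have e3 : 2 * (M + 3) - 2 * 3 = 2 * M := by omega
    have p2 : M + 3 - 2 = M + 1 := by omega
    have p3 : M + 3 - 3 = M := by omega
    rw [e0, e2, e3, p2, p3, sharp_fact, sharp_fact', Nat.choose_zero_right, Nat.sub_zero]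
    have c2 := sharp_choose_two M
    have c3 := sharp_choose_three M
    set C2 : ℝ := ((M + 3).choose 2 : ℝ) with hC2
    set C3 : ℝ := ((M + 3).choose 3 : ℝ) with hC3
    have c2' : C2 = ((M : ℝ) + 3) * (M + 2) / 2 := by linarith
    have c3' : C3 = ((M : ℝ) + 3) * (M + 2) * (M + 1) / 6 := by linarith
    rw [c2', c3', hcdef]
    have hfac : (0 : ℝ) < (Nat.factorial (2 * M) : ℝ) := by exact_mod_cast Nat.factorial_pos _
    set X : ℝ := (Nat.factorial (2 * M) : ℝ) with hX
    have hpow : (0 : ℝ) < 2 ^ M := by positivity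
    have key : ((1 : ℕ) : ℝ) * 2 ^ (M + 3) * ((2 * M + 6) * (2 * M + 5) * (2 * M + 4) *
        (2 * M + 3) * ((2 * M + 2) * (2 * M + 1) * X)) * (2 ^ 0 * ((-(2 * M + 1)) ^ 0 * 1)) +
        ((M + 3).choose 1 : ℝ) * 2 ^ (M + 3 - 1) * ((2 * (M + 3) - 2 * 1).factorial : ℝ) *
          (2 ^ 1 * ((-(2 * M + 1)) ^ 1 * 0)) +
        ((M : ℝ) + 3) * (M + 2) / 2 * 2 ^ (M + 1) * ((2 * M + 2) * (2 * M + 1) * X) *
          (2 ^ 2 * ((-(2 * M + 1)) ^ 2 * 240)) +
        ((M : ℝ) + 3) * (M + 2) * (M + 1) / 6 * 2 ^ M * X *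
          (2 ^ 3 * ((-(2 * M + 1)) ^ 3 * 3840)) =
        - (2 ^ M * X * (8 * (2 * M + 6) * (2 * M + 4) * (2 * M + 2) * (2 * M + 1)) *
          (50 * (2 * M + 1) ^ 2 - (2 * M + 5) * (2 * M + 3))) := by
      push_cast
      ring
    refine lt_of_eq_of_lt key ?_
    have hpos : (0 : ℝ) < 50 * (2 * M + 1) ^ 2 - (2 * M + 5) * (2 * M + 3) := by nlinarith
    have hpos2 : (0 : ℝ) < 8 * (2 * M + 6) * (2 * M + 4) * (2 * M + 2) * (2 * M + 1) := by
      positivity
    have : (0 : ℝ) < 2 ^ M * X * (8 * (2 * M + 6) * (2 * M + 4) * (2 * M + 2) * (2 * M + 1)) *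
          (50 * (2 * M + 1) ^ 2 - (2 * M + 5) * (2 * M + 3)) := by positivity
    linarith

end Pool.Agent.H933R2.HopfN
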