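import Pool.Agent.H933R2.HopfN.St2

/-! # SIX: two numbers -/

set_option autoImplicit false

namespace Pool.Agent.H933R2.HopfN

/-- integer version of `t6` -/
def six_tz (p q : Pos 3) : ℤ := if p = q then 0 else if p.1 = q.1 then 4 else -1

theorem six_cast (p q : Pos 3) : ((six_tz p q : ℤ) : ℝ) = t6 p q := by
  unfold six_tz t6
  split_ifs <;> norm_num

theorem six_z2 : ∑ f ∈ (Finset.univ : Finset (Pos 2 → Pos 3)).filter Function.Injective,
    ∏ i, six_tz (f (i, 0)) (f (i, 1)) = 240 := by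
  decide +kernel

theorem six_z3 : ∑ f : Equiv.Perm (Pos 3), ∏ i, six_tz (f (i, 0)) (f (i, 1)) = 3840 := by
  decide +kernel

theorem six_emb (F : (Pos 2 → Pos 3) → ℤ) : ∑ f : Pos 2 ↪ Pos 3, F f =
    ∑ f ∈ (Finset.univ : Finset (Pos 2 → Pos 3)).filter Function.Injective, F f := by
  refine Finset.sum_bij (fun f _ => (f : Pos 2 → Pos 3)) ?_ ?_ ?_ ?_
  · intro f _
    exact Finset.mem_filter.2 ⟨Finset.mem_univ _, f.injective⟩
  · intro f _ g _ h
    exact DFunLike.coe_injective h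
  · intro g hg
    exact ⟨⟨g, (Finset.mem_filter.1 hg).2⟩, Finset.mem_univ _, rfl⟩
  · intro f _
    rfl

theorem six_main : St_six := by
  constructor
  · have h : ((∑ f : Pos 2 ↪ Pos 3, ∏ i, six_tz (f (i, 0)) (f (i, 1)) : ℤ) : ℝ) = 240 := by
      rw [six_emb (fun f => ∏ i, six_tz (f (i, 0)) (f (i, 1))), six_z2]; norm_num
    rw [← h]
    push_cast
    simp only [six_cast]
  · have h : ((∑ f : Equiv.Perm (Pos 3), ∏ i, six_tz (f (i, 0)) (f (i, 1)) : ℤ) : ℝ) = 3840 := by
      rw [six_z3]; norm_num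
    rw [← h]
    push_cast
    simp only [six_cast]
    refine Fintype.sum_equiv (Equiv.embeddingEquivOfFinite (Pos 3)) _ _ (fun f => ?_)
    have e : ∀ x, (Equiv.embeddingEquivOfFinite (Pos 3) f) x = f x := by
      intro x
      rw [Equiv.embeddingEquivOfFinite_apply]
      rfl
    simp only [e]

end Pool.Agent.H933R2.HopfN
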