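import Pool.Agent.H933R2.HopfN.St2
import Pool.Agent.H933R2.HopfN.SPEC

set_option autoImplicit false
set_option linter.all false

namespace Pool.Agent.H933R2.HopfN

open Matrix

theorem spec2_aux {P : Type} [Fintype P] [DecidableEq P] (lam : P × P → ℝ)
    (U : Matrix (P × P) (P × P) ℝ) (hU : Uᵀ * U = 1)
    (hanti : ∀ κ a b, (if lam κ = 0 then (0 : ℝ) else U (b, a) κ) =
      - (if lam κ = 0 then (0 : ℝ) else U (a, b) κ)) (h : ℝ) (hsq : ∑ κ, lam κ ^ 2 = h) :
    (∑ κ, |lam κ|) ^ 2 ≤ (Fintype.card P : ℝ) * ((Fintype.card P : ℝ) - 1) / 2 * h := by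
  classical
  set v : P × P → P × P → ℝ := fun κ i => if lam κ = 0 then 0 else U i κ with hv
  have hva : ∀ κ a b, v κ (b, a) = - v κ (a, b) := hanti
  have hunit : ∀ κ, ∑ i, U i κ ^ 2 = 1 := by
    intro κ
    have h1 := congrFun (congrFun hU κ) κ
    rw [Matrix.mul_apply, Matrix.one_apply_eq] at h1
    rw [← h1]
    refine Finset.sum_congr rfl (fun i _ => ?_)
    rw [Matrix.transpose_apply]; ring
  set K1 : Finset (P × P) := Finset.univ.filter (fun κ => lam κ ≠ 0) with hK1
  set z : P × P → ℝ := fun i => ∑ κ, v κ i ^ 2 with hz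
  have hz0 : ∀ i, 0 ≤ z i := fun i => Finset.sum_nonneg fun κ _ => sq_nonneg _
  have hcard : (K1.card : ℝ) = ∑ i, z i := by
    simp only [hz]
    rw [Finset.sum_comm]
    rw [Finset.card_eq_sum_ones, hK1, Finset.sum_filter]
    push_cast
    refine Finset.sum_congr rfl (fun κ _ => ?_)
    by_cases h0 : lam κ = 0
    · simp [hv, h0]
    · simp only [hv, h0, if_false, ne_eq, not_false_eq_true, if_true]
      exact (hunit κ).symm
  have hdiag : ∀ a, z (a, a) = 0 := by
    intro a
    simp only [hz]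
    refine Finset.sum_eq_zero (fun κ _ => ?_)
    have := hva κ a a
    have h0 : v κ (a, a) = 0 := by linarith
    rw [h0]; ring
  have hoff : ∀ a b, a ≠ b → z (a, b) ≤ 1 / 2 := by
    intro a b hab
    have hB := spec_aux2 U hU (fun κ => v κ (a, b))
    have e : ∀ i, (∑ κ, v κ (a, b) * U i κ) = ∑ κ, v κ (a, b) * v κ i := by
      intro i
      refine Finset.sum_congr rfl (fun κ _ => ?_)
      by_cases h0 : lam κ = 0
      · simp [hv, h0]
      · simp [hv, h0]
    simp only [e] at hB
    have hB' : ∑ i, (∑ κ, v κ (a, b) * v κ i) ^ 2 = z (a, b) := hB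
    have hne : ((a, b) : P × P) ≠ (b, a) := by
      intro h1
      exact hab (Prod.mk.inj h1).1
    have h2 : ∑ i ∈ ({(a, b), (b, a)} : Finset (P × P)), (∑ κ, v κ (a, b) * v κ i) ^ 2 ≤
        ∑ i, (∑ κ, v κ (a, b) * v κ i) ^ 2 :=
      Finset.sum_le_univ_sum_of_nonneg (fun i => sq_nonneg _)
    rw [Finset.sum_pair hne, hB'] at h2
    have e1 : (∑ κ, v κ (a, b) * v κ (a, b)) = z (a, b) := by
      simp only [hz]
      exact Finset.sum_congr rfl (fun κ _ => by ring)
    have e2 : (∑ κ, v κ (a, b) * v κ (b, a)) = - z (a, b) := by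
      simp only [hz]
      rw [← Finset.sum_neg_distrib]
      exact Finset.sum_congr rfl (fun κ _ => by rw [hva]; ring)
    rw [e1, e2] at h2
    have h3 := hz0 (a, b)
    by_contra hcon
    push Not at hcon
    nlinarith
  have hle : ∑ i, z i ≤ (Fintype.card P : ℝ) * ((Fintype.card P : ℝ) - 1) / 2 := by
    rw [Fintype.sum_prod_type]
    have h1 : ∀ a, ∑ b, z (a, b) ≤ ((Fintype.card P : ℝ) - 1) / 2 := by
      intro a
      have h2 : ∀ b, z (a, b) ≤ if b = a then (0 : ℝ) else 1 / 2 := by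
        intro b
        by_cases hb : b = a
        · subst hb
          simp [hdiag]
        · rw [if_neg hb]
          exact hoff a b (fun h => hb h.symm)
      refine (Finset.sum_le_sum (fun b _ => h2 b)).trans ?_
      have h3 : ∀ b, (if b = a then (0 : ℝ) else 1 / 2) = 1 / 2 - if b = a then (1 / 2 : ℝ) else 0 := by
        intro b
        by_cases hb : b = a
        · simp [hb]
        · simp [hb]
      simp only [h3]
      rw [Finset.sum_sub_distrib, Finset.sum_const, Finset.sum_ite_eq' Finset.univ a]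
      simp only [Finset.mem_univ, if_true, Finset.card_univ, nsmul_eq_mul]
      apply le_of_eq; ring
    refine (Finset.sum_le_sum (fun a _ => h1 a)).trans ?_
    rw [Finset.sum_const, Finset.card_univ, nsmul_eq_mul]
    apply le_of_eq; ring
  have hs : ∑ κ, |lam κ| = ∑ κ ∈ K1, |lam κ| := by
    rw [hK1, Finset.sum_filter]
    refine Finset.sum_congr rfl (fun κ _ => ?_)
    by_cases h0 : lam κ = 0
    · simp [h0]
    · simp [h0]
  have hs2 : ∑ κ ∈ K1, |lam κ| ^ 2 ≤ h := by
    rw [← hsq]
    refine (Finset.sum_le_univ_sum_of_nonneg (fun κ => sq_nonneg _)).trans ?_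
    simp only [sq_abs]
    exact le_rfl
  have h0 : 0 ≤ h := by
    rw [← hsq]
    exact Finset.sum_nonneg fun κ _ => sq_nonneg _
  calc (∑ κ, |lam κ|) ^ 2 = (∑ κ ∈ K1, |lam κ|) ^ 2 := by rw [hs]
    _ ≤ (K1.card : ℝ) * ∑ κ ∈ K1, |lam κ| ^ 2 := sq_sum_le_card_mul_sum_sq
    _ ≤ (K1.card : ℝ) * h := mul_le_mul_of_nonneg_left hs2 (Nat.cast_nonneg _)
    _ ≤ _ := by
      apply mul_le_mul_of_nonneg_right _ h0
      rw [hcard]
      exact hle

theorem spec2_main : St_spec2 := by
  intro P _ _ T hT1 hT2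
  obtain ⟨lam, U, hM, hU⟩ := spec_aux1 (I := P × P)
    (Matrix.of (fun i j : P × P => T i.1 i.2 j.1 j.2)) (by
      ext i j
      simp only [Matrix.transpose_apply, Matrix.of_apply]
      exact hT2 _ _ _ _)
  set M : Matrix (P × P) (P × P) ℝ := Matrix.of (fun i j : P × P => T i.1 i.2 j.1 j.2) with hMdef
  have hMU : M * U = U * Matrix.diagonal lam := by
    rw [hM, Matrix.mul_assoc, hU, Matrix.mul_one]
  have hMU' : ∀ i κ, lam κ * U i κ = ∑ j, M i j * U j κ := by
    intro i κ
    have := congrFun (congrFun hMU i) κ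
    rw [Matrix.mul_diagonal, Matrix.mul_apply] at this
    rw [this]; ring
  have hMe : ∀ i j, M i j = ∑ κ, lam κ * U i κ * U j κ := by
    intro i j
    have := congrFun (congrFun hM i) j
    rw [Matrix.mul_apply] at this
    rw [this]
    refine Finset.sum_congr rfl (fun κ _ => ?_)
    rw [Matrix.mul_diagonal, Matrix.transpose_apply]; ring
  have hsq : ∑ κ, lam κ ^ 2 = hs4 T := by
    have h1 : hs4 T = ∑ i, ∑ j, M i j ^ 2 := by
      unfold hs4
      rw [Fintype.sum_prod_type]
      refine Finset.sum_congr rfl (fun a _ => Finset.sum_congr rfl (fun b _ => ?_))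
      rw [Fintype.sum_prod_type]
      rfl
    have h2 : ∑ i, ∑ j, M i j ^ 2 = Matrix.trace (M * Mᵀ) := by
      unfold Matrix.trace
      refine Finset.sum_congr rfl (fun a _ => ?_)
      rw [Matrix.diag_apply, Matrix.mul_apply]
      refine Finset.sum_congr rfl (fun b _ => ?_)
      rw [Matrix.transpose_apply]; ring
    rw [h1, h2, hM]
    simp only [Matrix.transpose_mul, Matrix.transpose_transpose, Matrix.diagonal_transpose]
    rw [show U * Matrix.diagonal lam * Uᵀ * (U * (Matrix.diagonal lam * Uᵀ)) =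
      U * (Matrix.diagonal lam * (Uᵀ * U) * Matrix.diagonal lam * Uᵀ) by
        simp only [Matrix.mul_assoc], hU, Matrix.mul_one, Matrix.trace_mul_comm,
      Matrix.mul_assoc, hU, Matrix.mul_one, Matrix.diagonal_mul_diagonal, Matrix.trace_diagonal]
    exact Finset.sum_congr rfl (fun κ _ => by ring)
  have hanti : ∀ κ a b, (if lam κ = 0 then (0 : ℝ) else U (b, a) κ) =
      - (if lam κ = 0 then (0 : ℝ) else U (a, b) κ) := by
    intro κ a b
    by_cases h0 : lam κ = 0
    · simp [h0]
    · simp only [h0, if_false]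
      have h1 := hMU' (b, a) κ
      have h2 := hMU' (a, b) κ
      have h3 : ∑ j, M (b, a) j * U j κ = - ∑ j, M (a, b) j * U j κ := by
        rw [← Finset.sum_neg_distrib]
        refine Finset.sum_congr rfl (fun j _ => ?_)
        have : M (b, a) j = - M (a, b) j := hT1 _ _ _ _
        rw [this]; ring
      have h4 : lam κ * U (b, a) κ = lam κ * (- U (a, b) κ) := by
        rw [h1, h3, ← h2]; ring
      exact mul_left_cancel₀ h0 h4
  refine ⟨lam, fun κ a b => if lam κ = 0 then 0 else U (a, b) κ, ?_, hsq, hanti, ?_, ?_⟩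
  · intro a b c d
    have h := hMe (a, b) (c, d)
    have e : M (a, b) (c, d) = T a b c d := rfl
    rw [← e, h]
    refine Finset.sum_congr rfl (fun κ _ => ?_)
    by_cases h0 : lam κ = 0
    · simp [h0]
    · simp [h0]
  · intro x
    have key : ∀ i : P × P, ‖∑ κ, x κ * ((if lam κ = 0 then (0:ℝ) else U i κ : ℝ) : ℂ)‖ ^ 2 =
        (∑ κ, (if lam κ = 0 then 0 else (x κ).re) * U i κ) ^ 2 +
        (∑ κ, (if lam κ = 0 then 0 else (x κ).im) * U i κ) ^ 2 := by
      intro i
      rw [← Complex.normSq_eq_norm_sq, Complex.normSq_apply, Complex.re_sum, Complex.im_sum]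
      have e1 : ∀ κ, (x κ * ((if lam κ = 0 then (0:ℝ) else U i κ : ℝ) : ℂ)).re =
          (if lam κ = 0 then 0 else (x κ).re) * U i κ := by
        intro κ
        by_cases h0 : lam κ = 0
        · simp [h0]
        · simp [h0]
      have e2 : ∀ κ, (x κ * ((if lam κ = 0 then (0:ℝ) else U i κ : ℝ) : ℂ)).im =
          (if lam κ = 0 then 0 else (x κ).im) * U i κ := by
        intro κ
        by_cases h0 : lam κ = 0
        · simp [h0]
        · simp [h0]
      simp only [e1, e2]
      ring
    have h1 : ∑ a, ∑ b, ‖∑ κ, x κ * ((if lam κ = 0 then (0:ℝ) else U (a, b) κ : ℝ) : ℂ)‖ ^ 2 =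
        ∑ i : P × P, ‖∑ κ, x κ * ((if lam κ = 0 then (0:ℝ) else U i κ : ℝ) : ℂ)‖ ^ 2 := by
      rw [Fintype.sum_prod_type]
    rw [h1]
    simp only [key]
    rw [Finset.sum_add_distrib, spec_aux2 U hU, spec_aux2 U hU, ← Finset.sum_add_distrib]
    refine Finset.sum_le_sum (fun κ _ => ?_)
    rw [← Complex.normSq_eq_norm_sq, Complex.normSq_apply]
    by_cases h0 : lam κ = 0
    · simp only [h0, if_true]
      nlinarith [mul_self_nonneg (x κ).re, mul_self_nonneg (x κ).im]
    · simp only [h0, if_false]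
      apply le_of_eq; ring
  · exact spec2_aux lam U hU hanti (hs4 T) hsq

end Pool.Agent.H933R2.HopfN
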