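import Pool.Agent.H933R2.HopfN.St2
import Pool.Agent.H933R2.HopfN.SEC

set_option autoImplicit false
set_option linter.all false

/-!
SUPS: sup norm bounds from sectional curvature.
-/

namespace Pool.Agent.H933R2.HopfN

private lemma sups_sq {ι : Type} [Fintype ι] (x : ι → ℝ) : nr x ^ 2 = ∑ a, x a ^ 2 :=
  Real.sq_sqrt (Finset.sum_nonneg fun a _ => sq_nonneg _)

private lemma sups_nn {ι : Type} [Fintype ι] (x : ι → ℝ) : 0 ≤ nr x := Real.sqrt_nonneg _

theorem sups_main : St_sup := by
  intro ι _ _ E s hs hE h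
  have h' : ∀ x y : ι → ℝ, |∑ a, ∑ b, ∑ c, ∑ d, E a b c d * x a * y b * x c * y d| ≤
      s * (∑ a, x a ^ 2) * (∑ a, y a ^ 2) := h
  have he : ∀ b : ι, ∑ a, (Pi.single b (1 : ℝ) : ι → ℝ) a ^ 2 = 1 := by
    intro b
    rw [Finset.sum_eq_single b]
    · simp
    · intro a _ hab
      simp [Pi.single_eq_of_ne hab]
    · simp
  constructor
  · intro x y z w
    have h1 := sec_three hE hs h' x y z w
    have n1 := sups_nn x
    have n2 := sups_nn y
    have n3 := sups_nn z
    have n4 := sups_nn w
    have hnn : 0 ≤ 4 / 3 * s * (nr x * nr y * nr z * nr w) := by positivity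
    apply abs_le_of_sq_le_sq _ hnn
    have e : (4 / 3 * s * (nr x * nr y * nr z * nr w)) ^ 2 = 16 / 9 * s ^ 2 *
        ((∑ a, x a ^ 2) * (∑ a, y a ^ 2) * (∑ a, z a ^ 2) * (∑ a, w a ^ 2)) := by
      rw [← sups_sq x, ← sups_sq y, ← sups_sq z, ← sups_sq w]
      ring
    rw [e]
    exact h1
  · intro x y
    have e1 : ev2 (Ric E) x y = ∑ c, secF E (Pi.single c 1) x (Pi.single c 1) y := by
      have e2 : ∀ c : ι, secF E (Pi.single c 1) x (Pi.single c 1) y =
          ∑ b, ∑ d, E c b c d * x b * y d := by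
        intro c
        unfold secF
        rw [Finset.sum_eq_single c]
        · refine Finset.sum_congr rfl fun b _ => ?_
          rw [Finset.sum_eq_single c]
          · refine Finset.sum_congr rfl fun d _ => ?_
            simp
          · intro c' _ hc; simp [Pi.single_eq_of_ne hc]
          · simp
        · intro a' _ ha; simp [Pi.single_eq_of_ne ha]
        · simp
      rw [Finset.sum_congr rfl fun c _ => e2 c]
      unfold ev2 Ric
      simp only [Finset.sum_mul]
      rw [← sec_cyc (fun a b c => E a b a c * x b * y c), ← sec_cyc (fun a b c => E b c b a * x c * y a)]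
    have h1 : ∀ c : ι, |secF E (Pi.single c 1) x (Pi.single c 1) y| ≤ s * (nr x * nr y) := by
      intro c
      have h2 := sec_one hE hs h' (Pi.single c 1) x y
      rw [he] at h2
      have hnn : 0 ≤ s * (nr x * nr y) := mul_nonneg hs (mul_nonneg (sups_nn x) (sups_nn y))
      apply abs_le_of_sq_le_sq _ hnn
      have e : (s * (nr x * nr y)) ^ 2 = (s * 1) ^ 2 * (∑ a, x a ^ 2) * (∑ a, y a ^ 2) := by
        rw [← sups_sq x, ← sups_sq y]
        ring
      rw [e]
      exact h2
    rw [e1]
    refine (Finset.abs_sum_le_sum_abs _ _).trans ?_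
    refine (Finset.sum_le_sum fun c _ => h1 c).trans ?_
    simp only [Finset.sum_const, Finset.card_univ, nsmul_eq_mul]
    apply le_of_eq
    ring

end Pool.Agent.H933R2.HopfN
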