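import Pool.Agent.H933R2.HopfN.St2
import Pool.Agent.H933R2.HopfN.INV
import Pool.Agent.H933R2.HopfN.EMB
import Pool.Agent.H933R2.HopfN.INVT

/-!
TERM2: bound of one term of the expansion, L2 version with good constants.
-/

set_option autoImplicit false
set_option linter.all false

namespace Pool.Agent.H933R2.HopfN

theorem term2_hs4_nonneg {ι : Type} [Fintype ι] (R : T4 ι) : 0 ≤ hs4 R := by
  unfold hs4
  positivity

theorem term2_hs2_nonneg {ι : Type} [Fintype ι] (A : T2 ι) : 0 ≤ hs2 A := by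
  unfold hs2
  positivity

theorem term2_res_curv {ι κ : Type} (f : κ → ι) (R : T4 ι) (h : IsCurv R) : IsCurv (res4 f R) :=
  ⟨fun a b c d => h.a1 _ _ _ _, fun a b c d => h.a2 _ _ _ _, fun a b c d => h.ps _ _ _ _,
    fun a b c d => h.bi _ _ _ _⟩

theorem term2_QQ_one {ι : Type} [Fintype ι] [DecidableEq ι] (S : Finset ι) (κ : ℝ) (E : T4 ι) :
    QQ (wt 1 S) κ E 0 = hs4 E := by
  have hw : ∀ a, wt 1 S a = 1 := fun a => by simp [wt]
  unfold QQ Q4 Q2 ip4 ip2 hs4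
  simp only [hw]
  simp [pow_two]

theorem term2_kn_zero {ι : Type} [DecidableEq ι] : (kn (0 : T2 ι)) = 0 := by
  funext a b c d
  simp [kn]

/-- weighted AM-GM -/
theorem term2_amgm (y b : ℝ) (hy : 0 ≤ y) (hb : 0 ≤ b) (j : ℕ) :
    0 ≤ j * y ^ (j + 1) + b ^ (j + 1) - (j + 1) * (y ^ j * b) := by
  induction j with
  | zero => simp
  | succ j ih =>
    have h1 : ((j + 1 : ℕ) : ℝ) * y ^ (j + 1 + 1) + b ^ (j + 1 + 1) -
        (((j + 1 : ℕ) : ℝ) + 1) * (y ^ (j + 1) * b) =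
        b * (j * y ^ (j + 1) + b ^ (j + 1) - (j + 1) * (y ^ j * b)) +
          (j + 1) * (y ^ j * (y - b) ^ 2) := by
      push_cast
      ring
    rw [h1]
    have : (0 : ℝ) ≤ (j + 1) * (y ^ j * (y - b) ^ 2) := by positivity
    have := mul_nonneg hb ih
    linarith

/-- power mean -/
theorem term2_mean {F : Type} [Fintype F] (y : F → ℝ) (hy : ∀ f, 0 ≤ y f) (b : ℝ) (hb : 0 ≤ b)
    (j : ℕ) (hj : 1 ≤ j) (h : ∑ f, (y f ^ 2) ^ ((j + 1) / 2) ≤
      (Fintype.card F : ℝ) * (b ^ 2) ^ ((j + 1) / 2)) :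
    ∑ f, y f ^ j ≤ (Fintype.card F : ℝ) * b ^ j := by
  rcases Nat.even_or_odd j with he | ho
  · obtain ⟨i, hi⟩ := he
    have e : 2 * ((j + 1) / 2) = j := by omega
    simp_rw [← pow_mul] at h
    rw [e] at h
    exact h
  · obtain ⟨i, hi⟩ := ho
    have e : 2 * ((j + 1) / 2) = j + 1 := by omega
    simp_rw [← pow_mul] at h
    rw [e] at h
    rcases hb.eq_or_lt with hb0 | hb0
    · rw [← hb0, zero_pow (by omega), mul_zero] at h
      have h0 : ∀ f, y f ^ (j + 1) = 0 := by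
        have h1 : ∑ f, y f ^ (j + 1) = 0 :=
          le_antisymm h (Finset.sum_nonneg fun f _ => pow_nonneg (hy f) _)
        intro f
        exact (Finset.sum_eq_zero_iff_of_nonneg (fun f _ => pow_nonneg (hy f) _)).1 h1 f
          (Finset.mem_univ f)
      have h2 : ∑ f, y f ^ j = 0 := by
        apply Finset.sum_eq_zero
        intro f _
        have h3 : y f = 0 := pow_eq_zero_iff (by omega : j + 1 ≠ 0) |>.1 (h0 f)
        rw [h3, zero_pow (by omega)]
      rw [h2, ← hb0, zero_pow (by omega), mul_zero]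
    · have h1 : ∑ f, ((j : ℝ) + 1) * (y f ^ j * b) ≤ ∑ f, (j * y f ^ (j + 1) + b ^ (j + 1)) := by
        apply Finset.sum_le_sum
        intro f _
        have := term2_amgm (y f) b (hy f) hb j
        linarith
      rw [← Finset.mul_sum, ← Finset.sum_mul, Finset.sum_add_distrib, ← Finset.mul_sum,
        Finset.sum_const, Finset.card_univ, nsmul_eq_mul] at h1
      have hj0 : (0 : ℝ) ≤ j := Nat.cast_nonneg j
      have h2 : (j : ℝ) * ∑ f, y f ^ (j + 1) ≤ j * ((Fintype.card F : ℝ) * b ^ (j + 1)) :=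
        mul_le_mul_of_nonneg_left h hj0
      have h3 : (((j : ℝ) + 1) * b) * ∑ f, y f ^ j ≤
          (((j : ℝ) + 1) * b) * ((Fintype.card F : ℝ) * b ^ j) := by
        have h4 : (((j : ℝ) + 1) * b) * ((Fintype.card F : ℝ) * b ^ j) =
            j * ((Fintype.card F : ℝ) * b ^ (j + 1)) + (Fintype.card F : ℝ) * b ^ (j + 1) := by
          rw [pow_succ]
          ring
        rw [h4]
        nlinarith [h1, h2]
      exact le_of_mul_le_mul_left h3 (by positivity)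

theorem term2_frame (h4 : St_mom2) (h5 : St_res2) (ι : Type) [Fintype ι]
    [DecidableEq ι] (hι : 0 < Fintype.card ι) (E W : T4 ι) (A : T2 ι)
    (hW : IsCurv W) (hR : ∀ a b, Ric W a b = 0) (hA : IsSym A) (htr : tr2 A = 0)
    (hE : E = W + kn A) (X : ℝ) (hX : hs4 W + (Fintype.card ι : ℝ) ^ 2 / 4 * hs2 A ≤ X)
    (hE4 : hs4 E ≤ X) (j : ℕ) (hj : 2 ≤ j) (θ : ℝ)
    (hθ : θ = 25 * j / (2 * (Fintype.card ι : ℝ))) :
    ∃ O : Matrix ι ι ℝ, Orth O ∧
      ∑ f : Pos j ↪ ι, (hs4 (res4 f (act4 O E))) ^ ((j + 1) / 2) ≤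
        (Fintype.card (Pos j ↪ ι) : ℝ) * (5 / 4 * (554 / 100) * θ ^ 4 * X) ^ ((j + 1) / 2) := by
  have h7 := invt_main
  have hn0 : (0 : ℝ) < (Fintype.card ι : ℝ) := by exact_mod_cast hι
  have hj2 : (2 : ℝ) ≤ (j : ℝ) := by exact_mod_cast hj
  have hj0 : (0 : ℝ) < (j : ℝ) := by linarith
  have hθ0 : 0 < θ := by rw [hθ]; positivity
  have hW0 := term2_hs4_nonneg W
  have hA0 := term2_hs2_nonneg A
  have hX0 : 0 ≤ X := le_trans (by positivity) hX
  rcases le_or_gt (25 * j) (2 * Fintype.card ι) with hc | hc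
  · obtain ⟨O, hO, hsum⟩ := h4 ι (Pos j ↪ ι) j hj hc (fun f => Finset.univ.map f)
      (by intro f; rw [Finset.card_map, Finset.card_univ]; simp; omega) W A hW hR hA htr
      (Fintype.card ι) θ (64 * j) rfl hθ rfl
    refine ⟨O, hO, ?_⟩
    have hact : act4 O E = act4 O W + kn (act2 O A) := by
      rw [hE, (h7 ι).add4, (h7 ι).knn O hO]
    have hb : ∀ f : Pos j ↪ ι, hs4 (res4 f (act4 O E)) ≤
        5 / 4 * QQ (wt θ (Finset.univ.map f)) (64 * j) (act4 O W) (act2 O A) := fun f => by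
      rw [hact]
      exact h5 ι j f θ hθ0.le _ _
    have hθA : 64 * j * θ ^ 2 * hs2 A ≤ θ ^ 4 * ((Fintype.card ι : ℝ) ^ 2 / 4 * hs2 A) := by
      have h1 : θ ^ 2 * (Fintype.card ι : ℝ) ^ 2 = 625 / 4 * (j : ℝ) ^ 2 := by
        rw [hθ]; field_simp; ring
      have h2 : 64 * (j : ℝ) ≤ 625 / 16 * (j : ℝ) ^ 2 := by nlinarith
      have h3 : θ ^ 4 * ((Fintype.card ι : ℝ) ^ 2 / 4 * hs2 A) =
          (625 / 16 * (j : ℝ) ^ 2) * (θ ^ 2 * hs2 A) := by
        calc θ ^ 4 * ((Fintype.card ι : ℝ) ^ 2 / 4 * hs2 A) =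
            (θ ^ 2 * (Fintype.card ι : ℝ) ^ 2) / 4 * (θ ^ 2 * hs2 A) := by ring
          _ = _ := by rw [h1]; ring
      rw [h3]
      have h4 : 0 ≤ θ ^ 2 * hs2 A := by positivity
      calc 64 * j * θ ^ 2 * hs2 A = (64 * j) * (θ ^ 2 * hs2 A) := by ring
        _ ≤ _ := mul_le_mul_of_nonneg_right h2 h4
    have hin : 554 / 100 * (θ ^ 4 * hs4 W + 64 * j * θ ^ 2 * hs2 A) ≤
        554 / 100 * (θ ^ 4 * X) := by
      have h1 : θ ^ 4 * (hs4 W + (Fintype.card ι : ℝ) ^ 2 / 4 * hs2 A) ≤ θ ^ 4 * X :=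
        mul_le_mul_of_nonneg_left hX (by positivity)
      have h2 : θ ^ 4 * (hs4 W + (Fintype.card ι : ℝ) ^ 2 / 4 * hs2 A) =
        θ ^ 4 * hs4 W + θ ^ 4 * ((Fintype.card ι : ℝ) ^ 2 / 4 * hs2 A) := by ring
      linarith
    calc ∑ f : Pos j ↪ ι, (hs4 (res4 f (act4 O E))) ^ ((j + 1) / 2) ≤
          ∑ f : Pos j ↪ ι, (5 / 4) ^ ((j + 1) / 2) *
            QQ (wt θ (Finset.univ.map f)) (64 * j) (act4 O W) (act2 O A) ^ ((j + 1) / 2) := by
          apply Finset.sum_le_sum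
          intro f _
          rw [← mul_pow]
          exact pow_le_pow_left₀ (term2_hs4_nonneg _) (hb f) _
      _ = (5 / 4) ^ ((j + 1) / 2) * ∑ f : Pos j ↪ ι,
            QQ (wt θ (Finset.univ.map f)) (64 * j) (act4 O W) (act2 O A) ^ ((j + 1) / 2) := by
          rw [Finset.mul_sum]
      _ ≤ (5 / 4) ^ ((j + 1) / 2) * ((Fintype.card (Pos j ↪ ι) : ℝ) *
            (554 / 100 * (θ ^ 4 * hs4 W + 64 * j * θ ^ 2 * hs2 A)) ^ ((j + 1) / 2)) :=
          mul_le_mul_of_nonneg_left hsum (by positivity)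
      _ ≤ (5 / 4) ^ ((j + 1) / 2) * ((Fintype.card (Pos j ↪ ι) : ℝ) *
            (554 / 100 * (θ ^ 4 * X)) ^ ((j + 1) / 2)) := by
          apply mul_le_mul_of_nonneg_left _ (by positivity)
          apply mul_le_mul_of_nonneg_left _ (by positivity)
          exact pow_le_pow_left₀ (by positivity) hin _
      _ = (Fintype.card (Pos j ↪ ι) : ℝ) * ((5 / 4) ^ ((j + 1) / 2) *
            (554 / 100 * (θ ^ 4 * X)) ^ ((j + 1) / 2)) := by ring
      _ = _ := by
          rw [← mul_pow]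
          congr 2
          ring
  · refine ⟨1, by unfold Orth; simp, ?_⟩
    have hθ1 : 1 ≤ θ := by
      rw [hθ, le_div_iff₀ (by positivity)]
      have : ((2 * Fintype.card ι : ℕ) : ℝ) < ((25 * j : ℕ) : ℝ) := by exact_mod_cast hc
      push_cast at this
      linarith
    rw [(h7 ι).one4]
    have hf : ∀ f : Pos j ↪ ι, hs4 (res4 f E) ^ ((j + 1) / 2) ≤
        (5 / 4 * (554 / 100) * θ ^ 4 * X) ^ ((j + 1) / 2) := by
      intro f
      apply pow_le_pow_left₀ (term2_hs4_nonneg _)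
      have h := h5 ι j f 1 zero_le_one E 0
      rw [term2_kn_zero, add_zero, term2_QQ_one] at h
      have h1 : 1 ≤ θ ^ 4 := one_le_pow₀ hθ1
      have h2 : X ≤ θ ^ 4 * X := by nlinarith
      have h3 : 5 / 4 * (554 / 100) * θ ^ 4 * X = 5 / 4 * (554 / 100) * (θ ^ 4 * X) := by ring
      rw [h3]
      linarith
    calc _ ≤ ∑ f : Pos j ↪ ι, (5 / 4 * (554 / 100) * θ ^ 4 * X) ^ ((j + 1) / 2) :=
          Finset.sum_le_sum (fun f _ => hf f)
      _ = _ := by rw [Finset.sum_const, Finset.card_univ, nsmul_eq_mul]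

theorem term2_main (h1 : St_top2) (h2 : St_mom2) (h3 : St_res2) (h4 : St_dec2) (h5 : St_fact) :
    St_term2 := by
  intro m hm ι _ _ hι E hE htr X hX k hk j hj hjm
  have h7 := invt_main
  obtain ⟨W, A, hW, hRW, hA, htA, hEW, hn1⟩ := h4 ι (by omega) E hE htr
  rw [← hX] at hn1
  have hE40 := term2_hs4_nonneg E
  have hE20 := term2_hs2_nonneg (Ric E)
  have hX0 : 0 ≤ X := by rw [hX]; linarith
  have hEX : hs4 E ≤ X := by rw [hX]; linarith
  obtain ⟨θ, hθ⟩ : ∃ θ : ℝ, θ = 25 * j / (2 * (Fintype.card ι : ℝ)) := ⟨_, rfl⟩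
  obtain ⟨O, hO, hsum0⟩ := term2_frame h2 h3 ι (by omega) E W A hW hRW hA htA hEW X hn1 hEX j hj
    θ hθ
  have hm0 : (0 : ℝ) < m := by exact_mod_cast (by omega : 0 < m)
  have hj0 : (0 : ℝ) < j := by exact_mod_cast (by omega : 0 < j)
  have hmr : (Fintype.card ι : ℝ) = 2 * m := by rw [hι]; push_cast; ring
  obtain ⟨b, hb⟩ : ∃ b : ℝ, b = 4112 / 10 * (j / (2 * m)) ^ 2 * Real.sqrt X := ⟨_, rfl⟩
  have hb0 : 0 ≤ b := by rw [hb]; positivity
  have hb2 : 5 / 4 * (554 / 100) * θ ^ 4 * X ≤ b ^ 2 := by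
    have e1 : b ^ 2 = (4112 / 10) ^ 2 * ((j : ℝ) / (2 * m)) ^ 4 * X := by
      rw [hb]
      calc (4112 / 10 * ((j : ℝ) / (2 * m)) ^ 2 * Real.sqrt X) ^ 2 =
          (4112 / 10) ^ 2 * ((j : ℝ) / (2 * m)) ^ 4 * (Real.sqrt X) ^ 2 := by ring
        _ = _ := by rw [Real.sq_sqrt hX0]
    have e2 : θ = 25 / 2 * ((j : ℝ) / (2 * m)) := by rw [hθ, hmr]; field_simp
    rw [e1, e2]
    have h8 : 0 ≤ ((j : ℝ) / (2 * m)) ^ 4 * X := by positivity
    nlinarith
  have hθ0 : 0 ≤ θ := by rw [hθ]; positivity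
  have hsum : ∑ f : Pos j ↪ ι, Real.sqrt (hs4 (res4 f (act4 O E))) ^ j ≤
      (Fintype.card (Pos j ↪ ι) : ℝ) * b ^ j := by
    apply term2_mean _ (fun f => Real.sqrt_nonneg _) b hb0 j (by omega)
    simp_rw [Real.sq_sqrt (term2_hs4_nonneg _)]
    refine hsum0.trans ?_
    apply mul_le_mul_of_nonneg_left _ (by positivity)
    exact pow_le_pow_left₀ (by positivity) hb2 _
  -- the number of embeddings
  obtain ⟨N, hN⟩ : ∃ N : ℕ, N = Fintype.card (Pos j ↪ ι) := ⟨_, rfl⟩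
  rw [← hN] at hsum
  have hNf : (2 * m - 2 * j).factorial * N = (2 * m).factorial := by
    rw [hN, Fintype.card_embedding_eq, hι]
    have hc : Fintype.card (Pos j) = 2 * j := by simp; omega
    rw [hc]
    exact Nat.factorial_mul_descFactorial (by omega)
  -- the bound of `GG j E`
  have hG1 : ((2 * j).factorial : ℝ) * |GG j E| ≤
      ∑ f : Pos j ↪ ι, |gb j (res4 f (act4 O E))| := by
    have h := emb_main.1 ι j (act4 O E)
    rw [inv_main ι j O hO E] at h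
    calc ((2 * j).factorial : ℝ) * |GG j E| = |((2 * j).factorial : ℝ) * GG j E| := by
          rw [abs_mul, abs_of_nonneg (by positivity : (0 : ℝ) ≤ ((2 * j).factorial : ℝ))]
      _ = |∑ f : Pos j ↪ ι, gb j (res4 f (act4 O E))| := by rw [h]
      _ ≤ _ := Finset.abs_sum_le_sum_abs _ _
  have hcE : IsCurv (act4 O E) := (h7 ι).curv O hO E hE
  have hG2 : ∀ f : Pos j ↪ ι, |gb j (res4 f (act4 O E))| * (j : ℝ) ^ j ≤
      5 / 4 * (4 ^ j * (j.factorial : ℝ) ^ 2 * (3851 / 2000) ^ j) *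
        Real.sqrt (hs4 (res4 f (act4 O E))) ^ j := by
    intro f
    have h := h1 j (by omega) (res4 f (act4 O E)) (term2_res_curv _ _ hcE)
    calc _ ≤ _ := h
      _ = _ := by rw [mul_pow]; ring
  have hG3 : ((2 * j).factorial : ℝ) * (j : ℝ) ^ j * |GG j E| ≤
      5 / 4 * ((j.factorial : ℝ) ^ 2 * N * (7702 / 1000 * b) ^ j) := by
    calc ((2 * j).factorial : ℝ) * (j : ℝ) ^ j * |GG j E| =
          (((2 * j).factorial : ℝ) * |GG j E|) * (j : ℝ) ^ j := by ring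
      _ ≤ (∑ f : Pos j ↪ ι, |gb j (res4 f (act4 O E))|) * (j : ℝ) ^ j :=
          mul_le_mul_of_nonneg_right hG1 (by positivity)
      _ = ∑ f : Pos j ↪ ι, |gb j (res4 f (act4 O E))| * (j : ℝ) ^ j := by rw [Finset.sum_mul]
      _ ≤ ∑ f : Pos j ↪ ι, 5 / 4 * (4 ^ j * (j.factorial : ℝ) ^ 2 * (3851 / 2000) ^ j) *
            Real.sqrt (hs4 (res4 f (act4 O E))) ^ j := Finset.sum_le_sum (fun f _ => hG2 f)
      _ = 5 / 4 * (4 ^ j * (j.factorial : ℝ) ^ 2 * (3851 / 2000) ^ j) *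
            ∑ f : Pos j ↪ ι, Real.sqrt (hs4 (res4 f (act4 O E))) ^ j := by rw [Finset.mul_sum]
      _ ≤ 5 / 4 * (4 ^ j * (j.factorial : ℝ) ^ 2 * (3851 / 2000) ^ j) * ((N : ℝ) * b ^ j) :=
          mul_le_mul_of_nonneg_left hsum (by positivity)
      _ = 5 / 4 * ((j.factorial : ℝ) ^ 2 * N * (4 ^ j * (3851 / 2000) ^ j * b ^ j)) := by ring
      _ = _ := by
          congr 2
          rw [← mul_pow, ← mul_pow]
          congr 1
          ring
  -- factorials
  have hf1 := h5 j hj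
  have hf2 : (m.choose j : ℝ) * (j.factorial : ℝ) ≤ (m : ℝ) ^ j := by
    have h : m.choose j * j.factorial ≤ m ^ j := by
      rw [mul_comm, ← Nat.descFactorial_eq_factorial_mul_choose]
      exact Nat.descFactorial_le_pow m j
    exact_mod_cast h
  have hNf' : ((2 * m - 2 * j).factorial : ℝ) * N = ((2 * m).factorial : ℝ) := by
    exact_mod_cast hNf
  have hjf : (0 : ℝ) < (j.factorial : ℝ) := by exact_mod_cast Nat.factorial_pos j
  have hjj : (0 : ℝ) < (j : ℝ) ^ j := by positivity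
  obtain ⟨L, hL⟩ : ∃ L : ℝ, L = (m.choose j : ℝ) * (2 * k) ^ (m - j) *
    ((2 * m - 2 * j).factorial : ℝ) * |GG j E| := ⟨_, rfl⟩
  have hL0 : 0 ≤ L := by rw [hL]; positivity
  rw [← hL]
  have hL1 : 3 * (L * ((j : ℝ) ^ j * (j : ℝ) ^ j)) ≤ (7 / 10) ^ (j - 2) *
      (5 / 4 * ((m : ℝ) ^ j * (2 * k) ^ (m - j) * ((2 * m).factorial : ℝ) *
        (7702 / 1000 * b) ^ j)) := by
    have ha : L * (((2 * j).factorial : ℝ) * (j : ℝ) ^ j) ≤
        5 / 4 * ((m : ℝ) ^ j * (j.factorial : ℝ) * (2 * k) ^ (m - j) * ((2 * m).factorial : ℝ) *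
          (7702 / 1000 * b) ^ j) := by
      calc L * (((2 * j).factorial : ℝ) * (j : ℝ) ^ j) =
            (m.choose j : ℝ) * (2 * k) ^ (m - j) * ((2 * m - 2 * j).factorial : ℝ) *
              (((2 * j).factorial : ℝ) * (j : ℝ) ^ j * |GG j E|) := by rw [hL]; ring
        _ ≤ (m.choose j : ℝ) * (2 * k) ^ (m - j) * ((2 * m - 2 * j).factorial : ℝ) *
              (5 / 4 * ((j.factorial : ℝ) ^ 2 * N * (7702 / 1000 * b) ^ j)) :=
            mul_le_mul_of_nonneg_left hG3 (by positivity)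
        _ = ((m.choose j : ℝ) * (j.factorial : ℝ)) * (5 / 4 * ((j.factorial : ℝ) *
              (2 * k) ^ (m - j) * (((2 * m - 2 * j).factorial : ℝ) * N) *
                (7702 / 1000 * b) ^ j)) := by ring
        _ ≤ (m : ℝ) ^ j * (5 / 4 * ((j.factorial : ℝ) * (2 * k) ^ (m - j) *
              (((2 * m - 2 * j).factorial : ℝ) * N) * (7702 / 1000 * b) ^ j)) :=
            mul_le_mul_of_nonneg_right hf2 (by positivity)
        _ = _ := by rw [hNf']; ring
    have hb' : L * (3 * ((j.factorial : ℝ) * (j : ℝ) ^ j) * (j : ℝ) ^ j) ≤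
        L * ((((2 * j).factorial : ℝ) * (7 / 10) ^ (j - 2)) * (j : ℝ) ^ j) :=
      mul_le_mul_of_nonneg_left (mul_le_mul_of_nonneg_right hf1 hjj.le) hL0
    have hc : (j.factorial : ℝ) * (3 * (L * ((j : ℝ) ^ j * (j : ℝ) ^ j))) ≤
        (j.factorial : ℝ) * ((7 / 10) ^ (j - 2) *
          (5 / 4 * ((m : ℝ) ^ j * (2 * k) ^ (m - j) * ((2 * m).factorial : ℝ) *
            (7702 / 1000 * b) ^ j))) := by
      calc _ = L * (3 * ((j.factorial : ℝ) * (j : ℝ) ^ j) * (j : ℝ) ^ j) := by ring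
        _ ≤ _ := hb'
        _ = (7 / 10) ^ (j - 2) * (L * (((2 * j).factorial : ℝ) * (j : ℝ) ^ j)) := by ring
        _ ≤ (7 / 10) ^ (j - 2) * (5 / 4 * ((m : ℝ) ^ j * (j.factorial : ℝ) * (2 * k) ^ (m - j) *
              ((2 * m).factorial : ℝ) * (7702 / 1000 * b) ^ j)) :=
            mul_le_mul_of_nonneg_left ha (by positivity)
        _ = _ := by ring
    exact le_of_mul_le_mul_left hc hjf
  have hkj : (2 * k) ^ m = (2 * k) ^ (m - j) * (2 * k) ^ j := by
    rw [← pow_add]; congr 1; omega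
  have h710 : (7 / 10 : ℝ) ^ j = (7 / 10) ^ (j - 2) * (49 / 100) := by
    have : j = (j - 2) + 2 := by omega
    conv_lhs => rw [this]
    rw [pow_add]
    norm_num
  have hL2 : (49 / 100 * 3) * (L * (2 * k * (j : ℝ) ^ 2) ^ j) ≤
      5 / 4 * (((2 * k) ^ m * ((2 * m).factorial : ℝ)) *
        (7 / 10 * (7702 / 1000) * m * b) ^ j) := by
    calc (49 / 100 * 3) * (L * (2 * k * (j : ℝ) ^ 2) ^ j) =
          (49 / 100) * (3 * (L * ((j : ℝ) ^ j * (j : ℝ) ^ j))) * (2 * k) ^ j := by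
          rw [mul_pow, ← pow_mul, two_mul j, pow_add]; ring
      _ ≤ (49 / 100) * ((7 / 10) ^ (j - 2) * (5 / 4 * ((m : ℝ) ^ j * (2 * k) ^ (m - j) *
            ((2 * m).factorial : ℝ) * (7702 / 1000 * b) ^ j))) * (2 * k) ^ j := by
          apply mul_le_mul_of_nonneg_right _ (by positivity)
          exact mul_le_mul_of_nonneg_left hL1 (by norm_num)
      _ = 5 / 4 * (((2 * k) ^ (m - j) * (2 * k) ^ j * ((2 * m).factorial : ℝ)) *
            (((7 / 10) ^ (j - 2) * (49 / 100)) * ((m : ℝ) ^ j * (7702 / 1000 * b) ^ j))) := by ring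
      _ = _ := by
          rw [← hkj, ← h710, ← mul_pow, ← mul_pow]
          congr 3
          ring
  have hden : 0 < 2 * k * (j : ℝ) ^ 2 := by positivity
  have hL3 : (49 / 100 * 3) * L ≤ 5 / 4 * (((2 * k) ^ m * ((2 * m).factorial : ℝ)) *
      (7 / 10 * (7702 / 1000) * m * b / (2 * k * (j : ℝ) ^ 2)) ^ j) := by
    rw [div_pow, ← mul_div_assoc, ← mul_div_assoc, le_div_iff₀ (by positivity)]
    calc (49 / 100 * 3) * L * (2 * k * (j : ℝ) ^ 2) ^ j =
        (49 / 100 * 3) * (L * (2 * k * (j : ℝ) ^ 2) ^ j) := by ring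
      _ ≤ _ := hL2
  have hratio : 7 / 10 * (7702 / 1000) * m * b / (2 * k * (j : ℝ) ^ 2) =
      (7 / 10 * (7702 / 1000) * (4112 / 10) / 4) * Real.sqrt X / (2 * m * k) := by
    rw [hb]
    field_simp
    ring
  rw [hratio] at hL3
  have hpow : ((7 / 10 * (7702 / 1000) * (4112 / 10) / 4) * Real.sqrt X / (2 * m * k)) ^ j ≤
      (555 * Real.sqrt X / (2 * m * k)) ^ j := by
    apply pow_le_pow_left₀ (by positivity)
    apply div_le_div_of_nonneg_right _ (by positivity)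
    apply mul_le_mul_of_nonneg_right _ (Real.sqrt_nonneg _)
    norm_num
  have hP0 : 0 ≤ (555 * Real.sqrt X / (2 * m * k)) ^ j * ((2 * k) ^ m * ((2 * m).factorial : ℝ)) := by
    positivity
  have hfin : (49 / 100 * 3) * L ≤ 5 / 4 * ((555 * Real.sqrt X / (2 * m * k)) ^ j *
      ((2 * k) ^ m * ((2 * m).factorial : ℝ))) := by
    calc (49 / 100 * 3) * L ≤ _ := hL3
      _ ≤ 5 / 4 * (((2 * k) ^ m * ((2 * m).factorial : ℝ)) *
            (555 * Real.sqrt X / (2 * m * k)) ^ j) := by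
          apply mul_le_mul_of_nonneg_left _ (by norm_num)
          exact mul_le_mul_of_nonneg_left hpow (by positivity)
      _ = _ := by ring
  calc L ≤ 9 / 10 * ((555 * Real.sqrt X / (2 * m * k)) ^ j *
      ((2 * k) ^ m * ((2 * m).factorial : ℝ))) := by linarith
    _ = _ := by ring

end Pool.Agent.H933R2.HopfN
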