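import Pool.Agent.H933R2.HopfN.St2
import Pool.Agent.H933R2.HopfN.TERM
import Pool.Agent.H933R2.HopfN.RES
import Pool.Agent.H933R2.HopfN.INV
import Pool.Agent.H933R2.HopfN.EMB
import Pool.Agent.H933R2.HopfN.INVT

/-!
TERMS: bound of one term of the expansion, sectional version.
-/

set_option autoImplicit false
set_option linter.all false

namespace Pool.Agent.H933R2.HopfN

/-- weighted power mean, one factor -/
theorem terms_one (t : ℝ) (ht : 0 ≤ t) (j p : ℕ) (hj : 1 ≤ j) (hp : j ≤ p) :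
    t ^ j ≤ 1 + (j / p : ℝ) * (t ^ p - 1) := by
  have hp0 : (0 : ℝ) < p := by exact_mod_cast (by omega : 0 < p)
  have hjp : (j : ℝ) ≤ p := by exact_mod_cast hp
  have h1 : (j / p : ℝ) ≤ 1 := by rw [div_le_one hp0]; exact hjp
  have h0 : 0 ≤ (j / p : ℝ) := by positivity
  have h := Real.geom_mean_le_arith_mean2_weighted (w₁ := (j / p : ℝ)) (w₂ := 1 - (j / p : ℝ))
    (p₁ := t ^ p) (p₂ := 1) h0 (by linarith) (by positivity) zero_le_one (by ring)
  rw [Real.one_rpow, mul_one, ← Real.rpow_natCast t p, ← Real.rpow_mul ht] at h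
  have e : (p : ℝ) * (j / p : ℝ) = (j : ℝ) := by field_simp
  rw [e, Real.rpow_natCast, Real.rpow_natCast] at h
  linarith

/-- the power mean inequality -/
theorem terms_pm {F : Type} [Fintype F] (y : F → ℝ) (hy : ∀ f, 0 ≤ y f) (b : ℝ) (hb : 0 ≤ b)
    (j q : ℕ) (hj : 1 ≤ j) (hq : j ≤ 2 * q)
    (h : ∑ f, (y f ^ 2) ^ q ≤ (Fintype.card F : ℝ) * (b ^ 2) ^ q) :
    ∑ f, y f ^ j ≤ (Fintype.card F : ℝ) * b ^ j := by
  have hq0 : q ≠ 0 := by omega
  rcases eq_or_lt_of_le hb with hb0 | hb0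
  · rw [← hb0] at h
    have h0 : ∑ f, (y f ^ 2) ^ q ≤ 0 := by
      refine h.trans (le_of_eq ?_)
      rw [zero_pow (by norm_num), zero_pow hq0, mul_zero]
    have h1 : ∀ f, (y f ^ 2) ^ q = 0 := by
      intro f
      have h2 : ∀ g ∈ Finset.univ, 0 ≤ (y g ^ 2) ^ q := fun g _ => by positivity
      have h3 := (Finset.sum_eq_zero_iff_of_nonneg h2).mp
        (le_antisymm h0 (Finset.sum_nonneg h2))
      exact h3 f (Finset.mem_univ f)
    have h4 : ∀ f, y f = 0 := by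
      intro f
      have := pow_eq_zero_iff hq0 |>.mp (h1 f)
      exact pow_eq_zero_iff (by norm_num) |>.mp this
    have h5 : ∑ f, y f ^ j = 0 := by
      apply Finset.sum_eq_zero
      intro f _
      rw [h4 f, zero_pow (by omega)]
    rw [h5]
    positivity
  · have hbj : 0 < b ^ j := by positivity
    have hp0 : (0 : ℝ) < ((2 * q : ℕ) : ℝ) := by exact_mod_cast (by omega : 0 < 2 * q)
    have h1 : ∀ f, y f ^ j ≤ b ^ j * (1 + (j / (2 * q : ℕ) : ℝ) * ((y f / b) ^ (2 * q) - 1)) := by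
      intro f
      have h2 := terms_one (y f / b) (by have := hy f; positivity) j (2 * q) hj hq
      calc y f ^ j = b ^ j * (y f / b) ^ j := by
            rw [← mul_pow, mul_div_cancel₀ _ hb0.ne']
        _ ≤ _ := mul_le_mul_of_nonneg_left h2 hbj.le
    have h2 : ∑ f, (y f / b) ^ (2 * q) ≤ (Fintype.card F : ℝ) := by
      have h3 : ∀ f, (y f / b) ^ (2 * q) = (y f ^ 2) ^ q / (b ^ 2) ^ q := by
        intro f
        rw [div_pow, pow_mul, pow_mul]
      rw [Finset.sum_congr rfl (fun f _ => h3 f), ← Finset.sum_div, div_le_iff₀ (by positivity)]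
      exact h
    calc ∑ f, y f ^ j
        ≤ ∑ f, b ^ j * (1 + (j / (2 * q : ℕ) : ℝ) * ((y f / b) ^ (2 * q) - 1)) :=
          Finset.sum_le_sum fun f _ => h1 f
      _ = b ^ j * ((Fintype.card F : ℝ) + (j / (2 * q : ℕ) : ℝ) *
            (∑ f, (y f / b) ^ (2 * q) - (Fintype.card F : ℝ))) := by
          rw [← Finset.mul_sum, Finset.sum_add_distrib, ← Finset.mul_sum, Finset.sum_sub_distrib]
          simp
      _ ≤ b ^ j * (Fintype.card F : ℝ) := by
          apply mul_le_mul_of_nonneg_left _ hbj.le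
          have h4 : (j / (2 * q : ℕ) : ℝ) *
            (∑ f, (y f / b) ^ (2 * q) - (Fintype.card F : ℝ)) ≤ 0 :=
            mul_nonpos_of_nonneg_of_nonpos (by positivity) (by linarith)
          linarith
      _ = _ := by ring

theorem terms_res {ι : Type} [Fintype ι] [DecidableEq ι] (j : ℕ) (f : Pos j ↪ ι) (κ : ℝ)
    (hκ : 0 ≤ κ) (W : T4 ι) (A : T2 ι) :
    hs4 (res4 f W) ≤ QQ (wt 0 (Finset.univ.map f)) κ W A := by
  have h1 := res_four f 0 le_rfl W
  have h2 : 0 ≤ Q2 (wt 0 (Finset.univ.map f)) A := by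
    unfold Q2 ip2
    apply Finset.sum_nonneg
    intro a _
    apply Finset.sum_nonneg
    intro b _
    have := res_wt_nonneg 0 le_rfl (Finset.univ.map f) a
    have := res_wt_nonneg 0 le_rfl (Finset.univ.map f) b
    have := mul_self_nonneg (A a b)
    positivity
  unfold QQ
  nlinarith

theorem terms_main (h3 : St_top2) (h4 : St_moms) (h5 : St_fact) : St_terms := by
  have h1 := inv_main
  have h2 := emb_main
  have h7 := invt_main
  intro m hm ι _ _ hι E hE htr ε hε hB4 hB2 k hk j hj hjm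
  have hm0 : (0 : ℝ) < m := by exact_mod_cast (by omega : 0 < m)
  have hj0 : (0 : ℝ) < j := by exact_mod_cast (by omega : 0 < j)
  have hmr : (Fintype.card ι : ℝ) = 2 * m := by rw [hι]; push_cast; ring
  obtain ⟨O, hO, hsum⟩ := h4 ι (Pos j ↪ ι) j hj (by omega) (fun f => Finset.univ.map f)
      (by intro f; rw [Finset.card_map, Finset.card_univ]; simp; omega) E hE htr (2 * m)
      (2048 * j / (105 * (2 * m) ^ 2)) ε hmr.symm rfl hε hB4 hB2
  obtain ⟨b, hb⟩ : ∃ b : ℝ, b = Real.sqrt (176 * j ^ 4 * ε ^ 2 / (2 * m)) := ⟨_, rfl⟩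
  have hb0 : 0 ≤ b := by rw [hb]; exact Real.sqrt_nonneg _
  have hb2 : b ^ 2 = 176 * j ^ 4 * ε ^ 2 / (2 * m) := by
    rw [hb, Real.sq_sqrt (by positivity)]
  -- the number of embeddings
  obtain ⟨N, hN⟩ : ∃ N : ℕ, N = Fintype.card (Pos j ↪ ι) := ⟨_, rfl⟩
  have hNf : (2 * m - 2 * j).factorial * N = (2 * m).factorial := by
    rw [hN, Fintype.card_embedding_eq, hι]
    have hc : Fintype.card (Pos j) = 2 * j := by simp; omega
    rw [hc]
    exact Nat.factorial_mul_descFactorial (by omega)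
  have hsum2 : ∑ f : Pos j ↪ ι, Real.sqrt (hs4 (res4 f (act4 O E))) ^ j ≤ (N : ℝ) * b ^ j := by
    rw [hN]
    apply terms_pm _ (fun f => Real.sqrt_nonneg _) b hb0 j ((j + 1) / 2) (by omega) (by omega)
    rw [hb2]
    refine le_trans (Finset.sum_le_sum fun f _ => ?_) hsum
    rw [Real.sq_sqrt (term_hs4_nonneg _)]
    exact pow_le_pow_left₀ (term_hs4_nonneg _) (terms_res j f _ (by positivity) _ _) _
  -- the bound of `GG j E`
  have hG1 : ((2 * j).factorial : ℝ) * |GG j E| ≤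
      ∑ f : Pos j ↪ ι, |gb j (res4 f (act4 O E))| := by
    have h := h2.1 ι j (act4 O E)
    rw [h1 ι j O hO E] at h
    calc ((2 * j).factorial : ℝ) * |GG j E| = |((2 * j).factorial : ℝ) * GG j E| := by
          rw [abs_mul, abs_of_nonneg (by positivity : (0 : ℝ) ≤ ((2 * j).factorial : ℝ))]
      _ = |∑ f : Pos j ↪ ι, gb j (res4 f (act4 O E))| := by rw [h]
      _ ≤ _ := Finset.abs_sum_le_sum_abs _ _
  have hcE : IsCurv (act4 O E) := (h7 ι).curv O hO E hE
  have hG2 : ∀ f : Pos j ↪ ι, |gb j (res4 f (act4 O E))| * (j : ℝ) ^ j ≤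
      5 / 4 * (4 ^ j * (j.factorial : ℝ) ^ 2 * (3851 / 2000) ^ j) *
        Real.sqrt (hs4 (res4 f (act4 O E))) ^ j := by
    intro f
    have h := h3 j (by omega) (res4 f (act4 O E)) (term_res_curv _ _ hcE)
    calc _ ≤ _ := h
      _ = _ := by rw [mul_pow (3851 / 2000 : ℝ)]; ring
  have hG3 : ((2 * j).factorial : ℝ) * (j : ℝ) ^ j * |GG j E| ≤
      5 / 4 * ((j.factorial : ℝ) ^ 2 * N * (7702 / 1000 * b) ^ j) := by
    calc ((2 * j).factorial : ℝ) * (j : ℝ) ^ j * |GG j E| =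
          (((2 * j).factorial : ℝ) * |GG j E|) * (j : ℝ) ^ j := by ring
      _ ≤ (∑ f : Pos j ↪ ι, |gb j (res4 f (act4 O E))|) * (j : ℝ) ^ j :=
          mul_le_mul_of_nonneg_right hG1 (by positivity)
      _ = ∑ f : Pos j ↪ ι, |gb j (res4 f (act4 O E))| * (j : ℝ) ^ j := by rw [Finset.sum_mul]
      _ ≤ ∑ f : Pos j ↪ ι, 5 / 4 * (4 ^ j * (j.factorial : ℝ) ^ 2 * (3851 / 2000) ^ j) *
            Real.sqrt (hs4 (res4 f (act4 O E))) ^ j := Finset.sum_le_sum (fun f _ => hG2 f)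
      _ = 5 / 4 * (4 ^ j * (j.factorial : ℝ) ^ 2 * (3851 / 2000) ^ j) *
            ∑ f : Pos j ↪ ι, Real.sqrt (hs4 (res4 f (act4 O E))) ^ j := by rw [Finset.mul_sum]
      _ ≤ 5 / 4 * (4 ^ j * (j.factorial : ℝ) ^ 2 * (3851 / 2000) ^ j) * ((N : ℝ) * b ^ j) :=
          mul_le_mul_of_nonneg_left hsum2 (by positivity)
      _ = 5 / 4 * ((j.factorial : ℝ) ^ 2 * N * (4 ^ j * (3851 / 2000) ^ j * b ^ j)) := by ring
      _ = _ := by
          rw [← mul_pow, ← mul_pow]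
          norm_num
  -- factorials
  have hf1 := h5 j hj
  have hf2 : (m.choose j : ℝ) * (j.factorial : ℝ) ≤ (m : ℝ) ^ j := by
    have h : m.choose j * j.factorial ≤ m ^ j := by
      rw [mul_comm, ← Nat.descFactorial_eq_factorial_mul_choose]
      exact Nat.descFactorial_le_pow m j
    exact_mod_cast h
  have hNf' : ((2 * m - 2 * j).factorial : ℝ) * N = ((2 * m).factorial : ℝ) := by
    exact_mod_cast hNf
  have hjf : (0 : ℝ) < (j.factorial : ℝ) := by exact_mod_cast Nat.factorial_pos j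
  have h2jf : (0 : ℝ) < ((2 * j).factorial : ℝ) := by exact_mod_cast Nat.factorial_pos (2 * j)
  have hjj : (0 : ℝ) < (j : ℝ) ^ j := by positivity
  obtain ⟨L, hL⟩ : ∃ L : ℝ, L = (m.choose j : ℝ) * (2 * k) ^ (m - j) *
    ((2 * m - 2 * j).factorial : ℝ) * |GG j E| := ⟨_, rfl⟩
  have hL0 : 0 ≤ L := by rw [hL]; positivity
  rw [← hL]
  obtain ⟨D, hD⟩ : ∃ D : ℝ, D = 7702 / 1000 * b := ⟨_, rfl⟩
  have hD0 : 0 ≤ D := by rw [hD]; positivity
  rw [← hD] at hG3
  obtain ⟨P, hP⟩ : ∃ P : ℝ, P = (m : ℝ) ^ j * (2 * k) ^ (m - j) * ((2 * m).factorial : ℝ) *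
    D ^ j := ⟨_, rfl⟩
  have hP0 : 0 ≤ P := by rw [hP]; positivity
  have hL1 : L * ((j : ℝ) ^ j * (j : ℝ) ^ j) ≤ 5 / 12 * (P * (7 / 10) ^ (j - 2)) := by
    have ha : L * (((2 * j).factorial : ℝ) * (j : ℝ) ^ j) ≤ 5 / 4 * (P * (j.factorial : ℝ)) := by
      calc L * (((2 * j).factorial : ℝ) * (j : ℝ) ^ j) =
            (m.choose j : ℝ) * (2 * k) ^ (m - j) * ((2 * m - 2 * j).factorial : ℝ) *
              (((2 * j).factorial : ℝ) * (j : ℝ) ^ j * |GG j E|) := by rw [hL]; ring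
        _ ≤ (m.choose j : ℝ) * (2 * k) ^ (m - j) * ((2 * m - 2 * j).factorial : ℝ) *
              (5 / 4 * ((j.factorial : ℝ) ^ 2 * N * D ^ j)) :=
            mul_le_mul_of_nonneg_left hG3 (by positivity)
        _ = ((m.choose j : ℝ) * (j.factorial : ℝ)) * (5 / 4 * ((j.factorial : ℝ) *
              (2 * k) ^ (m - j) * (((2 * m - 2 * j).factorial : ℝ) * N) * D ^ j)) := by ring
        _ ≤ (m : ℝ) ^ j * (5 / 4 * ((j.factorial : ℝ) *
              (2 * k) ^ (m - j) * (((2 * m - 2 * j).factorial : ℝ) * N) * D ^ j)) :=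
            mul_le_mul_of_nonneg_right hf2 (by positivity)
        _ = _ := by rw [hNf', hP]; ring
    have hb' : (L * ((j : ℝ) ^ j * (j : ℝ) ^ j)) * ((2 * j).factorial : ℝ) ≤
        (5 / 12 * (P * (7 / 10) ^ (j - 2))) * ((2 * j).factorial : ℝ) := by
      calc (L * ((j : ℝ) ^ j * (j : ℝ) ^ j)) * ((2 * j).factorial : ℝ)
          = (L * (((2 * j).factorial : ℝ) * (j : ℝ) ^ j)) * (j : ℝ) ^ j := by ring
        _ ≤ (5 / 4 * (P * (j.factorial : ℝ))) * (j : ℝ) ^ j :=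
            mul_le_mul_of_nonneg_right ha hjj.le
        _ = 5 / 12 * P * (3 * ((j.factorial : ℝ) * (j : ℝ) ^ j)) := by ring
        _ ≤ 5 / 12 * P * (((2 * j).factorial : ℝ) * (7 / 10) ^ (j - 2)) :=
            mul_le_mul_of_nonneg_left hf1 (by positivity)
        _ = _ := by ring
    exact le_of_mul_le_mul_right hb' h2jf
  have h710 : (7 / 10 : ℝ) ^ (j - 2) = 100 / 49 * (7 / 10) ^ j := by
    obtain ⟨i, rfl⟩ : ∃ i, j = i + 2 := ⟨j - 2, by omega⟩
    rw [Nat.add_sub_cancel, pow_add]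
    ring
  have hkj : (2 * k) ^ m = (2 * k) ^ (m - j) * (2 * k) ^ j := by
    rw [← pow_add]; congr 1; omega
  have hL2 : L * (2 * k * (j : ℝ) ^ 2) ^ j ≤
      9 / 10 * (((2 * k) ^ m * ((2 * m).factorial : ℝ)) * (7 / 10 * m * D) ^ j) := by
    calc L * (2 * k * (j : ℝ) ^ 2) ^ j = (L * ((j : ℝ) ^ j * (j : ℝ) ^ j)) * (2 * k) ^ j := by
          rw [mul_pow, ← pow_mul, two_mul j, pow_add]; ring
      _ ≤ (5 / 12 * (P * (7 / 10) ^ (j - 2))) * (2 * k) ^ j :=
          mul_le_mul_of_nonneg_right hL1 (by positivity)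
      _ = 500 / 588 * (((2 * k) ^ (m - j) * (2 * k) ^ j * ((2 * m).factorial : ℝ)) *
            ((7 / 10) ^ j * (m : ℝ) ^ j * D ^ j)) := by
          rw [h710, hP]; ring
      _ = 500 / 588 * (((2 * k) ^ m * ((2 * m).factorial : ℝ)) * (7 / 10 * m * D) ^ j) := by
          rw [← hkj, ← mul_pow, ← mul_pow]
      _ ≤ _ := by
          apply mul_le_mul_of_nonneg_right (by norm_num) (by positivity)
  have hden : 0 < 2 * k * (j : ℝ) ^ 2 := by positivity
  have hL3 : L ≤ 9 / 10 * (((2 * k) ^ m * ((2 * m).factorial : ℝ)) *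
      (7 / 10 * m * D / (2 * k * (j : ℝ) ^ 2)) ^ j) := by
    rw [div_pow, ← mul_div_assoc, ← mul_div_assoc, le_div_iff₀ (by positivity)]
    exact hL2
  -- the constant
  obtain ⟨s, hs⟩ : ∃ s : ℝ, s = Real.sqrt (2 * m) := ⟨_, rfl⟩
  have hs0 : 0 < s := by rw [hs]; exact Real.sqrt_pos.mpr (by positivity)
  have hs2 : s ^ 2 = 2 * m := by rw [hs]; exact Real.sq_sqrt (by positivity)
  have hbs : b * s ≤ 13267 / 1000 * (j ^ 2 * ε) := by
    have h8 : (b * s) ^ 2 ≤ (13267 / 1000 * (j ^ 2 * ε)) ^ 2 := by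
      rw [mul_pow, hb2, hs2, div_mul_cancel₀ _ (by positivity)]
      have : 0 ≤ (j : ℝ) ^ 4 * ε ^ 2 := by positivity
      nlinarith
    exact (pow_le_pow_iff_left₀ (by positivity) (by positivity) (by norm_num)).mp h8
  have hratio : 7 / 10 * m * D / (2 * k * (j : ℝ) ^ 2) ≤ 18 * s * ε / k := by
    rw [div_le_div_iff₀ hden hk]
    have hmb : m * b = s / 2 * (b * s) := by
      have : (m : ℝ) = s ^ 2 / 2 := by rw [hs2]; ring
      rw [this]; ring
    have h9 : 7 / 10 * m * D * k = 7 / 10 * (7702 / 1000) * k * (s / 2 * (b * s)) := by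
      rw [hD, ← hmb]; ring
    rw [h9]
    calc 7 / 10 * (7702 / 1000) * k * (s / 2 * (b * s))
        ≤ 7 / 10 * (7702 / 1000) * k * (s / 2 * (13267 / 1000 * (j ^ 2 * ε))) := by
          apply mul_le_mul_of_nonneg_left _ (by positivity)
          exact mul_le_mul_of_nonneg_left hbs (by positivity)
      _ = (7 / 10 * (7702 / 1000) / 2 * (13267 / 1000)) * (k * s * (j ^ 2 * ε)) := by ring
      _ ≤ 36 * (k * s * (j ^ 2 * ε)) := by
          apply mul_le_mul_of_nonneg_right (by norm_num) (by positivity)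
      _ = _ := by ring
  rw [← hs]
  calc L ≤ _ := hL3
    _ ≤ 9 / 10 * (((2 * k) ^ m * ((2 * m).factorial : ℝ)) * (18 * s * ε / k) ^ j) := by
        gcongr
    _ = _ := by ring

end Pool.Agent.H933R2.HopfN
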