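import Pool.Agent.H933R2.HopfN.St2
import Pool.Agent.H933R2.HopfN.TOP
import Pool.Agent.H933R2.HopfN.SQ
import Pool.Agent.H933R2.HopfN.PF
import Pool.Agent.H933R2.HopfN.HAD

set_option autoImplicit false

/-! Task TOP2: bound of the Gauss-Bonnet sum in top degree, good constant. -/

namespace Pool.Agent.H933R2.HopfN

open Finset

theorem top2_main (h1 : St_spec2) (h5 : St_gauss) (h6 : St_hsum2) : St_top2 := by
  have h2 := sq_main
  have h3 := pf_main
  have h4 := had_main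
  intro j hj T hT
  classical
  obtain ⟨lam, v, hv, hlam, hanti, hB, hl1⟩ := h1 (Pos j) T hT.a1 hT.ps
  have hjR : (0 : ℝ) < j := by exact_mod_cast hj
  have hcardP : Fintype.card (Pos j) = 2 * j := by
    rw [Fintype.card_prod, Fintype.card_fin, Fintype.card_fin]; ring
  have hcardK : Fintype.card (Pos j × Pos j) ≤ 4 * j ^ 2 := by
    rw [Fintype.card_prod, hcardP]
    apply le_of_eq
    ring
  set N : ℝ := 2 ^ j * (j.factorial : ℝ) with hN
  have hNpos : 0 < N := by positivity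
  set c : (Fin j → Pos j × Pos j) → ℝ := fun α => pp j v α / N with hc
  have hcs : ∀ (π : Equiv.Perm (Fin j)) (α : Fin j → Pos j × Pos j), c (α ∘ π) = c α := by
    intro π α
    simp only [hc]
    rw [top_pp_symm]
  have hbound : ∀ x : Pos j × Pos j → ℂ, ‖∑ α : Fin j → Pos j × Pos j, (c α : ℂ) * ∏ i, x (α i)‖ ^ 2 ≤
      (1 / (2 * j) * ∑ κ, ‖x κ‖ ^ 2) ^ j := by
    intro x
    set X : Pos j → Pos j → ℂ := fun a b => ∑ κ, x κ * (v κ a b : ℂ) with hX
    have hXa : ∀ a b, X b a = - X a b := by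
      intro a b
      simp only [hX]
      rw [← sum_neg_distrib]
      refine sum_congr rfl fun κ _ => ?_
      rw [hanti κ a b]
      push_cast
      ring
    have hpf := h3 j X hXa
    have hsum := top_pp_sum j v x
    have hs : ∑ α : Fin j → Pos j × Pos j, (c α : ℂ) * ∏ i, x (α i) =
        (∑ σ : Equiv.Perm (Pos j), ((Equiv.Perm.sign σ : ℤ) : ℂ) *
          ∏ i : Fin j, X (σ (i, 0)) (σ (i, 1))) / (N : ℂ) := by
      rw [← hsum, sum_div]
      refine sum_congr rfl fun α _ => ?_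
      simp only [hc]
      push_cast
      ring
    have hNC : (N : ℂ) = (2 : ℂ) ^ j * (j.factorial : ℂ) := by rw [hN]; push_cast; ring
    have hNC0 : (N : ℂ) ≠ 0 := by exact_mod_cast hNpos.ne'
    have hsq : (∑ α : Fin j → Pos j × Pos j, (c α : ℂ) * ∏ i, x (α i)) ^ 2 = Matrix.det (Matrix.of X) := by
      rw [hs, div_pow, hpf, ← hNC, mul_div_assoc, mul_comm, div_mul_eq_mul_div,
        mul_div_assoc, div_self (pow_ne_zero 2 hNC0), mul_one]
    have hnorm : ‖∑ α : Fin j → Pos j × Pos j, (c α : ℂ) * ∏ i, x (α i)‖ ^ 2 =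
        ‖Matrix.det (Matrix.of X)‖ := by
      rw [← norm_pow, hsq]
    rw [hnorm]
    have hhad := h4 (Pos j) (Matrix.of X)
    rw [hcardP] at hhad
    have hSX : ∑ a, ∑ b, ‖(Matrix.of X) a b‖ ^ 2 ≤ ∑ κ, ‖x κ‖ ^ 2 := hB x
    have hS0 : 0 ≤ ∑ a, ∑ b, ‖(Matrix.of X) a b‖ ^ 2 :=
      sum_nonneg fun a _ => sum_nonneg fun b _ => sq_nonneg _
    have h7 : ‖Matrix.det (Matrix.of X)‖ ^ 2 ≤
        (((∑ a, ∑ b, ‖(Matrix.of X) a b‖ ^ 2) / (2 * j)) ^ j) ^ 2 := by
      rw [← pow_mul, mul_comm j 2]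
      push_cast at hhad
      exact hhad
    have h8 := abs_le_of_sq_le_sq' h7 (by positivity)
    calc ‖Matrix.det (Matrix.of X)‖ ≤ ((∑ a, ∑ b, ‖(Matrix.of X) a b‖ ^ 2) / (2 * j)) ^ j := h8.2
      _ ≤ (1 / (2 * j) * ∑ κ, ‖x κ‖ ^ 2) ^ j := by
          apply pow_le_pow_left₀ (by positivity)
          rw [one_div, inv_mul_eq_div]
          exact div_le_div_of_nonneg_right hSX (by positivity)
  have hcoef := h5 (Pos j × Pos j) j c (1 / (2 * j)) (by positivity) hcs hbound
    (fun κ => |lam κ|) (fun κ => abs_nonneg _)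
  have hsqb := h2 j (Pos j × Pos j) lam v
  have hTeq : (fun a b c d => ∑ κ, lam κ * v κ a b * v κ c d) = T := by
    funext a b c d
    exact (hv a b c d).symm
  rw [hTeq] at hsqb
  have hhs := h6 (Pos j × Pos j) j hj (fun κ => |lam κ|) (fun κ => abs_nonneg _) (by
    simp only [sq_abs]
    rw [hlam]
    refine hl1.trans (le_of_eq ?_)
    rw [hcardP]
    push_cast
    ring)
  simp only [sq_abs] at hhs
  rw [hlam] at hhs
  set L : ℝ := Real.sqrt (hs4 T) with hL
  have hL0 : 0 ≤ L := Real.sqrt_nonneg _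
  have hfac : (0 : ℝ) < (j.factorial : ℝ) := by positivity
  -- assembly
  have h9 : |gb j T| * (j.factorial : ℝ) ≤ N ^ 2 * ((1 / (2 * j)) ^ j *
      ((j.factorial : ℝ) * (5 / 4 * (3851 / 1000 * L) ^ j))) := by
    calc |gb j T| * (j.factorial : ℝ)
        ≤ (∑ α : Fin j → Pos j × Pos j, (∏ i, |lam (α i)|) * pp j v α ^ 2) * (j.factorial : ℝ) :=
          mul_le_mul_of_nonneg_right hsqb hfac.le
      _ = N ^ 2 * ((j.factorial : ℝ) *
            ∑ α : Fin j → Pos j × Pos j, c α ^ 2 * ∏ i, |lam (α i)|) := by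
          rw [sum_mul, mul_sum, mul_sum]
          refine sum_congr rfl fun α _ => ?_
          have : pp j v α ^ 2 = N ^ 2 * c α ^ 2 := by
            simp only [hc]
            rw [div_pow, mul_div_assoc', mul_div_assoc, mul_comm, div_mul_eq_mul_div, mul_div_assoc,
              div_self (pow_ne_zero 2 hNpos.ne'), mul_one]
          rw [this]; ring
      _ ≤ N ^ 2 * ((1 / (2 * j)) ^ j *
            ∑ α : Fin j → Pos j × Pos j, (∏ κ, ((cnt α κ).factorial : ℝ)) * ∏ i, |lam (α i)|) :=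
          mul_le_mul_of_nonneg_left hcoef (by positivity)
      _ ≤ _ := by
          apply mul_le_mul_of_nonneg_left _ (by positivity)
          exact mul_le_mul_of_nonneg_left hhs (by positivity)
  have h10 : |gb j T| ≤ N ^ 2 * (1 / (2 * j)) ^ j * (5 / 4 * (3851 / 1000 * L) ^ j) := by
    have : |gb j T| * (j.factorial : ℝ) ≤
        (N ^ 2 * (1 / (2 * j)) ^ j * (5 / 4 * (3851 / 1000 * L) ^ j)) * (j.factorial : ℝ) := by
      refine h9.trans (le_of_eq ?_)
      ring
    exact le_of_mul_le_mul_right this hfac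
  have hb : ((1 / (2 * (j : ℝ))) * (3851 / 1000 * L)) * j = 3851 / 2000 * L := by
    field_simp
    ring
  calc |gb j T| * (j : ℝ) ^ j
      ≤ (N ^ 2 * (1 / (2 * j)) ^ j * (5 / 4 * (3851 / 1000 * L) ^ j)) * (j : ℝ) ^ j :=
        mul_le_mul_of_nonneg_right h10 (by positivity)
    _ = 5 / 4 * N ^ 2 * (((1 / (2 * j)) * (3851 / 1000 * L)) * j) ^ j := by
        rw [mul_pow (1 / (2 * (j : ℝ)) * (3851 / 1000 * L)) (j : ℝ) j,
          mul_pow (1 / (2 * (j : ℝ))) (3851 / 1000 * L) j]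
        ring
    _ = 5 / 4 * N ^ 2 * (3851 / 2000 * L) ^ j := by rw [hb]
    _ = 5 / 4 * (4 ^ j * (j.factorial : ℝ) ^ 2 * (3851 / 2000 * L) ^ j) := by
        rw [hN, mul_pow, ← pow_mul, mul_comm j 2, pow_mul]
        norm_num
        ring

end Pool.Agent.H933R2.HopfN
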