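import Pool.Agent.H933R2.HopfN.All
import Pool.Agent.H933R2.HopfN.SPEC2
import Pool.Agent.H933R2.HopfN.GAUSS
import Pool.Agent.H933R2.HopfN.HSUM2
import Pool.Agent.H933R2.HopfN.TOP2
import Pool.Agent.H933R2.HopfN.FACT
import Pool.Agent.H933R2.HopfN.SUPS
import Pool.Agent.H933R2.HopfN.INVB
import Pool.Agent.H933R2.HopfN.LAP4R
import Pool.Agent.H933R2.HopfN.GRDS
import Pool.Agent.H933R2.HopfN.ALGS
import Pool.Agent.H933R2.HopfN.MOMS
import Pool.Agent.H933R2.HopfN.TERMS
import Pool.Agent.H933R2.HopfN.FINS
import Pool.Agent.H933R2.HopfN.GRD2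
import Pool.Agent.H933R2.HopfN.ALG2
import Pool.Agent.H933R2.HopfN.MOM2
import Pool.Agent.H933R2.HopfN.RES2
import Pool.Agent.H933R2.HopfN.DEC2
import Pool.Agent.H933R2.HopfN.TERM2
import Pool.Agent.H933R2.HopfN.FIN2
import Pool.Agent.H933R2.HopfN.PURE
import Pool.Agent.H933R2.HopfN.SIX
import Pool.Agent.H933R2.HopfN.SHARP

namespace Pool.Agent.H933R2.HopfN

theorem all_top2 : St_top2 := top2_main spec2_main (gauss_main words_main) (hsum2_main words_main)
theorem all_moms : St_moms := moms_main (algs_main lap4r_main) grds_main invb_main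
theorem all_terms : St_terms := terms_main all_top2 all_moms fact_main
theorem all_fins : St_fins := fins_main all_terms sups_main
theorem all_mom2 : St_mom2 := mom2_main alg2_main grd2_main
theorem all_term2 : St_term2 := term2_main all_top2 all_mom2 res2_main dec2_main fact_main
theorem all_fin2 : St_fin2 := fin2_main all_term2
theorem all_sharp : St_sharp := sharp_main pure_main six_main

end Pool.Agent.H933R2.HopfN
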