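import Mathlib

set_option autoImplicit false
set_option linter.all false

/-!
Project HopfN (helper933): Gauss-Bonnet-Chern integrand of tensors close to constant curvature,
in all even dimensions, with constants independent of the dimension.
Conventions: tensors in components; sectional curvature of an orthonormal pair `x, y` is
`R x y x y`; the tensor of constant curvature one is `Id4`.
-/

namespace Pool.Agent.H933R2.HopfN

/-- 4-tensors and 2-tensors in components -/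
abbrev T4 (ι : Type) := ι → ι → ι → ι → ℝ
abbrev T2 (ι : Type) := ι → ι → ℝ
/-- positions: `j` pairs -/
abbrev Pos (j : ℕ) := Fin j × Fin 2

/-- Kronecker delta -/
def kd {ι : Type} [DecidableEq ι] (a b : ι) : ℝ := if a = b then 1 else 0

/-- sign of a permutation, as a real number -/
def sg {α : Type} [Fintype α] [DecidableEq α] (σ : Equiv.Perm α) : ℝ :=
  ((Equiv.Perm.sign σ : ℤ) : ℝ)

/-- algebraic curvature tensors -/
structure IsCurv {ι : Type} (R : T4 ι) : Prop where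
  a1 : ∀ a b c d, R b a c d = - R a b c d
  a2 : ∀ a b c d, R a b d c = - R a b c d
  ps : ∀ a b c d, R c d a b = R a b c d
  bi : ∀ a b c d, R a b c d + R a c d b + R a d b c = 0

def IsSym {ι : Type} (A : T2 ι) : Prop := ∀ a b, A b a = A a b

/-- curvature tensor of constant curvature one -/
def Id4 {ι : Type} [DecidableEq ι] : T4 ι :=
  fun a b c d => kd a c * kd b d - kd a d * kd b c

/-- Kulkarni-Nomizu product with the metric -/
def kn {ι : Type} [DecidableEq ι] (A : T2 ι) : T4 ι :=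
  fun a b c d => kd a c * A b d - kd a d * A b c - kd b c * A a d + kd b d * A a c

/-- Ricci contraction -/
def Ric {ι : Type} [Fintype ι] (R : T4 ι) : T2 ι := fun b d => ∑ x, R x b x d

/-- trace -/
def tr2 {ι : Type} [Fintype ι] (A : T2 ι) : ℝ := ∑ a, A a a

/-- squared Hilbert-Schmidt norms -/
def hs4 {ι : Type} [Fintype ι] (R : T4 ι) : ℝ := ∑ a, ∑ b, ∑ c, ∑ d, R a b c d ^ 2
def hs2 {ι : Type} [Fintype ι] (A : T2 ι) : ℝ := ∑ a, ∑ b, A a b ^ 2

/-- change of the orthonormal frame -/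
def act4 {ι : Type} [Fintype ι] (O : Matrix ι ι ℝ) (R : T4 ι) : T4 ι :=
  fun a b c d => ∑ a', ∑ b', ∑ c', ∑ d', O a a' * O b b' * O c c' * O d d' * R a' b' c' d'
def act2 {ι : Type} [Fintype ι] (O : Matrix ι ι ℝ) (A : T2 ι) : T2 ι :=
  fun a b => ∑ a', ∑ b', O a a' * O b b' * A a' b'

/-- orthogonal matrices -/
def Orth {ι : Type} [Fintype ι] [DecidableEq ι] (O : Matrix ι ι ℝ) : Prop := O.transpose * O = 1

/-- the full contraction of the `j`-th power -/
def GG {ι : Type} [Fintype ι] (j : ℕ) (R : T4 ι) : ℝ :=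
  ∑ f : Pos j → ι, ∑ τ : Equiv.Perm (Pos j),
    sg τ * ∏ i : Fin j, R (f (i, 0)) (f (i, 1)) (f (τ (i, 0))) (f (τ (i, 1)))

/-- Gauss-Bonnet sum in dimension `2 j` -/
def gb (j : ℕ) (T : T4 (Pos j)) : ℝ :=
  ∑ σ : Equiv.Perm (Pos j), ∑ τ : Equiv.Perm (Pos j),
    sg σ * sg τ * ∏ i : Fin j, T (σ (i, 0)) (σ (i, 1)) (τ (i, 0)) (τ (i, 1))

/-- restriction (pull back) of tensors along a map of indices -/
def res4 {ι κ : Type} (f : κ → ι) (R : T4 ι) : T4 κ := fun a b c d => R (f a) (f b) (f c) (f d)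
def res2 {ι κ : Type} (f : κ → ι) (A : T2 ι) : T2 κ := fun a b => A (f a) (f b)

/-- polarised Pfaffian of `j` of the matrices `v κ` -/
def pp {K : Type} (j : ℕ) (v : K → Pos j → Pos j → ℝ) (α : Fin j → K) : ℝ :=
  ∑ σ : Equiv.Perm (Pos j), sg σ * ∏ i : Fin j, v (α i) (σ (i, 0)) (σ (i, 1))

/-- number of times the letter `κ` is used by the word `α` -/
def cnt {K : Type} [DecidableEq K] {j : ℕ} (α : Fin j → K) (κ : K) : ℕ :=
  (Finset.univ.filter (fun i => α i = κ)).card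

/-- weights: 1 on `S`, `θ` outside -/
def wt {ι : Type} [DecidableEq ι] (θ : ℝ) (S : Finset ι) : ι → ℝ := fun a => if a ∈ S then 1 else θ

/-- weighted inner products and squared norms -/
def ip4 {ι : Type} [Fintype ι] (w : ι → ℝ) (R T : T4 ι) : ℝ :=
  ∑ a, ∑ b, ∑ c, ∑ d, w a * w b * w c * w d * (R a b c d * T a b c d)
def ip2 {ι : Type} [Fintype ι] (w : ι → ℝ) (A B : T2 ι) : ℝ :=
  ∑ a, ∑ b, w a * w b * (A a b * B a b)
def Q4 {ι : Type} [Fintype ι] (w : ι → ℝ) (R : T4 ι) : ℝ := ip4 w R R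
def Q2 {ι : Type} [Fintype ι] (w : ι → ℝ) (A : T2 ι) : ℝ := ip2 w A A
/-- the same with the first index free -/
def s4 {ι : Type} [Fintype ι] (w : ι → ℝ) (R : T4 ι) : ℝ :=
  ∑ a, ∑ b, ∑ c, ∑ d, w b * w c * w d * R a b c d ^ 2
def s2 {ι : Type} [Fintype ι] (w : ι → ℝ) (A : T2 ι) : ℝ := ∑ a, ∑ b, w b * A a b ^ 2

/-- infinitesimal rotation in the plane `(i, l)` -/
def D4 {ι : Type} [DecidableEq ι] (i l : ι) (R : T4 ι) : T4 ι := fun a b c d =>
  (kd a i * R l b c d - kd a l * R i b c d) + (kd b i * R a l c d - kd b l * R a i c d) +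
  (kd c i * R a b l d - kd c l * R a b i d) + (kd d i * R a b c l - kd d l * R a b c i)
def D2 {ι : Type} [DecidableEq ι] (i l : ι) (A : T2 ι) : T2 ι := fun a b =>
  (kd a i * A l b - kd a l * A i b) + (kd b i * A a l - kd b l * A a i)

/-- the functional of one subset, its first derivative and (half of) its second derivative
along the infinitesimal rotation `(i, l)` -/
def QQ {ι : Type} [Fintype ι] (w : ι → ℝ) (κ : ℝ) (W : T4 ι) (A : T2 ι) : ℝ :=
  Q4 w W + κ * Q2 w A
def QQ1 {ι : Type} [Fintype ι] [DecidableEq ι] (w : ι → ℝ) (κ : ℝ) (W : T4 ι) (A : T2 ι)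
    (i l : ι) : ℝ :=
  2 * ip4 w W (D4 i l W) + κ * (2 * ip2 w A (D2 i l A))
def QQ2 {ι : Type} [Fintype ι] [DecidableEq ι] (w : ι → ℝ) (κ : ℝ) (W : T4 ι) (A : T2 ι)
    (i l : ι) : ℝ :=
  2 * (ip4 w W (D4 i l (D4 i l W)) + Q4 w (D4 i l W)) +
    κ * (2 * (ip2 w A (D2 i l (D2 i l A)) + Q2 w (D2 i l A)))

/-- the functional to be minimised over all orthonormal frames -/
def Psi {ι F : Type} [Fintype ι] [DecidableEq ι] [Fintype F] (S : F → Finset ι) (θ κ : ℝ) (q : ℕ)
    (W : T4 ι) (A : T2 ι) : ℝ :=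
  ∑ f : F, QQ (wt θ (S f)) κ W A ^ q

end Pool.Agent.H933R2.HopfN
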