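import Pool.Agent.H933R2.HopfN.St

set_option autoImplicit false
set_option linter.all false

/-!
Statements of phase 2 of project HopfN (good constants, sharpness).
-/

namespace Pool.Agent.H933R2.HopfN

/-- evaluation on vectors, Euclidean norm -/
def ev4 {ι : Type} [Fintype ι] (E : T4 ι) (x y z w : ι → ℝ) : ℝ :=
  ∑ a, ∑ b, ∑ c, ∑ d, E a b c d * x a * y b * z c * w d
def ev2 {ι : Type} [Fintype ι] (A : T2 ι) (x y : ι → ℝ) : ℝ := ∑ a, ∑ b, A a b * x a * y b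
noncomputable def nr {ι : Type} [Fintype ι] (x : ι → ℝ) : ℝ := Real.sqrt (∑ a, x a ^ 2)

/-- sup norm bounds on vectors -/
def Bd4 {ι : Type} [Fintype ι] (E : T4 ι) (ω : ℝ) : Prop :=
  ∀ x y z w, |ev4 E x y z w| ≤ ω * (nr x * nr y * nr z * nr w)
def Bd2 {ι : Type} [Fintype ι] (A : T2 ι) (ρ : ℝ) : Prop :=
  ∀ x y, |ev2 A x y| ≤ ρ * (nr x * nr y)

/-- Ricci contraction over the subset `S` only -/
def RicS {ι : Type} [Fintype ι] (S : Finset ι) (E : T4 ι) : T2 ι := fun b d => ∑ a ∈ S, E a b a d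

/-! ### top degree -/

/-- SPEC2 -/
def St_spec2 : Prop := ∀ (P : Type) [Fintype P] [DecidableEq P] (T : T4 P),
    (∀ a b c d, T b a c d = - T a b c d) → (∀ a b c d, T c d a b = T a b c d) →
    ∃ (lam : P × P → ℝ) (v : P × P → P → P → ℝ),
      (∀ a b c d, T a b c d = ∑ κ, lam κ * v κ a b * v κ c d) ∧
      (∑ κ, lam κ ^ 2 = hs4 T) ∧ (∀ κ a b, v κ b a = - v κ a b) ∧
      (∀ x : P × P → ℂ, ∑ a, ∑ b, ‖∑ κ, x κ * (v κ a b : ℂ)‖ ^ 2 ≤ ∑ κ, ‖x κ‖ ^ 2) ∧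
      (∑ κ, |lam κ|) ^ 2 ≤ (Fintype.card P : ℝ) * ((Fintype.card P : ℝ) - 1) / 2 * hs4 T

/-- GAUSS -/
def St_gauss : Prop := ∀ (K : Type) [Fintype K] [DecidableEq K] (j : ℕ) (c : (Fin j → K) → ℝ)
    (M : ℝ), 0 ≤ M → (∀ (π : Equiv.Perm (Fin j)) (α : Fin j → K), c (α ∘ π) = c α) →
    (∀ x : K → ℂ, ‖∑ α : Fin j → K, (c α : ℂ) * ∏ i, x (α i)‖ ^ 2 ≤
      (M * ∑ κ, ‖x κ‖ ^ 2) ^ j) →
    ∀ lam : K → ℝ, (∀ κ, 0 ≤ lam κ) →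
    (j.factorial : ℝ) * ∑ α : Fin j → K, c α ^ 2 * ∏ i, lam (α i) ≤
      M ^ j * ∑ α : Fin j → K, (∏ κ, ((cnt α κ).factorial : ℝ)) * ∏ i, lam (α i)

/-- HSUM2 -/
def St_hsum2 : Prop := ∀ (K : Type) [Fintype K] [DecidableEq K] (j : ℕ), 1 ≤ j →
    ∀ lam : K → ℝ, (∀ κ, 0 ≤ lam κ) →
    (∑ κ, lam κ) ^ 2 ≤ (j : ℝ) * (2 * j - 1) * ∑ κ, lam κ ^ 2 →
    ∑ α : Fin j → K, (∏ κ, ((cnt α κ).factorial : ℝ)) * ∏ i, lam (α i) ≤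
      (j.factorial : ℝ) * (5 / 4 * (3851 / 1000 * Real.sqrt (∑ κ, lam κ ^ 2)) ^ j)

/-- TOP2 -/
def St_top2 : Prop := ∀ (j : ℕ), 1 ≤ j → ∀ (T : T4 (Pos j)), IsCurv T →
    |gb j T| * (j : ℝ) ^ j ≤
      5 / 4 * (4 ^ j * (j.factorial : ℝ) ^ 2 * (3851 / 2000 * Real.sqrt (hs4 T)) ^ j)

/-- FACT -/
def St_fact : Prop := ∀ j : ℕ, 2 ≤ j →
    3 * ((j.factorial : ℝ) * (j : ℝ) ^ j) ≤ ((2 * j).factorial : ℝ) * (7 / 10) ^ (j - 2)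

/-! ### sectional version -/

/-- SUPS -/
def St_sup : Prop := ∀ (ι : Type) [Fintype ι] [DecidableEq ι] (E : T4 ι) (s : ℝ), 0 ≤ s →
    IsCurv E → (∀ x y : ι → ℝ, |ev4 E x y x y| ≤ s * (∑ a, x a ^ 2) * (∑ a, y a ^ 2)) →
    Bd4 E (4 / 3 * s) ∧ Bd2 (Ric E) ((Fintype.card ι : ℝ) * s)

/-- INVB -/
def St_invb : Prop := ∀ (ι : Type) [Fintype ι] [DecidableEq ι] (O : Matrix ι ι ℝ), Orth O →
    (∀ (E : T4 ι) (ω : ℝ), Bd4 E ω → Bd4 (act4 O E) ω) ∧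
    (∀ (A : T2 ι) (ρ : ℝ), Bd2 A ρ → Bd2 (act2 O A) ρ)

/-- LAP4R -/
def St_lap4r : Prop := ∀ (ι : Type) [Fintype ι] [DecidableEq ι] (S : Finset ι) (E : T4 ι),
    IsCurv E →
    ∑ i, ∑ l, (ip4 (wt 0 S) E (D4 i l (D4 i l E)) + Q4 (wt 0 S) (D4 i l E)) ≤
      -(8 * (Fintype.card ι : ℝ)) * Q4 (wt 0 S) E + (8 * (S.card : ℝ) + 8) * s4 (wt 0 S) E +
      16 * ∑ b ∈ S, ∑ d ∈ S, RicS S E b d * (Ric E b d - RicS S E b d)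

/-- GRDS -/
def St_grds : Prop := ∀ (ι : Type) [Fintype ι] [DecidableEq ι] (S : Finset ι) (κ ω ρ : ℝ),
    0 ≤ κ → 0 ≤ ω → 0 ≤ ρ → ∀ (E : T4 ι) (A : T2 ι), IsCurv E → IsSym A → Bd4 E ω → Bd2 A ρ →
    ∑ i, ∑ l, QQ1 (wt 0 S) κ E A i l ^ 2 ≤
      128 * QQ (wt 0 S) κ E A * ((S.card : ℝ) ^ 2 * ω ^ 2 + κ * ρ ^ 2)

/-- ALGS -/
def St_algs : Prop := ∀ (ι : Type) [Fintype ι] [DecidableEq ι] (j : ℕ), 1 ≤ j →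
    2 * j ≤ Fintype.card ι → ∀ (S : Finset ι), S.card = 2 * j → ∀ (E : T4 ι),
    IsCurv E → tr2 (Ric E) = 0 → ∀ (n κ ω ρ : ℝ), n = Fintype.card ι →
    κ = 2048 * j / (105 * n ^ 2) → 0 ≤ ω → 0 ≤ ρ → Bd4 E ω → Bd2 (Ric E) ρ →
    (1 / 2) * ∑ i, ∑ l, QQ2 (wt 0 S) κ E (Ric E) i l ≤
      - (11 / 4) * n * QQ (wt 0 S) κ E (Ric E) +
      ((16 * j + 8) * (2 * j) ^ 3 * ω ^ 2 + κ * ρ ^ 2 * ((8 * j + 4) * (2 * j)))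

/-- MOMS -/
def St_moms : Prop := ∀ (ι F : Type) [Fintype ι] [DecidableEq ι] [Fintype F] (j : ℕ), 2 ≤ j →
    2 * j ≤ Fintype.card ι → ∀ (S : F → Finset ι), (∀ f, (S f).card = 2 * j) →
    ∀ (E : T4 ι), IsCurv E → tr2 (Ric E) = 0 → ∀ (n κ ε : ℝ), n = Fintype.card ι →
    κ = 2048 * j / (105 * n ^ 2) → 0 ≤ ε → Bd4 E (4 / 3 * ε) → Bd2 (Ric E) (n * ε) →
    ∃ O : Matrix ι ι ℝ, Orth O ∧
      ∑ f, QQ (wt 0 (S f)) κ (act4 O E) (Ric (act4 O E)) ^ ((j + 1) / 2) ≤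
        (Fintype.card F : ℝ) * (176 * j ^ 4 * ε ^ 2 / n) ^ ((j + 1) / 2)

/-- TERMS -/
def St_terms : Prop := ∀ (m : ℕ), 2 ≤ m → ∀ (ι : Type) [Fintype ι] [DecidableEq ι],
    Fintype.card ι = 2 * m → ∀ E : T4 ι, IsCurv E → tr2 (Ric E) = 0 → ∀ (ε : ℝ), 0 ≤ ε →
    Bd4 E (4 / 3 * ε) → Bd2 (Ric E) (2 * m * ε) → ∀ (k : ℝ), 0 < k → ∀ j : ℕ, 2 ≤ j → j ≤ m →
    (m.choose j : ℝ) * (2 * k) ^ (m - j) * ((2 * m - 2 * j).factorial : ℝ) * |GG j E| ≤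
      9 / 10 * (18 * Real.sqrt (2 * m) * ε / k) ^ j * ((2 * k) ^ m * ((2 * m).factorial : ℝ))

/-- FINS -/
def St_fins : Prop := ∀ (m : ℕ), 2 ≤ m → ∀ (ι : Type) [Fintype ι] [DecidableEq ι],
    Fintype.card ι = 2 * m → ∀ E : T4 ι, IsCurv E → tr2 (Ric E) = 0 → ∀ (ε : ℝ), 0 ≤ ε →
    (∀ x y : ι → ℝ, |ev4 E x y x y| ≤ ε * (∑ a, x a ^ 2) * (∑ a, y a ^ 2)) →
    ∀ (k : ℝ), k ≠ 0 → 18 * Real.sqrt (2 * m) * ε ≤ 513 / 1000 * |k| →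
    |GG m (fun a b c d => k * Id4 a b c d + E a b c d) - (2 * k) ^ m * ((2 * m).factorial : ℝ)| ≤
      1 / 2 * (|2 * k| ^ m * ((2 * m).factorial : ℝ))

/-! ### L2 version -/

/-- GRD2 -/
def St_grd2 : Prop := ∀ (ι : Type) [Fintype ι] [DecidableEq ι] (S : Finset ι) (θ κ : ℝ),
    0 < θ → θ ≤ 1 → 0 ≤ κ → ∀ (W : T4 ι) (A : T2 ι), IsCurv W → IsSym A → ∀ a : ℝ,
    a = (Q4 (wt θ S) W - θ * s4 (wt θ S) W) + κ / 2 * (Q2 (wt θ S) A - θ * s2 (wt θ S) A) →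
    0 ≤ a ∧ a ≤ QQ (wt θ S) κ W A ∧
    ∑ i, ∑ l, QQ1 (wt θ S) κ W A i l ^ 2 ≤ 128 / θ * a * (QQ (wt θ S) κ W A - a)

/-- ALG2 -/
def St_alg2 : Prop := ∀ (ι : Type) [Fintype ι] [DecidableEq ι] (S : Finset ι) (θ κ : ℝ),
    0 < θ → θ ≤ 1 → 0 ≤ κ → ∀ (W : T4 ι) (A : T2 ι), IsCurv W → (∀ a b, Ric W a b = 0) →
    IsSym A → tr2 A = 0 → ∀ a : ℝ,
    a = (Q4 (wt θ S) W - θ * s4 (wt θ S) W) + κ / 2 * (Q2 (wt θ S) A - θ * s2 (wt θ S) A) →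
    (QQ (wt θ S) κ W A - (θ ^ 4 * hs4 W + κ * θ ^ 2 * hs2 A)) / 4 ≤ a ∧
    (1 / 2) * ∑ i, ∑ l, QQ2 (wt θ S) κ W A i l ≤
      - (8 * (Fintype.card ι : ℝ)) * a +
        (8 * (S.card : ℝ) + 16) / θ * (QQ (wt θ S) κ W A - a)

/-- MOM2 -/
def St_mom2 : Prop := ∀ (ι F : Type) [Fintype ι] [DecidableEq ι] [Fintype F] (j : ℕ), 2 ≤ j →
    25 * j ≤ 2 * Fintype.card ι → ∀ (S : F → Finset ι), (∀ f, (S f).card = 2 * j) →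
    ∀ (W : T4 ι) (A : T2 ι), IsCurv W → (∀ a b, Ric W a b = 0) → IsSym A → tr2 A = 0 →
    ∀ (n θ κ : ℝ), n = Fintype.card ι → θ = 25 * j / (2 * n) → κ = 64 * j →
    ∃ O : Matrix ι ι ℝ, Orth O ∧
      ∑ f, QQ (wt θ (S f)) κ (act4 O W) (act2 O A) ^ ((j + 1) / 2) ≤
        (Fintype.card F : ℝ) *
          (554 / 100 * (θ ^ 4 * hs4 W + κ * θ ^ 2 * hs2 A)) ^ ((j + 1) / 2)

/-- RES2 -/
def St_res2 : Prop := ∀ (ι : Type) [Fintype ι] [DecidableEq ι] (j : ℕ) (f : Pos j ↪ ι) (θ : ℝ),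
    0 ≤ θ → ∀ (W : T4 ι) (A : T2 ι),
    hs4 (res4 f (W + kn A)) ≤
      5 / 4 * QQ (wt θ (Finset.univ.map f)) (64 * j) W A

/-- DEC2 -/
def St_dec2 : Prop := ∀ (ι : Type) [Fintype ι] [DecidableEq ι], 4 ≤ Fintype.card ι →
    ∀ E : T4 ι, IsCurv E → tr2 (Ric E) = 0 → ∃ (W : T4 ι) (A : T2 ι),
      IsCurv W ∧ (∀ a b, Ric W a b = 0) ∧ IsSym A ∧ tr2 A = 0 ∧ E = W + kn A ∧
      hs4 W + (Fintype.card ι : ℝ) ^ 2 / 4 * hs2 A ≤ hs4 E + hs2 (Ric E)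

/-- TERM2 -/
def St_term2 : Prop := ∀ (m : ℕ), 2 ≤ m → ∀ (ι : Type) [Fintype ι] [DecidableEq ι],
    Fintype.card ι = 2 * m → ∀ E : T4 ι, IsCurv E → tr2 (Ric E) = 0 →
    ∀ X : ℝ, X = hs4 E + hs2 (Ric E) → ∀ (k : ℝ), 0 < k → ∀ j : ℕ, 2 ≤ j → j ≤ m →
    (m.choose j : ℝ) * (2 * k) ^ (m - j) * ((2 * m - 2 * j).factorial : ℝ) * |GG j E| ≤
      9 / 10 * (555 * Real.sqrt X / (2 * m * k)) ^ j * ((2 * k) ^ m * ((2 * m).factorial : ℝ))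

/-- FIN2 -/
def St_fin2 : Prop := ∀ (m : ℕ), 2 ≤ m → ∀ (ι : Type) [Fintype ι] [DecidableEq ι],
    Fintype.card ι = 2 * m → ∀ E : T4 ι, IsCurv E → tr2 (Ric E) = 0 → ∀ (k : ℝ), k ≠ 0 →
    10 ^ 6 * (hs4 E + hs2 (Ric E)) ≤ (2 * m * k) ^ 2 →
    |GG m (fun a b c d => k * Id4 a b c d + E a b c d) - (2 * k) ^ m * ((2 * m).factorial : ℝ)| ≤
      63 * 10 ^ 4 * (hs4 E + hs2 (Ric E)) / (2 * m * k) ^ 2 *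
        (|2 * k| ^ m * ((2 * m).factorial : ℝ))

/-! ### sharpness -/

/-- PURE -/
def St_pure : Prop := ∀ (ι : Type) [Fintype ι] [DecidableEq ι] (j : ℕ) (t : T2 ι),
    GG j (fun a b c d => t a b * (kd a c * kd b d - kd a d * kd b c)) =
      2 ^ j * ∑ f : Pos j ↪ ι, ∏ i, t (f (i, 0)) (f (i, 1))

/-- the weights on six points: 4 on the three edges of a perfect matching, -1 elsewhere -/
def t6 (p q : Pos 3) : ℝ := if p = q then 0 else if p.1 = q.1 then 4 else -1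

/-- SIX: numbers -/
def St_six : Prop :=
    (∑ f : Pos 2 ↪ Pos 3, ∏ i, t6 (f (i, 0)) (f (i, 1)) = 240) ∧
    (∑ f : Pos 3 ↪ Pos 3, ∏ i, t6 (f (i, 0)) (f (i, 1)) = 3840)

/-- SHARP -/
def St_sharp : Prop := ∀ (m : ℕ), 3 ≤ m → ∀ (ι : Type) [Fintype ι] [DecidableEq ι],
    Fintype.card ι = 2 * m → ∃ E : T4 ι, IsCurv E ∧ (∀ a b, Ric E a b = 0) ∧
      hs4 E ≤ 240 * (2 * m) ^ 2 ∧ GG m (fun a b c d => Id4 a b c d + E a b c d) < 0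

end Pool.Agent.H933R2.HopfN
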