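import Pool.Agent.H933R2.HopfN.Final
import Pool.Agent.H933R2.HopfN.St2

set_option autoImplicit false
set_option linter.all false

namespace Pool.Agent.H933R2.HopfN

open H824GB MeasureTheory
open scoped RealInnerProductSpace

/-- A field of algebraic curvature tensors over a space `M`, of dimension `2 m`: for every point a
real inner product space with an orthonormal basis and an algebraic curvature tensor. -/
structure CurvField (m : ℕ) (M : Type) where
  V : M → Type
  [nacg : ∀ p, NormedAddCommGroup (V p)]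
  [ips : ∀ p, InnerProductSpace ℝ (V p)]
  e : ∀ p, OrthonormalBasis (Fin m × Fin 2) ℝ (V p)
  R : ∀ p, V p →ₗ[ℝ] V p →ₗ[ℝ] V p →ₗ[ℝ] V p →ₗ[ℝ] ℝ
  alg : ∀ p, IsAlgCurv (R p)

attribute [instance] CurvField.nacg CurvField.ips

namespace CurvField

variable {m : ℕ} {M : Type}

/-- Gauss-Bonnet-Chern integrand -/
noncomputable def gbc (K : CurvField m M) (p : M) : ℝ :=
  gbInt m (K.R p) (K.e p) / ((8 * Real.pi) ^ m * (m.factorial : ℝ))

/-- the sectional curvatures at `p` are within `δ` of `κ` -/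
def SecNear (K : CurvField m M) (p : M) (κ δ : ℝ) : Prop :=
  ∀ x y : K.V p, ‖x‖ = 1 → ‖y‖ = 1 → ⟪x, y⟫ = 0 → |K.R p x y x y - κ| ≤ δ

/-- mean of the sectional curvatures: scalar curvature divided by `2 m (2 m - 1)` -/
noncomputable def mean (K : CurvField m M) (p : M) : ℝ :=
  (∑ a, ∑ b, K.R p (K.e p a) (K.e p b) (K.e p a) (K.e p b)) / (2 * m * (2 * m - 1))

/-- components of the difference of `R` and the tensor of constant curvature `mean` -/
noncomputable def err (K : CurvField m M) (p : M) (a b c d : Fin m × Fin 2) : ℝ :=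
  K.R p (K.e p a) (K.e p b) (K.e p c) (K.e p d) - K.mean p *
    ((if a = c then 1 else 0) * (if b = d then 1 else 0) -
      (if a = d then 1 else 0) * (if b = c then 1 else 0))

/-- squared distance from constant curvature: squared norm of the error term plus squared norm of
its Ricci contraction (the trace-free Ricci tensor) -/
noncomputable def dev (K : CurvField m M) (p : M) : ℝ :=
  (∑ a, ∑ b, ∑ c, ∑ d, K.err p a b c d ^ 2) + ∑ b, ∑ d, (∑ a, K.err p a b a d) ^ 2

end CurvField

/-- value of the Gauss-Bonnet-Chern integrand for constant curvature `κ` in dimension `2 m` -/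
noncomputable def roundGB (m : ℕ) (κ : ℝ) : ℝ :=
  ((2 * m).factorial : ℝ) * κ ^ m / ((4 * Real.pi) ^ m * (m.factorial : ℝ))

theorem field_norm (m : ℕ) : 0 < (8 * Real.pi) ^ m * (m.factorial : ℝ) := by
  have := Real.pi_pos
  positivity

theorem field_round (m : ℕ) (κ : ℝ) :
    (2 * κ) ^ m * ((2 * m).factorial : ℝ) / ((8 * Real.pi) ^ m * (m.factorial : ℝ)) =
      roundGB m κ := by
  have hpi := Real.pi_pos
  have h8 : (8 * Real.pi) ^ m = 2 ^ m * (4 * Real.pi) ^ m := by
    rw [← mul_pow]; congr 1; ring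
  unfold roundGB
  rw [h8, mul_pow]
  have h2 : (2:ℝ) ^ m ≠ 0 := by positivity
  field_simp

theorem roundGB_abs (m : ℕ) (κ : ℝ) : roundGB m |κ| = |roundGB m κ| := by
  have hpi := Real.pi_pos
  unfold roundGB
  rw [abs_div, abs_mul, abs_pow]
  congr 1
  · congr 1
    rw [abs_of_nonneg (by positivity)]
  · rw [abs_of_nonneg (by positivity)]

theorem roundGB_nonneg {m : ℕ} {κ : ℝ} (h : 0 ≤ κ) : 0 ≤ roundGB m κ := by
  have hpi := Real.pi_pos
  unfold roundGB
  positivity

theorem roundGB_pos {m : ℕ} {κ : ℝ} (h : 0 < κ) : 0 < roundGB m κ := by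
  have hpi := Real.pi_pos
  unfold roundGB
  positivity

theorem roundGB_sign {m : ℕ} {κ : ℝ} (h : κ < 0) : (-1 : ℝ) ^ m * roundGB m κ = roundGB m |κ| := by
  unfold roundGB
  rw [abs_of_neg h, neg_pow κ]
  ring

namespace CurvField

variable {m : ℕ} {M : Type}

theorem err_eq (K : CurvField m M) (p : M) :
    (fun a b c d => K.err p a b c d) = errT (comp (K.e p) (K.R p)) (K.mean p) := by
  funext a b c d
  simp only [err, errT, comp, Id4, kd]

theorem dev_eq (K : CurvField m M) (p : M) :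
    K.dev p = hs4 (errT (comp (K.e p) (K.R p)) (K.mean p)) +
      hs2 (Ric (errT (comp (K.e p) (K.R p)) (K.mean p))) := by
  rw [← err_eq]
  simp only [dev, hs4, hs2, Ric]

theorem mean_eq (K : CurvField m M) (hm : 2 ≤ m) (p : M) :
    ∑ a, ∑ b, comp (K.e p) (K.R p) a b a b = 2 * m * (2 * m - 1) * K.mean p := by
  have hm0 : (2 : ℝ) ≤ m := by exact_mod_cast hm
  have h : (2 * (m:ℝ) * (2 * m - 1)) ≠ 0 := by
    have h1 : (0:ℝ) < 2 * m - 1 := by linarith
    positivity
  unfold mean comp
  rw [mul_div_cancel₀ _ h]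

end CurvField

/-- from `GG` to `gb` in the L2 theorem, phase 2 constants -/
theorem field_L2 (hfin : St_fin2) (hemb : St_emb) (m : ℕ) (hm : 2 ≤ m) (R : T4 (Pos m))
    (hR : IsCurv R) (k : ℝ) (hk : k ≠ 0)
    (hs : ∑ a, ∑ b, R a b a b = 2 * m * (2 * m - 1) * k)
    (hD : 10 ^ 6 * (hs4 (errT R k) + hs2 (Ric (errT R k))) ≤ (2 * m * k) ^ 2) :
    |gb m R - (2 * k) ^ m * ((2 * m).factorial : ℝ)| ≤
      63 * 10 ^ 4 * (hs4 (errT R k) + hs2 (Ric (errT R k))) / (2 * m * k) ^ 2 *
        (|2 * k| ^ m * ((2 * m).factorial : ℝ)) := by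
  have hc : Fintype.card (Pos m) = 2 * m := by simp; ring
  have h := hfin m hm (Pos m) hc (errT R k) (fin_sub_curv hR fin_id_curv k)
    (fin_tr R k (by rw [hs, hc]; push_cast; ring)) k hk hD
  have h2 : (fun a b c d => k * Id4 a b c d + errT R k a b c d) = R := by
    funext a b c d
    simp only [errT]; ring
  rw [h2, hemb.2 m] at h
  exact h

theorem CurvField.L2point (hfin : St_fin2) (hemb : St_emb) {m : ℕ} {M : Type} (hm : 2 ≤ m)
    (K : CurvField m M) (p : M) (hk : K.mean p ≠ 0)
    (h : 10 ^ 6 * K.dev p ≤ (2 * m * K.mean p) ^ 2) :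
    |K.gbc p - roundGB m (K.mean p)| ≤
      63 * 10 ^ 4 * K.dev p / (2 * m * K.mean p) ^ 2 * roundGB m |K.mean p| := by
  rw [K.dev_eq p] at h ⊢
  have h1 := field_L2 hfin hemb m hm (comp (K.e p) (K.R p)) (fin_comp_curv _ (K.alg p))
    (K.mean p) hk (K.mean_eq hm p) h
  have hn := field_norm m
  have h2 : K.gbc p - roundGB m (K.mean p) = (gb m (comp (K.e p) (K.R p)) -
      (2 * K.mean p) ^ m * ((2 * m).factorial : ℝ)) / ((8 * Real.pi) ^ m * (m.factorial : ℝ)) := by
    rw [← field_round, sub_div]; rfl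
  have h3 : |2 * K.mean p| ^ m * ((2 * m).factorial : ℝ) / ((8 * Real.pi) ^ m * (m.factorial : ℝ)) =
      roundGB m |K.mean p| := by
    rw [← field_round, abs_mul, abs_of_pos (by norm_num : (0:ℝ) < 2)]
  rw [h2, abs_div, abs_of_pos hn, div_le_iff₀ hn, ← h3]
  have h4 : ∀ A B : ℝ, A * (B / ((8 * Real.pi) ^ m * (m.factorial : ℝ))) *
      ((8 * Real.pi) ^ m * (m.factorial : ℝ)) = A * B := by
    intro A B
    field_simp
  rw [h4]
  exact h1

/-- sign and lower bound at a point of negative mean curvature -/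
theorem CurvField.L2neg (hfin : St_fin2) (hemb : St_emb) {m : ℕ} {M : Type} (hm : 2 ≤ m)
    (K : CurvField m M) (p : M) (hk : K.mean p ≤ 0)
    (h : 10 ^ 6 * K.dev p ≤ (2 * m * K.mean p) ^ 2) :
    37 / 100 * roundGB m |K.mean p| ≤ (-1 : ℝ) ^ m * K.gbc p := by
  have hm0 : (2 : ℝ) ≤ m := by exact_mod_cast hm
  rcases hk.lt_or_eq with hk | hk
  · have h1 := K.L2point hfin hemb hm p hk.ne h
    have hpos : 0 < (2 * m * K.mean p) ^ 2 := by
      have : 2 * (m:ℝ) * K.mean p ≠ 0 := mul_ne_zero (by positivity) hk.ne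
      positivity
    have hr := roundGB_nonneg (m := m) (abs_nonneg (K.mean p))
    have h2 : |K.gbc p - roundGB m (K.mean p)| ≤ 63 / 100 * roundGB m |K.mean p| := by
      refine h1.trans (mul_le_mul_of_nonneg_right ?_ hr)
      rw [div_le_iff₀ hpos]
      linarith
    have h3 : abs ((-1 : ℝ) ^ m * K.gbc p - roundGB m |K.mean p|) ≤
        63 / 100 * roundGB m |K.mean p| := by
      have h5 : (-1 : ℝ) ^ m * K.gbc p - roundGB m |K.mean p| =
          (-1 : ℝ) ^ m * (K.gbc p - roundGB m (K.mean p)) := by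
        rw [mul_sub, roundGB_sign hk]
      rw [h5, abs_mul, abs_pow, abs_neg, abs_one, one_pow, one_mul]
      exact h2
    have h4 := (abs_le.1 h3).1
    linarith
  · -- flat point
    have hd : K.dev p ≤ 0 := by
      rw [hk] at h
      simp only [mul_zero] at h
      norm_num at h
      linarith
    have hdev := K.dev_eq p
    have hn4 : 0 ≤ hs4 (errT (comp (K.e p) (K.R p)) (K.mean p)) := by
      unfold hs4
      exact Finset.sum_nonneg fun _ _ => Finset.sum_nonneg fun _ _ => Finset.sum_nonneg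
        fun _ _ => Finset.sum_nonneg fun _ _ => sq_nonneg _
    have hn2 : 0 ≤ hs2 (Ric (errT (comp (K.e p) (K.R p)) (K.mean p))) := by
      unfold hs2
      exact Finset.sum_nonneg fun _ _ => Finset.sum_nonneg fun _ _ => sq_nonneg _
    have h0 : hs4 (errT (comp (K.e p) (K.R p)) (K.mean p)) = 0 := by linarith
    have hR0 : ∀ a b c d, comp (K.e p) (K.R p) a b c d = 0 := by
      intro a b c d
      unfold hs4 at h0
      have h1 := (Finset.sum_eq_zero_iff_of_nonneg (fun _ _ => Finset.sum_nonneg fun _ _ =>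
        Finset.sum_nonneg fun _ _ => Finset.sum_nonneg fun _ _ => sq_nonneg _)).1 h0 a
        (Finset.mem_univ a)
      have h2 := (Finset.sum_eq_zero_iff_of_nonneg (fun _ _ => 
        Finset.sum_nonneg fun _ _ => Finset.sum_nonneg fun _ _ => sq_nonneg _)).1 h1 b
        (Finset.mem_univ b)
      have h3 := (Finset.sum_eq_zero_iff_of_nonneg (fun _ _ => 
        Finset.sum_nonneg fun _ _ => sq_nonneg _)).1 h2 c (Finset.mem_univ c)
      have h4 := (Finset.sum_eq_zero_iff_of_nonneg (fun _ _ => sq_nonneg _)).1 h3 d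
        (Finset.mem_univ d)
      have h5 : errT (comp (K.e p) (K.R p)) (K.mean p) a b c d = 0 := by
        simpa using h4
      simpa [errT, hk] using h5
    have hg : K.gbc p = 0 := by
      unfold gbc gbInt
      have : ∀ σ τ : Equiv.Perm (Fin m × Fin 2), ∏ i : Fin m, K.R p (K.e p (σ (i, 0)))
          (K.e p (σ (i, 1))) (K.e p (τ (i, 0))) (K.e p (τ (i, 1))) = 0 := by
        intro σ τ
        have hm1 : 0 < m := by omega
        exact Finset.prod_eq_zero (Finset.mem_univ ⟨0, hm1⟩) (hR0 _ _ _ _)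
      simp [this]
    rw [hg, hk]
    have : roundGB m |0| = 0 := by
      unfold roundGB
      rw [abs_zero, zero_pow (by omega)]; simp
    rw [this]; simp

end Pool.Agent.H933R2.HopfN
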