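import Pool.Agent.H933R2.HopfN.Field

set_option autoImplicit false
set_option linter.all false

namespace Pool.Agent.H933R2.HopfN

open H824GB MeasureTheory
open scoped RealInnerProductSpace

/-- the integral in the L2 theorem -/
theorem CurvField.L2int (hfin : St_fin2) (hemb : St_emb) {m : ℕ} {M : Type} (hm : 2 ≤ m)
    (K : CurvField m M) [MeasurableSpace M] (μ : Measure M) (hint : Integrable K.gbc μ)
    (h : ∀ p, K.mean p ≤ 0 ∧ 10 ^ 6 * K.dev p ≤ (2 * m * K.mean p) ^ 2) :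
    0 ≤ (-1 : ℝ) ^ m * ∫ p, K.gbc p ∂μ ∧
      (μ {p | K.mean p < 0} ≠ 0 → 0 < (-1 : ℝ) ^ m * ∫ p, K.gbc p ∂μ) := by
  have h1 : ∀ p, 37 / 100 * roundGB m |K.mean p| ≤ (-1 : ℝ) ^ m * K.gbc p := fun p =>
    K.L2neg hfin hemb hm p (h p).1 (h p).2
  have h2 : ∀ p, 0 ≤ (-1 : ℝ) ^ m * K.gbc p := fun p => by
    have := h1 p
    have := roundGB_nonneg (m := m) (abs_nonneg (K.mean p))
    linarith
  rw [← integral_const_mul]
  constructor
  · exact integral_nonneg fun p => h2 p
  · intro hμ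
    rw [integral_pos_iff_support_of_nonneg (fun p => h2 p) (hint.const_mul _)]
    refine lt_of_lt_of_le (pos_iff_ne_zero.2 hμ) (measure_mono fun p hp => ?_)
    have h4 := h1 p
    have h5 := roundGB_pos (m := m) (show 0 < |K.mean p| from abs_pos.2 (ne_of_lt hp))
    have h6 : 0 < (-1 : ℝ) ^ m * K.gbc p := by linarith
    exact h6.ne'

/-! ### sectional version -/

/-- from sectional curvature to the quadratic form of the error term -/
theorem field_quad (m : ℕ) (R : T4 (Pos m)) (k κ t : ℝ)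
    (hq : ∀ x y : Pos m → ℝ, |∑ a, ∑ b, ∑ c, ∑ d,
      (R a b c d - κ * Id4 a b c d) * x a * y b * x c * y d| ≤
        t * ((∑ a, x a ^ 2) * (∑ a, y a ^ 2)))
    (hkκ : |k - κ| ≤ t) (x y : Pos m → ℝ) :
    |ev4 (errT R k) x y x y| ≤ 2 * t * (∑ a, x a ^ 2) * (∑ a, y a ^ 2) := by
  have ht : 0 ≤ t := (abs_nonneg _).trans hkκ
  have h1 := hq x y
  have h2 : ev4 (errT R k) x y x y =
      (∑ a, ∑ b, ∑ c, ∑ d, (R a b c d - κ * Id4 a b c d) * x a * y b * x c * y d) +
      (κ - k) * ∑ a, ∑ b, ∑ c, ∑ d, Id4 a b c d * x a * y b * x c * y d := by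
    simp only [ev4, Finset.mul_sum, ← Finset.sum_add_distrib, errT]
    refine Finset.sum_congr rfl fun a _ => Finset.sum_congr rfl fun b _ =>
      Finset.sum_congr rfl fun c _ => Finset.sum_congr rfl fun d _ => ?_
    ring
  have h3 : ∑ a, ∑ b, ∑ c, ∑ d, (Id4 : T4 (Pos m)) a b c d * x a * y b * x c * y d =
      (∑ a, x a ^ 2) * (∑ a, y a ^ 2) - (∑ a, x a * y a) ^ 2 := by
    have e1 : ∀ a b c : Pos m, ∑ d, (Id4 : T4 (Pos m)) a b c d * x a * y b * x c * y d =
        kd a c * x a * x c * (y b * y b) - kd b c * (x a * y a) * (y b * x c) := by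
      intro a b c
      simp only [Id4, sub_mul, Finset.sum_sub_distrib]
      congr 1
      · rw [Finset.sum_eq_single b]
        · simp only [kd, if_true]; ring
        · intro d _ hd; simp [kd, Ne.symm hd]
        · intro h; exact absurd (Finset.mem_univ b) h
      · rw [Finset.sum_eq_single a]
        · simp only [kd, if_true]; ring
        · intro d _ hd; simp [kd, Ne.symm hd]
        · intro h; exact absurd (Finset.mem_univ a) h
    have e2 : ∀ a b : Pos m, ∑ c, (kd a c * x a * x c * (y b * y b) -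
        kd b c * (x a * y a) * (y b * x c)) =
        x a ^ 2 * y b ^ 2 - (x a * y a) * (x b * y b) := by
      intro a b
      rw [Finset.sum_sub_distrib]
      congr 1
      · rw [Finset.sum_eq_single a]
        · simp only [kd, if_true]; ring
        · intro d _ hd; simp [kd, Ne.symm hd]
        · intro h; exact absurd (Finset.mem_univ a) h
      · rw [Finset.sum_eq_single b]
        · simp only [kd, if_true]; ring
        · intro d _ hd; simp [kd, Ne.symm hd]
        · intro h; exact absurd (Finset.mem_univ b) h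
    simp only [e1, e2, Finset.sum_sub_distrib]
    rw [Finset.sum_mul_sum, pow_two (∑ a, x a * y a), Finset.sum_mul_sum]
  rw [h2, h3]
  have h4 : (∑ a, x a * y a) ^ 2 ≤ (∑ a, x a ^ 2) * (∑ a, y a ^ 2) :=
    Finset.sum_mul_sq_le_sq_mul_sq _ _ _
  have h5 : |(κ - k) * ((∑ a, x a ^ 2) * (∑ a, y a ^ 2) - (∑ a, x a * y a) ^ 2)| ≤
      t * ((∑ a, x a ^ 2) * (∑ a, y a ^ 2)) := by
    rw [abs_mul, abs_sub_comm, abs_of_nonneg (a := (∑ a, x a ^ 2) * (∑ a, y a ^ 2) -
      (∑ a, x a * y a) ^ 2) (by linarith)]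
    apply mul_le_mul hkκ _ (by linarith) ht
    nlinarith [sq_nonneg (∑ a, x a * y a)]
  have h6 := abs_add_le (∑ a, ∑ b, ∑ c, ∑ d, (R a b c d - κ * Id4 a b c d) * x a * y b * x c * y d)
    ((κ - k) * ((∑ a, x a ^ 2) * (∑ a, y a ^ 2) - (∑ a, x a * y a) ^ 2))
  have h7 : 2 * t * (∑ a, x a ^ 2) * (∑ a, y a ^ 2) =
    t * ((∑ a, x a ^ 2) * (∑ a, y a ^ 2)) + t * ((∑ a, x a ^ 2) * (∑ a, y a ^ 2)) := by
    ring
  rw [h7]
  linarith

theorem field_sphere {V : Type} [NormedAddCommGroup V] [InnerProductSpace ℝ V] {ι : Type}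
    [Fintype ι] (e : OrthonormalBasis ι ℝ V) :
    ∀ x y z w, idT e x y z w = ⟪x, z⟫ * ⟪y, w⟫ - ⟪x, w⟫ * ⟪y, z⟫ := fun x y z w => idT_apply e x y z w

theorem CurvField.quad {m : ℕ} {M : Type} (K : CurvField m M) (p : M) (κ t : ℝ) (ht : 0 ≤ t)
    (h : K.SecNear p κ t) (x y : Pos m → ℝ) :
    |∑ a, ∑ b, ∑ c, ∑ d,
      (comp (K.e p) (K.R p) a b c d - κ * Id4 a b c d) * x a * y b * x c * y d| ≤
        t * ((∑ a, x a ^ 2) * (∑ a, y a ^ 2)) := by
  have hS := field_sphere (K.e p)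
  have hSid : comp (K.e p) (idT (K.e p)) = Id4 := fin_comp_id (K.e p) hS
  have hq := fin_quad (K.e p) (K.alg p) hS κ t h
  have h1 := hq (∑ a, x a • K.e p a) (∑ a, y a • K.e p a)
  have h2 := fin_eval (K.e p) (K.R p) x y
  have h3 := fin_eval (K.e p) (idT (K.e p)) x y
  rw [h2, h3, hSid, Finset.mul_sum, ← Finset.sum_sub_distrib] at h1
  have h4 : ∑ a, ∑ b, ∑ c, ∑ d, (comp (K.e p) (K.R p) a b c d - κ * Id4 a b c d) *
        x a * y b * x c * y d =
      ∑ a, (∑ b, ∑ c, ∑ d, comp (K.e p) (K.R p) a b c d * x a * y b * x c * y d -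
        κ * ∑ b, ∑ c, ∑ d, Id4 a b c d * x a * y b * x c * y d) := by
    refine Finset.sum_congr rfl fun a _ => ?_
    simp only [Finset.mul_sum, ← Finset.sum_sub_distrib]
    refine Finset.sum_congr rfl fun b _ => Finset.sum_congr rfl fun c _ =>
      Finset.sum_congr rfl fun d _ => ?_
    ring
  rw [h4]
  refine h1.trans (mul_le_mul_of_nonneg_left ?_ ht)
  have h5 := (fin_S_le hS (∑ a, x a • K.e p a) (∑ a, y a • K.e p a)).2
  rw [h3, hSid] at h5
  have h6 : ∀ x : Pos m → ℝ, ‖∑ a, x a • K.e p a‖ ^ 2 = ∑ a, x a ^ 2 := by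
    intro x
    rw [← real_inner_self_eq_norm_sq, Orthonormal.inner_sum (K.e p).orthonormal]
    refine Finset.sum_congr rfl fun a _ => ?_
    simp [pow_two]
  rw [h6, h6] at h5
  exact h5

theorem CurvField.mean_near {m : ℕ} {M : Type} (hm : 2 ≤ m) (K : CurvField m M) (p : M)
    (κ t : ℝ) (ht : 0 ≤ t) (h : K.SecNear p κ t) : |K.mean p - κ| ≤ t := by
  have hm0 : (2 : ℝ) ≤ m := by exact_mod_cast hm
  have hc : (Fintype.card (Pos m) : ℝ) = 2 * m := by simp; ring
  have h6 : (0:ℝ) < 2 * m * (2 * m - 1) := by nlinarith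
  have hterm : ∀ a b : Pos m, |comp (K.e p) (K.R p) a b a b - κ * (1 - (if a = b then (1:ℝ) else 0))|
      ≤ t * (1 - (if a = b then (1:ℝ) else 0)) := by
    intro a b
    by_cases hab : a = b
    · subst hab
      have : comp (K.e p) (K.R p) a a a a = 0 := by
        have := (fin_comp_curv (K.e p) (K.alg p)).a1 a a a a
        linarith
      simp [this]
    · have h1 := h (K.e p a) (K.e p b) ((K.e p).orthonormal.1 a) ((K.e p).orthonormal.1 b)
        ((K.e p).orthonormal.2 hab)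
      simp only [hab, if_false, sub_zero, mul_one]
      exact h1
  have h1 : |∑ a, ∑ b, (comp (K.e p) (K.R p) a b a b - κ * (1 - (if a = b then (1:ℝ) else 0)))| ≤
      t * (2 * m * (2 * m - 1)) := by
    refine (Finset.abs_sum_le_sum_abs _ _).trans ?_
    refine (Finset.sum_le_sum fun a _ => (Finset.abs_sum_le_sum_abs _ _).trans
      (Finset.sum_le_sum fun b _ => hterm a b)).trans (le_of_eq ?_)
    simp only [mul_sub, Finset.sum_sub_distrib]
    simp
    ring
  have h2 : ∑ a, ∑ b, (comp (K.e p) (K.R p) a b a b - κ * (1 - (if a = b then (1:ℝ) else 0))) =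
      2 * m * (2 * m - 1) * (K.mean p - κ) := by
    simp only [Finset.sum_sub_distrib, K.mean_eq hm p, mul_sub]
    simp
    ring
  rw [h2, abs_mul, abs_of_pos h6] at h1
  have h7 : 2 * m * (2 * m - 1) * |K.mean p - κ| ≤ 2 * m * (2 * m - 1) * t := by linarith
  exact le_of_mul_le_mul_left h7 h6

theorem CurvField.secpoint (hfin : St_fins) (hemb : St_emb) {m : ℕ} {M : Type} (hm : 2 ≤ m)
    (K : CurvField m M) (p : M) (κ : ℝ) (hκ : κ ≠ 0)
    (h : K.SecNear p κ (|κ| / (100 * Real.sqrt m))) :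
    |K.mean p - κ| ≤ |κ| / (100 * Real.sqrt m) ∧
    |K.gbc p - roundGB m (K.mean p)| ≤ 1 / 2 * roundGB m |K.mean p| ∧
    0 < (κ / |κ|) ^ m * K.gbc p := by
  have hm0 : (2 : ℝ) ≤ m := by exact_mod_cast hm
  have hκ0 : 0 < |κ| := abs_pos.2 hκ
  have hsm : 0 < Real.sqrt m := Real.sqrt_pos.2 (by linarith)
  set t := |κ| / (100 * Real.sqrt m) with ht
  have ht0 : 0 ≤ t := by positivity
  have hk := K.mean_near hm p κ t ht0 h
  set k := K.mean p with hkdef
  have hs2 : (14142:ℝ) / 10000 ≤ Real.sqrt 2 := by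
    apply Real.le_sqrt_of_sq_le; norm_num
  have hs2' : Real.sqrt 2 ≤ (14143:ℝ) / 10000 := by
    rw [Real.sqrt_le_iff]; norm_num
  have hsm2 : Real.sqrt 2 ≤ Real.sqrt m := Real.sqrt_le_sqrt hm0
  have ht1 : t ≤ 7072 / 1000000 * |κ| := by
    rw [ht, div_le_iff₀ (by positivity)]
    nlinarith
  have hkabs : (1 - 7072 / 1000000) * |κ| ≤ |k| := by
    have h1 : |κ| - |k| ≤ |κ - k| := abs_sub_abs_le_abs_sub κ k
    rw [abs_sub_comm] at h1
    linarith
  have hk0 : k ≠ 0 := by
    intro h0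
    rw [h0, abs_zero] at hkabs
    nlinarith
  have hcard : Fintype.card (Pos m) = 2 * m := by simp; ring
  have hE := hfin m hm (Pos m) hcard (errT (comp (K.e p) (K.R p)) k)
    (fin_sub_curv (fin_comp_curv _ (K.alg p)) fin_id_curv k)
    (fin_tr _ k (by rw [K.mean_eq hm p, hcard]; push_cast; ring)) (2 * t) (by positivity)
    (fun x y => field_quad m _ k κ t (K.quad p κ t ht0 h) hk x y) k hk0 (by
      have h1 : Real.sqrt (2 * m) = Real.sqrt 2 * Real.sqrt m := Real.sqrt_mul (by norm_num) _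
      have h2 : 18 * Real.sqrt (2 * m) * (2 * t) = 36 / 100 * Real.sqrt 2 * |κ| := by
        rw [h1, ht]; field_simp; ring
      rw [h2]
      nlinarith)
  have hg : (fun a b c d => k * Id4 a b c d + errT (comp (K.e p) (K.R p)) k a b c d) =
      comp (K.e p) (K.R p) := by
    funext a b c d
    simp only [errT]; ring
  rw [hg, hemb.2 m] at hE
  have hn := field_norm m
  have h2 : K.gbc p - roundGB m k = (gb m (comp (K.e p) (K.R p)) -
      (2 * k) ^ m * ((2 * m).factorial : ℝ)) / ((8 * Real.pi) ^ m * (m.factorial : ℝ)) := by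
    rw [← field_round, sub_div]; rfl
  have h3 : |2 * k| ^ m * ((2 * m).factorial : ℝ) / ((8 * Real.pi) ^ m * (m.factorial : ℝ)) =
      roundGB m |k| := by
    rw [← field_round, abs_mul, abs_of_pos (by norm_num : (0:ℝ) < 2)]
  have hmain : |K.gbc p - roundGB m k| ≤ 1 / 2 * roundGB m |k| := by
    rw [h2, abs_div, abs_of_pos hn, div_le_iff₀ hn, ← h3]
    have h4 : ∀ A B : ℝ, A * (B / ((8 * Real.pi) ^ m * (m.factorial : ℝ))) *
        ((8 * Real.pi) ^ m * (m.factorial : ℝ)) = A * B := by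
      intro A B
      field_simp
    rw [h4]
    exact hE
  refine ⟨hk, hmain, ?_⟩
  -- the sign
  have hrpos : 0 < roundGB m |k| := roundGB_pos (abs_pos.2 hk0)
  have hsg : (κ / |κ|) ^ m * roundGB m k = roundGB m |k| := by
    have hkk : κ / |κ| * k = |k| := by
      rcases lt_or_gt_of_ne hκ with h' | h'
      · have hkneg : k < 0 := by
          have h1 := (abs_le.1 hk).2
          rw [abs_of_neg h'] at ht1
          nlinarith
        rw [abs_of_neg h', abs_of_neg hkneg, div_neg, div_self hκ]; ring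
      · have hkpos : 0 < k := by
          have h1 := (abs_le.1 hk).1
          rw [abs_of_pos h'] at ht1
          nlinarith
        rw [abs_of_pos h', abs_of_pos hkpos, div_self hκ]; ring
    unfold roundGB
    rw [← hkk, mul_pow]; ring
  have hσ1 : |(κ / |κ|) ^ m| = 1 := by
    rw [abs_pow, abs_div, abs_abs, div_self hκ0.ne', one_pow]
  have h16 : abs ((κ / |κ|) ^ m * K.gbc p - roundGB m |k|) ≤ 1 / 2 * roundGB m |k| := by
    have h5 : (κ / |κ|) ^ m * K.gbc p - roundGB m |k| =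
        (κ / |κ|) ^ m * (K.gbc p - roundGB m k) := by
      rw [mul_sub, hsg]
    rw [h5, abs_mul, hσ1, one_mul]
    exact hmain
  have h17 := (abs_le.1 h16).1
  linarith

/-- the integral in the sectional theorem, negative curvature -/
theorem CurvField.secint (hfin : St_fins) (hemb : St_emb) {m : ℕ} {M : Type} (hm : 2 ≤ m)
    (K : CurvField m M) [MeasurableSpace M] (μ : Measure M) (hμ : μ ≠ 0)
    (hint : Integrable K.gbc μ)
    (h : ∀ p, ∃ κ : ℝ, κ < 0 ∧ K.SecNear p κ (|κ| / (100 * Real.sqrt m))) :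
    0 < (-1 : ℝ) ^ m * ∫ p, K.gbc p ∂μ := by
  have h2 : ∀ p, 0 < (-1 : ℝ) ^ m * K.gbc p := fun p => by
    obtain ⟨κ, hκ, hs⟩ := h p
    have h3 := (K.secpoint hfin hemb hm p κ hκ.ne hs).2.2
    rwa [abs_of_neg hκ, div_neg, div_self hκ.ne] at h3
  rw [← integral_const_mul,
    integral_pos_iff_support_of_nonneg (fun p => (h2 p).le) (hint.const_mul _)]
  have h3 : Function.support (fun p => (-1 : ℝ) ^ m * K.gbc p) = Set.univ := by
    ext p
    simp only [Function.mem_support, Set.mem_univ, iff_true]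
    exact (h2 p).ne'
  rw [h3]
  exact pos_iff_ne_zero.2 (fun h0 => hμ (Measure.measure_univ_eq_zero.1 h0))

end Pool.Agent.H933R2.HopfN
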