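import Pool.Agent.H933R2.HopfN.Field2

set_option autoImplicit false
set_option linter.all false

namespace Pool.Agent.H933R2.HopfN

open H824GB MeasureTheory
open scoped RealInnerProductSpace

/-- coordinate functional -/
noncomputable def cf {ι : Type} [Fintype ι] (a : ι) : EuclideanSpace ℝ ι →ₗ[ℝ] ℝ where
  toFun x := x a
  map_add' x y := by simp
  map_smul' c x := by simp

theorem cf_apply {ι : Type} [Fintype ι] (a : ι) (x : EuclideanSpace ℝ ι) : cf a x = x a := rfl

noncomputable def qd {ι : Type} [Fintype ι] (a b c d : ι) :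
    EuclideanSpace ℝ ι →ₗ[ℝ] EuclideanSpace ℝ ι →ₗ[ℝ] EuclideanSpace ℝ ι →ₗ[ℝ]
      EuclideanSpace ℝ ι →ₗ[ℝ] ℝ :=
  (cf a).smulRight ((cf b).smulRight ((cf c).smulRight (cf d)))

theorem qd_apply {ι : Type} [Fintype ι] (a b c d : ι) (x y z w : EuclideanSpace ℝ ι) :
    qd a b c d x y z w = x a * (y b * (z c * w d)) := by
  simp [qd, cf_apply]

/-- the 4-linear form with given components -/
noncomputable def mk4 {ι : Type} [Fintype ι] (T : T4 ι) :
    EuclideanSpace ℝ ι →ₗ[ℝ] EuclideanSpace ℝ ι →ₗ[ℝ] EuclideanSpace ℝ ι →ₗ[ℝ]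
      EuclideanSpace ℝ ι →ₗ[ℝ] ℝ :=
  ∑ a, ∑ b, ∑ c, ∑ d, T a b c d • qd a b c d

theorem mk4_apply {ι : Type} [Fintype ι] (T : T4 ι) (x y z w : EuclideanSpace ℝ ι) :
    mk4 T x y z w = ∑ a, ∑ b, ∑ c, ∑ d, T a b c d * (x a * (y b * (z c * w d))) := by
  simp only [mk4, LinearMap.sum_apply, LinearMap.smul_apply, qd_apply, smul_eq_mul]

theorem mk4_comp {ι : Type} [Fintype ι] [DecidableEq ι] (T : T4 ι) (a b c d : ι) :
    mk4 T (EuclideanSpace.basisFun ι ℝ a) (EuclideanSpace.basisFun ι ℝ b)
      (EuclideanSpace.basisFun ι ℝ c) (EuclideanSpace.basisFun ι ℝ d) = T a b c d := by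
  rw [mk4_apply]
  have h : ∀ a b : ι, (EuclideanSpace.basisFun ι ℝ a : EuclideanSpace ℝ ι) b =
      if b = a then 1 else 0 := by
    intro a b
    rw [EuclideanSpace.basisFun_apply, EuclideanSpace.single_apply]
  simp only [h]
  rw [Finset.sum_eq_single a, Finset.sum_eq_single b, Finset.sum_eq_single c,
    Finset.sum_eq_single d]
  · simp
  · intro x _ hx; simp [hx]
  · intro hx; exact absurd (Finset.mem_univ _) hx
  · intro x _ hx; simp [hx]
  · intro hx; exact absurd (Finset.mem_univ _) hx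
  · intro x _ hx; simp [hx]
  · intro hx; exact absurd (Finset.mem_univ _) hx
  · intro x _ hx; simp [hx]
  · intro hx; exact absurd (Finset.mem_univ _) hx

theorem mk4_alg {ι : Type} [Fintype ι] [DecidableEq ι] (T : T4 ι) (hT : IsCurv T) :
    IsAlgCurv (mk4 T) where
  antisymm₁ := fun x y z w => by
    rw [mk4_apply, mk4_apply, Finset.sum_comm, ← Finset.sum_neg_distrib]
    refine Finset.sum_congr rfl fun a _ => ?_
    rw [← Finset.sum_neg_distrib]
    refine Finset.sum_congr rfl fun b _ => ?_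
    rw [← Finset.sum_neg_distrib]
    refine Finset.sum_congr rfl fun c _ => ?_
    rw [← Finset.sum_neg_distrib]
    refine Finset.sum_congr rfl fun d _ => ?_
    rw [hT.a1 a b c d]; ring
  antisymm₂ := fun x y z w => by
    rw [mk4_apply, mk4_apply, ← Finset.sum_neg_distrib]
    refine Finset.sum_congr rfl fun a _ => ?_
    rw [← Finset.sum_neg_distrib]
    refine Finset.sum_congr rfl fun b _ => ?_
    rw [Finset.sum_comm, ← Finset.sum_neg_distrib]
    refine Finset.sum_congr rfl fun c _ => ?_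
    rw [← Finset.sum_neg_distrib]
    refine Finset.sum_congr rfl fun d _ => ?_
    rw [hT.a2 a b c d]; ring
  symm := fun x y z w => by
    rw [mk4_apply, mk4_apply]
    have h1 : ∀ f : ι → ι → ι → ι → ℝ, ∑ a, ∑ b, ∑ c, ∑ d, f a b c d =
        ∑ a, ∑ b, ∑ c, ∑ d, f c d a b := by
      intro f
      have e1 : ∑ a, ∑ b, ∑ c, ∑ d, f a b c d = ∑ p : ι × ι, ∑ q : ι × ι, f p.1 p.2 q.1 q.2 := by
        simp only [Fintype.sum_prod_type]
      have e2 : ∑ a, ∑ b, ∑ c, ∑ d, f c d a b = ∑ p : ι × ι, ∑ q : ι × ι, f q.1 q.2 p.1 p.2 := by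
        simp only [Fintype.sum_prod_type]
      rw [e1, e2, Finset.sum_comm]
    rw [h1]
    refine Finset.sum_congr rfl fun a _ => Finset.sum_congr rfl fun b _ =>
      Finset.sum_congr rfl fun c _ => Finset.sum_congr rfl fun d _ => ?_
    rw [hT.ps a b c d]; ring
  bianchi := fun x y z w => by
    rw [mk4_apply, mk4_apply, mk4_apply]
    -- rename the indices so that the products agree
    have h2 : ∑ a, ∑ b, ∑ c, ∑ d, T a b c d * (y a * (z b * (x c * w d))) =
        ∑ a, ∑ b, ∑ c, ∑ d, T b c a d * (x a * (y b * (z c * w d))) := by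
      have e1 : ∑ a, ∑ b, ∑ c, ∑ d, T a b c d * (y a * (z b * (x c * w d))) =
          ∑ a, ∑ c, ∑ b, ∑ d, T a b c d * (y a * (z b * (x c * w d))) := by
        refine Finset.sum_congr rfl fun a _ => ?_
        rw [Finset.sum_comm]
      rw [e1, Finset.sum_comm]
      refine Finset.sum_congr rfl fun a _ => Finset.sum_congr rfl fun b _ =>
        Finset.sum_congr rfl fun c _ => Finset.sum_congr rfl fun d _ => ?_
      ring
    have h3 : ∑ a, ∑ b, ∑ c, ∑ d, T a b c d * (z a * (x b * (y c * w d))) =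
        ∑ a, ∑ b, ∑ c, ∑ d, T c a b d * (x a * (y b * (z c * w d))) := by
      rw [Finset.sum_comm]
      refine Finset.sum_congr rfl fun a _ => ?_
      rw [Finset.sum_comm]
      refine Finset.sum_congr rfl fun b _ =>
        Finset.sum_congr rfl fun c _ => Finset.sum_congr rfl fun d _ => ?_
      ring
    rw [h2, h3]
    simp only [← Finset.sum_add_distrib]
    refine Finset.sum_eq_zero fun a _ => Finset.sum_eq_zero fun b _ =>
      Finset.sum_eq_zero fun c _ => Finset.sum_eq_zero fun d _ => ?_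
    have h := hT.bi d a b c
    have e1 : T a b c d = T d c b a := by
      rw [← hT.ps a b c d, hT.a1 d c a b, hT.a2 d c b a]; ring
    have e2 : T b c a d = T d a c b := by
      rw [← hT.ps b c a d, hT.a1 d a b c, hT.a2 d a c b]; ring
    have e3 : T c a b d = T d b a c := by
      rw [← hT.ps c a b d, hT.a1 d b c a, hT.a2 d b a c]; ring
    rw [e1, e2, e3]
    have f1 := hT.a2 d c a b
    have f2 := hT.a2 d a b c
    have f3 := hT.a2 d b c a
    linear_combination (-(x a * (y b * (z c * w d)))) * h + (x a * (y b * (z c * w d))) * (f1 + f2 + f3)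

/-- the field over one point with given components -/
noncomputable def fieldOf (m : ℕ) (T : T4 (Pos m)) (hT : IsCurv T) : CurvField m Unit where
  V := fun _ => EuclideanSpace ℝ (Pos m)
  e := fun _ => EuclideanSpace.basisFun (Pos m) ℝ
  R := fun _ => mk4 T
  alg := fun _ => mk4_alg T hT

theorem fieldOf_comp (m : ℕ) (T : T4 (Pos m)) (hT : IsCurv T) :
    comp ((fieldOf m T hT).e ()) ((fieldOf m T hT).R ()) = T := by
  funext a b c d
  exact mk4_comp T a b c d

theorem GG_smul {ι : Type} [Fintype ι] (m : ℕ) (k : ℝ) (R : T4 ι) :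
    GG m (fun a b c d => k * R a b c d) = k ^ m * GG m R := by
  unfold GG
  rw [Finset.mul_sum]
  refine Finset.sum_congr rfl fun f _ => ?_
  rw [Finset.mul_sum]
  refine Finset.sum_congr rfl fun τ _ => ?_
  rw [Finset.prod_mul_distrib, Finset.prod_const, Finset.card_univ, Fintype.card_fin]
  ring

theorem tr_id {ι : Type} [Fintype ι] [DecidableEq ι] :
    ∑ a : ι, ∑ b : ι, (Id4 a b a b : ℝ) = (Fintype.card ι : ℝ) * ((Fintype.card ι : ℝ) - 1) := by
  have h1 : ∑ a : ι, ∑ b : ι, (kd a a : ℝ) * kd b b = (Fintype.card ι : ℝ) * (Fintype.card ι : ℝ) := by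
    simp [kd]
  have h2 : ∑ a : ι, ∑ b : ι, (kd a b : ℝ) * kd b a = (Fintype.card ι : ℝ) := by
    have : ∀ a : ι, ∑ b : ι, (kd a b : ℝ) * kd b a = 1 := by
      intro a
      rw [Finset.sum_eq_single a]
      · simp [kd]
      · intro b _ hb; simp [kd, Ne.symm hb]
      · intro h; exact absurd (Finset.mem_univ a) h
    simp [this]
  simp only [Id4, Finset.sum_sub_distrib]
  rw [h1, h2]; ring

theorem sharp_field (h : St_sharp) (hemb : St_emb) (m : ℕ) (hm : 3 ≤ m) (k : ℝ) (hk : k ≠ 0) :
    ∃ K : CurvField m Unit, K.mean () = k ∧ (∀ b d, ∑ a, K.err () a b a d = 0) ∧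
      K.dev () ≤ 240 * (2 * m * k) ^ 2 ∧ (k / |k|) ^ m * K.gbc () < 0 := by
  have hm0 : (3 : ℝ) ≤ m := by exact_mod_cast hm
  have hc : Fintype.card (Pos m) = 2 * m := by simp; ring
  obtain ⟨E, hE, hRic, hE2, hneg⟩ := h m hm (Pos m) hc
  have hT : IsCurv (fun a b c d => k * (Id4 a b c d + E a b c d) : T4 (Pos m)) := by
    have h1 := fin_sub_curv hE (fin_id_curv (ι := Pos m)) (-1)
    constructor
    · intro a b c d; have := h1.a1 a b c d; linear_combination k * this
    · intro a b c d; have := h1.a2 a b c d; linear_combination k * this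
    · intro a b c d; have := h1.ps a b c d; linear_combination k * this
    · intro a b c d; have := h1.bi a b c d; linear_combination k * this
  have hmean : (fieldOf m _ hT).mean () = k := by
    have e1 : (fieldOf m _ hT).mean () = (∑ a, ∑ b, k * (Id4 a b a b + E a b a b)) /
        (2 * m * (2 * m - 1)) := by
      unfold CurvField.mean
      congr 1
      refine Finset.sum_congr rfl fun a _ => Finset.sum_congr rfl fun b _ => ?_
      exact mk4_comp _ a b a b
    have e2 : ∑ a, ∑ b, E a b a b = 0 := by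
      rw [Finset.sum_comm]
      exact Finset.sum_eq_zero fun b _ => hRic b b
    rw [e1]
    simp only [← Finset.mul_sum, Finset.sum_add_distrib]
    rw [tr_id, e2, hc]
    push_cast
    have : (2 * (m:ℝ) * (2 * m - 1)) ≠ 0 := by
      have h1 : (0:ℝ) < 2 * m - 1 := by linarith
      positivity
    rw [div_eq_iff this]
    ring
  have herr : ∀ a b c d, (fieldOf m _ hT).err () a b c d = k * E a b c d := by
    intro a b c d
    have e1 := congrFun (congrFun (congrFun (congrFun ((fieldOf m _ hT).err_eq ()) a) b) c) d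
    rw [hmean, fieldOf_comp] at e1
    refine e1.trans ?_
    simp only [errT]; ring
  refine ⟨fieldOf m _ hT, hmean, ?_, ?_, ?_⟩
  · intro b d
    simp only [herr, ← Finset.mul_sum]
    have := hRic b d
    simp only [Ric] at this
    rw [this, mul_zero]
  · unfold CurvField.dev
    simp only [herr]
    have e1 : ∑ b, ∑ d, (∑ a, k * E a b a d) ^ 2 = 0 := by
      refine Finset.sum_eq_zero fun b _ => Finset.sum_eq_zero fun d _ => ?_
      have := hRic b d
      simp only [Ric] at this
      rw [← Finset.mul_sum, this]; ring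
    have e2 : ∑ a, ∑ b, ∑ c, ∑ d, (k * E a b c d) ^ 2 = k ^ 2 * hs4 E := by
      simp only [hs4, mul_pow, Finset.mul_sum]
    rw [e1, e2, add_zero, mul_pow (2 * (m:ℝ)) k]
    have := mul_le_mul_of_nonneg_left hE2 (sq_nonneg k)
    linarith
  · have hn := field_norm m
    have e1 : (fieldOf m _ hT).gbc () = k ^ m * GG m (fun a b c d => Id4 a b c d + E a b c d) /
        ((8 * Real.pi) ^ m * (m.factorial : ℝ)) := by
      rw [← GG_smul, hemb.2 m]
      unfold CurvField.gbc
      rw [fin_gb, fieldOf_comp]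
    rw [e1]
    have h2 : (k / |k|) ^ m * (k ^ m * GG m (fun a b c d => Id4 a b c d + E a b c d) /
        ((8 * Real.pi) ^ m * (m.factorial : ℝ))) =
        |k| ^ m * GG m (fun a b c d => Id4 a b c d + E a b c d) /
        ((8 * Real.pi) ^ m * (m.factorial : ℝ)) := by
      have h3 : (k / |k|) ^ m * k ^ m = |k| ^ m := by
        rw [← mul_pow]
        congr 1
        rw [div_mul_eq_mul_div, div_eq_iff (abs_ne_zero.2 hk), abs_mul_abs_self]
      rw [← h3]; ring
    rw [h2]
    apply div_neg_of_neg_of_pos _ hn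
    exact mul_neg_of_pos_of_neg (pow_pos (abs_pos.2 hk) m) hneg

end Pool.Agent.H933R2.HopfN
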