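import Pool.Agent.H933R2.HopfN.St
import Pool.Agent.H824R2.GB12

set_option autoImplicit false
set_option linter.all false

namespace Pool.Agent.H933R2.HopfN

open H824GB
open scoped RealInnerProductSpace

variable {V : Type*} [NormedAddCommGroup V] [InnerProductSpace ℝ V]

/-- components in a frame -/
noncomputable def comp {ι : Type} (e : ι → V) (R : V →ₗ[ℝ] V →ₗ[ℝ] V →ₗ[ℝ] V →ₗ[ℝ] ℝ) : T4 ι :=
  fun a b c d => R (e a) (e b) (e c) (e d)

theorem fin_comp_curv {ι : Type} (e : ι → V) {R : V →ₗ[ℝ] V →ₗ[ℝ] V →ₗ[ℝ] V →ₗ[ℝ] ℝ}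
    (hR : IsAlgCurv R) : IsCurv (comp e R) where
  a1 := fun a b c d => by
    simp only [comp]; rw [hR.antisymm₁ (e b) (e a)]
  a2 := fun a b c d => by
    simp only [comp]; rw [hR.antisymm₂ (e a) (e b) (e d)]
  ps := fun a b c d => by
    simp only [comp]; rw [hR.symm (e c) (e d)]
  bi := fun a b c d => by
    simp only [comp]
    have h := hR.bianchi (e b) (e c) (e d) (e a)
    have h1 := hR.symm (e a) (e d) (e b) (e c)
    have h2 := hR.antisymm₂ (e b) (e c) (e a) (e d)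
    have h3 := hR.symm (e a) (e c) (e d) (e b)
    have h4 := hR.antisymm₂ (e d) (e b) (e a) (e c)
    have h5 := hR.symm (e a) (e b) (e c) (e d)
    have h6 := hR.antisymm₂ (e c) (e d) (e a) (e b)
    linarith

theorem fin_gb {m : ℕ} (e : Pos m → V) (R : V →ₗ[ℝ] V →ₗ[ℝ] V →ₗ[ℝ] V →ₗ[ℝ] ℝ) :
    gbInt m R e = gb m (comp e R) := rfl

theorem fin_comp_id {ι : Type} [Fintype ι] [DecidableEq ι] (e : OrthonormalBasis ι ℝ V)
    {S : V →ₗ[ℝ] V →ₗ[ℝ] V →ₗ[ℝ] V →ₗ[ℝ] ℝ}
    (hS : ∀ x y z w, S x y z w = ⟪x, z⟫ * ⟪y, w⟫ - ⟪x, w⟫ * ⟪y, z⟫) : comp e S = Id4 := by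
  funext a b c d
  have h : ∀ a b : ι, ⟪e a, e b⟫ = kd a b := by
    intro a b
    rw [orthonormal_iff_ite.1 e.orthonormal a b]; rfl
  simp only [comp, hS, Id4, h]

theorem fin_gb_id (hexp : St_expand) (hemb : St_emb) (m : ℕ) :
    gb m (Id4 : T4 (Pos m)) = 2 ^ m * ((2 * m).factorial : ℝ) := by
  have h := hexp m (Pos m) (by simp; ring) 1 (fun _ _ _ _ => 0)
  simp only [one_mul, add_zero] at h
  rw [← hemb.2 m]
  have h0 : (fun a b c d => (Id4 : T4 (Pos m)) a b c d) = Id4 := rfl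
  rw [h0] at h
  rw [h, Finset.sum_range_succ', Finset.sum_eq_zero]
  · simp [GG, sg]
  · intro j _
    have : GG (j + 1) (fun (_ _ _ _ : Pos m) => (0 : ℝ)) = 0 := by
      simp [GG]
    rw [this, mul_zero]

/-- the scalar curvature of the error term vanishes -/
theorem fin_tr {ι : Type} [Fintype ι] [DecidableEq ι] (R : T4 ι) (k : ℝ)
    (hk : ∑ a, ∑ b, R a b a b = (Fintype.card ι : ℝ) * ((Fintype.card ι : ℝ) - 1) * k) :
    tr2 (Ric (fun a b c d => R a b c d - k * Id4 a b c d)) = 0 := by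
  simp only [tr2, Ric, Id4]
  rw [Finset.sum_comm]
  have h1 : ∑ a : ι, ∑ b : ι, (kd a a : ℝ) * kd b b = (Fintype.card ι : ℝ) * (Fintype.card ι : ℝ) := by
    simp [kd]
  have h2 : ∑ a : ι, ∑ b : ι, (kd a b : ℝ) * kd b a = (Fintype.card ι : ℝ) := by
    have : ∀ a : ι, ∑ b : ι, (kd a b : ℝ) * kd b a = 1 := by
      intro a
      rw [Finset.sum_eq_single a]
      · simp [kd]
      · intro b _ hb; simp [kd, Ne.symm hb]
      · intro h; exact absurd (Finset.mem_univ a) h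
    simp [this]
  have h3 : ∑ a : ι, ∑ b : ι, (R a b a b - k * (kd a a * kd b b - kd a b * kd b a)) =
      ∑ a, ∑ b, R a b a b - k * (∑ a : ι, ∑ b : ι, (kd a a : ℝ) * kd b b -
        ∑ a : ι, ∑ b : ι, (kd a b : ℝ) * kd b a) := by
    rw [← Finset.sum_sub_distrib, Finset.mul_sum, ← Finset.sum_sub_distrib]
    refine Finset.sum_congr rfl fun a _ => ?_
    rw [← Finset.sum_sub_distrib, Finset.mul_sum, ← Finset.sum_sub_distrib]
  rw [h3, h1, h2, hk]; ring

theorem fin_id_curv {ι : Type} [DecidableEq ι] : IsCurv (Id4 : T4 ι) where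
  a1 := fun a b c d => by simp only [Id4]; ring
  a2 := fun a b c d => by simp only [Id4]; ring
  ps := fun a b c d => by
    have h : ∀ a b : ι, (kd a b : ℝ) = kd b a := by
      intro a b; simp [kd, eq_comm]
    simp only [Id4]; rw [h c a, h d b, h c b, h d a]; ring
  bi := fun a b c d => by
    have h : ∀ a b : ι, (kd a b : ℝ) = kd b a := by
      intro a b; simp [kd, eq_comm]
    simp only [Id4]; rw [h c b, h d c, h d b]; ring

theorem fin_sub_curv {ι : Type} {R T : T4 ι} (hR : IsCurv R) (hT : IsCurv T) (k : ℝ) :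
    IsCurv (fun a b c d => R a b c d - k * T a b c d) where
  a1 := fun a b c d => by rw [hR.a1 a b, hT.a1 a b]; ring
  a2 := fun a b c d => by rw [hR.a2 a b c d, hT.a2 a b c d]; ring
  ps := fun a b c d => by rw [hR.ps a b c d, hT.ps a b c d]
  bi := fun a b c d => by
    linear_combination hR.bi a b c d - k * hT.bi a b c d

/-- evaluation on vectors -/
theorem fin_eval {ι : Type} [Fintype ι] (e : OrthonormalBasis ι ℝ V)
    (R : V →ₗ[ℝ] V →ₗ[ℝ] V →ₗ[ℝ] V →ₗ[ℝ] ℝ) (x y : ι → ℝ) :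
    R (∑ a, x a • e a) (∑ a, y a • e a) (∑ a, x a • e a) (∑ a, y a • e a) =
      ∑ a, ∑ b, ∑ c, ∑ d, comp e R a b c d * x a * y b * x c * y d := by
  have e1 : R (∑ a, x a • e a) = ∑ a, x a • R (e a) := by simp [map_sum]
  rw [e1, LinearMap.sum_apply, LinearMap.sum_apply, LinearMap.sum_apply]
  refine Finset.sum_congr rfl fun a _ => ?_
  have e2 : R (e a) (∑ b, y b • e b) = ∑ b, y b • R (e a) (e b) := by simp [map_sum]
  rw [LinearMap.smul_apply, LinearMap.smul_apply, LinearMap.smul_apply, e2, LinearMap.sum_apply,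
    LinearMap.sum_apply, Finset.smul_sum]
  refine Finset.sum_congr rfl fun b _ => ?_
  have e3 : R (e a) (e b) (∑ c, x c • e c) = ∑ c, x c • R (e a) (e b) (e c) := by simp [map_sum]
  rw [LinearMap.smul_apply, LinearMap.smul_apply, e3, LinearMap.sum_apply, Finset.smul_sum,
    Finset.smul_sum]
  refine Finset.sum_congr rfl fun c _ => ?_
  have e4 : R (e a) (e b) (e c) (∑ d, y d • e d) = ∑ d, y d • R (e a) (e b) (e c) (e d) := by
    simp [map_sum]
  rw [LinearMap.smul_apply, e4, Finset.smul_sum, Finset.smul_sum, Finset.smul_sum]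
  refine Finset.sum_congr rfl fun d _ => ?_
  simp only [smul_eq_mul, comp]
  ring

/-- the quadratic form of the error term -/
theorem fin_quad {ι : Type} [Fintype ι] [DecidableEq ι] (e : OrthonormalBasis ι ℝ V)
    {S R : V →ₗ[ℝ] V →ₗ[ℝ] V →ₗ[ℝ] V →ₗ[ℝ] ℝ} (hR : IsAlgCurv R)
    (hS : ∀ x y z w, S x y z w = ⟪x, z⟫ * ⟪y, w⟫ - ⟪x, w⟫ * ⟪y, z⟫) (κ t : ℝ)
    (h : ∀ x y : V, ‖x‖ = 1 → ‖y‖ = 1 → ⟪x, y⟫ = 0 → |R x y x y - κ| ≤ t) (x y : V) :
    |R x y x y - κ * S x y x y| ≤ t * S x y x y := by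
  have hSa : IsAlgCurv S := by
    have : S = idT e := by
      ext x y z w
      rw [hS, idT_apply]
    rw [this]; exact idT_alg e
  have hS1 : ∀ x y : V, ‖x‖ = 1 → ‖y‖ = 1 → ⟪x, y⟫ = 0 → S x y x y = 1 := by
    intro x y hx hy hxy
    rw [hS, real_inner_self_eq_norm_sq, real_inner_self_eq_norm_sq, hx, hy, hxy,
      real_inner_comm, hxy]; ring
  have h1 := sec_of_orth (R + (-(κ - t)) • S) (sub_alg R S hR hSa (κ - t)) (by
    intro x y hx hy hxy
    simp only [LinearMap.add_apply, LinearMap.smul_apply, smul_eq_mul]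
    rw [hS1 x y hx hy hxy]
    have := (abs_le.1 (h x y hx hy hxy)).1
    linarith) x y
  have h2 := sec_of_orth ((κ + t) • S + (-(1:ℝ)) • R) (by
      have hK : IsAlgCurv ((κ + t) • S) := by
        have h0 : IsAlgCurv (0 : V →ₗ[ℝ] V →ₗ[ℝ] V →ₗ[ℝ] V →ₗ[ℝ] ℝ) :=
          ⟨fun _ _ _ _ => by simp, fun _ _ _ _ => by simp, fun _ _ _ _ => by simp,
            fun _ _ _ _ => by simp⟩
        have := sub_alg 0 S h0 hSa (-(κ + t))
        simpa using this
      exact sub_alg _ R hK hR 1) (by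
    intro x y hx hy hxy
    simp only [LinearMap.add_apply, LinearMap.smul_apply, smul_eq_mul]
    rw [hS1 x y hx hy hxy]
    have := (abs_le.1 (h x y hx hy hxy)).2
    linarith) x y
  simp only [LinearMap.add_apply, LinearMap.smul_apply, smul_eq_mul] at h1 h2
  rw [abs_le]
  constructor <;> linarith

/-- the sphere tensor on vectors -/
theorem fin_S_le {S : V →ₗ[ℝ] V →ₗ[ℝ] V →ₗ[ℝ] V →ₗ[ℝ] ℝ}
    (hS : ∀ x y z w, S x y z w = ⟪x, z⟫ * ⟪y, w⟫ - ⟪x, w⟫ * ⟪y, z⟫) (x y : V) :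
    0 ≤ S x y x y ∧ S x y x y ≤ ‖x‖ ^ 2 * ‖y‖ ^ 2 := by
  rw [hS, real_inner_self_eq_norm_sq, real_inner_self_eq_norm_sq, real_inner_comm x y]
  have h := abs_real_inner_le_norm x y
  have h2 : ⟪x, y⟫ * ⟪x, y⟫ ≤ ‖x‖ ^ 2 * ‖y‖ ^ 2 := by
    have := mul_le_mul h h (abs_nonneg _) (by positivity)
    rw [abs_mul_abs_self] at this
    nlinarith
  constructor
  · linarith
  · nlinarith [mul_self_nonneg (⟪x, y⟫ : ℝ)]

/-- the error term in components -/
noncomputable def errT {ι : Type} [DecidableEq ι] (R : T4 ι) (k : ℝ) : T4 ι :=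
  fun a b c d => R a b c d - k * Id4 a b c d

/-- the L2 theorem for `gb` -/
theorem fin_L2 (hfin : St_fin) (hemb : St_emb) (m : ℕ) (hm : 2 ≤ m) (R : T4 (Pos m))
    (hR : IsCurv R) (k : ℝ) (hk : k ≠ 0)
    (hs : ∑ a, ∑ b, R a b a b = 2 * m * (2 * m - 1) * k)
    (hD : 10 ^ 12 * (hs4 (errT R k) + hs2 (Ric (errT R k))) ≤ (2 * m * k) ^ 2) :
    |gb m R - (2 * k) ^ m * ((2 * m).factorial : ℝ)| ≤
      2 * 10 ^ 11 * (hs4 (errT R k) + hs2 (Ric (errT R k))) / (2 * m * k) ^ 2 *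
        (|2 * k| ^ m * ((2 * m).factorial : ℝ)) := by
  have hc : Fintype.card (Pos m) = 2 * m := by simp; ring
  have h := hfin m hm (Pos m) hc (errT R k) (fin_sub_curv hR fin_id_curv k)
    (fin_tr R k (by rw [hs, hc]; push_cast; ring)) k hk hD
  have h2 : (fun a b c d => k * Id4 a b c d + errT R k a b c d) = R := by
    funext a b c d
    simp only [errT]; ring
  rw [h2, hemb.2 m] at h
  exact h

theorem fin_sec (hfin : St_fin) (hemb : St_emb) (hsec : St_sec) (m : ℕ) (hm : 2 ≤ m)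
    (R : T4 (Pos m)) (hR : IsCurv R) (k κ ε : ℝ) (hκ : κ ≠ 0) (hε : 0 ≤ ε)
    (hεm : 10 ^ 7 * ε * Real.sqrt m ≤ 1)
    (hs : ∑ a, ∑ b, R a b a b = 2 * m * (2 * m - 1) * k)
    (hq : ∀ x y : Pos m → ℝ, |∑ a, ∑ b, ∑ c, ∑ d,
      (R a b c d - κ * Id4 a b c d) * x a * y b * x c * y d| ≤
        ε * |κ| * ((∑ a, x a ^ 2) * (∑ a, y a ^ 2)))
    (hkκ : |k - κ| ≤ ε * |κ|) :
    k ≠ 0 ∧ |gb m R - (2 * k) ^ m * ((2 * m).factorial : ℝ)| ≤
      1 / 5 * (|2 * k| ^ m * ((2 * m).factorial : ℝ)) ∧ 0 < (κ / |κ|) ^ m * gb m R := by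
  have hm0 : (2 : ℝ) ≤ m := by exact_mod_cast hm
  have hκ0 : 0 < |κ| := abs_pos.2 hκ
  have hsq : (1 : ℝ) ≤ Real.sqrt m := by
    rw [Real.one_le_sqrt]; linarith
  have hε1 : ε ≤ 1 / 10 ^ 7 := by
    have : 10 ^ 7 * ε ≤ 10 ^ 7 * ε * Real.sqrt m := le_mul_of_one_le_right (by positivity) hsq
    rw [le_div_iff₀ (by norm_num)]; linarith
  have hεm2 : 10 ^ 14 * ε ^ 2 * m ≤ 1 := by
    have h1 : (10 ^ 7 * ε * Real.sqrt m) ^ 2 ≤ 1 ^ 2 :=
      pow_le_pow_left₀ (by positivity) hεm 2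
    have h2 : (10 ^ 7 * ε * Real.sqrt m) ^ 2 = 10 ^ 14 * ε ^ 2 * m := by
      rw [mul_pow, Real.sq_sqrt (by positivity)]; ring
    rw [h2] at h1; linarith
  -- k is close to κ
  have hk2 : 81 / 100 * κ ^ 2 ≤ k ^ 2 := by
    have h1 : |κ| - |k| ≤ |κ - k| := abs_sub_abs_le_abs_sub κ k
    rw [abs_sub_comm] at h1
    have h2 : ε * |κ| ≤ 1 / 10 ^ 7 * |κ| := mul_le_mul_of_nonneg_right hε1 hκ0.le
    have h3 : 9 / 10 * |κ| ≤ |k| := by linarith
    have h4 : (9 / 10 * |κ|) ^ 2 ≤ |k| ^ 2 := pow_le_pow_left₀ (by positivity) h3 2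
    rw [mul_pow, sq_abs, sq_abs] at h4
    linarith
  have hk : k ≠ 0 := by
    intro h
    rw [h] at hk2
    have : 0 < κ ^ 2 := by positivity
    nlinarith
  have hc : (Fintype.card (Pos m) : ℝ) = 2 * m := by simp; ring
  -- the quadratic form of the error
  have hE := hsec (Pos m) (errT R k) (2 * ε * |κ|) (by positivity)
    (fin_sub_curv hR fin_id_curv k) (by
      intro x y
      have h1 := hq x y
      have h2 : ∑ a, ∑ b, ∑ c, ∑ d, errT R k a b c d * x a * y b * x c * y d =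
          (∑ a, ∑ b, ∑ c, ∑ d, (R a b c d - κ * Id4 a b c d) * x a * y b * x c * y d) +
          (κ - k) * ∑ a, ∑ b, ∑ c, ∑ d, Id4 a b c d * x a * y b * x c * y d := by
        simp only [Finset.mul_sum, ← Finset.sum_add_distrib, errT]
        refine Finset.sum_congr rfl fun a _ => Finset.sum_congr rfl fun b _ =>
          Finset.sum_congr rfl fun c _ => Finset.sum_congr rfl fun d _ => ?_
        ring
      have h3 : ∑ a, ∑ b, ∑ c, ∑ d, (Id4 : T4 (Pos m)) a b c d * x a * y b * x c * y d =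
          (∑ a, x a ^ 2) * (∑ a, y a ^ 2) - (∑ a, x a * y a) ^ 2 := by
        have e1 : ∀ a b c : Pos m, ∑ d, (Id4 : T4 (Pos m)) a b c d * x a * y b * x c * y d =
            kd a c * x a * x c * (y b * y b) - kd b c * (x a * y a) * (y b * x c) := by
          intro a b c
          simp only [Id4, sub_mul, Finset.sum_sub_distrib]
          congr 1
          · rw [Finset.sum_eq_single b]
            · simp only [kd, if_true]; ring
            · intro d _ hd; simp [kd, Ne.symm hd]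
            · intro h; exact absurd (Finset.mem_univ b) h
          · rw [Finset.sum_eq_single a]
            · simp only [kd, if_true]; ring
            · intro d _ hd; simp [kd, Ne.symm hd]
            · intro h; exact absurd (Finset.mem_univ a) h
        have e2 : ∀ a b : Pos m, ∑ c, (kd a c * x a * x c * (y b * y b) -
            kd b c * (x a * y a) * (y b * x c)) =
            x a ^ 2 * y b ^ 2 - (x a * y a) * (x b * y b) := by
          intro a b
          rw [Finset.sum_sub_distrib]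
          congr 1
          · rw [Finset.sum_eq_single a]
            · simp only [kd, if_true]; ring
            · intro d _ hd; simp [kd, Ne.symm hd]
            · intro h; exact absurd (Finset.mem_univ a) h
          · rw [Finset.sum_eq_single b]
            · simp only [kd, if_true]; ring
            · intro d _ hd; simp [kd, Ne.symm hd]
            · intro h; exact absurd (Finset.mem_univ b) h
        simp only [e1, e2, Finset.sum_sub_distrib]
        rw [Finset.sum_mul_sum, pow_two (∑ a, x a * y a), Finset.sum_mul_sum]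
      rw [h2, h3]
      have h4 : (∑ a, x a * y a) ^ 2 ≤ (∑ a, x a ^ 2) * (∑ a, y a ^ 2) :=
        Finset.sum_mul_sq_le_sq_mul_sq _ _ _
      have h5 : |(κ - k) * ((∑ a, x a ^ 2) * (∑ a, y a ^ 2) - (∑ a, x a * y a) ^ 2)| ≤
          ε * |κ| * ((∑ a, x a ^ 2) * (∑ a, y a ^ 2)) := by
        rw [abs_mul, abs_sub_comm, abs_of_nonneg (a := (∑ a, x a ^ 2) * (∑ a, y a ^ 2) -
          (∑ a, x a * y a) ^ 2) (by linarith)]
        apply mul_le_mul hkκ _ (by linarith) (by positivity)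
        nlinarith [sq_nonneg (∑ a, x a * y a)]
      have h6 := abs_add_le (∑ a, ∑ b, ∑ c, ∑ d, (R a b c d - κ * Id4 a b c d) * x a * y b * x c * y d)
        ((κ - k) * ((∑ a, x a ^ 2) * (∑ a, y a ^ 2) - (∑ a, x a * y a) ^ 2))
      have h7 : 2 * ε * |κ| * (∑ a, x a ^ 2) * (∑ a, y a ^ 2) =
        ε * |κ| * ((∑ a, x a ^ 2) * (∑ a, y a ^ 2)) + ε * |κ| * ((∑ a, x a ^ 2) * (∑ a, y a ^ 2)) := by
        ring
      rw [h7]
      linarith)
  rw [hc] at hE
  have hX : 10 ^ 12 * (hs4 (errT R k) + hs2 (Ric (errT R k))) ≤ (2 * m * k) ^ 2 := by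
    have h1 : hs4 (errT R k) + hs2 (Ric (errT R k)) ≤ 25 / 9 * (2 * m) ^ 3 * (2 * ε * |κ|) ^ 2 := by
      linarith [hE.1, hE.2]
    have h2 : 25 / 9 * (2 * (m:ℝ)) ^ 3 * (2 * ε * |κ|) ^ 2 = 800 / 9 * (ε ^ 2 * m) * (m * κ) ^ 2 := by
      rw [mul_pow (2 * ε), sq_abs]; ring
    have h3 : 10 ^ 12 * (800 / 9 * (ε ^ 2 * m) * (m * κ) ^ 2) ≤ (m * κ) ^ 2 := by
      have : 10 ^ 12 * (800 / 9 * (ε ^ 2 * m) * (m * κ) ^ 2) =
        (8 / 9) * (10 ^ 14 * ε ^ 2 * m) * (m * κ) ^ 2 := by ring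
      rw [this]
      have h4 : (8 / 9) * (10 ^ 14 * ε ^ 2 * m) ≤ 1 := by linarith
      nlinarith [sq_nonneg ((m:ℝ) * κ)]
    have h5 : (m * κ) ^ 2 ≤ (2 * m * k) ^ 2 := by
      have : (2 * m * k) ^ 2 = 4 * m ^ 2 * k ^ 2 := by ring
      rw [this, mul_pow]
      have h6 : 0 ≤ (m:ℝ) ^ 2 := by positivity
      have h7 : κ ^ 2 ≤ 4 * k ^ 2 := by nlinarith [sq_nonneg κ]
      nlinarith
    calc 10 ^ 12 * (hs4 (errT R k) + hs2 (Ric (errT R k)))
        ≤ 10 ^ 12 * (800 / 9 * (ε ^ 2 * m) * (m * κ) ^ 2) := by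
          rw [← h2]; linarith
      _ ≤ _ := h3.trans h5
  have hmain := fin_L2 hfin hemb m hm R hR k hk hs hX
  have hpos : 0 < (2 * m * k) ^ 2 := by
    have : 2 * (m:ℝ) * k ≠ 0 := mul_ne_zero (by positivity) hk
    positivity
  have hfac : 0 < |2 * k| ^ m * ((2 * m).factorial : ℝ) := by
    have : 0 < |2 * k| := abs_pos.2 (mul_ne_zero two_ne_zero hk)
    positivity
  have h15 : |gb m R - (2 * k) ^ m * ((2 * m).factorial : ℝ)| ≤
      1 / 5 * (|2 * k| ^ m * ((2 * m).factorial : ℝ)) := by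
    refine hmain.trans (mul_le_mul_of_nonneg_right ?_ hfac.le)
    rw [div_le_iff₀ hpos]
    linarith
  refine ⟨hk, h15, ?_⟩
  -- sign
  have hσ : (κ / |κ|) ^ m * (2 * k) ^ m = |2 * k| ^ m := by
    rw [← mul_pow]
    congr 1
    rcases lt_or_gt_of_ne hκ with h | h
    · have hkneg : k < 0 := by
        have h1 := (abs_le.1 hkκ).2
        rw [abs_of_neg h] at h1
        nlinarith
      rw [abs_of_neg h, abs_of_neg (by linarith : 2 * k < 0)]
      field_simp
    · have hkpos : 0 < k := by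
        have h1 := (abs_le.1 hkκ).1
        rw [abs_of_pos h] at h1
        nlinarith
      rw [abs_of_pos h, abs_of_pos (by linarith : 0 < 2 * k)]
      field_simp
  have hσ1 : |(κ / |κ|) ^ m| = 1 := by
    rw [abs_pow, abs_div, abs_abs, div_self hκ0.ne', one_pow]
  have h16 : |(κ / |κ|) ^ m * gb m R - |2 * k| ^ m * ((2 * m).factorial : ℝ)| ≤
      1 / 5 * (|2 * k| ^ m * ((2 * m).factorial : ℝ)) := by
    have : (κ / |κ|) ^ m * gb m R - |2 * k| ^ m * ((2 * m).factorial : ℝ) =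
        (κ / |κ|) ^ m * (gb m R - (2 * k) ^ m * ((2 * m).factorial : ℝ)) := by
      rw [mul_sub, ← mul_assoc, hσ]
    rw [this, abs_mul, hσ1, one_mul]
    exact h15
  have h17 := (abs_le.1 h16).1
  linarith

theorem final (hfin : St_fin) (hemb : St_emb) (hsec : St_sec) (hexp : St_expand)
    (V : Type*) [NormedAddCommGroup V] [InnerProductSpace ℝ V] (m : ℕ) (hm : 2 ≤ m)
    (e : OrthonormalBasis (Fin m × Fin 2) ℝ V)
    (S : V →ₗ[ℝ] V →ₗ[ℝ] V →ₗ[ℝ] V →ₗ[ℝ] ℝ)
    (hS : ∀ x y z w, S x y z w = ⟪x, z⟫ * ⟪y, w⟫ - ⟪x, w⟫ * ⟪y, z⟫)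
    (R : V →ₗ[ℝ] V →ₗ[ℝ] V →ₗ[ℝ] V →ₗ[ℝ] ℝ) (hR : IsAlgCurv R)
    (k : ℝ) (hk : ∑ a, ∑ b, R (e a) (e b) (e a) (e b) = 2 * m * (2 * m - 1) * k) :
    (∀ e' : OrthonormalBasis (Fin m × Fin 2) ℝ V, gbInt m R e' = gbInt m R e) ∧
    0 < gbInt m S e ∧
    (∀ D : ℝ, D = (∑ a, ∑ b, ∑ c, ∑ d,
          (R (e a) (e b) (e c) (e d) - k * S (e a) (e b) (e c) (e d)) ^ 2) +
        (∑ b, ∑ d, (∑ a, (R (e a) (e b) (e a) (e d) - k * S (e a) (e b) (e a) (e d))) ^ 2) →
      k ≠ 0 → 10 ^ 12 * D ≤ (2 * m * k) ^ 2 →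
      |gbInt m R e - k ^ m * gbInt m S e| ≤
        2 * 10 ^ 11 * D / (2 * m * k) ^ 2 * (|k| ^ m * gbInt m S e)) ∧
    (∀ κ ε : ℝ, κ ≠ 0 → 0 ≤ ε → 10 ^ 7 * ε * Real.sqrt m ≤ 1 →
      (∀ x y : V, ‖x‖ = 1 → ‖y‖ = 1 → ⟪x, y⟫ = 0 → |R x y x y - κ| ≤ ε * |κ|) →
      |k - κ| ≤ ε * |κ| ∧
      |gbInt m R e - k ^ m * gbInt m S e| ≤ 1 / 5 * (|k| ^ m * gbInt m S e) ∧
      0 < (κ / |κ|) ^ m * gbInt m R e) := by
  have hSid : comp e S = Id4 := fin_comp_id e hS
  have hgS : gbInt m S e = 2 ^ m * ((2 * m).factorial : ℝ) := by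
    rw [fin_gb, hSid]; exact fin_gb_id hexp hemb m
  have hRc := fin_comp_curv e hR
  have hgR : gbInt m R e = gb m (comp e R) := rfl
  refine ⟨fun e' => gbInt_basis_indep m (fun x y z w => hR.symm x y z w) e' e, ?_, ?_, ?_⟩
  · rw [hgS]; positivity
  · intro D hD hk0 hDk
    have hE : ∀ a b c d, errT (comp e R) k a b c d =
        R (e a) (e b) (e c) (e d) - k * S (e a) (e b) (e c) (e d) := by
      intro a b c d
      rw [errT, ← hSid]; rfl
    have hD2 : hs4 (errT (comp e R) k) + hs2 (Ric (errT (comp e R) k)) = D := by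
      rw [hD]
      simp only [hs4, hs2, Ric, hE]
    have h := fin_L2 hfin hemb m hm (comp e R) hRc k hk0 hk (by rw [hD2]; exact hDk)
    rw [hD2] at h
    rw [hgR, hgS]
    have h1 : k ^ m * (2 ^ m * ((2 * m).factorial : ℝ)) = (2 * k) ^ m * ((2 * m).factorial : ℝ) := by
      rw [mul_pow]; ring
    have h2 : |k| ^ m * (2 ^ m * ((2 * m).factorial : ℝ)) =
        |2 * k| ^ m * ((2 * m).factorial : ℝ) := by
      rw [abs_mul, mul_pow, abs_of_pos (by norm_num : (0:ℝ) < 2)]; ring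
    rw [h1, h2]
    exact h
  · intro κ ε hκ hε hεm hsec2
    have hc : (Fintype.card (Pos m) : ℝ) = 2 * m := by simp; ring
    have hq := fin_quad e hR hS κ (ε * |κ|) hsec2
    have hm0 : (2 : ℝ) ≤ m := by exact_mod_cast hm
    have hkκ : |k - κ| ≤ ε * |κ| := by
      have h1 : ∑ a, ∑ b, (R (e a) (e b) (e a) (e b) - κ * S (e a) (e b) (e a) (e b)) =
          2 * m * (2 * m - 1) * (k - κ) := by
        simp only [Finset.sum_sub_distrib]
        rw [hk]
        have h2 : ∑ a, ∑ b, κ * S (e a) (e b) (e a) (e b) = 2 * m * (2 * m - 1) * κ := by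
          have h3 : ∀ a b, S (e a) (e b) (e a) (e b) = 1 - (if a = b then (1:ℝ) else 0) := by
            intro a b
            rw [hS, orthonormal_iff_ite.1 e.orthonormal a a, orthonormal_iff_ite.1 e.orthonormal b b,
              orthonormal_iff_ite.1 e.orthonormal a b, orthonormal_iff_ite.1 e.orthonormal b a]
            by_cases hab : a = b
            · subst hab; simp
            · simp [hab, Ne.symm hab]
          simp only [h3, mul_sub, Finset.sum_sub_distrib]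
          simp
          ring
        rw [h2]; ring
      have h4 : |∑ a, ∑ b, (R (e a) (e b) (e a) (e b) - κ * S (e a) (e b) (e a) (e b))| ≤
          ε * |κ| * (2 * m * (2 * m - 1)) := by
        have h5 : |∑ a, ∑ b, (R (e a) (e b) (e a) (e b) - κ * S (e a) (e b) (e a) (e b))| ≤
            ∑ a, ∑ b, ε * |κ| * S (e a) (e b) (e a) (e b) := by
          refine (Finset.abs_sum_le_sum_abs _ _).trans (Finset.sum_le_sum fun a _ => ?_)
          refine (Finset.abs_sum_le_sum_abs _ _).trans (Finset.sum_le_sum fun b _ => ?_)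
          exact hq (e a) (e b)
        refine h5.trans (le_of_eq ?_)
        have h3 : ∀ a b, S (e a) (e b) (e a) (e b) = 1 - (if a = b then (1:ℝ) else 0) := by
          intro a b
          rw [hS, orthonormal_iff_ite.1 e.orthonormal a a, orthonormal_iff_ite.1 e.orthonormal b b,
            orthonormal_iff_ite.1 e.orthonormal a b, orthonormal_iff_ite.1 e.orthonormal b a]
          by_cases hab : a = b
          · subst hab; simp
          · simp [hab, Ne.symm hab]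
        simp only [h3, mul_sub, Finset.sum_sub_distrib]
        simp
        ring
      rw [h1, abs_mul, abs_of_pos (by nlinarith : (0:ℝ) < 2 * m * (2 * m - 1))] at h4
      have h6 : (0:ℝ) < 2 * m * (2 * m - 1) := by nlinarith
      have h7 : 2 * m * (2 * m - 1) * |k - κ| ≤ 2 * m * (2 * m - 1) * (ε * |κ|) := by linarith
      exact le_of_mul_le_mul_left h7 h6
    have hcomp : ∀ x y : Pos m → ℝ, |∑ a, ∑ b, ∑ c, ∑ d,
        (comp e R a b c d - κ * Id4 a b c d) * x a * y b * x c * y d| ≤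
          ε * |κ| * ((∑ a, x a ^ 2) * (∑ a, y a ^ 2)) := by
      intro x y
      have h1 := hq (∑ a, x a • e a) (∑ a, y a • e a)
      have h2 := fin_eval e R x y
      have h3 := fin_eval e S x y
      rw [h2, h3, hSid, Finset.mul_sum, ← Finset.sum_sub_distrib] at h1
      have h4 : ∑ a, ∑ b, ∑ c, ∑ d, (comp e R a b c d - κ * Id4 a b c d) * x a * y b * x c * y d =
          ∑ a, (∑ b, ∑ c, ∑ d, comp e R a b c d * x a * y b * x c * y d -
            κ * ∑ b, ∑ c, ∑ d, Id4 a b c d * x a * y b * x c * y d) := by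
        refine Finset.sum_congr rfl fun a _ => ?_
        simp only [Finset.mul_sum, ← Finset.sum_sub_distrib]
        refine Finset.sum_congr rfl fun b _ => Finset.sum_congr rfl fun c _ =>
          Finset.sum_congr rfl fun d _ => ?_
        ring
      rw [h4]
      refine h1.trans (mul_le_mul_of_nonneg_left ?_ (by positivity))
      have h5 := (fin_S_le hS (∑ a, x a • e a) (∑ a, y a • e a)).2
      rw [h3, hSid] at h5
      have h6 : ∀ x : Pos m → ℝ, ‖∑ a, x a • e a‖ ^ 2 = ∑ a, x a ^ 2 := by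
        intro x
        rw [← real_inner_self_eq_norm_sq, Orthonormal.inner_sum e.orthonormal]
        refine Finset.sum_congr rfl fun a _ => ?_
        simp [pow_two]
      rw [h6, h6] at h5
      exact h5
    have h := fin_sec hfin hemb hsec m hm (comp e R) hRc k κ ε hκ hε hεm hk hcomp hkκ
    refine ⟨hkκ, ?_, h.2.2⟩
    have h1 : k ^ m * (2 ^ m * ((2 * m).factorial : ℝ)) = (2 * k) ^ m * ((2 * m).factorial : ℝ) := by
      rw [mul_pow]; ring
    have h2 : |k| ^ m * (2 ^ m * ((2 * m).factorial : ℝ)) =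
        |2 * k| ^ m * ((2 * m).factorial : ℝ) := by
      rw [abs_mul, mul_pow, abs_of_pos (by norm_num : (0:ℝ) < 2)]; ring
    rw [hgR, hgS, h1, h2]
    exact h.2.1

end Pool.Agent.H933R2.HopfN
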