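import Pool.Agent.H933R2.HopfN.St2
import Pool.Agent.H933R2.HopfN.GRD

set_option autoImplicit false
set_option linter.all false

/-!
Task GRD2: the gradient of the functional, version with the quantity `a`.
-/

namespace Pool.Agent.H933R2.HopfN

open Finset

theorem grd2_num (H B h h' b b' κ : ℝ) (hκ : 0 ≤ κ) (hh : 0 ≤ h) (hh' : 0 ≤ h') (hb : 0 ≤ b)
    (hb' : 0 ≤ b') (h1 : H ^ 2 ≤ h * h') (h2 : B ^ 2 ≤ b * b') :
    (H + κ / 2 * B) ^ 2 ≤ (h + κ / 2 * b) * (h' + κ / 2 * b') := by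
  have h3 : (H * B) ^ 2 ≤ ((h * b' + h' * b) / 2) ^ 2 := by
    have h4 : (H * B) ^ 2 ≤ (h * h') * (b * b') := by
      rw [mul_pow]
      exact mul_le_mul h1 h2 (sq_nonneg _) (mul_nonneg hh hh')
    nlinarith [sq_nonneg (h * b' - h' * b)]
  have h5 : 0 ≤ (h * b' + h' * b) / 2 := by positivity
  have h6 : H * B ≤ (h * b' + h' * b) / 2 := (abs_le_of_sq_le_sq' h3 h5).2
  have h7 : κ * (H * B) ≤ κ * ((h * b' + h' * b) / 2) := mul_le_mul_of_nonneg_left h6 hκ
  have h8 : κ ^ 2 * B ^ 2 ≤ κ ^ 2 * (b * b') := mul_le_mul_of_nonneg_left h2 (sq_nonneg _)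
  nlinarith

theorem grd2_main : St_grd2 := by
  intro ι _ _ S θ κ hθ hθ1 hκ W A hW hA a ha
  set w : ι → ℝ := wt θ S with hw
  have hw0 : ∀ a, 0 ≤ w a := by
    intro a
    simp only [hw, wt]
    split_ifs
    · exact zero_le_one
    · exact hθ.le
  let g : ι → ℝ := fun i => grdH w W i i + κ / 2 * grdB w A i i
  have hg : ∀ i, 0 ≤ g i := fun i =>
    add_nonneg (grd_aux_H0 w hw0 W i) (mul_nonneg (by linarith) (grd_aux_B0 w hw0 A i))
  let sI : ι → ℝ := fun i => if i ∈ S then 1 else 0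
  have hsI : ∀ i, sI i * sI i = sI i := by
    intro i; simp only [sI]; split_ifs <;> simp
  have hs0 : ∀ i, 0 ≤ sI i := by
    intro i; simp only [sI]; split_ifs <;> simp
  have hs1 : ∀ i, sI i ≤ 1 := by
    intro i; simp only [sI]; split_ifs <;> simp
  have hws : ∀ i, w i = sI i + θ * (1 - sI i) := by
    intro i; simp only [hw, wt, sI]; split_ifs <;> simp
  -- the pointwise bound
  have h1 : ∀ i l, QQ1 w κ W A i l ^ 2 ≤
      64 * (1 - θ) ^ 2 * ((sI i * (1 - sI l) + (1 - sI i) * sI l) * (g i * g l)) := by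
    intro i l
    have e1 : QQ1 w κ W A i l = 8 * ((w i - w l) * (grdH w W i l + κ / 2 * grdB w A i l)) := by
      unfold QQ1
      rw [grd_aux_ip4 w W hW, grd_aux_ip2 w A hA]
      ring
    have e2 := grd2_num (grdH w W i l) (grdB w A i l) (grdH w W i i) (grdH w W l l)
      (grdB w A i i) (grdB w A l l) κ hκ (grd_aux_H0 w hw0 W i) (grd_aux_H0 w hw0 W l)
      (grd_aux_B0 w hw0 A i) (grd_aux_B0 w hw0 A l) (grd_aux_csH w hw0 W i l)
      (grd_aux_csB w hw0 A i l)
    have e4 : (w i - w l) ^ 2 = (1 - θ) ^ 2 * (sI i * (1 - sI l) + (1 - sI i) * sI l) := by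
      rw [hws i, hws l]
      have e5 : (sI i - sI l) ^ 2 = sI i * (1 - sI l) + (1 - sI i) * sI l := by
        have := hsI i
        have := hsI l
        nlinarith
      rw [← e5]
      ring
    have e6 : 0 ≤ sI i * (1 - sI l) + (1 - sI i) * sI l :=
      add_nonneg (mul_nonneg (hs0 i) (by linarith [hs1 l]))
        (mul_nonneg (by linarith [hs1 i]) (hs0 l))
    rw [e1]
    have e8 : (8 * ((w i - w l) * (grdH w W i l + κ / 2 * grdB w A i l))) ^ 2 =
        64 * (1 - θ) ^ 2 * ((sI i * (1 - sI l) + (1 - sI i) * sI l) *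
          (grdH w W i l + κ / 2 * grdB w A i l) ^ 2) := by
      rw [mul_pow, mul_pow, e4]; ring
    rw [e8]
    refine mul_le_mul_of_nonneg_left ?_ (by positivity)
    exact mul_le_mul_of_nonneg_left e2 e6
  set x : ℝ := ∑ i, sI i * g i with hx
  set y : ℝ := ∑ i, (1 - sI i) * g i with hy
  have h2 : ∑ i, ∑ l, QQ1 w κ W A i l ^ 2 ≤ 128 * (1 - θ) ^ 2 * (x * y) := by
    have h3 : ∑ i, ∑ l, QQ1 w κ W A i l ^ 2 ≤
        ∑ i, ∑ l, 64 * (1 - θ) ^ 2 *
          ((sI i * (1 - sI l) + (1 - sI i) * sI l) * (g i * g l)) :=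
      sum_le_sum fun i _ => sum_le_sum fun l _ => h1 i l
    have h4 : ∑ i, ∑ l, 64 * (1 - θ) ^ 2 *
        ((sI i * (1 - sI l) + (1 - sI i) * sI l) * (g i * g l)) =
        64 * (1 - θ) ^ 2 * (x * y) + 64 * (1 - θ) ^ 2 * (y * x) := by
      rw [hx, hy, sum_mul_sum, sum_mul_sum, mul_sum, mul_sum, ← sum_add_distrib]
      refine sum_congr rfl fun i _ => ?_
      rw [mul_sum, mul_sum, ← sum_add_distrib]
      refine sum_congr rfl fun l _ => ?_
      ring
    rw [h4] at h3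
    linarith
  have e1 : Q4 w W = ∑ i, w i * grdH w W i i := by
    unfold Q4 ip4 grdH
    refine sum_congr rfl fun a _ => ?_
    simp only [mul_sum]
    refine sum_congr rfl fun b _ => sum_congr rfl fun c _ => sum_congr rfl fun d _ => ?_
    ring
  have e2 : Q2 w A = ∑ i, w i * grdB w A i i := by
    unfold Q2 ip2 grdB
    refine sum_congr rfl fun a _ => ?_
    simp only [mul_sum]
    refine sum_congr rfl fun b _ => ?_
    ring
  have e3 : s4 w W = ∑ i, grdH w W i i := by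
    unfold s4 grdH
    refine sum_congr rfl fun a _ => ?_
    refine sum_congr rfl fun b _ => sum_congr rfl fun c _ => sum_congr rfl fun d _ => ?_
    ring
  have e4 : s2 w A = ∑ i, grdB w A i i := by
    unfold s2 grdB
    refine sum_congr rfl fun a _ => ?_
    refine sum_congr rfl fun b _ => ?_
    ring
  have h5 : Q4 w W + κ / 2 * Q2 w A = x + θ * y := by
    rw [e1, e2, hx, hy, mul_sum, mul_sum, ← sum_add_distrib, ← sum_add_distrib]
    refine sum_congr rfl fun i _ => ?_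
    rw [hws i]
    ring
  have h6 : s4 w W + κ / 2 * s2 w A = x + y := by
    rw [e3, e4, hx, hy, mul_sum, ← sum_add_distrib, ← sum_add_distrib]
    refine sum_congr rfl fun i _ => ?_
    ring
  have hx0 : 0 ≤ x := sum_nonneg fun i _ => mul_nonneg (hs0 i) (hg i)
  have hy0 : 0 ≤ y := sum_nonneg fun i _ => mul_nonneg (by linarith [hs1 i]) (hg i)
  have hQ2 : 0 ≤ Q2 w A := by
    rw [e2]
    exact sum_nonneg fun i _ => mul_nonneg (hw0 i) (grd_aux_B0 w hw0 A i)
  have hax : a = (1 - θ) * x := by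
    have : a = (Q4 w W + κ / 2 * Q2 w A) - θ * (s4 w W + κ / 2 * s2 w A) := by
      rw [ha]; ring
    rw [this, h5, h6]; ring
  have hQa : θ * y ≤ QQ w κ W A - a := by
    have h7 : QQ w κ W A = (x + θ * y) + κ / 2 * Q2 w A := by
      unfold QQ
      rw [← h5]; ring
    have h8 : 0 ≤ κ / 2 * Q2 w A := mul_nonneg (by linarith) hQ2
    have h9 : 0 ≤ θ * x := mul_nonneg hθ.le hx0
    rw [h7, hax]
    nlinarith
  have ha0 : 0 ≤ a := by rw [hax]; exact mul_nonneg (by linarith) hx0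
  have hty : 0 ≤ θ * y := mul_nonneg hθ.le hy0
  refine ⟨ha0, by linarith, le_trans h2 ?_⟩
  have h10 : 128 / θ * a * (θ * y) ≤ 128 / θ * a * (QQ w κ W A - a) :=
    mul_le_mul_of_nonneg_left hQa (by positivity)
  refine le_trans ?_ h10
  have h11 : 128 / θ * a * (θ * y) = 128 * (1 - θ) * (x * y) := by
    rw [hax]; field_simp
  rw [h11]
  have hxy : 0 ≤ x * y := mul_nonneg hx0 hy0
  have h12 : (1 - θ) ^ 2 ≤ 1 - θ := by nlinarith
  nlinarith

end Pool.Agent.H933R2.HopfN
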