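import Pool.Agent.H933R2.HopfN.Field3

set_option autoImplicit false
set_option linter.all false

/-!
Fields of algebraic curvature tensors in dimension `2 m` and their Gauss-Bonnet-Chern integrand.
-/

namespace Pool.Agent.H933R2.HopfN

open H824GB MeasureTheory

/-- algebraic curvature tensors; `R x y x y` is the sectional curvature of the plane spanned by
the orthonormal pair `x, y`. (Linearity in the first argument and the symmetries imply linearity
in every argument.) -/
structure AlgCurv {V : Type} [AddCommGroup V] [Module ℝ V] (R : V → V → V → V → ℝ) : Prop where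
  add : ∀ x x' y z w, R (x + x') y z w = R x y z w + R x' y z w
  smul : ∀ (t : ℝ) (x y z w : V), R (t • x) y z w = t * R x y z w
  anti : ∀ x y z w, R y x z w = - R x y z w
  pair : ∀ x y z w, R z w x y = R x y z w
  bianchi : ∀ x y z w, R x y z w + R y z x w + R z x y w = 0

/-- A field of algebraic curvature tensors: at every point `p` of `M` a Euclidean vector space
`V p` of dimension `2 m` with an orthonormal basis and an algebraic curvature tensor on it (for a
Riemannian manifold: the tangent space and the curvature tensor at `p`). -/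
structure Geo (m : ℕ) (M : Type) where
  V : M → Type
  [ng : ∀ p, NormedAddCommGroup (V p)]
  [ip : ∀ p, InnerProductSpace ℝ (V p)]
  e : ∀ p, OrthonormalBasis (Fin m × Fin 2) ℝ (V p)
  R : ∀ p, V p → V p → V p → V p → ℝ
  curv : ∀ p, AlgCurv (R p)

attribute [instance] Geo.ng Geo.ip

namespace Geo

variable {m : ℕ} {M : Type}

/-- components of the curvature tensor at `p` in the orthonormal basis -/
noncomputable def tn (K : Geo m M) (p : M) : T4 (Fin m × Fin 2) :=
  fun a b c d => K.R p (K.e p a) (K.e p b) (K.e p c) (K.e p d)

/-- the Gauss-Bonnet-Chern integrand, normalised so that its integral over a closed Riemannian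
manifold is the Euler characteristic -/
noncomputable def gbc (K : Geo m M) (p : M) : ℝ :=
  gb m (K.tn p) / ((8 * Real.pi) ^ m * (m.factorial : ℝ))

/-- all sectional curvatures at `p` are within `δ` of `κ` -/
def SecNear (K : Geo m M) (p : M) (κ δ : ℝ) : Prop :=
  ∀ x y : K.V p, ‖x‖ = 1 → ‖y‖ = 1 → inner ℝ x y = 0 → |K.R p x y x y - κ| ≤ δ

/-- mean of the sectional curvatures: scalar curvature divided by `2 m (2 m - 1)` -/
noncomputable def mean (K : Geo m M) (p : M) : ℝ :=
  (∑ a, ∑ b, K.tn p a b a b) / (2 * m * (2 * m - 1))

/-- difference of the curvature tensor and the tensor of constant curvature `mean` -/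
noncomputable def err (K : Geo m M) (p : M) : T4 (Fin m × Fin 2) :=
  fun a b c d => K.tn p a b c d - K.mean p * Id4 a b c d

/-- squared distance from constant curvature: squared norm of the error term plus squared norm of
its Ricci contraction (the trace-free Ricci tensor) -/
noncomputable def dev (K : Geo m M) (p : M) : ℝ := hs4 (K.err p) + hs2 (Ric (K.err p))

end Geo

section lin

variable {V : Type} [NormedAddCommGroup V] [InnerProductSpace ℝ V] {R : V → V → V → V → ℝ}

theorem AlgCurv.add2 (h : AlgCurv R) (x y y' z w : V) :
    R x (y + y') z w = R x y z w + R x y' z w := by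
  rw [h.anti (y + y') x, h.add, h.anti y x, h.anti y' x]; ring

theorem AlgCurv.smul2 (h : AlgCurv R) (t : ℝ) (x y z w : V) :
    R x (t • y) z w = t * R x y z w := by
  rw [h.anti (t • y) x, h.smul, h.anti y x]; ring

theorem AlgCurv.add3 (h : AlgCurv R) (x y z z' w : V) :
    R x y (z + z') w = R x y z w + R x y z' w := by
  rw [h.pair (z + z') w x y, h.add, h.pair z w x y, h.pair z' w x y]

theorem AlgCurv.smul3 (h : AlgCurv R) (t : ℝ) (x y z w : V) :
    R x y (t • z) w = t * R x y z w := by
  rw [h.pair (t • z) w x y, h.smul, h.pair z w x y]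

theorem AlgCurv.add4 (h : AlgCurv R) (x y z w w' : V) :
    R x y z (w + w') = R x y z w + R x y z w' := by
  rw [h.pair z (w + w') x y, h.add2, h.pair z w x y, h.pair z w' x y]

theorem AlgCurv.smul4 (h : AlgCurv R) (t : ℝ) (x y z w : V) :
    R x y z (t • w) = t * R x y z w := by
  rw [h.pair z (t • w) x y, h.smul2, h.pair z w x y]

/-- the 4-linear form of an algebraic curvature tensor -/
noncomputable def toLin (h : AlgCurv R) : V →ₗ[ℝ] V →ₗ[ℝ] V →ₗ[ℝ] V →ₗ[ℝ] ℝ where
  toFun x :=
    { toFun := fun y =>
        { toFun := fun z =>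
            { toFun := fun w => R x y z w
              map_add' := fun w w' => h.add4 x y z w w'
              map_smul' := fun t w => h.smul4 t x y z w }
          map_add' := fun z z' => LinearMap.ext fun w => h.add3 x y z z' w
          map_smul' := fun t z => LinearMap.ext fun w => h.smul3 t x y z w }
      map_add' := fun y y' => LinearMap.ext fun z => LinearMap.ext fun w => h.add2 x y y' z w
      map_smul' := fun t y => LinearMap.ext fun z => LinearMap.ext fun w => h.smul2 t x y z w }
  map_add' := fun x x' => LinearMap.ext fun y => LinearMap.ext fun z => LinearMap.ext fun w =>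
    h.add x x' y z w
  map_smul' := fun t x => LinearMap.ext fun y => LinearMap.ext fun z => LinearMap.ext fun w =>
    h.smul t x y z w

theorem toLin_apply (h : AlgCurv R) (x y z w : V) : toLin h x y z w = R x y z w := rfl

theorem toLin_alg (h : AlgCurv R) : IsAlgCurv (toLin h) where
  antisymm₁ := fun x y z w => h.anti y x z w
  antisymm₂ := fun x y z w => by
    show R x y z w = - R x y w z
    rw [← h.pair x y z w, h.anti w z x y, ← h.pair x y w z]
  symm := fun x y z w => (h.pair x y z w).symm
  bianchi := fun x y z w => h.bianchi x y z w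

end lin

namespace Geo

variable {m : ℕ} {M : Type}

/-- the field of 4-linear forms -/
noncomputable def cf (K : Geo m M) : CurvField m M where
  V := K.V
  e := K.e
  R := fun p => toLin (K.curv p)
  alg := fun p => toLin_alg (K.curv p)

theorem cf_gbc (K : Geo m M) (p : M) : K.cf.gbc p = K.gbc p := rfl

theorem cf_gbc' (K : Geo m M) : K.cf.gbc = K.gbc := rfl

theorem cf_mean (K : Geo m M) (p : M) : K.cf.mean p = K.mean p := rfl

theorem cf_dev (K : Geo m M) (p : M) : K.cf.dev p = K.dev p := rfl

theorem cf_sec (K : Geo m M) (p : M) (κ δ : ℝ) : K.cf.SecNear p κ δ ↔ K.SecNear p κ δ := Iff.rfl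

end Geo

/-- the other direction -/
noncomputable def CurvField.geo {m : ℕ} {M : Type} (K : CurvField m M) : Geo m M where
  V := K.V
  e := K.e
  R := fun p x y z w => K.R p x y z w
  curv := fun p =>
    { add := fun x x' y z w => by simp
      smul := fun t x y z w => by simp
      anti := fun x y z w => (K.alg p).antisymm₁ y x z w
      pair := fun x y z w => ((K.alg p).symm x y z w).symm
      bianchi := fun x y z w => (K.alg p).bianchi x y z w }

theorem sharp_geo (h : St_sharp) (hemb : St_emb) (m : ℕ) (hm : 3 ≤ m) (k : ℝ) (hk : k ≠ 0) :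
    ∃ K : Geo m Unit, K.mean () = k ∧ (∀ b d, Ric (K.err ()) b d = 0) ∧
      K.dev () ≤ 240 * (2 * m * k) ^ 2 ∧ (k / |k|) ^ m * K.gbc () < 0 := by
  obtain ⟨K, h1, h2, h3, h4⟩ := sharp_field h hemb m hm k hk
  exact ⟨K.geo, h1, h2, h3, h4⟩

end Pool.Agent.H933R2.HopfN
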