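import Pool.Agent.H933R2.HopfN.Geo
import Pool.Agent.H933R2.HopfN.All2

set_option autoImplicit false
set_option linter.all false

/-!
Integral pinching: bounds for the Gauss-Bonnet-Chern integrand without smallness conditions and
their integrated form.
-/

namespace Pool.Agent.H933R2.HopfN

open MeasureTheory

/-- the expansion, all terms bounded -/
theorem int_comp (m : ℕ) (hm : 2 ≤ m) (E : T4 (Pos m)) (hE : IsCurv E) (ht : tr2 (Ric E) = 0)
    (k a : ℝ) (ha : 0 ≤ a)
    (hT : ∀ j : ℕ, 2 ≤ j → j ≤ m →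
      (m.choose j : ℝ) * (2 * 1) ^ (m - j) * ((2 * m - 2 * j).factorial : ℝ) * |GG j E| ≤
        9 / 10 * a ^ j * ((2 * 1) ^ m * ((2 * m).factorial : ℝ))) :
    |GG m (fun a b c d => k * Id4 a b c d + E a b c d) - (2 * k) ^ m * ((2 * m).factorial : ℝ)| ≤
      9 / 10 * (2 ^ m * ((2 * m).factorial : ℝ)) *
        ∑ j ∈ Finset.range (m - 1), a ^ (j + 2) * |k| ^ (m - (j + 2)) := by
  have hc : Fintype.card (Pos m) = 2 * m := by simp; ring
  rw [all_expand m (Pos m) hc k E]
  set T : ℕ → ℝ := fun j => (m.choose j : ℝ) * (2 * k) ^ (m - j) *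
        ((2 * m - 2 * j).factorial : ℝ) * GG j E with hTd
  have hT0 : T 0 = (2 * k) ^ m * ((2 * m).factorial : ℝ) := by
    simp only [hTd]
    rw [fin_GG0]
    simp
  have hT1 : T 1 = 0 := by
    simp only [hTd]
    rw [fin_GG1 E hE ht, mul_zero]
  have hsum : ∑ j ∈ Finset.range (m + 1), T j - (2 * k) ^ m * ((2 * m).factorial : ℝ) =
      ∑ i ∈ Finset.range (m - 1), T (i + 2) := by
    obtain ⟨n, rfl⟩ : ∃ n, m = n + 1 := ⟨m - 1, by omega⟩
    rw [Finset.sum_range_succ', Finset.sum_range_succ']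
    rw [show (0 : ℕ) + 1 = 1 from rfl, hT1, hT0]
    simp
  show |∑ j ∈ Finset.range (m + 1), T j - (2 * k) ^ m * ((2 * m).factorial : ℝ)| ≤ _
  rw [hsum, Finset.mul_sum]
  refine (Finset.abs_sum_le_sum_abs _ _).trans (Finset.sum_le_sum fun i hi => ?_)
  have hi' := Finset.mem_range.1 hi
  have h1 := hT (i + 2) (by omega) (by omega)
  have h2 : |T (i + 2)| = |k| ^ (m - (i + 2)) * ((m.choose (i + 2) : ℝ) * (2 * 1) ^ (m - (i + 2)) *
      ((2 * m - 2 * (i + 2)).factorial : ℝ) * |GG (i + 2) E|) := by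
    simp only [hTd]
    rw [abs_mul, abs_mul, abs_mul, abs_pow, abs_mul, Nat.abs_cast, Nat.abs_cast, mul_pow]
    rw [abs_of_pos (by norm_num : (0:ℝ) < 2)]
    ring
  rw [h2]
  refine (mul_le_mul_of_nonneg_left h1 (pow_nonneg (abs_nonneg k) _)).trans (le_of_eq ?_)
  ring

/-- the constant of the round sphere -/
theorem roundGB_one (m : ℕ) (k : ℝ) : roundGB m k = roundGB m 1 * k ^ m := by
  unfold roundGB; ring

theorem roundGB_one' (m : ℕ) :
    (2 ^ m * ((2 * m).factorial : ℝ)) / ((8 * Real.pi) ^ m * (m.factorial : ℝ)) = roundGB m 1 := by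
  rw [← field_round]; ring

theorem CurvField.int_point {m : ℕ} {M : Type} (hm : 2 ≤ m) (K : CurvField m M) (p : M)
    (a : ℝ) (ha : 0 ≤ a)
    (hT : ∀ j : ℕ, 2 ≤ j → j ≤ m →
      (m.choose j : ℝ) * (2 * 1) ^ (m - j) * ((2 * m - 2 * j).factorial : ℝ) *
        |GG j (errT (comp (K.e p) (K.R p)) (K.mean p))| ≤
        9 / 10 * a ^ j * ((2 * 1) ^ m * ((2 * m).factorial : ℝ))) :
    |K.gbc p - roundGB m (K.mean p)| ≤ 9 / 10 * roundGB m 1 *
        ∑ j ∈ Finset.range (m - 1), a ^ (j + 2) * |K.mean p| ^ (m - (j + 2)) := by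
  set R := comp (K.e p) (K.R p) with hR
  have hRc : IsCurv R := fin_comp_curv _ (K.alg p)
  have hs := K.mean_eq hm p
  have hc : Fintype.card (Pos m) = 2 * m := by simp; ring
  have h := int_comp m hm (errT R (K.mean p)) (fin_sub_curv hRc fin_id_curv _)
    (fin_tr R _ (by rw [hs, hc]; push_cast; ring)) (K.mean p) a ha hT
  have h2 : (fun a b c d => K.mean p * Id4 a b c d + errT R (K.mean p) a b c d) = R := by
    funext a b c d
    simp only [errT]; ring
  rw [h2, emb_main.2 m] at h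
  have hn := field_norm m
  have h3 : K.gbc p - roundGB m (K.mean p) = (gb m R -
      (2 * K.mean p) ^ m * ((2 * m).factorial : ℝ)) / ((8 * Real.pi) ^ m * (m.factorial : ℝ)) := by
    rw [← field_round, sub_div]; rfl
  rw [h3, abs_div, abs_of_pos hn, div_le_iff₀ hn, ← roundGB_one']
  refine h.trans (le_of_eq ?_)
  field_simp

/-- pointwise bound, Hilbert-Schmidt norm, no smallness -/
theorem CurvField.L2all {m : ℕ} {M : Type} (hm : 2 ≤ m) (K : CurvField m M) (p : M) :
    |K.gbc p - roundGB m (K.mean p)| ≤ 9 / 10 * roundGB m 1 *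
        ∑ j ∈ Finset.range (m - 1), (555 * Real.sqrt (K.dev p) / (2 * m)) ^ (j + 2) *
          |K.mean p| ^ (m - (j + 2)) := by
  refine K.int_point hm p _ (by positivity) fun j h2 hj => ?_
  have hc : Fintype.card (Pos m) = 2 * m := by simp; ring
  have hRc : IsCurv (comp (K.e p) (K.R p)) := fin_comp_curv _ (K.alg p)
  have h := all_term2 m hm (Pos m) hc (errT (comp (K.e p) (K.R p)) (K.mean p))
    (fin_sub_curv hRc fin_id_curv _) (fin_tr _ _ (by rw [K.mean_eq hm p, hc]; push_cast; ring))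
    (K.dev p) (K.dev_eq p) 1 one_pos j h2 hj
  rw [mul_one (2 * (m:ℝ))] at h
  exact h

/-- pointwise bound, sup norm, no smallness -/
theorem CurvField.secall {m : ℕ} {M : Type} (hm : 2 ≤ m) (K : CurvField m M) (p : M) (ε : ℝ)
    (hε : 0 ≤ ε) (hs : K.SecNear p (K.mean p) ε) :
    |K.gbc p - roundGB m (K.mean p)| ≤ 9 / 10 * roundGB m 1 *
        ∑ j ∈ Finset.range (m - 1), (18 * Real.sqrt (2 * m) * ε) ^ (j + 2) *
          |K.mean p| ^ (m - (j + 2)) := by
  refine K.int_point hm p _ (by positivity) fun j h2 hj => ?_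
  have hc : Fintype.card (Pos m) = 2 * m := by simp; ring
  have hRc : IsCurv (comp (K.e p) (K.R p)) := fin_comp_curv _ (K.alg p)
  have hE : IsCurv (errT (comp (K.e p) (K.R p)) (K.mean p)) := fin_sub_curv hRc fin_id_curv _
  have hq : ∀ x y : Pos m → ℝ, |ev4 (errT (comp (K.e p) (K.R p)) (K.mean p)) x y x y| ≤
      ε * (∑ a, x a ^ 2) * (∑ a, y a ^ 2) := by
    intro x y
    have h := K.quad p (K.mean p) ε hε hs x y
    simp only [ev4, errT]
    rw [mul_assoc]
    exact h
  obtain ⟨hb4, hb2⟩ := sups_main (Pos m) _ ε hε hE hq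
  rw [hc] at hb2
  push_cast at hb2
  have h := all_terms m hm (Pos m) hc (errT (comp (K.e p) (K.R p)) (K.mean p)) hE
    (fin_tr _ _ (by rw [K.mean_eq hm p, hc]; push_cast; ring)) ε hε hb4 hb2 1 one_pos j h2 hj
  rw [div_one] at h
  exact h

end Pool.Agent.H933R2.HopfN
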