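import Pool.Agent.H933R2.HopfN.Int

set_option autoImplicit false
set_option linter.all false

namespace Pool.Agent.H933R2.HopfN

open MeasureTheory

/-- weighted arithmetic-geometric mean inequality with integer exponents -/
theorem int_amgm (m j : ℕ) (hm : 1 ≤ m) (hj : j ≤ m) (x y : ℝ) (hx : 0 ≤ x) (hy : 0 ≤ y) :
    x ^ j * y ^ (m - j) ≤ (j : ℝ) / m * x ^ m + (1 - (j : ℝ) / m) * y ^ m := by
  have hm0 : (0 : ℝ) < m := by exact_mod_cast (by omega : 0 < m)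
  have hjm : (j : ℝ) ≤ m := by exact_mod_cast hj
  have h := Real.geom_mean_le_arith_mean2_weighted (w₁ := (j : ℝ) / m) (w₂ := 1 - (j : ℝ) / m)
    (p₁ := x ^ m) (p₂ := y ^ m) (by positivity)
    (by rw [sub_nonneg, div_le_one hm0]; exact hjm) (by positivity) (by positivity) (by ring)
  refine le_trans (le_of_eq ?_) h
  have e1 : (x ^ m) ^ ((j : ℝ) / m) = x ^ j := by
    rw [← Real.rpow_natCast x m, ← Real.rpow_mul hx, mul_div_cancel₀ _ hm0.ne', Real.rpow_natCast]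
  have e2 : (y ^ m) ^ (1 - (j : ℝ) / m) = y ^ (m - j) := by
    rw [← Real.rpow_natCast y m, ← Real.rpow_mul hy]
    have : (m : ℝ) * (1 - (j : ℝ) / m) = ((m - j : ℕ) : ℝ) := by
      rw [Nat.cast_sub hj]; field_simp
    rw [this, Real.rpow_natCast]
  rw [e1, e2]

/-- one term -/
theorem int_term (m j : ℕ) (hm : 1 ≤ m) (hj : j ≤ m) (θ f g : ℝ) (hθ : 0 < θ) (hf : 0 ≤ f)
    (hg : 0 ≤ g) :
    g ^ j * f ^ (m - j) ≤ θ ^ j * ((j : ℝ) / m * (g / θ) ^ m + (1 - (j : ℝ) / m) * f ^ m) := by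
  have h := int_amgm m j hm hj (g / θ) f (by positivity) hf
  have e : g ^ j * f ^ (m - j) = θ ^ j * ((g / θ) ^ j * f ^ (m - j)) := by
    rw [← mul_assoc, ← mul_pow, mul_div_cancel₀ _ hθ.ne']
  rw [e]
  exact mul_le_mul_of_nonneg_left h (by positivity)

theorem int_abs {M : Type} [MeasurableSpace M] (μ : Measure M) (m : ℕ) (hm : 2 ≤ m)
    (u v f g : M → ℝ) (c : ℝ) (hc : 0 ≤ c) (hu : Integrable u μ) (hv : Integrable v μ)
    (hf : ∀ p, 0 ≤ f p) (hg : ∀ p, 0 ≤ g p) (hF : Integrable (fun p => f p ^ m) μ)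
    (hG : Integrable (fun p => (g p / (513 / 1000)) ^ m) μ)
    (hGF : ∫ p, (g p / (513 / 1000)) ^ m ∂μ ≤ ∫ p, f p ^ m ∂μ)
    (h : ∀ p, |u p - v p| ≤ 9 / 10 * c *
      ∑ j ∈ Finset.range (m - 1), g p ^ (j + 2) * f p ^ (m - (j + 2))) :
    |∫ p, u p ∂μ - ∫ p, v p ∂μ| ≤ 1 / 2 * (c * ∫ p, f p ^ m ∂μ) := by
  have hm0 : (0 : ℝ) < m := by exact_mod_cast (by omega : 0 < m)
  set θ : ℝ := 513 / 1000 with hθ
  have hθ0 : 0 < θ := by rw [hθ]; norm_num
  set S1 : ℝ := ∑ j ∈ Finset.range (m - 1), θ ^ (j + 2) * (((j + 2 : ℕ) : ℝ) / m) with hS1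
  set S2 : ℝ := ∑ j ∈ Finset.range (m - 1), θ ^ (j + 2) * (1 - ((j + 2 : ℕ) : ℝ) / m) with hS2
  have hS1' : 0 ≤ S1 := Finset.sum_nonneg fun j _ => by positivity
  have hS : S1 + S2 ≤ 263169 / 487000 := by
    rw [hS1, hS2, ← Finset.sum_add_distrib]
    have e1 : ∀ j ∈ Finset.range (m - 1), θ ^ (j + 2) * (((j + 2 : ℕ) : ℝ) / m) +
        θ ^ (j + 2) * (1 - ((j + 2 : ℕ) : ℝ) / m) = θ ^ 2 * θ ^ j := fun j _ => by ring
    rw [Finset.sum_congr rfl e1, ← Finset.mul_sum]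
    have h1 := fins_geom θ hθ0.le le_rfl (m - 1)
    have h2 : θ ^ 2 * ∑ i ∈ Finset.range (m - 1), θ ^ i ≤ θ ^ 2 * (1000 / 487) :=
      mul_le_mul_of_nonneg_left h1 (by positivity)
    refine h2.trans (le_of_eq ?_)
    rw [hθ]; norm_num
  have hpt : ∀ p, |u p - v p| ≤ 9 / 10 * c * (S1 * (g p / θ) ^ m + S2 * f p ^ m) := by
    intro p
    refine (h p).trans (mul_le_mul_of_nonneg_left ?_ (by positivity))
    rw [hS1, hS2, Finset.sum_mul, Finset.sum_mul, ← Finset.sum_add_distrib]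
    refine Finset.sum_le_sum fun j hj => ?_
    have hj' := Finset.mem_range.1 hj
    have := int_term m (j + 2) (by omega) (by omega) θ (f p) (g p) hθ0 (hf p) (hg p)
    refine this.trans (le_of_eq ?_)
    ring
  have hA : 0 ≤ ∫ p, f p ^ m ∂μ := integral_nonneg fun p => pow_nonneg (hf p) m
  have hRint : Integrable (fun p => 9 / 10 * c * (S1 * (g p / θ) ^ m + S2 * f p ^ m)) μ :=
    ((hG.const_mul S1).add (hF.const_mul S2)).const_mul _
  rw [← integral_sub hu hv]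
  refine (abs_integral_le_integral_abs).trans ?_
  refine (integral_mono (hu.sub hv).abs hRint hpt).trans ?_
  rw [integral_const_mul, integral_add (hG.const_mul S1) (hF.const_mul S2), integral_const_mul,
    integral_const_mul]
  have h3 : S1 * ∫ p, (g p / θ) ^ m ∂μ ≤ S1 * ∫ p, f p ^ m ∂μ :=
    mul_le_mul_of_nonneg_left hGF hS1'
  have h4 : S1 * ∫ p, (g p / θ) ^ m ∂μ + S2 * ∫ p, f p ^ m ∂μ ≤
      263169 / 487000 * ∫ p, f p ^ m ∂μ := by
    have : (S1 + S2) * ∫ p, f p ^ m ∂μ ≤ 263169 / 487000 * ∫ p, f p ^ m ∂μ :=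
      mul_le_mul_of_nonneg_right hS hA
    linarith
  have h5 : 9 / 10 * c * (S1 * ∫ p, (g p / θ) ^ m ∂μ + S2 * ∫ p, f p ^ m ∂μ) ≤
      9 / 10 * c * (263169 / 487000 * ∫ p, f p ^ m ∂μ) :=
    mul_le_mul_of_nonneg_left h4 (by positivity)
  refine h5.trans ?_
  have h6 : 0 ≤ c * ∫ p, f p ^ m ∂μ := mul_nonneg hc hA
  nlinarith

/-- consequences for nonpositive mean -/
theorem int_sign {m : ℕ} {M : Type} [MeasurableSpace M] (μ : Measure M) (K : Geo m M)
    (hn : ∀ p, K.mean p ≤ 0)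
    (hI : Integrable (fun p => K.mean p ^ m) μ)
    (h : |∫ p, K.gbc p ∂μ - ∫ p, roundGB m (K.mean p) ∂μ| ≤
      1 / 2 * ∫ p, roundGB m |K.mean p| ∂μ) :
    1 / 2 * ∫ p, roundGB m |K.mean p| ∂μ ≤ (-1 : ℝ) ^ m * ∫ p, K.gbc p ∂μ ∧
      (-1 : ℝ) ^ m * ∫ p, K.gbc p ∂μ ≤ 3 / 2 * ∫ p, roundGB m |K.mean p| ∂μ ∧
      (μ {p | K.mean p < 0} ≠ 0 → 0 < (-1 : ℝ) ^ m * ∫ p, K.gbc p ∂μ) := by
  have h1 : ∀ p, (-1 : ℝ) ^ m * roundGB m (K.mean p) = roundGB m |K.mean p| := by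
    intro p
    unfold roundGB
    rw [abs_of_nonpos (hn p), neg_pow (K.mean p)]
    ring
  have h2 : (-1 : ℝ) ^ m * ∫ p, roundGB m (K.mean p) ∂μ = ∫ p, roundGB m |K.mean p| ∂μ := by
    rw [← integral_const_mul]
    exact integral_congr_ae (Filter.Eventually.of_forall h1)
  have h3 : |(-1 : ℝ) ^ m * ∫ p, K.gbc p ∂μ - ∫ p, roundGB m |K.mean p| ∂μ| ≤
      1 / 2 * ∫ p, roundGB m |K.mean p| ∂μ := by
    rw [← h2, ← mul_sub, abs_mul, abs_pow, abs_neg, abs_one, one_pow, one_mul, h2]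
    exact h
  have h4 := abs_le.1 h3
  have h5 : 1 / 2 * ∫ p, roundGB m |K.mean p| ∂μ ≤ (-1 : ℝ) ^ m * ∫ p, K.gbc p ∂μ := by
    linarith [h4.1]
  refine ⟨h5, by linarith [h4.2], fun hμ => lt_of_lt_of_le ?_ h5⟩
  have h6 : 0 < ∫ p, roundGB m |K.mean p| ∂μ := by
    have hint : Integrable (fun p => roundGB m |K.mean p|) μ := by
      have e : (fun p => roundGB m |K.mean p|) =
          fun p => (-1 : ℝ) ^ m * roundGB m 1 * (K.mean p) ^ m := by
        funext p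
        rw [← h1 p, roundGB_one m (K.mean p)]; ring
      rw [e]
      exact hI.const_mul _
    rw [integral_pos_iff_support_of_nonneg (fun p => roundGB_nonneg (abs_nonneg _)) hint]
    refine lt_of_lt_of_le (pos_iff_ne_zero.2 hμ) (measure_mono fun p hp => ?_)
    have h7 : K.mean p < 0 := hp
    exact (roundGB_pos (m := m) (abs_pos.2 h7.ne)).ne'
  linarith

theorem abs_pow_int {m : ℕ} {M : Type} [MeasurableSpace M] {μ : Measure M} {f : M → ℝ}
    (hI : Integrable (fun p => f p ^ m) μ) : Integrable (fun p => |f p| ^ m) μ := by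
  have : (fun p => |f p| ^ m) = fun p => |f p ^ m| := by funext p; rw [abs_pow]
  rw [this]; exact hI.abs

theorem Geo.int_L2 {m : ℕ} {M : Type} (hm : 2 ≤ m) (K : Geo m M) [MeasurableSpace M]
    (μ : Measure M) (hint : Integrable K.gbc μ) (hI : Integrable (fun p => K.mean p ^ m) μ)
    (hD : Integrable (fun p => Real.sqrt (K.dev p) ^ m) μ)
    (hp : ∫ p, (550 * Real.sqrt (K.dev p)) ^ m ∂μ ≤ ∫ p, (m * |K.mean p|) ^ m ∂μ) :
    |∫ p, K.gbc p ∂μ - ∫ p, roundGB m (K.mean p) ∂μ| ≤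
      1 / 2 * ∫ p, roundGB m |K.mean p| ∂μ := by
  have hm0 : (0 : ℝ) < m := by exact_mod_cast (by omega : 0 < m)
  have hc : 0 ≤ roundGB m 1 := roundGB_nonneg one_pos.le
  have hv : Integrable (fun p => roundGB m (K.mean p)) μ := by
    have e : (fun p => roundGB m (K.mean p)) = fun p => roundGB m 1 * K.mean p ^ m := by
      funext p; exact roundGB_one m _
    rw [e]; exact hI.const_mul _
  have hr : ∫ p, roundGB m |K.mean p| ∂μ = roundGB m 1 * ∫ p, |K.mean p| ^ m ∂μ := by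
    rw [← integral_const_mul]
    exact integral_congr_ae (Filter.Eventually.of_forall fun p => roundGB_one m _)
  rw [hr]
  have hG : ∀ p, (555 * Real.sqrt (K.dev p) / (2 * m)) / (513 / 1000) =
      (555000 / 1026 / m) * Real.sqrt (K.dev p) := by
    intro p; field_simp; ring
  have hGi : Integrable (fun p => ((555 * Real.sqrt (K.dev p) / (2 * m)) / (513 / 1000)) ^ m) μ := by
    have e : (fun p => ((555 * Real.sqrt (K.dev p) / (2 * m)) / (513 / 1000)) ^ m) =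
        fun p => (555000 / 1026 / (m:ℝ)) ^ m * Real.sqrt (K.dev p) ^ m := by
      funext p; rw [hG, mul_pow]
    rw [e]; exact hD.const_mul _
  refine int_abs μ m hm K.gbc (fun p => roundGB m (K.mean p)) (fun p => |K.mean p|)
    (fun p => 555 * Real.sqrt (K.dev p) / (2 * m)) (roundGB m 1) hc hint hv
    (fun p => abs_nonneg _) (fun p => by positivity) (abs_pow_int hI) hGi ?_
    (fun p => K.cf.L2all hm p)
  have h1 : ∫ p, (m * |K.mean p|) ^ m ∂μ = (m:ℝ) ^ m * ∫ p, |K.mean p| ^ m ∂μ := by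
    rw [← integral_const_mul]; simp only [mul_pow]
  have h2 : ∫ p, (550 * Real.sqrt (K.dev p)) ^ m ∂μ =
      (550:ℝ) ^ m * ∫ p, Real.sqrt (K.dev p) ^ m ∂μ := by
    rw [← integral_const_mul]; simp only [mul_pow]
  have h3 : ∫ p, ((555 * Real.sqrt (K.dev p) / (2 * m)) / (513 / 1000)) ^ m ∂μ =
      (555000 / 1026 / (m:ℝ)) ^ m * ∫ p, Real.sqrt (K.dev p) ^ m ∂μ := by
    rw [← integral_const_mul]
    refine integral_congr_ae (Filter.Eventually.of_forall fun p => ?_)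
    simp only [hG, mul_pow]
  rw [h1, h2] at hp
  rw [h3]
  have h4 : 0 ≤ ∫ p, Real.sqrt (K.dev p) ^ m ∂μ := integral_nonneg fun p => by positivity
  have h5 : (555000 / 1026 / (m:ℝ)) ^ m ≤ (550:ℝ) ^ m / (m:ℝ) ^ m := by
    rw [← div_pow]
    refine pow_le_pow_left₀ (by positivity) ?_ m
    apply div_le_div_of_nonneg_right _ hm0.le
    norm_num
  have h6 := mul_le_mul_of_nonneg_right h5 h4
  refine h6.trans ?_
  rw [div_mul_eq_mul_div, div_le_iff₀ (by positivity)]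
  linarith

theorem Geo.int_sec {m : ℕ} {M : Type} (hm : 2 ≤ m) (K : Geo m M) [MeasurableSpace M]
    (μ : Measure M) (ε : M → ℝ) (hε : ∀ p, 0 ≤ ε p) (hs : ∀ p, K.SecNear p (K.mean p) (ε p))
    (hint : Integrable K.gbc μ) (hI : Integrable (fun p => K.mean p ^ m) μ)
    (hD : Integrable (fun p => ε p ^ m) μ)
    (hp : ∫ p, (50 * Real.sqrt m * ε p) ^ m ∂μ ≤ ∫ p, |K.mean p| ^ m ∂μ) :
    |∫ p, K.gbc p ∂μ - ∫ p, roundGB m (K.mean p) ∂μ| ≤
      1 / 2 * ∫ p, roundGB m |K.mean p| ∂μ := by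
  have hm0 : (0 : ℝ) < m := by exact_mod_cast (by omega : 0 < m)
  have hc : 0 ≤ roundGB m 1 := roundGB_nonneg one_pos.le
  have hv : Integrable (fun p => roundGB m (K.mean p)) μ := by
    have e : (fun p => roundGB m (K.mean p)) = fun p => roundGB m 1 * K.mean p ^ m := by
      funext p; exact roundGB_one m _
    rw [e]; exact hI.const_mul _
  have hr : ∫ p, roundGB m |K.mean p| ∂μ = roundGB m 1 * ∫ p, |K.mean p| ^ m ∂μ := by
    rw [← integral_const_mul]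
    exact integral_congr_ae (Filter.Eventually.of_forall fun p => roundGB_one m _)
  rw [hr]
  have hG : ∀ p, (18 * Real.sqrt (2 * m) * ε p) / (513 / 1000) =
      (18000 / 513 * Real.sqrt (2 * m)) * ε p := by
    intro p; ring
  have hGi : Integrable (fun p => ((18 * Real.sqrt (2 * m) * ε p) / (513 / 1000)) ^ m) μ := by
    have e : (fun p => ((18 * Real.sqrt (2 * m) * ε p) / (513 / 1000)) ^ m) =
        fun p => (18000 / 513 * Real.sqrt (2 * m)) ^ m * ε p ^ m := by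
      funext p; rw [hG, mul_pow]
    rw [e]; exact hD.const_mul _
  refine int_abs μ m hm K.gbc (fun p => roundGB m (K.mean p)) (fun p => |K.mean p|)
    (fun p => 18 * Real.sqrt (2 * m) * ε p) (roundGB m 1) hc hint hv
    (fun p => abs_nonneg _) (fun p => by have := hε p; positivity) (abs_pow_int hI) hGi ?_
    (fun p => K.cf.secall hm p (ε p) (hε p) (hs p))
  have h2 : ∫ p, (50 * Real.sqrt m * ε p) ^ m ∂μ =
      (50 * Real.sqrt m) ^ m * ∫ p, ε p ^ m ∂μ := by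
    rw [← integral_const_mul]; simp only [mul_pow]
  have h3 : ∫ p, ((18 * Real.sqrt (2 * m) * ε p) / (513 / 1000)) ^ m ∂μ =
      (18000 / 513 * Real.sqrt (2 * m)) ^ m * ∫ p, ε p ^ m ∂μ := by
    rw [← integral_const_mul]
    refine integral_congr_ae (Filter.Eventually.of_forall fun p => ?_)
    simp only [hG, mul_pow]
  rw [h2] at hp
  rw [h3]
  have h4 : 0 ≤ ∫ p, ε p ^ m ∂μ := integral_nonneg fun p => pow_nonneg (hε p) m
  have h5 : (18000 / 513 * Real.sqrt (2 * m)) ^ m ≤ (50 * Real.sqrt m) ^ m := by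
    refine pow_le_pow_left₀ (by positivity) ?_ m
    rw [Real.sqrt_mul (by norm_num : (0:ℝ) ≤ 2)]
    have hs2 : Real.sqrt 2 ≤ (14143:ℝ) / 10000 := by
      rw [Real.sqrt_le_iff]; norm_num
    have := Real.sqrt_nonneg (m:ℝ)
    nlinarith
  exact (mul_le_mul_of_nonneg_right h5 h4).trans hp

end Pool.Agent.H933R2.HopfN
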