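import Pool.Agent.H933R2.HopfN.Defs

set_option autoImplicit false
set_option linter.all false

/-!
Statements of the tasks of project HopfN, as propositions `St_...`.
A task delivers `theorem X_main : St_X` (or `(h : St_Y) : St_X`, see the note of the task).
-/

namespace Pool.Agent.H933R2.HopfN

/-- CONTR: contraction of one position -/
def St_contr : Prop := ∀ (ι Q : Type) [Fintype ι] [DecidableEq ι] [Fintype Q] [DecidableEq Q]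
    (h : (Q → ι) → (Q → ι) → ℝ),
    (∑ f : Option Q → ι, ∑ τ : Equiv.Perm (Option Q), sg τ *
      (kd (f none) (f (τ none)) * h (fun q => f (some q)) (fun q => f (τ (some q))))) =
    ((Fintype.card ι : ℝ) - (Fintype.card Q : ℝ)) *
      ∑ f : Q → ι, ∑ τ : Equiv.Perm Q, sg τ * h f (fun q => f (τ q))

/-- EXPAND -/
def St_expand : Prop := ∀ (m : ℕ) (ι : Type) [Fintype ι] [DecidableEq ι],
    Fintype.card ι = 2 * m → ∀ (k : ℝ) (E : T4 ι),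
    GG m (fun a b c d => k * Id4 a b c d + E a b c d) =
      ∑ j ∈ Finset.range (m + 1), (m.choose j : ℝ) * (2 * k) ^ (m - j) *
        ((2 * m - 2 * j).factorial : ℝ) * GG j E

/-- INV: invariance under orthogonal matrices -/
def St_inv : Prop := ∀ (ι : Type) [Fintype ι] [DecidableEq ι] (j : ℕ) (O : Matrix ι ι ℝ),
    Orth O → ∀ R : T4 ι, GG j (act4 O R) = GG j R

/-- EMB: the full contraction is a sum over embeddings; and in top degree it is `gb` -/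
def St_emb : Prop := (∀ (ι : Type) [Fintype ι] [DecidableEq ι] (j : ℕ) (R : T4 ι),
    ((2 * j).factorial : ℝ) * GG j R = ∑ f : Pos j ↪ ι, gb j (res4 f R)) ∧
    (∀ (j : ℕ) (T : T4 (Pos j)), GG j T = gb j T)

/-- SPEC: spectral decomposition -/
def St_spec : Prop := ∀ (P : Type) [Fintype P] [DecidableEq P] (T : T4 P),
    (∀ a b c d, T b a c d = - T a b c d) → (∀ a b c d, T c d a b = T a b c d) →
    ∃ (lam : P × P → ℝ) (v : P × P → P → P → ℝ),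
      (∀ a b c d, T a b c d = ∑ κ, lam κ * v κ a b * v κ c d) ∧
      (∑ κ, lam κ ^ 2 = hs4 T) ∧ (∀ κ a b, v κ b a = - v κ a b) ∧
      (∀ x : P × P → ℂ, ∑ a, ∑ b, ‖∑ κ, x κ * (v κ a b : ℂ)‖ ^ 2 ≤ ∑ κ, ‖x κ‖ ^ 2)

/-- SQ: expansion of `gb` in squares of polarised Pfaffians -/
def St_sq : Prop := ∀ (j : ℕ) (K : Type) [Fintype K] (lam : K → ℝ) (v : K → Pos j → Pos j → ℝ),
    |gb j (fun a b c d => ∑ κ, lam κ * v κ a b * v κ c d)| ≤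
      ∑ α : Fin j → K, (∏ i, |lam (α i)|) * pp j v α ^ 2

/-- PF: the square of the Pfaffian sum is a multiple of the determinant -/
def St_pf : Prop := ∀ (j : ℕ) (X : Pos j → Pos j → ℂ), (∀ a b, X b a = - X a b) →
    (∑ σ : Equiv.Perm (Pos j), ((Equiv.Perm.sign σ : ℤ) : ℂ) *
      ∏ i : Fin j, X (σ (i, 0)) (σ (i, 1))) ^ 2 =
    ((2 : ℂ) ^ j * (j.factorial : ℂ)) ^ 2 * Matrix.det (Matrix.of X)

/-- HAD: AM-GM bound of the determinant -/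
def St_had : Prop := ∀ (P : Type) [Fintype P] [DecidableEq P] (X : Matrix P P ℂ),
    ‖X.det‖ ^ 2 ≤ ((∑ a, ∑ b, ‖X a b‖ ^ 2) / (Fintype.card P : ℝ)) ^ (Fintype.card P)

/-- WORDS: number of words with given letter frequencies -/
def St_words : Prop := ∀ (K : Type) [Fintype K] [DecidableEq K] (j : ℕ) (k : K → ℕ),
    ∑ κ, k κ = j →
    (Finset.univ.filter (fun α : Fin j → K => ∀ κ, cnt α κ = k κ)).card *
      ∏ κ, (k κ).factorial = j.factorial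

/-- COEF: bound of the coefficients of a homogeneous polynomial on complex space -/
def St_coef : Prop := ∀ (K : Type) [Fintype K] [DecidableEq K] (j : ℕ) (c : (Fin j → K) → ℝ)
    (M : ℝ), 0 ≤ M → (∀ (π : Equiv.Perm (Fin j)) (α : Fin j → K), c (α ∘ π) = c α) →
    (∀ x : K → ℂ, ‖∑ α : Fin j → K, (c α : ℂ) * ∏ i, x (α i)‖ ^ 2 ≤
      (M * ∑ κ, ‖x κ‖ ^ 2) ^ j) →
    ∀ α : Fin j → K, c α ^ 2 * (j.factorial : ℝ) ≤
      (Real.exp 1 * M) ^ j * ∏ κ, ((cnt α κ).factorial : ℝ)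

/-- HSUM: weighted sum over words -/
def St_hsum : Prop := ∀ (K : Type) [Fintype K] [DecidableEq K] (j : ℕ), 1 ≤ j →
    Fintype.card K ≤ 4 * j ^ 2 → ∀ lam : K → ℝ, (∀ κ, 0 ≤ lam κ) →
    ∑ α : Fin j → K, (∏ κ, ((cnt α κ).factorial : ℝ)) * ∏ i, lam (α i) ≤
      (j.factorial : ℝ) * (2 * Real.exp 2 * Real.sqrt (∑ κ, lam κ ^ 2)) ^ j

/-- TOP: bound of the Gauss-Bonnet sum by the Hilbert-Schmidt norm, in top degree -/
def St_top : Prop := ∀ (j : ℕ), 1 ≤ j → ∀ (T : T4 (Pos j)), IsCurv T →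
    |gb j T| * (j : ℝ) ^ j ≤ 4 ^ j * (j.factorial : ℝ) ^ 2 * (21 * Real.sqrt (hs4 T)) ^ j

/-- INVT: behaviour under orthogonal matrices -/
structure InvT (ι : Type) [Fintype ι] [DecidableEq ι] : Prop where
  curv : ∀ (O : Matrix ι ι ℝ), Orth O → ∀ R : T4 ι, IsCurv R → IsCurv (act4 O R)
  ric : ∀ (O : Matrix ι ι ℝ), Orth O → ∀ R : T4 ι, Ric (act4 O R) = act2 O (Ric R)
  n4 : ∀ (O : Matrix ι ι ℝ), Orth O → ∀ R : T4 ι, hs4 (act4 O R) = hs4 R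
  n2 : ∀ (O : Matrix ι ι ℝ), Orth O → ∀ A : T2 ι, hs2 (act2 O A) = hs2 A
  sym : ∀ (O : Matrix ι ι ℝ), Orth O → ∀ A : T2 ι, IsSym A → IsSym (act2 O A)
  tr : ∀ (O : Matrix ι ι ℝ), Orth O → ∀ A : T2 ι, tr2 (act2 O A) = tr2 A
  knn : ∀ (O : Matrix ι ι ℝ), Orth O → ∀ A : T2 ι, act4 O (kn A) = kn (act2 O A)
  add4 : ∀ (O : Matrix ι ι ℝ) (R T : T4 ι), act4 O (R + T) = act4 O R + act4 O T
  comp4 : ∀ (O O' : Matrix ι ι ℝ) (R : T4 ι), act4 O' (act4 O R) = act4 (O' * O) R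
  comp2 : ∀ (O O' : Matrix ι ι ℝ) (A : T2 ι), act2 O' (act2 O A) = act2 (O' * O) A
  one4 : ∀ (R : T4 ι), act4 1 R = R
  one2 : ∀ (A : T2 ι), act2 1 A = A
  mul : ∀ (O O' : Matrix ι ι ℝ), Orth O → Orth O' → Orth (O' * O)
def St_invt : Prop := ∀ (ι : Type) [Fintype ι] [DecidableEq ι], InvT ι

/-- LAP4 -/
def St_lap4 : Prop := ∀ (ι : Type) [Fintype ι] [DecidableEq ι] (w : ι → ℝ),
    (∀ a, 0 ≤ w a) → (∀ a, w a ≤ 1) → ∀ W : T4 ι, IsCurv W → (∀ a b, Ric W a b = 0) →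
    ∑ i, ∑ l, (ip4 w W (D4 i l (D4 i l W)) + Q4 w (D4 i l W)) ≤
      -(8 * (Fintype.card ι : ℝ)) * Q4 w W + (8 * (∑ a, w a) + 16) * s4 w W

/-- LAP2 -/
def St_lap2 : Prop := ∀ (ι : Type) [Fintype ι] [DecidableEq ι] (w : ι → ℝ),
    (∀ a, 0 ≤ w a) → (∀ a, w a ≤ 1) → ∀ A : T2 ι, IsSym A → tr2 A = 0 →
    ∑ i, ∑ l, (ip2 w A (D2 i l (D2 i l A)) + Q2 w (D2 i l A)) ≤
      -(4 * (Fintype.card ι : ℝ)) * Q2 w A + (4 * (∑ a, w a) + 4) * s2 w A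

/-- GRD: the gradient -/
def St_grd : Prop := ∀ (ι : Type) [Fintype ι] [DecidableEq ι] (S : Finset ι) (θ κ : ℝ),
    0 < θ → θ ≤ 1 → 0 ≤ κ → ∀ (W : T4 ι) (A : T2 ι), IsCurv W → IsSym A →
    ∑ i, ∑ l, QQ1 (wt θ S) κ W A i l ^ 2 ≤ 32 / θ * QQ (wt θ S) κ W A ^ 2

/-- ALG: the pointwise differential inequality -/
def St_alg : Prop := ∀ (ι : Type) [Fintype ι] [DecidableEq ι] (j : ℕ), 1 ≤ j →
    32 * j ≤ Fintype.card ι → ∀ (S : Finset ι), S.card = 2 * j → ∀ (W : T4 ι) (A : T2 ι),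
    IsCurv W → (∀ a b, Ric W a b = 0) → IsSym A → tr2 A = 0 →
    ∀ (n θ κ : ℝ), n = Fintype.card ι → θ = 32 * j / n → κ = 16 * j →
    (1 / 2) * ∑ i, ∑ l, QQ2 (wt θ S) κ W A i l ≤
      - n * QQ (wt θ S) κ W A + 2 * n * θ ^ 4 * (hs4 W + n ^ 2 * hs2 A)

/-- MIN: existence of an optimal frame -/
def St_min : Prop := ∀ (ι F : Type) [Fintype ι] [DecidableEq ι] [Fintype F] (S : F → Finset ι)
    (θ κ : ℝ) (q : ℕ) (W : T4 ι) (A : T2 ι), ∃ O : Matrix ι ι ℝ, Orth O ∧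
    ∀ O' : Matrix ι ι ℝ, Orth O' →
      Psi S θ κ q (act4 O W) (act2 O A) ≤ Psi S θ κ q (act4 O' W) (act2 O' A)

/-- VAR: second variation at an optimal frame -/
def St_var : Prop := ∀ (ι F : Type) [Fintype ι] [DecidableEq ι] [Fintype F] (S : F → Finset ι)
    (θ κ : ℝ) (q : ℕ), 1 ≤ q → ∀ (W : T4 ι) (A : T2 ι),
    (∀ O : Matrix ι ι ℝ, Orth O → Psi S θ κ q W A ≤ Psi S θ κ q (act4 O W) (act2 O A)) →
    ∀ i l : ι, 0 ≤ ∑ f : F, ((q : ℝ) * QQ (wt θ (S f)) κ W A ^ (q - 1) *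
        QQ2 (wt θ (S f)) κ W A i l +
      (q : ℝ) * ((q : ℝ) - 1) * QQ (wt θ (S f)) κ W A ^ (q - 2) *
        QQ1 (wt θ (S f)) κ W A i l ^ 2)

/-- HOLD: the Hoelder step -/
def St_hold : Prop := ∀ (F : Type) [Fintype F] (Q : F → ℝ) (B : ℝ) (q : ℕ), 1 ≤ q → 0 ≤ B →
    (∀ f, 0 ≤ Q f) → ∑ f, Q f ^ q ≤ B * ∑ f, Q f ^ (q - 1) →
    ∑ f, Q f ^ q ≤ (Fintype.card F : ℝ) * B ^ q

/-- MOM: a frame in which all restrictions are small on average -/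
def St_mom : Prop := ∀ (ι F : Type) [Fintype ι] [DecidableEq ι] [Fintype F] (j : ℕ), 1 ≤ j →
    32 * j ≤ Fintype.card ι → ∀ (S : F → Finset ι), (∀ f, (S f).card = 2 * j) →
    ∀ (W : T4 ι) (A : T2 ι), IsCurv W → (∀ a b, Ric W a b = 0) → IsSym A → tr2 A = 0 →
    ∀ (n θ κ : ℝ), n = Fintype.card ι → θ = 32 * j / n → κ = 16 * j →
    ∃ O : Matrix ι ι ℝ, Orth O ∧
      ∑ f, QQ (wt θ (S f)) κ (act4 O W) (act2 O A) ^ j ≤
        (Fintype.card F : ℝ) * (4 * θ ^ 4 * (hs4 W + n ^ 2 * hs2 A)) ^ j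

/-- KNB: norm of the Kulkarni-Nomizu product -/
def St_knb : Prop := ∀ (ι : Type) [Fintype ι] [DecidableEq ι] (B : T2 ι),
    hs4 (kn B) ≤ 8 * (Fintype.card ι : ℝ) * hs2 B

/-- RES: norm of a restriction -/
def St_res : Prop := ∀ (ι : Type) [Fintype ι] [DecidableEq ι] (j : ℕ) (f : Pos j ↪ ι) (θ : ℝ),
    0 ≤ θ → ∀ (W : T4 ι) (A : T2 ι),
    hs4 (res4 f (W + kn A)) ≤
      2 * QQ (wt θ (Finset.univ.map f)) (16 * j) W A

/-- DEC: decomposition of a tensor with vanishing scalar curvature -/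
def St_dec : Prop := ∀ (ι : Type) [Fintype ι] [DecidableEq ι], 4 ≤ Fintype.card ι →
    ∀ E : T4 ι, IsCurv E → tr2 (Ric E) = 0 → ∃ (W : T4 ι) (A : T2 ι),
      IsCurv W ∧ (∀ a b, Ric W a b = 0) ∧ IsSym A ∧ tr2 A = 0 ∧ E = W + kn A ∧
      hs4 W + (Fintype.card ι : ℝ) ^ 2 * hs2 A ≤ 2 * hs4 E + 20 * hs2 (Ric E) ∧
      hs4 E ≤ 4 * (hs4 W + (Fintype.card ι : ℝ) ^ 2 * hs2 A)

/-- SEC: from sectional curvature to Hilbert-Schmidt norms -/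
def St_sec : Prop := ∀ (ι : Type) [Fintype ι] [DecidableEq ι] (E : T4 ι) (s : ℝ), 0 ≤ s →
    IsCurv E → (∀ x y : ι → ℝ, |∑ a, ∑ b, ∑ c, ∑ d, E a b c d * x a * y b * x c * y d| ≤
      s * (∑ a, x a ^ 2) * (∑ a, y a ^ 2)) →
    hs4 E ≤ (16 / 9) * (Fintype.card ι : ℝ) ^ 3 * s ^ 2 ∧
    hs2 (Ric E) ≤ (Fintype.card ι : ℝ) ^ 3 * s ^ 2

/-- TERM: bound of one term of the expansion -/
def St_term : Prop := ∀ (m : ℕ), 2 ≤ m → ∀ (ι : Type) [Fintype ι] [DecidableEq ι],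
    Fintype.card ι = 2 * m → ∀ E : T4 ι, IsCurv E → tr2 (Ric E) = 0 →
    ∀ X : ℝ, X = hs4 E + hs2 (Ric E) → ∀ (k : ℝ), 0 < k → ∀ j : ℕ, 1 ≤ j → j ≤ m →
    (m.choose j : ℝ) * (2 * k) ^ (m - j) * ((2 * m - 2 * j).factorial : ℝ) * |GG j E| ≤
      (64512 * Real.sqrt (20 * X) / (2 * m * k)) ^ j * ((2 * k) ^ m * ((2 * m).factorial : ℝ))

/-- FIN: the main theorem in components -/
def St_fin : Prop := ∀ (m : ℕ), 2 ≤ m → ∀ (ι : Type) [Fintype ι] [DecidableEq ι],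
    Fintype.card ι = 2 * m → ∀ E : T4 ι, IsCurv E → tr2 (Ric E) = 0 → ∀ (k : ℝ), k ≠ 0 →
    10 ^ 12 * (hs4 E + hs2 (Ric E)) ≤ (2 * m * k) ^ 2 →
    |GG m (fun a b c d => k * Id4 a b c d + E a b c d) - (2 * k) ^ m * ((2 * m).factorial : ℝ)| ≤
      2 * 10 ^ 11 * (hs4 E + hs2 (Ric E)) / (2 * m * k) ^ 2 *
        (|2 * k| ^ m * ((2 * m).factorial : ℝ))

end Pool.Agent.H933R2.HopfN
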